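import Pool.Agent.ThU.Defs

/-! # Module SeedB -/

namespace ThU
open Matrix Polynomial Module

variable {K : Type*} [Field K] {n : ℕ} {f : K[X]}

/-- multiplication by a root of `f` in terms of the powers -/
theorem SeedB_mul {A : Type*} [Ring A] [Algebra K A] (hm : f.Monic) (hn : f.natDegree = n) {x : A}
    (hx : aeval x f = 0) (j : Fin n) : x * x ^ (j : ℕ) = ∑ i : Fin n, comp f n i j • x ^ (i : ℕ) := by
  rw [← pow_succ']
  by_cases h : (j : ℕ) + 1 = n
  · have h1 : ∀ i : Fin n, comp f n i j = - f.coeff i := fun i => by simp [comp, h]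
    simp only [h1, neg_smul, Finset.sum_neg_distrib]
    rw [aeval_eq_sum_range, hn, Finset.sum_range_succ] at hx
    have h2 : f.coeff n = 1 := by rw [← hn]; exact hm
    rw [h2, one_smul, Finset.sum_range] at hx
    rw [h]
    exact eq_neg_of_add_eq_zero_right hx
  · have hj := j.2
    have h1 : ∀ i : Fin n, comp f n i j = if i = ⟨(j : ℕ) + 1, by omega⟩ then 1 else 0 := by
      intro i
      simp only [comp, Matrix.of_apply, if_neg h, Fin.ext_iff]
    simp only [h1, ite_smul, one_smul, zero_smul]
    rw [Finset.sum_ite_eq' Finset.univ]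
    simp

/-- The matrix of the multiplication by `β` in the basis `1, β, …, β^(n-1)` of `E` is `comp f n`; `Algebra.leftMulMatrix`
is an algebra homomorphism and its determinant is the norm. -/
theorem comp_mul {E : Type*} [Field E] [Algebra K E] (hm : f.Monic) (hi : Irreducible f)
    (hn : f.natDegree = n) (hE : finrank K E = n) (h0 : 0 < n) {β : E} (hβ : aeval β f = 0) :
    ∃ b : Basis (Fin n) K E, (∀ i, b i = β ^ (i : ℕ)) ∧ Algebra.leftMulMatrix b β = comp f n ∧
      (∀ p : K[X], Algebra.leftMulMatrix b (aeval β p) = aeval (comp f n) p) ∧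
      (∀ p : K[X], (aeval (comp f n) p).det = Algebra.norm K (aeval β p)) ∧
      ∀ e : E, ∃ p : K[X], aeval β p = e := by
  have hmin : f = minpoly K β := minpoly.eq_of_irreducible_of_monic hi hβ hm
  have hdeg : (minpoly K β).natDegree = n := by rw [← hmin]; exact hn
  have hlin : LinearIndependent K (fun i : Fin n => β ^ (i : ℕ)) := by
    have h1 := linearIndependent_pow (K := K) β
    rw [hdeg] at h1
    exact h1
  have : NeZero n := ⟨h0.ne'⟩
  have : Nonempty (Fin n) := ⟨⟨0, h0⟩⟩
  have hcard : Fintype.card (Fin n) = finrank K E := by rw [Fintype.card_fin, hE]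
  obtain ⟨b, hb⟩ : ∃ b : Basis (Fin n) K E, ∀ i, b i = β ^ (i : ℕ) :=
    ⟨basisOfLinearIndependentOfCardEqFinrank hlin hcard, fun i => by simp⟩
  have hmat : Algebra.leftMulMatrix b β = comp f n := by
    ext i j
    rw [Algebra.leftMulMatrix_eq_repr_mul, hb, SeedB_mul hm hn hβ j]
    have h1 : ∑ i : Fin n, comp f n i j • β ^ (i : ℕ) = ∑ i : Fin n, comp f n i j • b i :=
      Finset.sum_congr rfl fun i _ => by rw [hb]
    rw [h1, b.repr_sum_self]
  have hp : ∀ p : K[X], Algebra.leftMulMatrix b (aeval β p) = aeval (comp f n) p := by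
    intro p
    rw [← hmat, aeval_algHom_apply]
  refine ⟨b, hb, hmat, hp, ?_, ?_⟩
  · intro p
    rw [← hp, Algebra.norm_eq_matrix_det b]
  · intro e
    refine ⟨∑ i : Fin n, C (b.repr e i) * X ^ (i : ℕ), ?_⟩
    rw [map_sum]
    conv_rhs => rw [← b.sum_repr e]
    refine Finset.sum_congr rfl fun i _ => ?_
    rw [map_mul, map_pow, aeval_X, aeval_C, hb, Algebra.smul_def]

/-- a matrix which is a root of `f` is similar to the companion matrix -/
theorem SeedB_sim (hm : f.Monic) (hi : Irreducible f) (hn : f.natDegree = n) (h0 : 0 < n)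
    {M : Matrix (Fin n) (Fin n) K} (hM : aeval M f = 0) :
    ∃ P : Matrix (Fin n) (Fin n) K, IsUnit P.det ∧ M * P = P * comp f n := by
  classical
  set v : Fin n → K := Pi.single ⟨0, h0⟩ 1 with hv
  have hv0 : v ≠ 0 := by
    intro h
    have := congrFun h ⟨0, h0⟩
    simp [hv] at this
  refine ⟨Matrix.of fun i j => ((M ^ (j : ℕ)) *ᵥ v) i, ?_, ?_⟩
  · rw [isUnit_iff_ne_zero]
    intro hdet
    obtain ⟨c, hc0, hc⟩ := Matrix.exists_mulVec_eq_zero_iff.2 hdet
    set p : K[X] := ∑ j : Fin n, C (c j) * X ^ (j : ℕ) with hp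
    have hpv : (aeval M p) *ᵥ v = 0 := by
      rw [← hc, hp, map_sum]
      ext i
      rw [Matrix.sum_mulVec, Finset.sum_apply]
      simp only [Matrix.mulVec, dotProduct, Matrix.of_apply]
      refine Finset.sum_congr rfl fun j _ => ?_
      rw [map_mul, map_pow, aeval_X, aeval_C, Algebra.algebraMap_eq_smul_one, smul_mul_assoc,
        one_mul, Finset.sum_mul]
      refine Finset.sum_congr rfl fun l _ => ?_
      rw [Matrix.smul_apply, smul_eq_mul]
      ring
    have hcoef : ∀ j : Fin n, p.coeff j = c j := by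
      intro j
      rw [hp, finsetSum_coeff]
      simp only [coeff_C_mul, coeff_X_pow]
      rw [Finset.sum_eq_single j]
      · simp
      · intro i _ hij
        rw [if_neg, mul_zero]
        intro h
        exact hij (Fin.ext h.symm)
      · intro h
        exact absurd (Finset.mem_univ _) h
    have hp0 : p ≠ 0 := by
      intro h
      apply hc0
      ext j
      rw [← hcoef j, h]
      simp
    have hdeg : p.natDegree < n := by
      rw [hp]
      refine lt_of_le_of_lt (natDegree_sum_le_of_forall_le (n := n - 1) _ _ ?_) (by omega)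
      intro j _
      refine (natDegree_C_mul_X_pow_le _ _).trans ?_
      have := j.2
      omega
    have hcop : IsCoprime f p := by
      rcases EuclideanDomain.dvd_or_coprime f p hi with h | h
      · exfalso
        have := natDegree_le_of_dvd h hp0
        omega
      · exact h
    obtain ⟨a, b, hab⟩ := hcop
    apply hv0
    have h1 : (aeval M (a * f + b * p)) *ᵥ v = v := by
      rw [hab, map_one, Matrix.one_mulVec]
    rw [← h1, map_add, map_mul, map_mul, hM, mul_zero, zero_add, ← Matrix.mulVec_mulVec, hpv,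
      Matrix.mulVec_zero]
  · ext i j
    have h1 := SeedB_mul hm hn hM j
    have h2 : (M * Matrix.of fun i j : Fin n => ((M ^ (j : ℕ)) *ᵥ v) i) i j =
        ((M * M ^ (j : ℕ)) *ᵥ v) i := by
      rw [← Matrix.mulVec_mulVec]
      rfl
    rw [h2, h1, Matrix.sum_mulVec, Finset.sum_apply, Matrix.mul_apply]
    refine Finset.sum_congr rfl fun l _ => ?_
    rw [Matrix.smul_mulVec, Pi.smul_apply, smul_eq_mul, Matrix.of_apply]
    ring

/-- two matrices which are roots of the same irreducible polynomial of degree `n` are similar: for `v ≠ 0` the vectors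
`M^i v` (`i < n`) are a basis, in which `M` acts as the companion matrix -/
theorem sim_irr (hm : f.Monic) (hi : Irreducible f) (hn : f.natDegree = n) (h0 : 0 < n)
    {M N : Matrix (Fin n) (Fin n) K} (hM : aeval M f = 0) (hN : aeval N f = 0) :
    ∃ k : Matrix (Fin n) (Fin n) K, IsUnit k.det ∧ k * M = N * k := by
  obtain ⟨P, hP, hMP⟩ := SeedB_sim hm hi hn h0 hM
  obtain ⟨Q, hQ, hNQ⟩ := SeedB_sim hm hi hn h0 hN
  refine ⟨Q * P⁻¹, ?_, ?_⟩
  · rw [Matrix.det_mul]
    exact hQ.mul (Matrix.isUnit_nonsing_inv_det _ hP)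
  · have h1 : P⁻¹ * M = comp f n * P⁻¹ := by
      calc P⁻¹ * M = P⁻¹ * (M * P) * P⁻¹ := by
            rw [Matrix.mul_assoc, Matrix.mul_assoc M, Matrix.mul_nonsing_inv _ hP, Matrix.mul_one]
        _ = comp f n * P⁻¹ := by
            rw [hMP, ← Matrix.mul_assoc P⁻¹, Matrix.nonsing_inv_mul _ hP, Matrix.one_mul]
    rw [Matrix.mul_assoc, h1, ← Matrix.mul_assoc, ← hNQ, Matrix.mul_assoc]

end ThU
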