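import Pool.Agent.ThU.Defs

/-! # Module Deco -/

namespace ThU
open Matrix Polynomial Module

variable {K : Type*} [Field K]

theorem Deco_restr {W : Type*} [AddCommGroup W] [Module K W] (φ : W →ₗ[K] W) (N : Submodule K W)
    (h : ∀ x ∈ N, φ x ∈ N) (L : List K) (x : N) :
    (((L.map fun d => φ.restrict h - algebraMap K (End K N) d).prod x : N) : W) =
      (L.map fun d => φ - algebraMap K (End K W) d).prod (x : W) := by
  induction L generalizing x with
  | nil => simp
  | cons d L ih =>
    rw [List.map_cons, List.prod_cons, List.map_cons, List.prod_cons, Module.End.mul_apply,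
      Module.End.mul_apply, ← ih]
    rfl

/-- a linear endomorphism of `W` annihilated by a product of linear factors is triangular in a suitable basis
(induction on the dimension: if all `φ - d_i` were surjective, `W = 0`; take a hyperplane containing the range of
`φ - d_i`; it is invariant) -/
theorem tri_basis {W : Type*} [AddCommGroup W] [Module K W] [FiniteDimensional K W] (φ : W →ₗ[K] W)
    (L : List K) (hL : (L.map fun d => φ - algebraMap K (End K W) d).prod = 0) {k : ℕ}
    (hk : finrank K W = k) : ∃ b : Basis (Fin k) K W, ∀ i j, i < j → b.repr (φ (b i)) j = 0 := by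
  induction k generalizing W with
  | zero =>
    exact ⟨Module.finBasisOfFinrankEq K W hk, fun i => i.elim0⟩
  | succ k ih =>
    have hex : ∃ d : K, ¬ Function.Surjective (φ - algebraMap K (End K W) d) := by
      by_contra hcon
      push Not at hcon
      have hs : ∀ L : List K,
          Function.Surjective ((L.map fun d => φ - algebraMap K (End K W) d).prod) := by
        intro L
        induction L with
        | nil => exact fun x => ⟨x, rfl⟩
        | cons d L ih =>
          rw [List.map_cons, List.prod_cons]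
          exact (hcon d).comp ih
      have h1 := hs L
      rw [hL] at h1
      have h2 : Subsingleton W := ⟨fun x y => by
        obtain ⟨a, rfl⟩ := h1 x
        obtain ⟨b, rfl⟩ := h1 y
        simp⟩
      rw [finrank_zero_of_subsingleton] at hk
      omega
    obtain ⟨d, hd⟩ := hex
    have hlt : LinearMap.range (φ - algebraMap K (End K W) d) < ⊤ := by
      rw [lt_top_iff_ne_top]
      intro h
      exact hd (LinearMap.range_eq_top.1 h)
    obtain ⟨f, hf0, hf⟩ := Submodule.exists_le_ker_of_lt_top _ hlt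
    have hinv : ∀ x ∈ LinearMap.ker f, φ x ∈ LinearMap.ker f := by
      intro x hx
      have h1 : φ x = (φ - algebraMap K (End K W) d) x + d • x := by simp
      rw [h1]
      exact Submodule.add_mem _ (hf ⟨x, rfl⟩) (Submodule.smul_mem _ _ hx)
    have hker : finrank K (LinearMap.ker f) = k := by
      have := Module.Dual.finrank_ker_add_one_of_ne_zero hf0
      omega
    have hL' : (L.map fun d =>
        φ.restrict hinv - algebraMap K (End K (LinearMap.ker f)) d).prod = 0 := by
      refine LinearMap.ext fun x => Subtype.ext ?_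
      rw [Deco_restr, hL]
      simp
    obtain ⟨b, hb⟩ := ih (φ.restrict hinv) hL' hker
    obtain ⟨v, hv⟩ : ∃ v, f v ≠ 0 := by
      by_contra hcon
      push Not at hcon
      exact hf0 (LinearMap.ext hcon)
    have hli : ∀ (c : K), ∀ x ∈ LinearMap.ker f, c • v + x = 0 → c = 0 := by
      intro c x hx h
      have := congrArg f h
      rw [map_add, map_smul, LinearMap.mem_ker.1 hx, add_zero, map_zero, smul_eq_mul] at this
      exact (mul_eq_zero.1 this).resolve_right hv
    have hsp : ∀ z : W, ∃ c : K, z + c • v ∈ LinearMap.ker f := by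
      intro z
      refine ⟨-(f z / f v), ?_⟩
      rw [LinearMap.mem_ker, map_add, map_smul, smul_eq_mul, neg_mul, div_mul_cancel₀ _ hv,
        add_neg_cancel]
    obtain ⟨B, hB⟩ : ∃ B, B = Basis.mkFinSnoc b v hli hsp := ⟨_, rfl⟩
    have hBcast : ∀ i : Fin k, B (Fin.castSucc i) = (b i : W) := by
      intro i
      rw [hB, Basis.coe_mkFinSnoc, Fin.snoc_castSucc]
      rfl
    have hrepr : ∀ x : LinearMap.ker f, ∀ i : Fin (k + 1), B.repr (x : W) i =
        (Fin.snoc (fun j => b.repr x j) 0 : Fin (k + 1) → K) i := by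
      intro x i
      have h1 : (x : W) = ∑ i : Fin (k + 1),
          (Fin.snoc (fun j => b.repr x j) 0 : Fin (k + 1) → K) i • B i := by
        rw [Fin.sum_univ_castSucc, Fin.snoc_last, zero_smul, add_zero]
        simp only [Fin.snoc_castSucc, hBcast]
        conv_lhs => rw [← b.sum_repr x]
        rw [Submodule.coe_sum]
        rfl
      conv_lhs => rw [h1]
      rw [B.repr_sum_self]
    refine ⟨B, fun i j hij => ?_⟩
    obtain ⟨i', rfl⟩ : ∃ i' : Fin k, i = Fin.castSucc i' := by
      refine ⟨⟨i, ?_⟩, rfl⟩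
      have h1 := j.2
      have h2 : (i : ℕ) < j := hij
      omega
    have h1 : φ (B (Fin.castSucc i')) = ((φ.restrict hinv (b i') : LinearMap.ker f) : W) := by
      rw [hBcast]
      rfl
    rw [h1, hrepr]
    rcases Fin.eq_castSucc_or_eq_last j with ⟨j', rfl⟩ | rfl
    · rw [Fin.snoc_castSucc]
      exact hb i' j' (by simpa using hij)
    · rw [Fin.snoc_last]

theorem Deco_eig {n : ℕ} (a : Matrix (Fin n) (Fin n) K) (ht : ∀ i j, j < i → a i j = 0)
    (i : Fin n) : ∃ v : Fin n → K, v ≠ 0 ∧ a *ᵥ v = a i i • v := by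
  have hdet : (a - a i i • (1 : Matrix (Fin n) (Fin n) K)).det = 0 := by
    have hT : (a - a i i • (1 : Matrix (Fin n) (Fin n) K)).IsUpperTriangular := by
      intro i' j' h
      have h' : j' < i' := h
      rw [Matrix.sub_apply, Matrix.smul_apply, Matrix.one_apply_ne h'.ne', ht _ _ h']
      simp
    rw [Matrix.det_of_isUpperTriangular hT]
    exact Finset.prod_eq_zero (Finset.mem_univ i) (by simp)
  obtain ⟨v, hv, h⟩ := Matrix.exists_mulVec_eq_zero_iff.2 hdet
  refine ⟨v, hv, ?_⟩
  rw [Matrix.sub_mulVec, Matrix.smul_mulVec, Matrix.one_mulVec, sub_eq_zero] at h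
  exact h

theorem Deco_pow {W : Type*} [AddCommGroup W] [Module K W] (φ : W →ₗ[K] W) (l μ : K) (x : W)
    (h : φ x = μ • x) (N : ℕ) : ((φ - algebraMap K (End K W) l) ^ N) x = (μ - l) ^ N • x := by
  induction N with
  | zero => simp
  | succ N ih =>
    rw [pow_succ, Module.End.mul_apply, LinearMap.sub_apply, h, Module.algebraMap_end_apply,
      ← sub_smul, map_smul, ih, smul_smul, pow_succ, mul_comm]

/-- an eigenvector for each diagonal entry of the triangular matrix of `φ` on `N` -/
theorem Deco_eig' {W : Type*} [AddCommGroup W] [Module K W] {k : ℕ} (b : Basis (Fin k) K W)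
    (φ : W →ₗ[K] W) (hb : ∀ i j, i < j → b.repr (φ (b i)) j = 0) (i : Fin k) :
    ∃ x : W, x ≠ 0 ∧ φ x = LinearMap.toMatrix b b φ i i • x := by
  obtain ⟨v, hv, h⟩ := Deco_eig (LinearMap.toMatrix b b φ) (fun i j hij => by
    rw [LinearMap.toMatrix_apply]
    exact hb j i hij) i
  refine ⟨b.equivFun.symm v, ?_, ?_⟩
  · intro h0
    exact hv ((LinearEquiv.map_eq_zero_iff _).1 h0)
  · apply b.equivFun.injective
    have h1 := LinearMap.toMatrix_mulVec_repr b b φ (b.equivFun.symm v)
    have h2 : ⇑(b.repr (b.equivFun.symm v)) = v := b.equivFun.apply_symm_apply v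
    rw [h2, h] at h1
    rw [map_smul, LinearEquiv.apply_symm_apply, h1]
    rfl

/-- Decomposition of an upper triangular matrix with two different diagonal entries: `W = Kⁿ`, `λ = a i i`,
`W1 = maxGenEigenspace λ` and `W2 = ` the range of `(a - λ)^n` are complementary invariant subspaces, both nonzero;
`tri_basis` for both; `a - λ` is nilpotent on `W1` and invertible on `W2`. -/
theorem deco {n : ℕ} (a : Matrix (Fin n) (Fin n) K) (ht : ∀ i j, j < i → a i j = 0)
    (hne : ∃ i j, a i i ≠ a j j) :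
    ∃ (s m : ℕ) (e : s + m = n) (a1 : Matrix (Fin s) (Fin s) K) (a2 : Matrix (Fin m) (Fin m) K)
      (S : Matrix (Fin n) (Fin n) K), 0 < s ∧ 0 < m ∧ (∀ i j, j < i → a1 i j = 0) ∧
      (∀ i j, j < i → a2 i j = 0) ∧ (∀ i j, a1 i i ≠ a2 j j) ∧ IsUnit S.det ∧
      S * a * S⁻¹ = (fromBlocks a1 0 0 a2).reindex (finSumFinEquiv.trans (finCongr e))
        (finSumFinEquiv.trans (finCongr e)) := by
  obtain ⟨i0, j0, hij⟩ := hne
  obtain ⟨l, hl⟩ : ∃ l, l = a i0 i0 := ⟨_, rfl⟩
  obtain ⟨φ, hφ⟩ : ∃ φ : (Fin n → K) →ₗ[K] (Fin n → K), φ = Matrix.toLin' a := ⟨_, rfl⟩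
  have hφa : ∀ v, φ v = a *ᵥ v := fun v => by rw [hφ, Matrix.toLin'_apply]
  obtain ⟨f, hf⟩ : ∃ f : End K (Fin n → K), f = φ - algebraMap K (End K (Fin n → K)) l := ⟨_, rfl⟩
  -- the list of the diagonal entries
  have hL : ((List.ofFn fun i => a i i).map fun d =>
      φ - algebraMap K (End K (Fin n → K)) d).prod = 0 := by
    have h1 : aeval φ (∏ i : Fin n, (X - C (a i i))) = 0 := by
      rw [← Matrix.charpoly_of_isUpperTriangular a (fun i j h => ht i j h),
        ← Matrix.charpoly_toLin', ← hφ]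
      exact LinearMap.aeval_self_charpoly φ
    rw [← List.prod_ofFn, map_list_prod, List.map_ofFn] at h1
    rw [List.map_ofFn, ← h1]
    congr 2
    funext i
    simp
  obtain ⟨N, hN, hN1⟩ := (f.eventually_isCompl_ker_pow_range_pow.and
    (Filter.eventually_ge_atTop 1)).exists
  obtain ⟨W1, hW1⟩ : ∃ W1, W1 = LinearMap.ker (f ^ N) := ⟨_, rfl⟩
  obtain ⟨W2, hW2⟩ : ∃ W2, W2 = LinearMap.range (f ^ N) := ⟨_, rfl⟩
  rw [← hW1, ← hW2] at hN
  have hcomm : ∀ x, (f ^ N) (φ x) = φ ((f ^ N) x) := by
    intro x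
    have h1 : Commute f φ := by
      rw [hf]
      exact (Commute.refl φ).sub_left (Algebra.commute_algebraMap_left l φ)
    exact congrArg (fun g : End K (Fin n → K) => g x) (h1.pow_left N).eq
  have i1 : ∀ x ∈ W1, φ x ∈ W1 := by
    intro x hx
    rw [hW1, LinearMap.mem_ker] at hx ⊢
    rw [hcomm, hx, map_zero]
  have i2 : ∀ x ∈ W2, φ x ∈ W2 := by
    intro x hx
    rw [hW2] at hx ⊢
    obtain ⟨y, rfl⟩ := hx
    exact ⟨φ y, hcomm y⟩
  have hL1 : ((List.ofFn fun i => a i i).map fun d =>
      φ.restrict i1 - algebraMap K (End K W1) d).prod = 0 := by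
    refine LinearMap.ext fun x => Subtype.ext ?_
    rw [Deco_restr, hL]
    simp
  have hL2 : ((List.ofFn fun i => a i i).map fun d =>
      φ.restrict i2 - algebraMap K (End K W2) d).prod = 0 := by
    refine LinearMap.ext fun x => Subtype.ext ?_
    rw [Deco_restr, hL]
    simp
  obtain ⟨b1, hb1⟩ := tri_basis (φ.restrict i1) _ hL1 (k := finrank K W1) rfl
  obtain ⟨b2, hb2⟩ := tri_basis (φ.restrict i2) _ hL2 (k := finrank K W2) rfl
  have e : finrank K W1 + finrank K W2 = n := by
    rw [Submodule.finrank_add_eq_of_isCompl hN, Module.finrank_fin_fun]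
  obtain ⟨B, hBdef⟩ : ∃ B : Basis (Fin (finrank K W1) ⊕ Fin (finrank K W2)) K (Fin n → K),
    B = (b1.prod b2).map (Submodule.prodEquivOfIsCompl W1 W2 hN) := ⟨_, rfl⟩
  have hBl : ∀ i, B (Sum.inl i) = (b1 i : Fin n → K) := by
    intro i
    rw [hBdef, Basis.map_apply, Submodule.coe_prodEquivOfIsCompl']
    simp
  have hBr : ∀ i, B (Sum.inr i) = (b2 i : Fin n → K) := by
    intro i
    rw [hBdef, Basis.map_apply, Submodule.coe_prodEquivOfIsCompl']
    simp
  have hR1 : ∀ x : W1, B.repr (x : Fin n → K) = (b1.prod b2).repr (x, 0) := by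
    intro x
    rw [hBdef, Basis.map_repr, LinearEquiv.trans_apply, Submodule.prodEquivOfIsCompl_symm_apply_left]
  have hR2 : ∀ x : W2, B.repr (x : Fin n → K) = (b1.prod b2).repr (0, x) := by
    intro x
    rw [hBdef, Basis.map_repr, LinearEquiv.trans_apply,
      Submodule.prodEquivOfIsCompl_symm_apply_right]
  have hmat : LinearMap.toMatrix B B φ = fromBlocks (LinearMap.toMatrix b1 b1 (φ.restrict i1)) 0 0
      (LinearMap.toMatrix b2 b2 (φ.restrict i2)) := by
    ext p q
    rw [LinearMap.toMatrix_apply]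
    rcases q with q | q
    · have h1 : φ (B (Sum.inl q)) = ((φ.restrict i1 (b1 q) : W1) : Fin n → K) := by
        rw [hBl]
        rfl
      rw [h1, hR1]
      rcases p with p | p
      · rw [Basis.prod_repr_inl, fromBlocks_apply₁₁, LinearMap.toMatrix_apply]
      · rw [Basis.prod_repr_inr, fromBlocks_apply₂₁]
        simp
    · have h1 : φ (B (Sum.inr q)) = ((φ.restrict i2 (b2 q) : W2) : Fin n → K) := by
        rw [hBr]
        rfl
      rw [h1, hR2]
      rcases p with p | p
      · rw [Basis.prod_repr_inl, fromBlocks_apply₁₂]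
        simp
      · rw [Basis.prod_repr_inr, fromBlocks_apply₂₂, LinearMap.toMatrix_apply]
  obtain ⟨e', he'⟩ : ∃ e' : Fin (finrank K W1) ⊕ Fin (finrank K W2) ≃ Fin n,
    e' = finSumFinEquiv.trans (finCongr e) := ⟨_, rfl⟩
  have hST : (B.reindex e').toMatrix (Pi.basisFun K (Fin n)) *
      (Pi.basisFun K (Fin n)).toMatrix (B.reindex e') = 1 := Basis.toMatrix_mul_toMatrix_flip _ _
  have hN0 : N ≠ 0 := by omega
  -- eigenvectors
  have key1 : ∀ x : Fin n → K, φ x = l • x → x ∈ W1 := by
    intro x hx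
    rw [hW1, LinearMap.mem_ker, hf, Deco_pow φ l l x hx, sub_self, zero_pow hN0, zero_smul]
  have key2 : ∀ (x : Fin n → K) (μ : K), μ ≠ l → φ x = μ • x → x ∈ W2 := by
    intro x μ hμ hx
    rw [hW2]
    refine ⟨((μ - l) ^ N)⁻¹ • x, ?_⟩
    rw [map_smul, hf, Deco_pow φ l μ x hx, smul_smul,
      inv_mul_cancel₀ (pow_ne_zero _ (sub_ne_zero.2 hμ)), one_smul]
  have hdis : ∀ x : Fin n → K, x ∈ W1 → x ∈ W2 → x = 0 := fun x h1 h2 =>
    Submodule.disjoint_def.1 hN.disjoint x h1 h2
  have hdiag1 : ∀ i, LinearMap.toMatrix b1 b1 (φ.restrict i1) i i = l := by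
    intro i
    obtain ⟨x, hx0, hx⟩ := Deco_eig' b1 (φ.restrict i1) hb1 i
    by_contra hne
    apply hx0
    apply Subtype.ext
    exact hdis x x.2 (key2 x _ hne (congrArg Subtype.val hx))
  have hdiag2 : ∀ j, LinearMap.toMatrix b2 b2 (φ.restrict i2) j j ≠ l := by
    intro j hj
    obtain ⟨x, hx0, hx⟩ := Deco_eig' b2 (φ.restrict i2) hb2 j
    rw [hj] at hx
    apply hx0
    apply Subtype.ext
    exact hdis x (key1 x (congrArg Subtype.val hx)) x.2
  refine ⟨finrank K W1, finrank K W2, e, LinearMap.toMatrix b1 b1 (φ.restrict i1),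
    LinearMap.toMatrix b2 b2 (φ.restrict i2), (B.reindex e').toMatrix (Pi.basisFun K (Fin n)),
    ?_, ?_, ?_, ?_, ?_, ?_, ?_⟩
  · obtain ⟨v, hv0, hv⟩ := Deco_eig a ht i0
    rw [Module.finrank_pos_iff_exists_ne_zero]
    refine ⟨⟨v, key1 v (by rw [hφa, hv, hl])⟩, fun h => hv0 (congrArg Subtype.val h)⟩
  · obtain ⟨v, hv0, hv⟩ := Deco_eig a ht j0
    rw [Module.finrank_pos_iff_exists_ne_zero]
    refine ⟨⟨v, key2 v _ (by rw [hl]; exact hij.symm) (by rw [hφa, hv])⟩,
      fun h => hv0 (congrArg Subtype.val h)⟩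
  · intro i j hji
    rw [LinearMap.toMatrix_apply]
    exact hb1 j i hji
  · intro i j hji
    rw [LinearMap.toMatrix_apply]
    exact hb2 j i hji
  · intro i j
    rw [hdiag1]
    exact (hdiag2 j).symm
  · exact (Matrix.isUnit_det_of_right_inverse hST)
  · rw [Matrix.inv_eq_right_inv hST]
    have h1 := basis_toMatrix_mul_linearMap_toMatrix_mul_basis_toMatrix (B.reindex e')
      (Pi.basisFun K (Fin n)) (B.reindex e') (Pi.basisFun K (Fin n)) φ
    have h2 : LinearMap.toMatrix (Pi.basisFun K (Fin n)) (Pi.basisFun K (Fin n)) φ = a := by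
      rw [LinearMap.toMatrix_eq_toMatrix', hφ, LinearMap.toMatrix'_toLin']
    rw [h2] at h1
    rw [h1, ← he', ← hmat]
    ext i j
    rw [LinearMap.toMatrix_apply, Matrix.reindex_apply, Matrix.submatrix_apply,
      LinearMap.toMatrix_apply, Basis.reindex_apply, Basis.repr_reindex_apply]

end ThU
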