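import Pool.Agent.ThU.Split
import Pool.Agent.ThU.Deco

/-! # Module Fact -/

namespace ThU
open Matrix Polynomial Module

variable {K : Type*} [Field K]

/-- the Sylvester operator is injective -/
private theorem Fact_inj {s m : ℕ} (a1 : Matrix (Fin s) (Fin s) K) (a2 : Matrix (Fin m) (Fin m) K)
    (h1 : ∀ i j, j < i → a1 i j = 0) (h2 : ∀ i j, j < i → a2 i j = 0) (hd : ∀ i j, a1 i i ≠ a2 j j)
    (Z : Matrix (Fin s) (Fin m) K) (hZ : a1 * Z = Z * a2) : Z = 0 := by
  have key : ∀ N : ℕ, ∀ (i : Fin s) (j : Fin m), (s - i.val) * (m + 1) + j.val = N → Z i j = 0 := by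
    intro N
    induction N using Nat.strong_induction_on with
    | _ N ih =>
      intro i j hN
      have e1 : (a1 * Z) i j = a1 i i * Z i j := by
        rw [mul_apply]
        refine Finset.sum_eq_single i (fun k _ hk => ?_) (fun h => absurd (Finset.mem_univ _) h)
        rcases lt_or_gt_of_ne hk with h3 | h3
        · rw [h1 i k h3, zero_mul]
        · have h4 : i.val < k.val := h3
          have h5 : (s - k.val) * (m + 1) + j.val < N := by
            rw [← hN]
            have h6 : s - k.val + 1 ≤ s - i.val := by have := k.2; omega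
            have h7 := Nat.mul_le_mul_right (m + 1) h6
            rw [Nat.add_mul, one_mul] at h7
            omega
          rw [ih _ h5 k j rfl, mul_zero]
      have e2 : (Z * a2) i j = Z i j * a2 j j := by
        rw [mul_apply]
        refine Finset.sum_eq_single j (fun k _ hk => ?_) (fun h => absurd (Finset.mem_univ _) h)
        rcases lt_or_gt_of_ne hk with h3 | h3
        · have h4 : k.val < j.val := h3
          have h5 : (s - i.val) * (m + 1) + k.val < N := by omega
          rw [ih _ h5 i k rfl, zero_mul]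
        · rw [h2 k j h3, mul_zero]
      have e3 : (a1 i i - a2 j j) * Z i j = 0 := by
        rw [sub_mul, ← e1, hZ, e2]
        ring
      rcases mul_eq_zero.1 e3 with h3 | h3
      · exact absurd (sub_eq_zero.1 h3) (hd i j)
      · exact h3
  ext i j
  exact key _ i j rfl

/-- `a1 Z - Z a2 = Y` is solvable (injectivity: `a1 Z = Z a2`, look at the last nonzero row and the first nonzero
column, or use the characteristic polynomials); `u = fromBlocks 1 Z 0 1` -/
theorem sylv {s m : ℕ} (a1 : Matrix (Fin s) (Fin s) K) (a2 : Matrix (Fin m) (Fin m) K)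
    (h1 : ∀ i j, j < i → a1 i j = 0) (h2 : ∀ i j, j < i → a2 i j = 0) (hd : ∀ i j, a1 i i ≠ a2 j j)
    (Y : Matrix (Fin s) (Fin m) K) : ∃ u : Matrix (Fin s ⊕ Fin m) (Fin s ⊕ Fin m) K, IsUnit u.det ∧
      u * fromBlocks a1 Y 0 a2 = fromBlocks a1 0 0 a2 * u := by
  let Φ : Matrix (Fin s) (Fin m) K →ₗ[K] Matrix (Fin s) (Fin m) K :=
    { toFun := fun Z => a1 * Z - Z * a2
      map_add' := fun Z Z' => by rw [Matrix.mul_add, Matrix.add_mul]; abel
      map_smul' := fun c Z => by
        rw [Matrix.mul_smul, Matrix.smul_mul, RingHom.id_apply, smul_sub] }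
  have hinj : Function.Injective Φ := by
    rw [← LinearMap.ker_eq_bot, LinearMap.ker_eq_bot']
    intro Z hZ
    exact Fact_inj a1 a2 h1 h2 hd Z (sub_eq_zero.1 hZ)
  obtain ⟨Z, hZ⟩ := (LinearMap.injective_iff_surjective.1 hinj) Y
  have hZ' : a1 * Z - Z * a2 = Y := hZ
  refine ⟨fromBlocks 1 Z 0 1, ?_, ?_⟩
  · rw [det_fromBlocks_zero₂₁, det_one, det_one, mul_one]
    exact isUnit_one
  · rw [fromBlocks_multiply, fromBlocks_multiply]
    simp only [Matrix.one_mul, Matrix.mul_zero, Matrix.zero_mul, Matrix.mul_one, add_zero, zero_add]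
    rw [← hZ', sub_add_cancel]

/-- `deco`, `split`, `sylv` (the product of the diagonal entries is the determinant) -/
theorem fact {n : ℕ} {f : K[X]} (hf : f.Monic) (hn : f.natDegree = n) (h0 : f.coeff 0 ≠ 0)
    (a : Matrix (Fin n) (Fin n) K) (ht : ∀ i j, j < i → a i j = 0) (hd : ∏ i, a i i = 1)
    (hne : ∃ i j, a i i ≠ a j j) : ∃ S T : Matrix (Fin n) (Fin n) K, IsUnit S.det ∧ IsUnit T.det ∧
      S * a * S⁻¹ = T * comp f n * T⁻¹ * (comp f n)⁻¹ := by
  obtain ⟨s, m, e, a1, a2, S, hs, hm, h1, h2, h12, hS, hSa⟩ := deco a ht hne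
  subst e
  have hda : a.det = 1 := by
    rw [det_of_upperTriangular (fun i j hij => ht i j hij), hd]
  have hdet : (∏ i, a1 i i) * ∏ i, a2 i i = 1 := by
    have e1 : (S * a * S⁻¹).det = 1 := by
      rw [det_mul, det_mul, hda, mul_one, ← det_mul, mul_nonsing_inv _ hS, det_one]
    rw [hSa, det_reindex_self, det_fromBlocks_zero₂₁,
      det_of_upperTriangular (fun i j hij => h1 i j hij),
      det_of_upperTriangular (fun i j hij => h2 i j hij)] at e1
    exact e1
  obtain ⟨Y, T, hT, hY⟩ := split hs hm a1 a2 h1 h2 hdet hf hn h0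
  obtain ⟨u, hu, huY⟩ := sylv a1 a2 h1 h2 h12 Y
  have hcong : (finSumFinEquiv (m := s) (n := m)).trans (finCongr rfl) = finSumFinEquiv := by
    ext x
    simp
  rw [hcong] at hSa
  set E := finSumFinEquiv (m := s) (n := m) with hE
  have hru : IsUnit (u.reindex E E).det := by rw [det_reindex_self]; exact hu
  have hmul : ∀ x y : Matrix (Fin s ⊕ Fin m) (Fin s ⊕ Fin m) K,
      (x * y).reindex E E = x.reindex E E * y.reindex E E := fun x y => by
    simp only [reindex_apply]
    exact (submatrix_mul_equiv _ _ _ _ _).symm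
  have e2 : u.reindex E E * (T * comp f (s + m) * T⁻¹ * (comp f (s + m))⁻¹) =
      (S * a * S⁻¹) * u.reindex E E := by
    rw [← hY, hSa, ← hmul, ← hmul, huY]
  refine ⟨(u.reindex E E)⁻¹ * S, T, ?_, hT, ?_⟩
  · rw [det_mul]
    exact ((isUnit_nonsing_inv_det _ hru)).mul hS
  · have e3 : ((u.reindex E E)⁻¹ * S)⁻¹ = S⁻¹ * u.reindex E E := by
      rw [Matrix.mul_inv_rev, nonsing_inv_nonsing_inv _ hru]
    rw [e3]
    calc (u.reindex E E)⁻¹ * S * a * (S⁻¹ * u.reindex E E)
        = (u.reindex E E)⁻¹ * ((S * a * S⁻¹) * u.reindex E E) := by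
          simp only [Matrix.mul_assoc]
      _ = (u.reindex E E)⁻¹ * (u.reindex E E *
            (T * comp f (s + m) * T⁻¹ * (comp f (s + m))⁻¹)) := by rw [e2]
      _ = _ := by rw [← Matrix.mul_assoc, nonsing_inv_mul _ hru, Matrix.one_mul]

end ThU
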