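import Pool.Agent.ThU.Defs

/-! # Module Fld -/

namespace ThU
open Matrix Polynomial Module

variable {K : Type*} [Field K] [StarRing K]

/-- `e = x - star x` -/
theorem fld_eps (hK : ∃ x : K, star x ≠ x) : ∃ e : K, e ≠ 0 ∧ star e = -e := by
  obtain ⟨x, hx⟩ := hK
  refine ⟨x - star x, sub_ne_zero.2 (Ne.symm hx), ?_⟩
  rw [star_sub, star_star, neg_sub]

/-- the trace is onto: if `2 ≠ 0` take `c / 2`; otherwise `x + star x ≠ 0` for `star x ≠ x`, scale `x` -/
theorem fld_trace (hK : ∃ x : K, star x ≠ x) (c : K) (hc : star c = c) : ∃ x : K, x + star x = c := by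
  by_cases h2 : (2 : K) = 0
  · obtain ⟨x, hx⟩ := hK
    have ht : x + star x ≠ 0 := by
      intro h
      apply hx
      have h3 : star x = -x := by linear_combination h
      rw [h3]
      linear_combination (-x) * h2
    have hts : star (x + star x) = x + star x := by
      rw [star_add, star_star, add_comm]
    refine ⟨c / (x + star x) * x, ?_⟩
    have h4 : star (c / (x + star x) * x) = c / (x + star x) * star x := by
      rw [star_mul', star_div₀, hc, hts]
    rw [h4, ← mul_add, div_mul_cancel₀ _ ht]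
  · refine ⟨c / 2, ?_⟩
    have h4 : star (c / 2) = c / 2 := by
      rw [star_div₀, hc, star_ofNat]
    rw [h4]
    field_simp
    ring

/-- Hilbert 90: `c = 1 + d` if `d ≠ -1`; `c = e` of `fld_eps` if `d = -1` -/
theorem fld_hilb (hK : ∃ x : K, star x ≠ x) (d : K) (hd : d * star d = 1) :
    ∃ c : K, c ≠ 0 ∧ c = d * star c := by
  by_cases h : d = -1
  · obtain ⟨e, he, hes⟩ := fld_eps hK
    refine ⟨e, he, ?_⟩
    rw [h, hes]
    ring
  · refine ⟨1 + d, fun h1 => h (by linear_combination h1), ?_⟩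
    rw [star_add, star_one, mul_add, hd]
    ring

/-- `star` is an automorphism of order 2 of the finite field `K`, hence a power of the Frobenius
(`FiniteField.bijective_frobeniusAlgEquivOfAlgebraic_pow` over `ZMod p`) -/
theorem fld_card [Finite K] (hK : ∃ x : K, star x ≠ x) :
    ∃ q : ℕ, 2 ≤ q ∧ Nat.card K = q ^ 2 ∧ ∀ x : K, star x = x ^ q := by
  obtain ⟨p, hp⟩ := CharP.exists K
  have hpp : p.Prime := CharP.char_is_prime K p
  haveI : Fact p.Prime := ⟨hpp⟩
  letI : Algebra (ZMod p) K := ZMod.algebra K p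
  have hcomm : ∀ r : ZMod p, starRingAut (R := K) (algebraMap (ZMod p) K r) =
      algebraMap (ZMod p) K r := by
    intro r
    exact RingHom.congr_fun (Subsingleton.elim
      (((starRingAut (R := K)) : K →+* K).comp (algebraMap (ZMod p) K)) (algebraMap (ZMod p) K)) r
  set σ : K ≃ₐ[ZMod p] K := AlgEquiv.ofRingEquiv (f := starRingAut (R := K)) hcomm with hσ
  have hσx : ∀ x, σ x = star x := fun x => rfl
  obtain ⟨n, hlt, hn'⟩ : ∃ n : ℕ, n < finrank (ZMod p) K ∧
      FiniteField.frobeniusAlgEquivOfAlgebraic (ZMod p) K ^ n = σ := by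
    obtain ⟨n, hn⟩ := (FiniteField.bijective_frobeniusAlgEquivOfAlgebraic_pow (ZMod p) K).2 σ
    exact ⟨n.1, n.2, hn⟩
  have hpow : ∀ x : K, star x = x ^ (p ^ n) := by
    intro x
    rw [← hσx, ← hn', AlgEquiv.coe_pow, FiniteField.coe_frobeniusAlgEquivOfAlgebraic_iterate,
      ZMod.card]
  have hn0 : n ≠ 0 := by
    intro h0
    obtain ⟨x, hx⟩ := hK
    apply hx
    rw [hpow x, h0, pow_zero, pow_one]
  have hσ2 : σ ^ 2 = 1 := by
    ext x
    rw [pow_two, AlgEquiv.mul_apply, hσx, hσx, star_star]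
    rfl
  have hdvd : finrank (ZMod p) K ∣ n * 2 := by
    rw [← FiniteField.orderOf_frobeniusAlgEquivOfAlgebraic (ZMod p) K]
    apply orderOf_dvd_of_pow_eq_one
    rw [pow_mul, hn', hσ2]
  have hm : finrank (ZMod p) K = n * 2 := by
    obtain ⟨c, hc⟩ := hdvd
    have hc1 : c < 2 := by
      by_contra h2
      have h3 : finrank (ZMod p) K * 2 ≤ finrank (ZMod p) K * c := Nat.mul_le_mul_left _ (by omega)
      omega
    have hc0 : c ≠ 0 := by
      rintro rfl
      omega
    have hc2 : c = 1 := by omega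
    rw [hc2, mul_one] at hc
    exact hc.symm
  refine ⟨p ^ n, ?_, ?_, hpow⟩
  · calc 2 ≤ p := hpp.two_le
      _ = p ^ 1 := (pow_one p).symm
      _ ≤ p ^ n := Nat.pow_le_pow_right hpp.pos (by omega)
  · rw [Module.natCard_eq_pow_finrank (K := ZMod p) (V := K), Nat.card_zmod, hm, pow_mul]

/-- The norm is onto: `Kˣ` is cyclic of order `q ^ 2 - 1`, `c ≠ 0` fixed by `star` means
`c ^ (q - 1) = 1`, so `c` is a `(q + 1)`-st power and `x * star x = x ^ (q + 1)`. -/
theorem fld_norm [Finite K] (hK : ∃ x : K, star x ≠ x) (c : K) (hc : star c = c) :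
    ∃ x : K, x * star x = c := by
  obtain ⟨q, hq, hcard, hstar⟩ := fld_card hK
  rcases eq_or_ne c 0 with rfl | hc0
  · exact ⟨0, by simp⟩
  classical
  haveI := Fintype.ofFinite K
  obtain ⟨g, hg⟩ := IsCyclic.exists_generator (α := Kˣ)
  have hord : orderOf g = Nat.card Kˣ := orderOf_eq_card_of_forall_mem_zpowers hg
  have hcardu : Nat.card Kˣ = (q - 1) * (q + 1) := by
    have h1 : Nat.card Kˣ = Nat.card K - 1 := by
      rw [Nat.card_units]
    rw [h1, hcard, pow_two]
    obtain ⟨r, rfl⟩ : ∃ r, q = r + 1 := ⟨q - 1, by omega⟩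
    have h2 : (r + 1) * (r + 1) = (r + 1 - 1) * (r + 1 + 1) + 1 := by
      rw [Nat.add_sub_cancel]; ring
    rw [h2, Nat.add_sub_cancel]
  obtain ⟨k, hk⟩ := mem_powers_iff_mem_zpowers.2 (hg (Units.mk0 c hc0))
  have hk' : g ^ k = Units.mk0 c hc0 := hk
  have hcq : (Units.mk0 c hc0) ^ (q - 1) = 1 := by
    have h1 : c ^ q = c := by rw [← hstar c, hc]
    have h2 : c ^ (q - 1) * c = 1 * c := by
      rw [← pow_succ, Nat.sub_add_cancel (by omega), h1, one_mul]
    have h3 : c ^ (q - 1) = 1 := mul_right_cancel₀ hc0 h2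
    ext
    rw [Units.val_pow_eq_pow_val, Units.val_mk0, h3, Units.val_one]
  rw [← hk', ← pow_mul] at hcq
  have hdvd := orderOf_dvd_of_pow_eq_one hcq
  rw [hord, hcardu, mul_comm k] at hdvd
  obtain ⟨l, hl⟩ := Nat.dvd_of_mul_dvd_mul_left (by omega) hdvd
  refine ⟨((g ^ l : Kˣ) : K), ?_⟩
  rw [hstar, ← Units.val_pow_eq_pow_val, ← Units.val_mul, ← pow_mul, ← pow_add]
  have h4 : l + l * q = k := by rw [hl]; ring
  rw [h4, hk', Units.val_mk0]

end ThU
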