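import Pool.Agent.ThU.OddB

/-! # Module OBig -/

namespace ThU
open Matrix Polynomial Module

variable {K V : Type*} [Field K] [StarRing K] [AddCommGroup V] [Module K V] (H : Herm K V)
variable {G : V →ₗ[K] V}

/-- If `G` is a scalar: `altB_scal`.  Otherwise `alt_AB`.  Second case: `odd_B`.  First case: `w` with `g1` not a scalar;
`good_exists` gives `l0`, `free_exists` gives `d : Fin (k + 1) → K` (`n = k + 3`) for `g1`; `Good (t * l0)` (`Good.smul`), so
`free_g1` gives `FreeT ⊤ G (k + 2) (cons l0 d)` and `FreeT ⊤ G (k + 2) (cons (t * l0) d)`.  If `AltA` is false, `free_one` gives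
`l0 = d 0 = t * l0`, so `t = 1`. -/
theorem odd_big [Finite K] [FiniteDimensional K V] (hK : ∃ x : K, star x ≠ x)
    (ht : ∃ t : K, star t = t ∧ t ≠ 0 ∧ t ≠ 1) {n : ℕ} (h3 : 3 ≤ n) (hU : H.ND ⊤)
    (hn : finrank K V = 2 * n + 1) (hG : H.Iso ⊤ G) (hd : LinearMap.det G = 1) :
    H.AltA G n ∨ H.AltB G n ∨ H.AltC G n := by
  have hn' : finrank K (⊤ : Submodule K V) = 2 * n + 1 := by rw [finrank_top, hn]
  by_cases hs : Scal ⊤ G
  · exact Or.inr (Or.inl (altB_scal H hK hU hn hG hd hs))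
  have hGG : ∀ w : V, H.h w w = 0 → H.h (G w) (G w) = 0 := fun w hw => by
    rw [hG.2 w trivial w trivial, hw]
  rcases alt_AB H hK hU (by rw [hn']; omega) hG hs with ⟨w, hw, h0, hz, hns⟩ | ⟨w, hw, ζ, h0, hz, hc⟩
  · by_cases hA : H.AltA G n
    · exact Or.inl hA
    exfalso
    obtain ⟨k, rfl⟩ : ∃ k, n = k + 3 := ⟨n - 3, by omega⟩
    have hU1 : H.ND (H.perp2 ⊤ w (G w)) := perp2_ND H hU hw trivial h0 (hGG w h0) hz
    have hf1 := perp2_finrank H hw (trivial : G w ∈ (⊤ : Submodule K V)) h0 (hGG w h0) hz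
    have hG1 := iso_g1 H hG hw h0 hz
    obtain ⟨d, hd⟩ := free_exists H hK hU1 (k := k + 1) (by omega) hG1 hns
    obtain ⟨a, ha⟩ := good_exists (K := K) hK hz
    obtain ⟨t, ht1, ht0, ht2⟩ := ht
    have e1 := (free_one H (free_g1 H hG hw h0 hz ha hd) hA).1 0 (Fin.succ 0)
    have e2 := (free_one H (free_g1 H hG hw h0 hz (ha.smul ht1 ht0) hd) hA).1 0 (Fin.succ 0)
    rw [Fin.cons_zero, Fin.cons_succ] at e1 e2
    apply ht2
    refine mul_right_cancel₀ ha.1 ?_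
    rw [one_mul, e2, ← e1]
  · exact odd_B H hK h3 hU hn hG hd h0 hz hc

end ThU
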