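import Pool.Agent.ThU.OBase

/-! # Module OSub -/

namespace ThU
open Matrix Polynomial Module

variable {K V : Type*} [Field K] [StarRing K] [AddCommGroup V] [Module K V] (H : Herm K V)
variable {U : Submodule K V} {G : V →ₗ[K] V}

/-- Every subspace of dimension at least 2 contains an isotropic vector: if `a ∈ L`, `h a a ≠ 0`, take `b ≠ 0` in `L`
orthogonal to `a`; if `h b b ≠ 0` take `b + x • a` with `x * star x = - h b b / h a a` (`fld_norm`). -/
theorem iso_in_two [Finite K] [FiniteDimensional K V] (hK : ∃ x : K, star x ≠ x) {L : Submodule K V}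
    (h2 : 2 ≤ finrank K L) : ∃ x ∈ L, x ≠ 0 ∧ H.h x x = 0 := by
  by_cases hall : ∀ a ∈ L, H.h a a = 0
  · have h1 : L ≠ ⊥ := by
      rintro rfl
      rw [finrank_bot] at h2
      omega
    obtain ⟨w, hw, hw0⟩ := Submodule.exists_mem_ne_zero_of_ne_bot h1
    exact ⟨w, hw, hw0, hall w hw⟩
  push Not at hall
  obtain ⟨a, ha, haa⟩ := hall
  have hker : LinearMap.ker ((H.h a).comp L.subtype) ≠ ⊥ := by
    apply LinearMap.ker_ne_bot_of_finrank_lt
    rw [finrank_self]
    omega
  obtain ⟨b, hb, hb0⟩ := Submodule.exists_mem_ne_zero_of_ne_bot hker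
  have hab : H.h a b = 0 := hb
  have hba : H.h b a = 0 := H.swap_zero.1 hab
  have hb0' : (b : V) ≠ 0 := fun h => hb0 (Subtype.ext h)
  by_cases hbb : H.h (b : V) b = 0
  · exact ⟨b, b.2, hb0', hbb⟩
  have hfix : star (-(H.h a a * (H.h (b : V) b)⁻¹)) = -(H.h a a * (H.h (b : V) b)⁻¹) := by
    rw [star_neg, star_mul', star_inv₀, H.symm', H.symm']
  obtain ⟨x, hx⟩ := fld_norm hK _ hfix
  refine ⟨a + x • (b : V), L.add_mem ha (L.smul_mem x b.2), ?_, ?_⟩
  · intro h0
    apply haa
    have h3 : H.h a (a + x • (b : V)) = 0 := by rw [h0, map_zero]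
    rwa [map_add, map_smul, hab, smul_zero, add_zero] at h3
  · rw [H.add_left, H.smul_left, map_add, map_add, map_smul, map_smul, hab, hba]
    simp only [smul_eq_mul, mul_zero, add_zero, zero_add]
    have h4 : star x * (x * H.h (b : V) b) = x * star x * H.h (b : V) b := by ring
    rw [h4, hx]
    field_simp
    ring

private theorem OSub_polar (hK : ∃ x : K, star x ≠ x) {L : Submodule K V}
    (hall : ∀ x ∈ L, H.h x x = 0) {x y : V} (hx : x ∈ L) (hy : y ∈ L) : H.h x y = 0 := by
  by_contra hne
  obtain ⟨t, ht⟩ := fld_trace hK 1 (star_one K)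
  have h1 := hall (x + (t * (H.h x y)⁻¹) • y) (L.add_mem hx (L.smul_mem _ hy))
  rw [H.add_left, H.smul_left, map_add, map_add, map_smul, map_smul, hall x hx, hall y hy,
    H.symm x y, star_mul', star_inv₀] at h1
  simp only [smul_eq_mul, mul_zero, add_zero, zero_add] at h1
  have hs : star (H.h x y) ≠ 0 := by rwa [Ne, star_eq_zero]
  rw [mul_assoc, inv_mul_cancel₀ hne, mul_assoc, inv_mul_cancel₀ hs, mul_one, mul_one, ht] at h1
  exact one_ne_zero h1

/-- Otherwise `h = 0` on `L` (polarize with `x + c • y`), so `L` is contained in the space of the vectors of `U` which are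
orthogonal to `L`; its dimension is `finrank U - finrank L`. -/
theorem noniso_in [FiniteDimensional K V] (hK : ∃ x : K, star x ≠ x) (hU : H.ND U)
    {L : Submodule K V} (hL : L ≤ U) (h : finrank K U < 2 * finrank K L) : ∃ x ∈ L, H.h x x ≠ 0 := by
  by_contra hall
  push Not at hall
  let b := finBasis K L
  let φ : U →ₗ[K] (Fin (finrank K L) → K) := LinearMap.pi fun i => (H.h (b i : V)).comp U.subtype
  have hφ : ∀ (x : U) i, φ x i = H.h (b i : V) x.1 := fun x i => rfl
  have hsurj : LinearMap.range φ = ⊤ := by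
    by_contra hne
    obtain ⟨f, hf, hle⟩ := Submodule.exists_le_ker_of_lt_top _ (lt_top_iff_ne_top.2 hne)
    apply hf
    have hsum : ∀ v : Fin (finrank K L) → K, f v = ∑ i, f (Pi.single i 1) * v i := by
      intro v
      conv_lhs => rw [← Finset.univ_sum_single v]
      rw [map_sum]
      refine Finset.sum_congr rfl fun i _ => ?_
      have e : (Pi.single i (v i) : Fin (finrank K L) → K) = v i • Pi.single i 1 := by
        rw [← Pi.single_smul, smul_eq_mul, mul_one]
      rw [e, map_smul, smul_eq_mul, mul_comm]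
    have h0 : ∑ i, star (f (Pi.single i 1)) • (b i : V) = 0 := by
      refine hU _ (Submodule.sum_mem _ fun i _ => U.smul_mem _ (hL (b i).2)) fun y hy => ?_
      have h1 : H.h (∑ i, star (f (Pi.single i 1)) • (b i : V)) y =
          ∑ i, f (Pi.single i 1) * H.h (b i : V) y := by
        have h2 : ∀ s : Finset (Fin (finrank K L)),
            H.h (∑ i ∈ s, star (f (Pi.single i 1)) • (b i : V)) y =
              ∑ i ∈ s, f (Pi.single i 1) * H.h (b i : V) y := by
          intro s
          induction s using Finset.cons_induction with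
          | empty => simp [H.zero_left]
          | cons a s ha ih => rw [Finset.sum_cons, Finset.sum_cons, H.add_left, ih, H.smul_left,
              star_star]
        exact h2 Finset.univ
      rw [h1]
      have h3 := hle ⟨⟨y, hy⟩, rfl⟩
      rw [LinearMap.mem_ker, hsum] at h3
      exact h3
    have h1 : ∑ i, star (f (Pi.single i 1)) • b i = 0 := by
      apply Subtype.ext
      rw [Submodule.coe_sum, Submodule.coe_zero, ← h0]
      rfl
    have h2 := Fintype.linearIndependent_iff.1 b.linearIndependent _ h1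
    apply LinearMap.ext
    intro v
    rw [hsum, LinearMap.zero_apply]
    refine Finset.sum_eq_zero fun i _ => ?_
    rw [star_eq_zero.1 (h2 i), zero_mul]
  have hle : L.comap U.subtype ≤ LinearMap.ker φ := by
    intro x hx
    rw [LinearMap.mem_ker]
    funext i
    rw [hφ]
    exact OSub_polar H hK hall (b i).2 hx
  have h1 := φ.finrank_range_add_finrank_ker
  rw [hsurj, finrank_top, Module.finrank_fin_fun] at h1
  have h2 := Submodule.finrank_mono hle
  rw [(Submodule.comapSubtypeEquivOfLe hL).finrank_eq] at h2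
  omega

theorem split_ND {a : V} (hU : H.ND U) (ha : a ∈ U) (haa : H.h a a ≠ 0) :
    H.ND (U ⊓ LinearMap.ker (H.h a)) := by
  rintro x ⟨hx, hxa⟩ hxy
  have hax : H.h a x = 0 := hxa
  have hxa' : H.h x a = 0 := H.swap_zero.1 hax
  refine hU x hx fun y hy => ?_
  have h1 := hxy (y - (H.h a y / H.h a a) • a) ⟨U.sub_mem hy (U.smul_mem _ ha), by
    show H.h a (y - (H.h a y / H.h a a) • a) = 0
    rw [map_sub, map_smul, smul_eq_mul, div_mul_cancel₀ _ haa, sub_self]⟩
  rw [map_sub, map_smul, hxa', smul_zero, sub_zero] at h1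
  exact h1

theorem split_finrank [FiniteDimensional K V] {a : V} (ha : a ∈ U) (haa : H.h a a ≠ 0) :
    finrank K U = finrank K (U ⊓ LinearMap.ker (H.h a) : Submodule K V) + 1 := by
  let φ : U →ₗ[K] K := (H.h a).comp U.subtype
  have hsurj : Function.Surjective φ := by
    intro p
    refine ⟨⟨(p / H.h a a) • a, U.smul_mem _ ha⟩, ?_⟩
    show H.h a ((p / H.h a a) • a) = p
    rw [map_smul, smul_eq_mul, div_mul_cancel₀ _ haa]
  have hle : U ⊓ LinearMap.ker (H.h a) ≤ U := inf_le_left
  have hker : LinearMap.ker φ = (U ⊓ LinearMap.ker (H.h a)).comap U.subtype := by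
    ext x
    exact ⟨fun h => ⟨x.2, h⟩, fun h => h.2⟩
  have h1 := φ.finrank_range_add_finrank_ker
  rw [LinearMap.range_eq_top.2 hsurj, finrank_top, hker,
    (Submodule.comapSubtypeEquivOfLe hle).finrank_eq, finrank_self] at h1
  omega

/-- `noniso_in` (with `L = U`), `split_ND`, `split_finrank`, `hyp_exists`, `hyp_mono` -/
theorem hyp_odd [Finite K] [FiniteDimensional K V] (hK : ∃ x : K, star x ≠ x) {n : ℕ} (hU : H.ND U)
    (hn : finrank K U = 2 * n + 1) : ∃ w w' : Fin n → V, H.Hyp U n w w' := by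
  obtain ⟨a, ha, haa⟩ := noniso_in H hK hU le_rfl (by omega)
  have h1 := split_ND H hU ha haa
  have h2 := split_finrank H ha haa
  obtain ⟨w, w', h⟩ := hyp_exists H hK h1 (n := n) (by omega)
  exact ⟨w, w', hyp_mono H inf_le_left h⟩

/-- `hyp_odd`; `c * star c = 1` because `U ≠ 0` and `c ^ (2 n + 1) = det G = 1` -/
theorem altB_scal [Finite K] [FiniteDimensional K V] (hK : ∃ x : K, star x ≠ x) {n : ℕ}
    (hU : H.ND ⊤) (hn : finrank K V = 2 * n + 1) (hG : H.Iso ⊤ G) (hd : LinearMap.det G = 1)
    (hs : Scal ⊤ G) : H.AltB G n := by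
  obtain ⟨c, hc⟩ := hs
  obtain ⟨w, w', h⟩ := hyp_odd H hK hU (by rw [finrank_top, hn])
  refine ⟨c, ?_, ?_, w, w', h, fun i j => ?_⟩
  · have hne : (⊤ : Submodule K V) ≠ ⊥ := by
      intro h0
      have h1 : finrank K (⊤ : Submodule K V) = 0 := by rw [h0, finrank_bot]
      rw [finrank_top, hn] at h1
      omega
    obtain ⟨x, hx, hx0⟩ := Submodule.exists_mem_ne_zero_of_ne_bot hne
    have h1 : ¬ ∀ y ∈ (⊤ : Submodule K V), H.h x y = 0 := fun h => hx0 (hU x hx h)
    push Not at h1
    obtain ⟨y, hy, hxy⟩ := h1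
    have h2 := hG.2 x hx y hy
    rw [hc x hx, hc y hy, H.smul_left, map_smul, smul_eq_mul, ← mul_assoc] at h2
    have h3 : star c * c = 1 := mul_right_cancel₀ hxy (by rw [h2, one_mul])
    rw [mul_comm]
    exact h3
  · have h1 : G = c • LinearMap.id := by
      ext x
      rw [hc x trivial, LinearMap.smul_apply, LinearMap.id_apply]
    rw [h1, LinearMap.det_smul, LinearMap.det_id, mul_one, hn] at hd
    exact hd
  · rw [hc _ trivial, map_smul, h.dual]
    split_ifs
    · simp
    · simp

end ThU
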