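import Pool.Agent.ThU.OGDefs
import Pool.Agent.ThU.OSub

/-! # Module OFrame -/

namespace ThU
open Matrix Polynomial Module

variable {K : Type*} [Field K] [StarRing K] {n : ℕ}

private theorem OFrame_dot {m : Type*} [Fintype m] (x y : m → K) :
    (stdG K m).h x y = star x ⬝ᵥ y := rfl

/-- as `stdH_ND` -/
theorem stdG_ND {m : Type*} [Fintype m] : (stdG K m).ND ⊤ := by
  classical
  intro x _ hx
  funext j
  have h1 := hx (Pi.single j 1) trivial
  rw [stdG_apply, Finset.sum_eq_single j] at h1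
  · rw [Pi.single_eq_same, mul_one, star_eq_zero] at h1
    exact h1
  · intro b _ hb
    rw [Pi.single_eq_of_ne hb, mul_zero]
  · intro h
    exact absurd (Finset.mem_univ _) h

/-- as `stdH_iso` -/
theorem stdG_iso {m : Type*} [Fintype m] [DecidableEq m] {g : Matrix m m K} (hg : gᴴ * g = 1) :
    (stdG K m).Iso ⊤ (Matrix.toLin' g) := by
  refine ⟨fun _ _ => trivial, fun x _ y _ => ?_⟩
  rw [OFrame_dot, OFrame_dot, Matrix.toLin'_apply, Matrix.toLin'_apply, Matrix.star_mulVec,
    Matrix.dotProduct_mulVec, Matrix.vecMul_vecMul, hg, Matrix.vecMul_one]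

/-- the vector `d` -/
private theorem OFrame_d [Finite K] (hK : ∃ x : K, star x ≠ x) {w w' : Fin n → (Jx n → K)}
    (h : (stdG K (Jx n)).Hyp ⊤ n w w') : ∃ d : Jx n → K,
      (∀ i, (stdG K (Jx n)).h (w i) d = 0) ∧ (∀ i, (stdG K (Jx n)).h (w' i) d = 0) ∧
      (stdG K (Jx n)).h d d = 1 := by
  set H := stdG K (Jx n) with hH
  set φ : (Jx n → K) →ₗ[K] (Ix n → K) := LinearMap.pi fun s => H.h (Sum.elim w w' s) with hφ
  set D := LinearMap.ker φ with hD
  have hmem : ∀ x, x ∈ D ↔ (∀ i, H.h (w i) x = 0) ∧ ∀ i, H.h (w' i) x = 0 := by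
    intro x
    rw [hD, LinearMap.mem_ker]
    constructor
    · intro h1
      exact ⟨fun i => congrFun h1 (Sum.inl i), fun i => congrFun h1 (Sum.inr i)⟩
    · rintro ⟨h1, h2⟩
      funext s
      rcases s with i | i
      · exact h1 i
      · exact h2 i
  have hfr : 0 < finrank K D := by
    have h1 := LinearMap.finrank_range_add_finrank_ker φ
    have h2 : finrank K (LinearMap.range φ) ≤ finrank K (Ix n → K) := Submodule.finrank_le _
    rw [Module.finrank_fintype_fun_eq_card] at h1 h2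
    simp only [Fintype.card_sum, Fintype.card_fin, Fintype.card_unit] at h1 h2
    rw [← hD] at h1
    omega
  have hww' : ∀ i j, H.h (w i) (w' j) = if i = j then 1 else 0 := by
    intro i j
    rw [H.symm (w' j) (w i), h.dual j i]
    by_cases hij : i = j
    · rw [if_pos hij, if_pos hij.symm, star_one]
    · rw [if_neg hij, if_neg (fun h => hij h.symm), star_zero]
  have hproj : ∀ x : Jx n → K,
      x - (∑ i, H.h (w' i) x • w i + ∑ i, H.h (w i) x • w' i) ∈ D := by
    intro x
    rw [hmem]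
    constructor
    · intro j
      rw [map_sub, map_add, map_sum, map_sum]
      simp only [map_smul, h.iso, hww', smul_eq_mul, mul_zero, Finset.sum_const_zero, mul_ite,
        mul_one, Finset.sum_ite_eq, Finset.mem_univ, if_true, zero_add, sub_self]
    · intro j
      rw [map_sub, map_add, map_sum, map_sum]
      simp only [map_smul, h.iso', h.dual, smul_eq_mul, mul_zero, Finset.sum_const_zero, mul_ite,
        mul_one, Finset.sum_ite_eq, Finset.mem_univ, if_true, add_zero, sub_self]
  have hND : H.ND D := by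
    intro d hd hdD
    refine stdG_ND d trivial fun y _ => ?_
    have h1 := hdD _ (hproj y)
    have h2 := (hmem d).1 hd
    have h3 : ∀ i, H.h d (w i) = 0 := fun i => H.swap_zero.1 (h2.1 i)
    have h4 : ∀ i, H.h d (w' i) = 0 := fun i => H.swap_zero.1 (h2.2 i)
    rw [map_sub, map_add, map_sum, map_sum] at h1
    simp only [map_smul, h3, h4, smul_zero, Finset.sum_const_zero, add_zero, sub_zero] at h1
    exact h1
  obtain ⟨x, hx, hxx⟩ := noniso_in H hK hND (L := D) le_rfl (by omega)
  obtain ⟨c, hc⟩ := fld_norm hK (H.h x x)⁻¹ (by rw [star_inv₀, H.symm'])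
  have hx' := (hmem x).1 hx
  refine ⟨c • x, fun i => ?_, fun i => ?_, ?_⟩
  · rw [map_smul, hx'.1 i, smul_zero]
  · rw [map_smul, hx'.2 i, smul_zero]
  · rw [map_smul, H.smul_left, smul_eq_mul, ← mul_assoc, hc, inv_mul_cancel₀ hxx]

/-- the matrix with the columns `w j`, `w' j`, `d` -/
private def OFrame_P (w w' : Fin n → (Jx n → K)) (d : Jx n → K) : Matrix (Jx n) (Jx n) K :=
  Matrix.of fun i s => Sum.elim (Sum.elim w w') (fun _ => d) s i

private theorem OFrame_entry (w w' : Fin n → (Jx n → K)) (d : Jx n → K)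
    (g : Matrix (Jx n) (Jx n) K) (s t : Jx n) :
    ((OFrame_P w w' d)ᴴ * g * OFrame_P w w' d) s t =
      (stdG K (Jx n)).h (Sum.elim (Sum.elim w w') (fun _ => d) s)
        (Matrix.toLin' g (Sum.elim (Sum.elim w w') (fun _ => d) t)) := by
  rw [OFrame_dot, Matrix.toLin'_apply, Matrix.mul_assoc, Matrix.mul_apply]
  rfl

private theorem OFrame_JO : JO K n * JO K n = 1 := by
  unfold JO JJ
  rw [fromBlocks_multiply, fromBlocks_multiply]
  simp

/-- As `frame_hyp`; the last column of `P` is a vector `d` orthogonal to all `w i`, `w' i` with `h d d = 1`: the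
orthogonal space of the span of the `w i`, `w' i` (which is nondegenerate of dimension `2 n`) is one-dimensional and not
isotropic; scale with `fld_norm`.  `P⁻¹ = JO * Pᴴ` (`JO * JO = 1`). -/
theorem frame_odd [Finite K] (hK : ∃ x : K, star x ≠ x) {w w' : Fin n → (Jx n → K)}
    (h : (stdG K (Jx n)).Hyp ⊤ n w w') (g : Matrix (Jx n) (Jx n) K) :
    ∃ P : Matrix (Jx n) (Jx n) K, Pᴴ * P = JO K n ∧
      ∀ i j, (P⁻¹ * g * P).toBlocks₁₁.toBlocks₁₁ i j =
        (stdG K (Jx n)).h (w' i) (Matrix.toLin' g (w j)) := by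
  obtain ⟨d, hd, hd', hdd⟩ := OFrame_d hK h
  have hdw : ∀ i, (stdG K (Jx n)).h d (w i) = 0 := fun i => (stdG K (Jx n)).swap_zero.1 (hd i)
  have hdw' : ∀ i, (stdG K (Jx n)).h d (w' i) = 0 := fun i => (stdG K (Jx n)).swap_zero.1 (hd' i)
  have h1 : (OFrame_P w w' d)ᴴ * OFrame_P w w' d = JO K n := by
    ext s t
    have h2 := OFrame_entry w w' d 1 s t
    rw [Matrix.mul_one, Matrix.toLin'_one, LinearMap.id_apply] at h2
    rw [h2]
    unfold JO JJ
    rcases s with (i | i) | u <;> rcases t with (j | j) | v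
    · exact h.iso i j
    · have h3 := h.dual j i
      show (stdG K (Jx n)).h (w i) (w' j) = (1 : Matrix (Fin n) (Fin n) K) i j
      rw [(stdG K (Jx n)).symm (w' j) (w i), h3, Matrix.one_apply]
      by_cases hij : i = j
      · rw [if_pos hij, if_pos hij.symm, star_one]
      · rw [if_neg hij, if_neg (fun h => hij h.symm), star_zero]
    · exact hd i
    · exact h.dual i j
    · exact h.iso' i j
    · exact hd' i
    · exact hdw j
    · exact hdw' j
    · exact hdd
  refine ⟨OFrame_P w w' d, h1, fun i j => ?_⟩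
  have h2 : (OFrame_P w w' d)⁻¹ = JO K n * (OFrame_P w w' d)ᴴ := by
    apply Matrix.inv_eq_left_inv
    rw [Matrix.mul_assoc, h1, OFrame_JO]
  rw [h2, Matrix.mul_assoc, Matrix.mul_assoc]
  have h3 := OFrame_entry w w' d g (Sum.inl (Sum.inr i)) (Sum.inl (Sum.inl j))
  have h4 : (JO K n * ((OFrame_P w w' d)ᴴ * (g * OFrame_P w w' d))).toBlocks₁₁.toBlocks₁₁ i j =
      ((OFrame_P w w' d)ᴴ * (g * OFrame_P w w' d)) (Sum.inl (Sum.inr i)) (Sum.inl (Sum.inl j)) := by
    show (JO K n * ((OFrame_P w w' d)ᴴ * (g * OFrame_P w w' d))) (Sum.inl (Sum.inl i))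
      (Sum.inl (Sum.inl j)) = _
    rw [Matrix.mul_apply, Fintype.sum_sum_type, Fintype.sum_sum_type]
    unfold JO JJ
    simp only [fromBlocks_apply₁₁, fromBlocks_apply₁₂, Matrix.zero_apply, zero_mul,
      Finset.sum_const_zero, zero_add, add_zero, Matrix.one_apply, ite_mul, one_mul,
      Finset.sum_ite_eq, Finset.mem_univ, if_true]
  rw [h4, ← Matrix.mul_assoc, h3]
  rfl

end ThU
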