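import Pool.Agent.ThU.OGDefs

/-! # Module OGrpF -/

set_option linter.unusedSectionVars false

namespace ThU
open Matrix Polynomial Module

variable {K : Type*} [Field K] [StarRing K] {n : ℕ}

/-- matrix with nine blocks -/
private def OGrpF_T (a b : Matrix (Fin n) (Fin n) K) (β : Matrix (Fin n) Unit K)
    (c d : Matrix (Fin n) (Fin n) K) (r : Matrix (Fin n) Unit K) (p q : Matrix Unit (Fin n) K)
    (s : Matrix Unit Unit K) : Matrix (Jx n) (Jx n) K :=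
  fromBlocks (fromBlocks a b c d) (fromRows β r) (fromCols p q) s

private theorem OGrpF_mul (a b : Matrix (Fin n) (Fin n) K) (β : Matrix (Fin n) Unit K)
    (c d : Matrix (Fin n) (Fin n) K) (r : Matrix (Fin n) Unit K) (p q : Matrix Unit (Fin n) K)
    (s : Matrix Unit Unit K) (a' b' : Matrix (Fin n) (Fin n) K) (β' : Matrix (Fin n) Unit K)
    (c' d' : Matrix (Fin n) (Fin n) K) (r' : Matrix (Fin n) Unit K) (p' q' : Matrix Unit (Fin n) K)
    (s' : Matrix Unit Unit K) :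
    OGrpF_T a b β c d r p q s * OGrpF_T a' b' β' c' d' r' p' q' s' =
      OGrpF_T (a * a' + b * c' + β * p') (a * b' + b * d' + β * q') (a * β' + b * r' + β * s')
        (c * a' + d * c' + r * p') (c * b' + d * d' + r * q') (c * β' + d * r' + r * s')
        (p * a' + q * c' + s * p') (p * b' + q * d' + s * q') (p * β' + q * r' + s * s') := by
  ext i j
  rw [Matrix.mul_apply, Fintype.sum_sum_type, Fintype.sum_sum_type]
  rcases i with (i | i) | i <;> rcases j with (j | j) | j <;>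
    simp only [OGrpF_T, fromBlocks_apply₁₁, fromBlocks_apply₁₂, fromBlocks_apply₂₁,
      fromBlocks_apply₂₂, fromRows_apply_inl, fromRows_apply_inr, fromCols_apply_inl,
      fromCols_apply_inr, Matrix.add_apply, Matrix.mul_apply]

private theorem OGrpF_ct (a b : Matrix (Fin n) (Fin n) K) (β : Matrix (Fin n) Unit K)
    (c d : Matrix (Fin n) (Fin n) K) (r : Matrix (Fin n) Unit K) (p q : Matrix Unit (Fin n) K)
    (s : Matrix Unit Unit K) : (OGrpF_T a b β c d r p q s)ᴴ =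
      OGrpF_T aᴴ cᴴ pᴴ bᴴ dᴴ qᴴ βᴴ rᴴ sᴴ := by
  ext i j
  rw [Matrix.conjTranspose_apply]
  rcases i with (i | i) | i <;> rcases j with (j | j) | j <;>
    simp only [OGrpF_T, fromBlocks_apply₁₁, fromBlocks_apply₁₂, fromBlocks_apply₂₁,
      fromBlocks_apply₂₂, fromRows_apply_inl, fromRows_apply_inr, fromCols_apply_inl,
      fromCols_apply_inr, Matrix.conjTranspose_apply]

private theorem OGrpF_ex (M : Matrix (Jx n) (Jx n) K) : ∃ a b β c d r p q s,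
    M = OGrpF_T a b β c d r p q s := by
  refine ⟨M.toBlocks₁₁.toBlocks₁₁, M.toBlocks₁₁.toBlocks₁₂, M.toBlocks₁₂.toRows₁,
    M.toBlocks₁₁.toBlocks₂₁, M.toBlocks₁₁.toBlocks₂₂, M.toBlocks₁₂.toRows₂,
    M.toBlocks₂₁.toCols₁, M.toBlocks₂₁.toCols₂, M.toBlocks₂₂, ?_⟩
  unfold OGrpF_T
  rw [fromBlocks_toBlocks, fromRows_toRows, fromCols_toCols, fromBlocks_toBlocks]

private theorem OGrpF_inj {a b : Matrix (Fin n) (Fin n) K} {β : Matrix (Fin n) Unit K}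
    {c d : Matrix (Fin n) (Fin n) K} {r : Matrix (Fin n) Unit K} {p q : Matrix Unit (Fin n) K}
    {s : Matrix Unit Unit K} {a' b' : Matrix (Fin n) (Fin n) K} {β' : Matrix (Fin n) Unit K}
    {c' d' : Matrix (Fin n) (Fin n) K} {r' : Matrix (Fin n) Unit K} {p' q' : Matrix Unit (Fin n) K}
    {s' : Matrix Unit Unit K}
    (h : OGrpF_T a b β c d r p q s = OGrpF_T a' b' β' c' d' r' p' q' s') :
    (a = a' ∧ b = b' ∧ β = β') ∧ (c = c' ∧ d = d' ∧ r = r') ∧ p = p' ∧ q = q' ∧ s = s' := by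
  unfold OGrpF_T at h
  rw [fromBlocks_inj, fromBlocks_inj] at h
  obtain ⟨⟨h1, h2, h3, h4⟩, h5, h6, h7⟩ := h
  obtain ⟨h8, h9⟩ := fromRows_inj h5
  obtain ⟨h10, h11⟩ := fromCols_inj h6
  exact ⟨⟨h1, h2, h8⟩, ⟨h3, h4, h9⟩, h10, h11, h7⟩

private theorem OGrpF_JO : JO K n = OGrpF_T 0 1 0 1 0 0 0 0 1 := by
  unfold JO JJ OGrpF_T
  rw [fromBlocks_inj]
  refine ⟨rfl, ?_, ?_, rfl⟩
  · rw [fromRows_zero]
  · rw [fromCols_zero]

private theorem OGrpF_JJ : JO K n * JO K n = 1 := by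
  unfold JO JJ
  rw [fromBlocks_multiply, fromBlocks_multiply]
  simp

/-- both forms of the unitarity -/
private theorem OGrpF_un (M : Matrix (Jx n) (Jx n) K) :
    Mᴴ * JO K n * M = JO K n ↔ M * JO K n * Mᴴ = JO K n := by
  constructor
  · intro h
    have h1 : JO K n * Mᴴ * JO K n * M = 1 := by
      rw [Matrix.mul_assoc (JO K n), Matrix.mul_assoc (JO K n), h, OGrpF_JJ]
    have h2 := mul_eq_one_comm.1 h1
    have h3 : M * JO K n * Mᴴ * JO K n * JO K n = JO K n := by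
      have h4 : M * JO K n * Mᴴ * JO K n = 1 := by
        rw [← h2]
        simp only [Matrix.mul_assoc]
      rw [h4, Matrix.one_mul]
    rw [Matrix.mul_assoc _ (JO K n) (JO K n), OGrpF_JJ, Matrix.mul_one] at h3
    exact h3
  · intro h
    have h1 : M * (JO K n * Mᴴ * JO K n) = 1 := by
      have h2 : M * (JO K n * Mᴴ * JO K n) = M * JO K n * Mᴴ * JO K n := by
        simp only [Matrix.mul_assoc]
      rw [h2, h, OGrpF_JJ]
    have h2 := mul_eq_one_comm.1 h1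
    have h3 : JO K n * (JO K n * Mᴴ * JO K n * M) = JO K n := by rw [h2, Matrix.mul_one]
    have h4 : JO K n * (JO K n * Mᴴ * JO K n * M) = (JO K n * JO K n) * (Mᴴ * JO K n * M) := by
      simp only [Matrix.mul_assoc]
    rw [h4, OGrpF_JJ, Matrix.one_mul] at h3
    exact h3

private theorem OGrpF_detL (A c d : Matrix (Fin n) (Fin n) K) (r : Matrix (Fin n) Unit K)
    (p : Matrix Unit (Fin n) K) (s : Matrix Unit Unit K) :
    (OGrpF_T A 0 0 c d r p 0 s).det = A.det * (d.det * s.det) := by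
  have h1 : OGrpF_T A 0 0 c d r p 0 s = OGrpF_T A 0 0 c 1 0 p 0 1 * OGrpF_T 1 0 0 0 d r 0 0 s := by
    rw [OGrpF_mul]
    simp
  rw [h1, det_mul]
  unfold OGrpF_T
  rw [fromRows_zero, det_fromBlocks_zero₁₂, det_fromBlocks_zero₁₂, fromCols_zero,
    det_fromBlocks_zero₂₁, det_fromBlocks_zero₂₁, det_one, det_one]
  ring

private theorem OGrpF_detU (A b d : Matrix (Fin n) (Fin n) K) (β : Matrix (Fin n) Unit K)
    (ρ : Matrix Unit (Fin n) K) : (OGrpF_T A b β 0 d 0 0 ρ 1).det = A.det * d.det := by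
  have h1 : OGrpF_T A b β 0 d 0 0 ρ 1 = OGrpF_T 1 0 0 0 d 0 0 ρ 1 * OGrpF_T A b β 0 1 0 0 0 1 := by
    rw [OGrpF_mul]
    simp
  rw [h1, det_mul]
  unfold OGrpF_T
  rw [fromRows_zero, det_fromBlocks_zero₁₂, det_fromBlocks_zero₂₁, fromCols_zero,
    det_fromBlocks_zero₂₁, det_fromBlocks_zero₂₁, det_one, det_one]
  ring

/-- Let `[a, b0, β0]` (order `W`, `W'`, `D`) be the first block row of `M`, `a = A1 * A2`; `[A2, b, β] = A1⁻¹ * [a, b0, β0]`.  From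
`M * JO * Mᴴ = JO` (equivalent to `hM`): `a * b0ᴴ + b0 * aᴴ + β0 * β0ᴴ = 0`, hence the same for `A2, b, β`; with
`ρ = - βᴴ * (A2ᴴ)⁻¹` we have `UO A2 b β ρ * JO * (UO A2 b β ρ)ᴴ = JO`.  `L = M * (UO A2 b β ρ)⁻¹` has the first block row
`[A1, 0, 0]` and `L * JO * Lᴴ = JO`; this gives `L = LO A1 c r p s`.  Determinants:
`1 = det M = det L * det (UO ..) = (det A1 / star (det A1)) * s * (det A2 / star (det A2))`, so `s = 1`. -/
theorem fac_odd {M : Matrix (Jx n) (Jx n) K} {A1 A2 : Matrix (Fin n) (Fin n) K}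
    (hM : Mᴴ * JO K n * M = JO K n) (hdet : M.det = 1) (h1 : IsUnit A1.det) (h2 : IsUnit A2.det)
    (ha : M.toBlocks₁₁.toBlocks₁₁ = A1 * A2) (hs : star (A1 * A2).det = (A1 * A2).det) :
    ∃ (b c : Matrix (Fin n) (Fin n) K) (β r : Matrix (Fin n) Unit K) (ρ p : Matrix Unit (Fin n) K),
      (LO A1 c r p 1)ᴴ * JO K n * LO A1 c r p 1 = JO K n ∧
      (UO A2 b β ρ)ᴴ * JO K n * UO A2 b β ρ = JO K n ∧ M = LO A1 c r p 1 * UO A2 b β ρ := by
  have u1 : IsUnit A1ᴴ.det := by rw [Matrix.det_conjTranspose]; exact h1.star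
  have u2 : IsUnit A2ᴴ.det := by rw [Matrix.det_conjTranspose]; exact h2.star
  have k1 : A1 * A1⁻¹ = 1 := Matrix.mul_nonsing_inv _ h1
  have k1' : A1⁻¹ * A1 = 1 := Matrix.nonsing_inv_mul _ h1
  have k2 : A2 * A2⁻¹ = 1 := Matrix.mul_nonsing_inv _ h2
  have l1 : A1ᴴ * (A1ᴴ)⁻¹ = 1 := Matrix.mul_nonsing_inv _ u1
  have l1' : (A1ᴴ)⁻¹ * A1ᴴ = 1 := Matrix.nonsing_inv_mul _ u1
  have l2 : A2ᴴ * (A2ᴴ)⁻¹ = 1 := Matrix.mul_nonsing_inv _ u2
  have l2' : (A2ᴴ)⁻¹ * A2ᴴ = 1 := Matrix.nonsing_inv_mul _ u2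
  have l3 : ((A2ᴴ)⁻¹)ᴴ = A2⁻¹ := by
    rw [Matrix.conjTranspose_nonsing_inv, Matrix.conjTranspose_conjTranspose]
  obtain ⟨a, b0, β0, c0, d0, r0, p0, q0, s0, rfl⟩ := OGrpF_ex M
  have ha' : a = A1 * A2 := ha
  -- the first block row
  have hrow := (OGrpF_un _).1 hM
  rw [OGrpF_ct, OGrpF_JO, OGrpF_mul, OGrpF_mul] at hrow
  have hr := (OGrpF_inj hrow).1.1
  simp only [Matrix.mul_zero, Matrix.mul_one, zero_add, add_zero] at hr
  obtain ⟨b, hb⟩ : ∃ b, b = A1⁻¹ * b0 := ⟨_, rfl⟩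
  obtain ⟨β, hβ⟩ : ∃ β, β = A1⁻¹ * β0 := ⟨_, rfl⟩
  have hb0 : b0 = A1 * b := by rw [hb, ← Matrix.mul_assoc, k1, Matrix.one_mul]
  have hβ0 : β0 = A1 * β := by rw [hβ, ← Matrix.mul_assoc, k1, Matrix.one_mul]
  have hr2 : b * A2ᴴ + A2 * bᴴ + β * βᴴ = 0 := by
    have e1 : A1 * (b * A2ᴴ + A2 * bᴴ + β * βᴴ) * A1ᴴ = 0 := by
      rw [← hr, ha', hb0, hβ0]
      simp only [conjTranspose_mul, Matrix.mul_add, Matrix.add_mul, Matrix.mul_assoc]
    have e2 : A1⁻¹ * (A1 * (b * A2ᴴ + A2 * bᴴ + β * βᴴ) * A1ᴴ) * (A1ᴴ)⁻¹ =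
        b * A2ᴴ + A2 * bᴴ + β * βᴴ := by
      rw [Matrix.mul_assoc, Matrix.mul_assoc, Matrix.mul_assoc, l1, Matrix.mul_one,
        ← Matrix.mul_assoc, k1', Matrix.one_mul]
    rw [← e2, e1, Matrix.mul_zero, Matrix.zero_mul]
  obtain ⟨ρ, hρ⟩ : ∃ ρ, ρ = -(βᴴ * (A2ᴴ)⁻¹) := ⟨_, rfl⟩
  have hρs : ρᴴ = -(A2⁻¹ * β) := by
    rw [hρ, conjTranspose_neg, conjTranspose_mul, l3, conjTranspose_conjTranspose]
  have hUT : UO A2 b β ρ = OGrpF_T A2 b β 0 (A2ᴴ)⁻¹ 0 0 ρ 1 := rfl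
  have hU : UO A2 b β ρ * JO K n * (UO A2 b β ρ)ᴴ = JO K n := by
    rw [hUT, OGrpF_ct, OGrpF_JO, OGrpF_mul, OGrpF_mul, l3, hρs]
    have e1 : A2 * -(A2⁻¹ * β) + β = 0 := by
      rw [Matrix.mul_neg, ← Matrix.mul_assoc, k2, Matrix.one_mul, neg_add_cancel]
    have e2 : ρ * A2ᴴ + βᴴ = 0 := by
      rw [hρ, Matrix.neg_mul, Matrix.mul_assoc, l2', Matrix.mul_one, neg_add_cancel]
    simp only [Matrix.mul_zero, Matrix.mul_one, zero_add, add_zero, Matrix.zero_mul,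
      Matrix.one_mul, conjTranspose_zero, conjTranspose_one, k2, l2', hr2, e1, e2]
  have hU' := (OGrpF_un _).2 hU
  -- the inverse of `U`
  obtain ⟨W, hW⟩ : ∃ W, W = JO K n * (UO A2 b β ρ)ᴴ * JO K n := ⟨_, rfl⟩
  have hWU : W * UO A2 b β ρ = 1 := by
    rw [hW, Matrix.mul_assoc (JO K n), Matrix.mul_assoc (JO K n), hU', OGrpF_JJ]
  have hUW : UO A2 b β ρ * W = 1 := mul_eq_one_comm.1 hWU
  obtain ⟨L, hL⟩ : ∃ L, L = OGrpF_T a b0 β0 c0 d0 r0 p0 q0 s0 * W := ⟨_, rfl⟩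
  have hLU : OGrpF_T a b0 β0 c0 d0 r0 p0 q0 s0 = L * UO A2 b β ρ := by
    rw [hL, Matrix.mul_assoc, hWU, Matrix.mul_one]
  have hLJ : Lᴴ * JO K n * L = JO K n := by
    have e1 : (UO A2 b β ρ)ᴴ * (Lᴴ * JO K n * L) * UO A2 b β ρ =
        (UO A2 b β ρ)ᴴ * JO K n * UO A2 b β ρ := by
      have e0 := hM
      rw [hLU, conjTranspose_mul] at e0
      rw [hU']
      refine Eq.trans ?_ e0
      simp only [Matrix.mul_assoc]
    have hWU' : (UO A2 b β ρ * W)ᴴ = 1 := by rw [hUW, conjTranspose_one]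
    rw [conjTranspose_mul] at hWU'
    have e2 : ∀ X : Matrix (Jx n) (Jx n) K,
        Wᴴ * ((UO A2 b β ρ)ᴴ * X * UO A2 b β ρ) * W = X := by
      intro X
      have e3 : Wᴴ * ((UO A2 b β ρ)ᴴ * X * UO A2 b β ρ) * W =
          (Wᴴ * (UO A2 b β ρ)ᴴ) * X * (UO A2 b β ρ * W) := by
        simp only [Matrix.mul_assoc]
      rw [e3, hWU', hUW, Matrix.one_mul, Matrix.mul_one]
    rw [← e2 (Lᴴ * JO K n * L), e1, e2]
  have hLJ' := (OGrpF_un _).1 hLJ
  obtain ⟨a', b', β', c, d, r, p, q, s, rfl⟩ := OGrpF_ex L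
  -- the first block row of `L`
  have hfirst : a' = A1 ∧ b' = 0 ∧ β' = 0 := by
    have e1 : OGrpF_T A1 0 0 0 0 0 0 0 0 * UO A2 b β ρ =
        OGrpF_T a b0 β0 0 0 0 0 0 0 := by
      rw [hUT, OGrpF_mul, ha', hb0, hβ0]
      simp only [Matrix.mul_zero, Matrix.mul_one, zero_add, add_zero, Matrix.zero_mul]
    have e2 : OGrpF_T a' b' β' 0 0 0 0 0 0 * UO A2 b β ρ =
        OGrpF_T a b0 β0 0 0 0 0 0 0 := by
      rw [hUT, OGrpF_mul] at hLU
      obtain ⟨⟨f1, f2, f3⟩, -, -⟩ := OGrpF_inj hLU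
      rw [hUT, OGrpF_mul, f1, f2, f3]
      simp only [Matrix.mul_zero, Matrix.mul_one, zero_add, add_zero, Matrix.zero_mul]
    have e3 : OGrpF_T a' b' β' 0 0 0 0 0 0 = OGrpF_T A1 0 0 0 0 0 0 0 0 := by
      have e4 : ∀ X : Matrix (Jx n) (Jx n) K, X = X * UO A2 b β ρ * W := fun X => by
        rw [Matrix.mul_assoc, hUW, Matrix.mul_one]
      rw [e4 (OGrpF_T a' b' β' 0 0 0 0 0 0), e2, ← e1, ← e4]
    exact (OGrpF_inj e3).1
  obtain ⟨rfl, rfl, rfl⟩ := hfirst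
  rw [OGrpF_ct, OGrpF_JO, OGrpF_mul, OGrpF_mul] at hLJ'
  obtain ⟨⟨-, g1, g2⟩, -, -⟩ := OGrpF_inj hLJ'
  simp only [Matrix.mul_zero, Matrix.mul_one, zero_add, add_zero, Matrix.zero_mul] at g1 g2
  have hd : d = (a'ᴴ)⁻¹ := by
    have e1 : d * a'ᴴ = 1 := by
      have e2 := congrArg conjTranspose g1
      rw [conjTranspose_mul, conjTranspose_conjTranspose, conjTranspose_one] at e2
      exact e2
    rw [← Matrix.mul_one d, ← l1, ← Matrix.mul_assoc, e1, Matrix.one_mul]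
  have hq : q = 0 := by
    have e1 : a'⁻¹ * (a' * qᴴ) = 0 := by rw [g2, Matrix.mul_zero]
    rw [← Matrix.mul_assoc, k1', Matrix.one_mul] at e1
    have e2 := congrArg conjTranspose e1
    rw [conjTranspose_conjTranspose, conjTranspose_zero] at e2
    exact e2
  subst hd hq
  have hdetM : 1 = a'.det * ((a'ᴴ)⁻¹.det * s.det) * (A2.det * (A2ᴴ)⁻¹.det) := by
    rw [← hdet, hLU, det_mul, hUT, OGrpF_detL, OGrpF_detU]
  have hx : (a'ᴴ)⁻¹.det * star a'.det = 1 := by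
    rw [← Matrix.det_conjTranspose, ← det_mul, l1', det_one]
  have hy : (A2ᴴ)⁻¹.det * star A2.det = 1 := by
    rw [← Matrix.det_conjTranspose, ← det_mul, l2', det_one]
  have hs1 : s.det = 1 := by
    rw [det_mul, star_mul'] at hs
    have e1 : (a'ᴴ)⁻¹.det * (A2ᴴ)⁻¹.det * (a'.det * A2.det) = 1 := by
      rw [← hs]
      linear_combination hx * ((A2ᴴ)⁻¹.det * star A2.det) + hy
    linear_combination -hdetM - s.det * e1
  have hs2 : s = 1 := by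
    ext i j
    rw [det_unique] at hs1
    have e1 : i = default := rfl
    have e2 : j = default := rfl
    rw [e1, e2, hs1, Matrix.one_apply_eq]
  subst hs2
  exact ⟨b, c, β, r, ρ, p, hLJ, hU', hLU⟩

end ThU
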