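import Pool.Agent.ThU.OGrpL
import Pool.Agent.ThU.OGrpF

/-! # Module OGrpB (the analogue of `GrpB`) -/

namespace ThU
open Matrix Polynomial Module

set_option linter.unusedSectionVars false

variable {K : Type*} [Field K] [StarRing K] {n : ℕ}

theorem OGrpB_JO_mul : JO K n * JO K n = 1 := by
  unfold JO
  rw [fromBlocks_multiply]
  simp only [Matrix.mul_zero, Matrix.zero_mul, add_zero, zero_add, Matrix.mul_one, GrpB_JJ_mul,
    fromBlocks_one]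

theorem OGrpB_JO_unit : IsUnit (JO K n).det := by
  have h := congrArg Matrix.det (OGrpB_JO_mul (K := K) (n := n))
  rw [det_mul, det_one] at h
  exact IsUnit.of_mul_eq_one _ h

theorem OGrpB_XO_mul (A B : Matrix (Fin n) (Fin n) K) : XO A * XO B = XO (A * B) := by
  unfold XO
  rw [fromBlocks_multiply]
  simp only [Matrix.mul_zero, Matrix.zero_mul, add_zero, zero_add, Matrix.mul_one, GrpB_XJ_mul]

theorem OGrpB_XO_det (A : Matrix (Fin n) (Fin n) K) : (XO A).det = A.det * (star A.det)⁻¹ := by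
  unfold XO
  rw [det_fromBlocks_zero₂₁, det_one, mul_one, GrpB_XJ_det]

/-- isometries of the form `JO` -/
def OGrpB_JU (u : Matrix (Jx n) (Jx n) K) : Prop := uᴴ * JO K n * u = JO K n ∧ IsUnit u.det

theorem OGrpB_JU_mul {u v : Matrix (Jx n) (Jx n) K} (hu : OGrpB_JU u) (hv : OGrpB_JU v) :
    OGrpB_JU (u * v) := by
  refine ⟨?_, ?_⟩
  · rw [conjTranspose_mul]
    calc vᴴ * uᴴ * JO K n * (u * v) = vᴴ * (uᴴ * JO K n * u) * v := by noncomm_ring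
      _ = JO K n := by rw [hu.1, hv.1]
  · rw [det_mul]
    exact hu.2.mul hv.2

theorem OGrpB_JU_ext {u : Matrix (Ix n) (Ix n) K} (hu : uᴴ * JJ K n * u = JJ K n)
    (h : IsUnit u.det) : OGrpB_JU (fromBlocks u 0 0 1 : Matrix (Jx n) (Jx n) K) := by
  refine ⟨?_, ?_⟩
  · unfold JO
    rw [fromBlocks_conjTranspose, fromBlocks_multiply, fromBlocks_multiply]
    simp only [conjTranspose_zero, conjTranspose_one, Matrix.mul_zero, Matrix.zero_mul, add_zero,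
      zero_add, Matrix.mul_one, hu]
  · rw [det_fromBlocks_zero₂₁, det_one, mul_one]
    exact h

theorem OGrpB_JU_XO {A : Matrix (Fin n) (Fin n) K} (h : IsUnit A.det) : OGrpB_JU (XO A) :=
  OGrpB_JU_ext (GrpB_JU_XJ h).1 (GrpB_JU_XJ h).2

theorem OGrpB_P_unit {P : Matrix (Jx n) (Jx n) K} (hP : Pᴴ * P = JO K n) : IsUnit P.det := by
  have h := congrArg Matrix.det hP
  rw [det_mul] at h
  have h1 : IsUnit ((Pᴴ).det * P.det) := by rw [h]; exact OGrpB_JO_unit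
  exact isUnit_of_mul_isUnit_right h1

/-- transport of isometries of `JO` -/
theorem OGrpB_unitary {P Q v : Matrix (Jx n) (Jx n) K} (hP : Pᴴ * P = JO K n)
    (hQ : Qᴴ * Q = JO K n) (hv : OGrpB_JU v) : (P * v * Q⁻¹)ᴴ * (P * v * Q⁻¹) = 1 := by
  have hQu := OGrpB_P_unit hQ
  rw [conjTranspose_mul, conjTranspose_mul]
  calc (Q⁻¹)ᴴ * (vᴴ * Pᴴ) * (P * v * Q⁻¹) = (Q⁻¹)ᴴ * (vᴴ * (Pᴴ * P) * v) * Q⁻¹ := by
        noncomm_ring
    _ = (Q⁻¹)ᴴ * (Qᴴ * Q) * Q⁻¹ := by rw [hP, hv.1, hQ]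
    _ = (Q * Q⁻¹)ᴴ * (Q * Q⁻¹) := by rw [conjTranspose_mul]; noncomm_ring
    _ = 1 := by rw [mul_nonsing_inv _ hQu, conjTranspose_one, Matrix.one_mul]

/-- as `xx_su` -/
theorem xo_su {P0 : Matrix (Jx n) (Jx n) K} {B : Matrix (Fin n) (Fin n) K} (hP0 : P0ᴴ * P0 = JO K n)
    (hB : Seed B) : (xo P0 B)ᴴ * xo P0 B = 1 ∧ (xo P0 B).det = 1 := by
  refine ⟨OGrpB_unitary hP0 hP0 (OGrpB_JU_XO hB.unit), ?_⟩
  have hP := OGrpB_P_unit hP0
  have h1 : (xo P0 B).det = (XO B).det := by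
    unfold xo
    rw [det_mul, det_mul, det_nonsing_inv, Ring.inverse_eq_inv']
    have := hP.ne_zero
    field_simp
  rw [h1, OGrpB_XO_det]
  obtain ⟨k, hk, h⟩ := hB.real
  have hk0 := hk.ne_zero
  have hb0 := hB.unit.ne_zero
  have hs0 : star B.det ≠ 0 := by simpa using hb0
  rcases h with h | h
  · have h2 := congrArg Matrix.det h
    rw [det_mul, det_mul, det_nonsing_inv, Ring.inverse_eq_inv'] at h2
    have h3 : B.det * B.det = 1 := by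
      field_simp at h2
      linear_combination -h2
    have h5 : star B.det = B.det := by
      rcases mul_self_eq_one_iff.1 h3 with h6 | h6
      · rw [h6, star_one]
      · rw [h6, star_neg, star_one]
    rw [h5, mul_inv_cancel₀ hb0]
  · have h2 := congrArg Matrix.det h
    rw [det_mul, det_mul, det_nonsing_inv, det_nonsing_inv, Ring.inverse_eq_inv',
      det_conjTranspose, mul_comm] at h2
    have h3 := mul_right_cancel₀ hk0 h2
    rw [← h3, mul_inv_cancel₀ hb0]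

/-- as `det_adj`; `det (XO C) = det C / star (det C)` -/
theorem det_adj_odd {P0 T : Matrix (Jx n) (Jx n) K} {B : Matrix (Fin n) (Fin n) K}
    (hP0 : P0ᴴ * P0 = JO K n) (hB : Seed B) (hT : Tᴴ * T = 1) :
    ∃ s : Matrix (Jx n) (Jx n) K, sᴴ * s = 1 ∧ s.det = 1 ∧
      s * xo P0 B * s⁻¹ = T * xo P0 B * T⁻¹ := by
  have hP := OGrpB_P_unit hP0
  have hd : star T.det * T.det = 1 := by
    have h1 := congrArg Matrix.det hT
    rwa [det_mul, det_conjTranspose, det_one] at h1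
  have hTu : IsUnit T.det := IsUnit.of_mul_eq_one _ (by rw [mul_comm]; exact hd)
  obtain ⟨C, hC, hCB, hCd⟩ := hB.cent (star T.det) (by rw [star_star]; exact hd)
  obtain ⟨Y, hY⟩ : ∃ Y, Y = P0 * XO C * P0⁻¹ := ⟨_, rfl⟩
  have hYu : Yᴴ * Y = 1 := by rw [hY]; exact OGrpB_unitary hP0 hP0 (OGrpB_JU_XO hC)
  have hYd : Y.det = star T.det := by
    rw [hY, det_mul, det_mul, det_nonsing_inv, Ring.inverse_eq_inv', OGrpB_XO_det]
    have h1 := hP.ne_zero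
    have h2 : star C.det ≠ 0 := by simpa using hC.ne_zero
    have h3 : C.det * (star C.det)⁻¹ = star T.det := by
      rw [eq_comm, ← div_eq_mul_inv, eq_div_iff h2]
      exact hCd.symm
    rw [mul_right_comm, mul_inv_cancel₀ h1, one_mul, h3]
  have hYun : IsUnit Y.det := by rw [hYd]; exact hTu.star
  have hcomm : Y * xo P0 B = xo P0 B * Y := by
    rw [hY]
    unfold xo
    have h1 : ∀ A D : Matrix (Fin n) (Fin n) K, P0 * XO A * P0⁻¹ * (P0 * XO D * P0⁻¹) =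
        P0 * XO (A * D) * P0⁻¹ := by
      intro A D
      calc P0 * XO A * P0⁻¹ * (P0 * XO D * P0⁻¹) = P0 * XO A * (P0⁻¹ * P0) * XO D * P0⁻¹ := by
            noncomm_ring
        _ = P0 * (XO A * XO D) * P0⁻¹ := by
            rw [nonsing_inv_mul _ hP]
            noncomm_ring
        _ = _ := by rw [OGrpB_XO_mul]
    rw [h1, h1, hCB]
  refine ⟨T * Y, ?_, ?_, ?_⟩
  · rw [conjTranspose_mul]
    calc Yᴴ * Tᴴ * (T * Y) = Yᴴ * (Tᴴ * T) * Y := by noncomm_ring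
      _ = 1 := by rw [hT, Matrix.mul_one, hYu]
  · rw [det_mul, hYd, mul_comm]
    exact hd
  · rw [Matrix.mul_inv_rev]
    calc T * Y * xo P0 B * (Y⁻¹ * T⁻¹) = T * (Y * xo P0 B) * Y⁻¹ * T⁻¹ := by noncomm_ring
      _ = T * xo P0 B * (Y * Y⁻¹) * T⁻¹ := by rw [hcomm]; noncomm_ring
      _ = T * xo P0 B * T⁻¹ := by rw [mul_nonsing_inv _ hYun, Matrix.mul_one]

/-- `real_XJ`, `u ↦ fromBlocks u 0 0 1` -/
theorem real_XO {B : Matrix (Fin n) (Fin n) K} (hB : Seed B) :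
    ∃ u : Matrix (Jx n) (Jx n) K, uᴴ * JO K n * u = JO K n ∧ IsUnit u.det ∧ XO B⁻¹ * u = u * XO B := by
  obtain ⟨u, h1, h2, h3⟩ := real_XJ hB
  have h4 := OGrpB_JU_ext h1 h2
  refine ⟨_, h4.1, h4.2, ?_⟩
  unfold XO
  rw [fromBlocks_multiply, fromBlocks_multiply]
  simp only [Matrix.mul_zero, Matrix.zero_mul, add_zero, zero_add, Matrix.mul_one, h3]

/-- an isometry conjugate to `XO B` -/
private theorem OGrpB_step {P0 P v L : Matrix (Jx n) (Jx n) K} {B : Matrix (Fin n) (Fin n) K}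
    (hP0 : P0ᴴ * P0 = JO K n) (hP : Pᴴ * P = JO K n) (hB : Seed B) (hv : OGrpB_JU v)
    (hL : L * v = v * XO B) : ∃ s : Matrix (Jx n) (Jx n) K, sᴴ * s = 1 ∧ s.det = 1 ∧
      s * xo P0 B * s⁻¹ = P * L * P⁻¹ := by
  have hP0u := OGrpB_P_unit hP0
  have hPu := OGrpB_P_unit hP
  obtain ⟨s, h1, h2, h3⟩ := det_adj_odd hP0 hB (OGrpB_unitary hP hP0 hv)
  refine ⟨s, h1, h2, h3.trans ?_⟩
  rw [GrpB_solve hv.2 hL]
  unfold xo
  rw [Matrix.mul_inv_rev, Matrix.mul_inv_rev, nonsing_inv_nonsing_inv _ hP0u]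
  calc P * v * P0⁻¹ * (P0 * XO B * P0⁻¹) * (P0 * (v⁻¹ * P⁻¹)) =
        P * v * (P0⁻¹ * P0) * XO B * (P0⁻¹ * P0) * v⁻¹ * P⁻¹ := by noncomm_ring
    _ = P * (v * XO B * v⁻¹) * P⁻¹ := by
        rw [nonsing_inv_mul _ hP0u]
        noncomm_ring

/-- As `main_block`: `A1 = S⁻¹ T B T⁻¹ S`, `A2 = S⁻¹ B⁻¹ S`; `fac_odd` for `P⁻¹ g P`, then `unip_low_odd`, `unip_up_odd`, `real_XO`,
`det_adj_odd`.  `det (A1 A2) = 1`; `A1 - 1`, `A2 - 1` are invertible since `B - 1` is. -/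
theorem main_block_odd (hK : ∃ x : K, star x ≠ x) {P0 P g : Matrix (Jx n) (Jx n) K}
    {B S1 T1 : Matrix (Fin n) (Fin n) K} (hP0 : P0ᴴ * P0 = JO K n) (hP : Pᴴ * P = JO K n)
    (hB : Seed B) (hB1 : IsUnit (B - 1).det) (hg : gᴴ * g = 1) (hgd : g.det = 1)
    (hS : IsUnit S1.det) (hT : IsUnit T1.det)
    (ha : S1 * (P⁻¹ * g * P).toBlocks₁₁.toBlocks₁₁ * S1⁻¹ = T1 * B * T1⁻¹ * B⁻¹) :
    ∃ s t : Matrix (Jx n) (Jx n) K, sᴴ * s = 1 ∧ s.det = 1 ∧ tᴴ * t = 1 ∧ t.det = 1 ∧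
      g = s * xo P0 B * s⁻¹ * (t * xo P0 B * t⁻¹) := by
  have hPu := OGrpB_P_unit hP
  have hb := hB.unit
  have hbi : IsUnit (B⁻¹).det := by
    rw [det_nonsing_inv, Ring.inverse_eq_inv']
    exact hb.inv
  have hSi : IsUnit (S1⁻¹).det := by
    rw [det_nonsing_inv, Ring.inverse_eq_inv']
    exact hS.inv
  have hTi : IsUnit (T1⁻¹).det := by
    rw [det_nonsing_inv, Ring.inverse_eq_inv']
    exact hT.inv
  obtain ⟨M, hM⟩ : ∃ M, M = P⁻¹ * g * P := ⟨_, rfl⟩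
  rw [← hM] at ha
  have hMJ : Mᴴ * JO K n * M = JO K n := by
    have hPP : (P⁻¹)ᴴ * Pᴴ = 1 := by
      rw [← conjTranspose_mul, mul_nonsing_inv _ hPu, conjTranspose_one]
    rw [hM, conjTranspose_mul, conjTranspose_mul]
    calc Pᴴ * (gᴴ * (P⁻¹)ᴴ) * JO K n * (P⁻¹ * g * P) =
          Pᴴ * (gᴴ * (P⁻¹)ᴴ) * (Pᴴ * P) * (P⁻¹ * g * P) := by rw [hP]
      _ = Pᴴ * gᴴ * ((P⁻¹)ᴴ * Pᴴ) * (P * P⁻¹) * g * P := by noncomm_ring
      _ = Pᴴ * (gᴴ * g) * P := by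
          rw [hPP, mul_nonsing_inv _ hPu]
          noncomm_ring
      _ = JO K n := by rw [hg, Matrix.mul_one, hP]
  -- the blocks
  obtain ⟨Q, hQ⟩ : ∃ Q, Q = S1⁻¹ * T1 := ⟨_, rfl⟩
  have hQu : IsUnit Q.det := by
    rw [hQ, det_mul]
    exact hSi.mul hT
  have hQi : IsUnit (Q⁻¹).det := by
    rw [det_nonsing_inv, Ring.inverse_eq_inv']
    exact hQu.inv
  obtain ⟨A1, hA1⟩ : ∃ A1, A1 = Q * B * Q⁻¹ := ⟨_, rfl⟩
  obtain ⟨A2, hA2⟩ : ∃ A2, A2 = S1⁻¹ * B⁻¹ * S1 := ⟨_, rfl⟩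
  have hA1u : IsUnit A1.det := by
    rw [hA1, det_mul, det_mul]
    exact (hQu.mul hb).mul hQi
  have hA2u : IsUnit A2.det := by
    rw [hA2, det_mul, det_mul]
    exact (hSi.mul hbi).mul hS
  have hM11 : M.toBlocks₁₁.toBlocks₁₁ = A1 * A2 := by
    calc M.toBlocks₁₁.toBlocks₁₁ = S1⁻¹ * (S1 * M.toBlocks₁₁.toBlocks₁₁ * S1⁻¹) * S1 := by
          rw [Matrix.mul_assoc S1, nonsing_inv_mul_cancel_left _ _ hS,
            nonsing_inv_mul_cancel_right _ _ hS]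
      _ = S1⁻¹ * (T1 * B * T1⁻¹ * B⁻¹) * S1 := by rw [ha]
      _ = A1 * A2 := by
          rw [hA1, hA2, hQ, Matrix.mul_inv_rev, nonsing_inv_nonsing_inv _ hS]
          calc S1⁻¹ * (T1 * B * T1⁻¹ * B⁻¹) * S1 = S1⁻¹ * T1 * B * T1⁻¹ * 1 * B⁻¹ * S1 := by
                noncomm_ring
            _ = S1⁻¹ * T1 * B * T1⁻¹ * (S1 * S1⁻¹) * B⁻¹ * S1 := by rw [mul_nonsing_inv _ hS]
            _ = _ := by noncomm_ring
  have hMd : M.det = 1 := by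
    rw [hM, det_mul, det_mul, hgd, mul_one, det_nonsing_inv, Ring.inverse_eq_inv']
    exact inv_mul_cancel₀ hPu.ne_zero
  have hdA : (A1 * A2).det = 1 := by
    have hd1 : A1.det = B.det := by
      rw [hA1, det_mul, det_mul, det_nonsing_inv, Ring.inverse_eq_inv']
      have := hQu.ne_zero
      field_simp
    have hd2 : A2.det = B.det⁻¹ := by
      rw [hA2, det_mul, det_mul, det_nonsing_inv, det_nonsing_inv, Ring.inverse_eq_inv']
      have := hS.ne_zero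
      field_simp
    rw [det_mul, hd1, hd2, mul_inv_cancel₀ hb.ne_zero]
  have hA11 : IsUnit (A1 - 1).det := by
    have e : A1 - 1 = Q * (B - 1) * Q⁻¹ := by
      rw [Matrix.mul_sub, Matrix.sub_mul, Matrix.mul_one, mul_nonsing_inv _ hQu, hA1]
    rw [e, det_mul, det_mul]
    exact (hQu.mul hB1).mul hQi
  have hA21 : IsUnit (A2 - 1).det := by
    have e : A2 - 1 = S1⁻¹ * (B⁻¹ * (1 - B)) * S1 := by
      rw [Matrix.mul_sub, Matrix.mul_one, nonsing_inv_mul _ hb, Matrix.mul_sub, Matrix.sub_mul,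
        Matrix.mul_one, nonsing_inv_mul _ hS, hA2]
    have e2 : (1 - B).det = (-1) ^ n * (B - 1).det := by
      rw [← neg_sub B 1, det_neg, Fintype.card_fin]
    rw [e, det_mul, det_mul, det_mul, e2]
    exact (hSi.mul (hbi.mul ((isUnit_one.neg.pow n).mul hB1))).mul hS
  obtain ⟨b, c, β, r, ρ, p, hL, hU, hLU⟩ := fac_odd hMJ hMd hA1u hA2u hM11
    (by rw [hdA, star_one])
  -- the lower factor
  have hs1 : ∀ Z : Matrix (Fin n) (Fin n) K, A1ᴴ * Z * A1 = Z → Z = 0 := by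
    intro Z hZ
    have h1 : Bᴴ * (Qᴴ * Z * Q) * B = Qᴴ * Z * Q := by
      calc Bᴴ * (Qᴴ * Z * Q) * B = 1 * Bᴴ * Qᴴ * Z * Q * B * 1 := by noncomm_ring
        _ = (Q⁻¹ * Q)ᴴ * Bᴴ * Qᴴ * Z * Q * B * (Q⁻¹ * Q) := by
            rw [nonsing_inv_mul _ hQu, conjTranspose_one]
        _ = Qᴴ * (A1ᴴ * Z * A1) * Q := by
            rw [hA1, conjTranspose_mul, conjTranspose_mul, conjTranspose_mul]; noncomm_ring
        _ = Qᴴ * Z * Q := by rw [hZ]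
    have h3 := hB.syl _ h1
    have hQc := GrpB_conj_unit hQu
    calc Z = (Qᴴ)⁻¹ * (Qᴴ * Z * Q) * Q⁻¹ := by
          rw [Matrix.mul_assoc Qᴴ, nonsing_inv_mul_cancel_left _ _ hQc,
            mul_nonsing_inv_cancel_right _ _ hQu]
      _ = 0 := by rw [h3, Matrix.mul_zero, Matrix.zero_mul]
  obtain ⟨u1, hu1, hu1u, hu1e⟩ := unip_low_odd hK hA1u hA11 hs1 hL
  -- the upper factor
  have hs2 : ∀ Z : Matrix (Fin n) (Fin n) K, A2 * Z * A2ᴴ = Z → Z = 0 := by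
    intro Z hZ
    have hSc := GrpB_conj_unit hS
    have hbc := GrpB_conj_unit hb
    obtain ⟨W, hW⟩ : ∃ W, W = S1 * Z * S1ᴴ := ⟨_, rfl⟩
    have h1 : B⁻¹ * W * (B⁻¹)ᴴ = W := by
      rw [hW]
      calc B⁻¹ * (S1 * Z * S1ᴴ) * (B⁻¹)ᴴ = 1 * B⁻¹ * S1 * Z * S1ᴴ * (B⁻¹)ᴴ * 1 := by noncomm_ring
        _ = (S1 * S1⁻¹) * B⁻¹ * S1 * Z * S1ᴴ * (B⁻¹)ᴴ * (S1 * S1⁻¹)ᴴ := by
            rw [mul_nonsing_inv _ hS, conjTranspose_one]
        _ = S1 * (A2 * Z * A2ᴴ) * S1ᴴ := by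
            rw [hA2, conjTranspose_mul, conjTranspose_mul, conjTranspose_mul]; noncomm_ring
        _ = S1 * Z * S1ᴴ := by rw [hZ]
    have h3 : B * W * Bᴴ = W := by
      calc B * W * Bᴴ = B * (B⁻¹ * W * (B⁻¹)ᴴ) * Bᴴ := by rw [h1]
        _ = (B * B⁻¹) * W * ((B⁻¹)ᴴ * Bᴴ) := by noncomm_ring
        _ = W := by
            rw [← conjTranspose_mul, mul_nonsing_inv _ hb, conjTranspose_one, Matrix.one_mul,
              Matrix.mul_one]
    have h4 := hB.syl' _ h3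
    calc Z = S1⁻¹ * (S1 * Z * S1ᴴ) * (S1ᴴ)⁻¹ := by
          rw [Matrix.mul_assoc S1, nonsing_inv_mul_cancel_left _ _ hS,
            mul_nonsing_inv_cancel_right _ _ hSc]
      _ = 0 := by rw [← hW, h4, Matrix.mul_zero, Matrix.zero_mul]
  obtain ⟨u2, hu2, hu2u, hu2e⟩ := unip_up_odd hK hA2u hA21 hs2 hU
  obtain ⟨u3, hu3, hu3u, hu3e⟩ := real_XO hB
  have hv1 : OGrpB_JU (u1 * XO Q) := OGrpB_JU_mul ⟨hu1, hu1u⟩ (OGrpB_JU_XO hQu)
  have hv2 : OGrpB_JU (u2 * XO S1⁻¹ * u3) :=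
    OGrpB_JU_mul (OGrpB_JU_mul ⟨hu2, hu2u⟩ (OGrpB_JU_XO hSi)) ⟨hu3, hu3u⟩
  have he1 : LO A1 c r p 1 * (u1 * XO Q) = u1 * XO Q * XO B := by
    rw [← Matrix.mul_assoc, hu1e, Matrix.mul_assoc, Matrix.mul_assoc, OGrpB_XO_mul, OGrpB_XO_mul,
      hA1, nonsing_inv_mul_cancel_right _ _ hQu]
  have he2 : UO A2 b β ρ * (u2 * XO S1⁻¹ * u3) = u2 * XO S1⁻¹ * u3 * XO B := by
    calc UO A2 b β ρ * (u2 * XO S1⁻¹ * u3) =
          (UO A2 b β ρ * u2) * XO S1⁻¹ * u3 := by noncomm_ring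
      _ = u2 * (XO A2 * XO S1⁻¹) * u3 := by rw [hu2e]; noncomm_ring
      _ = u2 * (XO S1⁻¹ * XO B⁻¹) * u3 := by
          rw [OGrpB_XO_mul, OGrpB_XO_mul, hA2, mul_nonsing_inv_cancel_right _ _ hS]
      _ = u2 * XO S1⁻¹ * (XO B⁻¹ * u3) := by noncomm_ring
      _ = u2 * XO S1⁻¹ * u3 * XO B := by rw [hu3e]; noncomm_ring
  obtain ⟨s, hs, hsd, hse⟩ := OGrpB_step hP0 hP hB hv1 he1
  obtain ⟨t, ht, htd, hte⟩ := OGrpB_step hP0 hP hB hv2 he2
  refine ⟨s, t, hs, hsd, ht, htd, ?_⟩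
  rw [hse, hte]
  have hg' : g = P * M * P⁻¹ := by
    rw [hM]
    calc g = 1 * g * 1 := by noncomm_ring
      _ = (P * P⁻¹) * g * (P * P⁻¹) := by rw [mul_nonsing_inv _ hPu]
      _ = _ := by noncomm_ring
  rw [hg', hLU]
  calc P * (LO A1 c r p 1 * UO A2 b β ρ) * P⁻¹ =
        P * LO A1 c r p 1 * 1 * UO A2 b β ρ * P⁻¹ := by noncomm_ring
    _ = P * LO A1 c r p 1 * (P⁻¹ * P) * UO A2 b β ρ * P⁻¹ := by
        rw [nonsing_inv_mul _ hPu]
    _ = _ := by noncomm_ring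

end ThU
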