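import Pool.Agent.ThU.Defs

/-! # Module OPole -/

namespace ThU
open Matrix Polynomial Module

variable {K : Type*} [Field K]

/-- a product with the companion matrix -/
private theorem comp_row {n : ℕ} (f : K[X]) (hn : 0 < n) (x : Fin n → K) (i : Fin n) :
    (comp f n *ᵥ x) i = -f.coeff i * x ⟨n - 1, by omega⟩ +
      ∑ j : Fin n, if (i : ℕ) = j + 1 then x j else 0 := by
  have h1 : ∀ j : Fin n, comp f n i j * x j =
      (if j = (⟨n - 1, by omega⟩ : Fin n) then -f.coeff i * x j else 0) +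
        (if (i : ℕ) = j + 1 then x j else 0) := by
    intro j
    have hi := i.2
    have hj := j.2
    simp only [comp, of_apply]
    by_cases h : (j : ℕ) + 1 = n
    · have h2 : j = (⟨n - 1, by omega⟩ : Fin n) := Fin.ext (by simp; omega)
      rw [if_pos h, if_pos h2, if_neg (by omega), add_zero]
    · have h2 : j ≠ (⟨n - 1, by omega⟩ : Fin n) := by
        intro h3
        apply h
        rw [h3]
        simp only
        omega
      rw [if_neg h, if_neg h2, zero_add]
      split_ifs <;> simp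
  simp only [mulVec, dotProduct]
  rw [Finset.sum_congr rfl fun j _ => h1 j, Finset.sum_add_distrib]
  congr 1
  rw [Finset.sum_ite_eq' Finset.univ (⟨n - 1, by omega⟩ : Fin n) fun j => -f.coeff i * x j,
    if_pos (Finset.mem_univ _)]

private theorem comp_unit {n : ℕ} {f : K[X]} (hn : 0 < n) (h0 : f.coeff 0 ≠ 0) :
    IsUnit (comp f n).det := by
  rw [isUnit_iff_ne_zero]
  intro hdet
  obtain ⟨x, hx, hBx⟩ := Matrix.exists_mulVec_eq_zero_iff.mpr hdet
  apply hx
  have row : ∀ i : Fin n, (comp f n *ᵥ x) i = 0 := fun i => by rw [hBx]; rfl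
  have hl : x ⟨n - 1, by omega⟩ = 0 := by
    have h := row ⟨0, hn⟩
    rw [comp_row f hn, Finset.sum_eq_zero, add_zero] at h
    · rcases mul_eq_zero.mp h with h | h
      · exact absurd (neg_eq_zero.mp h) h0
      · exact h
    · intro j _
      rw [if_neg]
      simp
  funext j
  by_cases hj : (j : ℕ) + 1 = n
  · have : j = (⟨n - 1, by omega⟩ : Fin n) := Fin.ext (by simp; omega)
    rw [this, hl]
    rfl
  · have hj2 := j.2
    have h := row ⟨j + 1, by omega⟩
    rw [comp_row f hn, hl, mul_zero, zero_add, Finset.sum_eq_single j, if_pos rfl] at h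
    · exact h
    · intro k _ hk
      rw [if_neg]
      intro h3
      apply hk
      apply Fin.ext
      simp only at h3
      omega
    · intro h3
      exact absurd (Finset.mem_univ j) h3

/-- conjugation of the companion matrix by the diagonal matrix -/
private theorem diag_conj {n : ℕ} {f : K[X]} (hn : 0 < n) (h0 : f.coeff 0 ≠ 0) {ζ : K}
    (hζ : ζ ^ n = 1) :
    Matrix.diagonal (fun i : Fin n => ζ ^ (i : ℕ)) * comp f n =
      (ζ • (1 + Matrix.of fun i j : Fin n =>
        if j = (⟨0, hn⟩ : Fin n) then -((f.coeff 0)⁻¹ * (f.coeff i * (1 - ζ ^ (i : ℕ)))) else 0)) *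
        comp f n * Matrix.diagonal (fun i : Fin n => ζ ^ (i : ℕ)) := by
  ext i j
  rw [Matrix.diagonal_mul, Matrix.mul_diagonal, Matrix.smul_mul, Matrix.smul_apply, Matrix.add_mul,
    Matrix.one_mul, Matrix.add_apply, Matrix.mul_apply]
  have h1 : ∀ k : Fin n, (Matrix.of fun i j : Fin n =>
        if j = (⟨0, hn⟩ : Fin n) then -((f.coeff 0)⁻¹ * (f.coeff i * (1 - ζ ^ (i : ℕ)))) else 0) i k *
        comp f n k j = if k = (⟨0, hn⟩ : Fin n) then
          -((f.coeff 0)⁻¹ * (f.coeff i * (1 - ζ ^ (i : ℕ)))) * comp f n k j else 0 := by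
    intro k
    simp only [of_apply]
    split_ifs <;> simp
  rw [Finset.sum_congr rfl fun k _ => h1 k,
    Finset.sum_ite_eq' Finset.univ (⟨0, hn⟩ : Fin n) fun k =>
      -((f.coeff 0)⁻¹ * (f.coeff i * (1 - ζ ^ (i : ℕ)))) * comp f n k j,
    if_pos (Finset.mem_univ _)]
  simp only [comp, of_apply, smul_eq_mul]
  by_cases hj : (j : ℕ) + 1 = n
  · rw [if_pos hj, if_pos hj]
    have h2 : ζ * ζ ^ (j : ℕ) = 1 := by rw [← pow_succ', hj, hζ]
    have h3 : (f.coeff 0)⁻¹ * f.coeff 0 = 1 := inv_mul_cancel₀ h0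
    linear_combination (-(f.coeff 0)⁻¹ * f.coeff 0 * f.coeff i * (1 - ζ ^ (i : ℕ)) + f.coeff i) * h2 -
      (f.coeff i * (1 - ζ ^ (i : ℕ))) * h3
  · rw [if_neg hj, if_neg hj, if_neg (by omega : ¬ (0 = (j : ℕ) + 1))]
    split_ifs with hi
    · rw [hi]
      ring
    · ring

theorem pole {n : ℕ} {f : K[X]} (hf : f.Monic) (hn : f.natDegree = n) (h0 : f.coeff 0 ≠ 0) {ζ : K}
    (hζ : ζ ^ n = 1) (hc : ∃ i, i < n ∧ f.coeff i ≠ 0 ∧ ζ ^ i ≠ 1)
    {a : Matrix (Fin n) (Fin n) K} {c : K} (hc0 : c ≠ 0) {i0 j0 : Fin n} (hij : i0 ≠ j0)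
    (ha : ∀ i j, a i j = (if i = j then ζ else 0) + (if i = i0 ∧ j = j0 then c else 0)) :
    ∃ S T : Matrix (Fin n) (Fin n) K, IsUnit S.det ∧ IsUnit T.det ∧
      S * a * S⁻¹ = T * comp f n * T⁻¹ * (comp f n)⁻¹ := by
  obtain ⟨r, hrn, hfr, hζr⟩ := hc
  have hn0 : 0 < n := by omega
  have hr0 : r ≠ 0 := by
    rintro rfl
    exact hζr (pow_zero _)
  have hζ0 : ζ ≠ 0 := by
    rintro rfl
    rw [zero_pow hn0.ne'] at hζ
    exact zero_ne_one hζ
  obtain ⟨z, hz⟩ : ∃ z : Fin n, z = ⟨0, hn0⟩ := ⟨_, rfl⟩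
  obtain ⟨r', hr'⟩ : ∃ r' : Fin n, r' = ⟨r, hrn⟩ := ⟨_, rfl⟩
  have hrz : r' ≠ z := by
    rw [hz, hr']
    intro h
    exact hr0 (Fin.mk.inj_iff.mp h)
  -- the vector `v`
  obtain ⟨p, hp⟩ : ∃ p : Fin n → K, ∀ i, p i = f.coeff i * (1 - ζ ^ (i : ℕ)) := ⟨_, fun _ => rfl⟩
  obtain ⟨v, hv⟩ : ∃ v : Fin n → K, ∀ i, v i = -(ζ / (c * f.coeff 0)) * p i := ⟨_, fun _ => rfl⟩
  have hv0 : v z = 0 := by rw [hv, hp, hz]; simp
  have hvr : v r' ≠ 0 := by
    rw [hv, hp, hr']
    refine mul_ne_zero (neg_ne_zero.mpr (div_ne_zero hζ0 (mul_ne_zero hc0 h0))) (mul_ne_zero hfr ?_)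
    exact sub_ne_zero.mpr (Ne.symm hζr)
  -- the permutation
  obtain ⟨σ, hσ1, hσ2⟩ : ∃ σ : Equiv.Perm (Fin n), σ i0 = r' ∧ σ j0 = z := by
    have h1 : Equiv.swap i0 r' j0 ≠ r' := by
      intro h
      apply hij
      have h2 := Equiv.swap_apply_left i0 r'
      exact (Equiv.swap i0 r').injective (h2.trans h.symm)
    refine ⟨Equiv.swap (Equiv.swap i0 r' j0) z * Equiv.swap i0 r', ?_, ?_⟩
    · rw [Equiv.Perm.mul_apply, Equiv.swap_apply_left,
        Equiv.swap_apply_of_ne_of_ne (Ne.symm h1) hrz]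
    · rw [Equiv.Perm.mul_apply, Equiv.swap_apply_left]
  obtain ⟨M, hM⟩ : ∃ M : Matrix (Fin n) (Fin n) K, M = (1 : Matrix (Fin n) (Fin n) K).updateCol r' v :=
    ⟨_, rfl⟩
  have hMd : M.det = v r' := by
    rw [hM, ← Matrix.cramer_apply, Matrix.cramer_one]
    rfl
  have hM1 : ∀ i k, M i k = if k = r' then v i else if i = k then 1 else 0 := by
    intro i k
    rw [hM, Matrix.updateCol_apply, Matrix.one_apply]
  obtain ⟨S, hS⟩ : ∃ S : Matrix (Fin n) (Fin n) K, S = M.submatrix id σ := ⟨_, rfl⟩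
  have hSd : IsUnit S.det := by
    rw [hS, Matrix.det_permute', hMd, isUnit_iff_ne_zero]
    refine mul_ne_zero ?_ hvr
    rcases Int.units_eq_one_or (Equiv.Perm.sign σ) with h | h <;> rw [h] <;> simp
  have hS1 : ∀ i j, S i j = if σ j = r' then v i else if i = σ j then 1 else 0 := by
    intro i j
    rw [hS, Matrix.submatrix_apply, hM1]
    rfl
  have hSi : ∀ i, S i i0 = v i := by
    intro i
    rw [hS1, if_pos hσ1]
  have hSz : ∀ j, S z j = if j = j0 then 1 else 0 := by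
    intro j
    rw [hS1]
    by_cases h1 : j = j0
    · rw [if_pos h1, h1, hσ2, if_neg (Ne.symm hrz), if_pos rfl]
    · rw [if_neg h1]
      have h2 : z ≠ σ j := by
        intro h
        apply h1
        exact σ.injective (h.symm.trans hσ2.symm)
      rw [if_neg h2]
      split_ifs
      · exact hv0
      · rfl
  obtain ⟨D, hD⟩ : ∃ D : Matrix (Fin n) (Fin n) K, D = Matrix.diagonal (fun i : Fin n => ζ ^ (i : ℕ)) :=
    ⟨_, rfl⟩
  have hDd : IsUnit D.det := by
    rw [hD, Matrix.det_diagonal, isUnit_iff_ne_zero]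
    exact Finset.prod_ne_zero_iff.mpr fun i _ => pow_ne_zero _ hζ0
  have hBd : IsUnit (comp f n).det := comp_unit hn0 h0
  obtain ⟨P, hP⟩ : ∃ P : Matrix (Fin n) (Fin n) K, P = (ζ • (1 + Matrix.of fun i j : Fin n =>
        if j = (⟨0, hn0⟩ : Fin n) then -((f.coeff 0)⁻¹ * (f.coeff i * (1 - ζ ^ (i : ℕ)))) else 0)) :=
    ⟨_, rfl⟩
  have hconj := diag_conj hn0 h0 hζ
  rw [← hP, ← hD] at hconj
  refine ⟨S, D, hSd, hDd, ?_⟩
  have hR : D * comp f n * D⁻¹ * (comp f n)⁻¹ = P := by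
    rw [hconj, Matrix.mul_assoc (P * comp f n), Matrix.mul_nonsing_inv _ hDd, Matrix.mul_one,
      Matrix.mul_assoc, Matrix.mul_nonsing_inv _ hBd, Matrix.mul_one]
  rw [hR]
  have hSa : S * a = P * S := by
    ext i j
    have hl : (S * a) i j = S i j * ζ + if j = j0 then S i i0 * c else 0 := by
      rw [Matrix.mul_apply]
      have h1 : ∀ k, S i k * a k j = (if k = j then S i k * ζ else 0) +
          (if k = i0 then (if j = j0 then S i k * c else 0) else 0) := by
        intro k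
        rw [ha, mul_add]
        congr 1
        · split_ifs <;> simp
        · by_cases h2 : k = i0
          · by_cases h3 : j = j0
            · rw [if_pos ⟨h2, h3⟩, if_pos h2, if_pos h3]
            · rw [if_neg (fun h => h3 h.2), if_pos h2, if_neg h3, mul_zero]
          · rw [if_neg (fun h => h2 h.1), if_neg h2, mul_zero]
      rw [Finset.sum_congr rfl fun k _ => h1 k, Finset.sum_add_distrib,
        Finset.sum_ite_eq' Finset.univ j fun k => S i k * ζ, if_pos (Finset.mem_univ _),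
        Finset.sum_ite_eq' Finset.univ i0 fun k => if j = j0 then S i k * c else 0,
        if_pos (Finset.mem_univ _)]
    have hr : (P * S) i j = ζ * (S i j + -((f.coeff 0)⁻¹ * p i) * S z j) := by
      rw [hP, Matrix.smul_mul, Matrix.smul_apply, Matrix.add_mul, Matrix.one_mul, Matrix.add_apply,
        Matrix.mul_apply, smul_eq_mul]
      congr 2
      have h1 : ∀ k : Fin n, (Matrix.of fun i j : Fin n =>
          if j = (⟨0, hn0⟩ : Fin n) then -((f.coeff 0)⁻¹ * (f.coeff i * (1 - ζ ^ (i : ℕ)))) else 0) i k *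
          S k j = if k = z then -((f.coeff 0)⁻¹ * p i) * S k j else 0 := by
        intro k
        simp only [of_apply, hp, hz]
        split_ifs <;> simp
      rw [Finset.sum_congr rfl fun k _ => h1 k,
        Finset.sum_ite_eq' Finset.univ z fun k => -((f.coeff 0)⁻¹ * p i) * S k j,
        if_pos (Finset.mem_univ _)]
    rw [hl, hr, hSz, hSi, hv]
    by_cases h3 : j = j0
    · rw [if_pos h3, if_pos h3]
      field_simp
    · rw [if_neg h3, if_neg h3]
      ring
  rw [hSa, Matrix.mul_assoc, Matrix.mul_nonsing_inv _ hSd, Matrix.mul_one]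

end ThU
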