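import Pool.Agent.ThU.SeedE

/-! # Module OSeed -/

namespace ThU
open Matrix Polynomial Module

variable {K : Type*} [Field K] [StarRing K]

private theorem OSeed_small {Q m : ℕ} (h0 : 0 < m) (h1 : m < Q) : ¬ Q ∣ m := fun h =>
  absurd (Nat.le_of_dvd h0 h) (not_le.2 h1)

/-- the order of `β` -/
private theorem OSeed_Q {q n : ℕ} (hq : 2 ≤ q) (hn : 3 ≤ n) :
    ∃ Q : ℕ, 0 < Q ∧ Q ∣ q ^ (2 * n) - 1 ∧ (∀ d : ℕ, 0 < d → d < n → ¬ Q ∣ q ^ (2 * d) - 1) ∧
      (∀ i : ℕ, i < n → ¬ Q ∣ q ^ (2 * i + 1) + 1) ∧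
      ((∃ m, n = 2 * m ∧ Q = q ^ n + 1) ∨ (∃ m, n = 2 * m + 1 ∧ Q + 1 = q ^ n)) := by
  have hpos : ∀ k, 0 < q ^ k := fun k => pow_pos (by omega) k
  have hlt : ∀ a b, a < b → q ^ a < q ^ b := fun a b h => Nat.pow_lt_pow_right (by omega) h
  have hge : ∀ k, 0 < k → 2 ≤ q ^ k := fun k h => by
    have h1 := hlt 0 k h
    rw [pow_zero] at h1
    omega
  have h2n : q ^ (2 * n) = q ^ n * q ^ n := by rw [two_mul, pow_add]
  rcases Nat.even_or_odd' n with ⟨m, hm | hm⟩
  · refine ⟨q ^ n + 1, by omega, ⟨q ^ n - 1, ?_⟩, ?_, ?_, Or.inl ⟨m, hm, rfl⟩⟩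
    · rw [h2n, Nat.add_mul, one_mul, Nat.mul_sub, mul_one]
      have h1 := hpos n
      have h2 : q ^ n * 1 ≤ q ^ n * q ^ n := Nat.mul_le_mul_left _ h1
      omega
    · intro d hd0 hdn
      rcases le_or_gt (2 * d) n with h | h
      · apply OSeed_small
        · have := hge (2 * d) (by omega)
          omega
        · have : q ^ (2 * d) ≤ q ^ n := Nat.pow_le_pow_right (by omega) h
          omega
      · obtain ⟨e, he⟩ : ∃ e, 2 * d = n + e := ⟨2 * d - n, by omega⟩
        intro hdv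
        have h1 : q ^ (2 * d) - 1 + (q ^ e + 1) = q ^ e * (q ^ n + 1) := by
          rw [he, pow_add]
          have := Nat.mul_pos (hpos n) (hpos e)
          rw [Nat.mul_add, mul_one, mul_comm (q ^ e)]
          omega
        have h2 : q ^ n + 1 ∣ q ^ e + 1 := by
          rw [← Nat.dvd_add_right hdv, h1]
          exact Dvd.intro_left _ rfl
        refine OSeed_small (by omega) ?_ h2
        have := hlt e n (by omega)
        omega
    · intro i hi
      rcases lt_or_ge (2 * i + 1) n with h | h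
      · apply OSeed_small (by omega)
        have := hlt _ _ h
        omega
      · obtain ⟨e, he⟩ : ∃ e, 2 * i + 1 = n + e := ⟨2 * i + 1 - n, by omega⟩
        have he0 : 0 < e := by omega
        intro hdv
        have h1 : q ^ (2 * i + 1) + 1 + (q ^ e - 1) = q ^ e * (q ^ n + 1) := by
          rw [he, pow_add]
          have := hpos e
          rw [Nat.mul_add, mul_one, mul_comm (q ^ e)]
          omega
        have h2 : q ^ n + 1 ∣ q ^ e - 1 := by
          rw [← Nat.dvd_add_right hdv, h1]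
          exact Dvd.intro_left _ rfl
        have h3 := hge e he0
        refine OSeed_small (by omega) ?_ h2
        have := hlt e n (by omega)
        omega
  · have hQ : q ^ n - 1 + 1 = q ^ n := by
      have := hpos n
      omega
    have hn8 : 8 ≤ q ^ n := by
      calc 8 = 2 ^ 3 := by norm_num
        _ ≤ q ^ 3 := Nat.pow_le_pow_left hq 3
        _ ≤ q ^ n := Nat.pow_le_pow_right (by omega) hn
    have hn1 : 2 * q ^ (n - 1) ≤ q ^ n := by
      have h1 : q ^ n = q ^ (n - 1) * q := by rw [← pow_succ]; congr 1; omega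
      rw [h1, mul_comm]
      exact Nat.mul_le_mul_left _ hq
    have hn4 : 4 ≤ q ^ (n - 1) := by
      calc 4 = 2 ^ 2 := by norm_num
        _ ≤ q ^ 2 := Nat.pow_le_pow_left hq 2
        _ ≤ q ^ (n - 1) := Nat.pow_le_pow_right (by omega) (by omega)
    have hle : ∀ e, e < n → q ^ e ≤ q ^ (n - 1) := fun e he =>
      Nat.pow_le_pow_right (by omega) (by omega)
    refine ⟨q ^ n - 1, by omega, ⟨q ^ n + 1, ?_⟩, ?_, ?_, Or.inr ⟨m, hm, hQ⟩⟩
    · rw [h2n, Nat.mul_add, mul_one, Nat.sub_mul, one_mul]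
      have h2 : q ^ n * 1 ≤ q ^ n * q ^ n := Nat.mul_le_mul_left _ (hpos n)
      omega
    · intro d hd0 hdn
      rcases lt_or_ge (2 * d) n with h | h
      · apply OSeed_small
        · have := hge (2 * d) (by omega)
          omega
        · have := hlt _ _ h
          have := hpos (2 * d)
          omega
      · obtain ⟨e, he⟩ : ∃ e, 2 * d = n + e := ⟨2 * d - n, by omega⟩
        have he0 : 0 < e := by omega
        have h3 := hge e he0
        intro hdv
        have h1 : q ^ (2 * d) - 1 = (q ^ n - 1) * q ^ e + (q ^ e - 1) := by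
          rw [he, pow_add, Nat.sub_mul, one_mul]
          have : 1 * q ^ e ≤ q ^ n * q ^ e := Nat.mul_le_mul_right _ (hpos n)
          omega
        have h2 : q ^ n - 1 ∣ q ^ e - 1 := by
          rw [h1] at hdv
          exact (Nat.dvd_add_right (Dvd.intro _ rfl)).1 hdv
        refine OSeed_small (by omega) ?_ h2
        have := hlt e n (by omega)
        omega
    · intro i hi
      rcases lt_or_ge (2 * i + 1) n with h | h
      · apply OSeed_small (by omega)
        have := hle _ h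
        omega
      · obtain ⟨e, he⟩ : ∃ e, 2 * i + 1 = n + e := ⟨2 * i + 1 - n, by omega⟩
        intro hdv
        have h1 : q ^ (2 * i + 1) + 1 = (q ^ n - 1) * q ^ e + (q ^ e + 1) := by
          rw [he, pow_add, Nat.sub_mul, one_mul]
          have : 1 * q ^ e ≤ q ^ n * q ^ e := Nat.mul_le_mul_right _ (hpos n)
          omega
        have h2 : q ^ n - 1 ∣ q ^ e + 1 := by
          rw [h1] at hdv
          exact (Nat.dvd_add_right (Dvd.intro _ rfl)).1 hdv
        refine OSeed_small (by omega) ?_ h2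
        have := hle e (by omega)
        omega

omit [StarRing K] in
/-- the even case: `ζ ^ 2 = 1` -/
private theorem OSeed_even {q n m : ℕ} (hm : n = 2 * m) {ζ : K} (h1 : ζ ^ (q + 1) = 1)
    (h2 : ζ ^ (q ^ n + 1) = 1) : ζ ^ 2 = 1 := by
  have h0 : ζ ≠ 0 := by
    rintro rfl
    simp at h1
  have h3 : ζ ^ q = ζ⁻¹ := eq_inv_of_mul_eq_one_left (by rw [← pow_succ]; exact h1)
  have h4 : ∀ k : ℕ, ζ ^ (q ^ (2 * k)) = ζ := by
    intro k
    induction k with
    | zero => simp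
    | succ k ih =>
      rw [show 2 * (k + 1) = 2 * k + 1 + 1 by ring, pow_succ, pow_succ, pow_mul, pow_mul, ih, h3,
        inv_pow, h3, inv_inv]
  rw [pow_succ, hm, h4] at h2
  rw [pow_two]
  exact h2

omit [StarRing K] in
/-- the odd case: `ζ = 1` -/
private theorem OSeed_odd {q n m : ℕ} (hm : n = 2 * m + 1) {ζ : K} (h1 : ζ ^ (q + 1) = 1)
    (h2 : ζ ^ (q ^ n) = ζ) (h5 : ζ ^ n = 1) : ζ = 1 := by
  have h0 : ζ ≠ 0 := by
    rintro rfl
    simp at h1
  have h3 : ζ ^ q = ζ⁻¹ := eq_inv_of_mul_eq_one_left (by rw [← pow_succ]; exact h1)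
  have h4 : ∀ k : ℕ, ζ ^ (q ^ (2 * k)) = ζ := by
    intro k
    induction k with
    | zero => simp
    | succ k ih =>
      rw [show 2 * (k + 1) = 2 * k + 1 + 1 by ring, pow_succ, pow_succ, pow_mul, pow_mul, ih, h3,
        inv_pow, h3, inv_inv]
  rw [hm, pow_succ, pow_mul, h4, h3] at h2
  have h6 : ζ ^ 2 = 1 := by
    rw [pow_two]
    nth_rewrite 1 [← h2]
    exact inv_mul_cancel₀ h0
  rwa [hm, pow_succ, pow_mul, h6, one_pow, one_mul] at h5

private theorem OSeed_ar {q n i : ℕ} (hq : 3 ≤ q) (hi0 : 0 < i) (hi : i < n) :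
    ¬ q ^ n + 1 ∣ 2 * (q ^ (2 * i) - 1) := by
  have hpos : ∀ k, 0 < q ^ k := fun k => pow_pos (by omega) k
  have h9 : 9 ≤ q ^ (2 * i) := by
    calc 9 = 3 ^ 2 := by norm_num
      _ ≤ q ^ 2 := Nat.pow_le_pow_left hq 2
      _ ≤ q ^ (2 * i) := Nat.pow_le_pow_right (by omega) (by omega)
  rcases lt_or_ge (2 * i) n with h | h
  · apply OSeed_small (by omega)
    have h1 : q ^ (2 * i) * q ≤ q ^ n := by
      rw [← pow_succ]
      exact Nat.pow_le_pow_right (by omega) (by omega)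
    have h2 : q ^ (2 * i) * 3 ≤ q ^ (2 * i) * q := Nat.mul_le_mul_left _ hq
    omega
  · obtain ⟨e, he⟩ : ∃ e, 2 * i = n + e := ⟨2 * i - n, by omega⟩
    intro hdv
    have h1 : 2 * (q ^ (2 * i) - 1) + 2 * (q ^ e + 1) = 2 * q ^ e * (q ^ n + 1) := by
      rw [he, pow_add]
      have := Nat.mul_pos (hpos n) (hpos e)
      have h2 : 2 * q ^ e * (q ^ n + 1) = 2 * (q ^ n * q ^ e) + 2 * q ^ e := by ring
      rw [h2]
      omega
    have h2 : q ^ n + 1 ∣ 2 * (q ^ e + 1) := by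
      rw [← Nat.dvd_add_right hdv, h1]
      exact Dvd.intro_left _ rfl
    refine OSeed_small (by omega) ?_ h2
    have h3 : q ^ e * 9 ≤ q ^ n := by
      calc q ^ e * 9 ≤ q ^ e * q ^ 2 := Nat.mul_le_mul_left _ (Nat.pow_le_pow_left hq 2)
        _ = q ^ (e + 2) := (pow_add _ _ _).symm
        _ ≤ q ^ n := Nat.pow_le_pow_right (by omega) (by omega)
    have := hpos e
    omega

private theorem OSeed_core (K : Type*) [Field K] [StarRing K] [Finite K] {q n : ℕ} (hq : 2 ≤ q)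
    (hcard : Nat.card K = q ^ 2) (hstar : ∀ x : K, star x = x ^ q) (hn : 3 ≤ n)
    (E : Type) [Field E] [Algebra K E] [Finite E] (hE : finrank K E = n) :
    ∃ (f : K[X]) (β : E),
      f.Monic ∧ Irreducible f ∧ f.natDegree = n ∧ f.coeff 0 ≠ 0 ∧ finrank K E = n ∧ aeval β f = 0 ∧
      aeval β⁻¹ (f.map (starRingEnd K)) ≠ 0 ∧ (aeval β⁻¹ f = 0 ∨ f.map (starRingEnd K) = f) ∧
      ∀ ζ : K, ζ * star ζ = 1 → ζ ^ n = 1 → ζ ≠ 1 → ∃ i, i < n ∧ f.coeff i ≠ 0 ∧ ζ ^ i ≠ 1 := by
  obtain ⟨p, hp⟩ := CharP.exists K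
  have : Fintype K := Fintype.ofFinite K
  have : Fintype E := Fintype.ofFinite E
  have hpp : Fact p.Prime := ⟨CharP.char_is_prime K p⟩
  have : CharP E p := charP_of_injective_algebraMap (algebraMap K E).injective p
  have : Module.Finite K E := Module.Finite.of_finite
  -- q is a power of p
  obtain ⟨m, -, hm⟩ := FiniteField.card K p
  have hcK : Fintype.card K = q ^ 2 := by rw [← hcard, Nat.card_eq_fintype_card]
  obtain ⟨j, -, hj⟩ := (Nat.dvd_prime_pow hpp.out).1
    (show q ∣ p ^ (m : ℕ) by rw [← hm, hcK]; exact dvd_pow_self q two_ne_zero)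
  have hcE : Fintype.card E = q ^ (2 * n) := by
    rw [Module.card_eq_pow_finrank (K := K) (V := E), hcK, hE, ← pow_mul]
  obtain ⟨Q, hQ0, hQd, hQ1, hQ2, hQ3⟩ := OSeed_Q hq hn
  -- the element of order Q
  obtain ⟨g, hg⟩ := IsCyclic.exists_generator (α := Eˣ)
  have hog : orderOf g = q ^ (2 * n) - 1 := by
    rw [orderOf_eq_card_of_forall_mem_zpowers hg, Nat.card_units, Nat.card_eq_fintype_card, hcE]
  obtain ⟨r, hr⟩ := hQd
  have hg0 : 0 < orderOf g := orderOf_pos g
  have hr0 : r ≠ 0 := by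
    rintro rfl
    rw [hog, hr, mul_zero] at hg0
    exact lt_irrefl _ hg0
  have hQo : orderOf (g ^ r) = Q := by
    rw [orderOf_pow' g hr0, hog, hr, Nat.gcd_mul_left_left, Nat.mul_div_cancel _ (Nat.pos_of_ne_zero hr0)]
  obtain ⟨β, hβ⟩ : ∃ β : E, β = ((g ^ r : Eˣ) : E) := ⟨_, rfl⟩
  have hβ0 : β ≠ 0 := by rw [hβ]; exact Units.ne_zero _
  have hβQ : orderOf β = Q := by rw [hβ, orderOf_units, hQo]
  have hint : IsIntegral K β := Algebra.IsIntegral.isIntegral β
  obtain ⟨f, hf⟩ : ∃ f, f = minpoly K β := ⟨_, rfl⟩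
  have hfm : f.Monic := by rw [hf]; exact minpoly.monic hint
  have hfi : Irreducible f := by rw [hf]; exact minpoly.irreducible hint
  have hfr : aeval β f = 0 := by rw [hf]; exact minpoly.aeval K β
  -- degree
  have hdeg : f.natDegree = n := by
    have hle : f.natDegree ≤ n := by rw [hf, ← hE]; exact minpoly.natDegree_le β
    have hfin : finrank K (IntermediateField.adjoin K {β}) = f.natDegree := by
      rw [hf]; exact IntermediateField.adjoin.finrank hint
    by_contra hne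
    refine hQ1 f.natDegree ?_ (lt_of_le_of_ne hle hne) ?_
    · rw [hf]; exact minpoly.natDegree_pos hint
    · have : Fintype (IntermediateField.adjoin K {β}) := Fintype.ofFinite _
      have hc : Fintype.card (IntermediateField.adjoin K {β}) = q ^ (2 * f.natDegree) := by
        rw [Module.card_eq_pow_finrank (K := K), hcK, hfin, ← pow_mul]
      have h1 := FiniteField.pow_card (⟨β, IntermediateField.mem_adjoin_simple_self K β⟩ :
        IntermediateField.adjoin K {β})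
      rw [hc] at h1
      have h2 : β ^ (q ^ (2 * f.natDegree)) = β := congrArg Subtype.val h1
      have hpos : 0 < q ^ (2 * f.natDegree) := pow_pos (by omega) _
      rw [← hβQ, orderOf_dvd_iff_pow_eq_one]
      apply mul_left_cancel₀ hβ0
      rw [← pow_succ', Nat.sub_add_cancel hpos, h2, mul_one]
  -- the q-power map
  obtain ⟨φ, hφ⟩ : ∃ φ : E →+* E, ∀ x, φ x = x ^ q :=
    ⟨iterateFrobenius E p j, fun x => by rw [iterateFrobenius_def, hj]⟩
  have hφK : φ.comp (algebraMap K E) = (algebraMap K E).comp (starRingEnd K) := by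
    ext x
    rw [RingHom.comp_apply, RingHom.comp_apply, hφ, starRingEnd_apply, hstar, map_pow]
  have hmap : ∀ x : E, aeval (φ x) (f.map (starRingEnd K)) = φ (aeval x f) := by
    intro x
    rw [aeval_def, eval₂_map, aeval_def, hom_eval₂, hφK]
  -- the Frobenius of E over K
  have hσ : ∀ i : ℕ, ∃ σ : E ≃ₐ[K] E, ∀ x, σ x = x ^ (q ^ (2 * i)) := by
    intro i
    refine ⟨FiniteField.frobeniusAlgEquivOfAlgebraic K E ^ i, fun x => ?_⟩
    rw [AlgEquiv.coe_pow, FiniteField.coe_frobeniusAlgEquivOfAlgebraic_iterate, hcK, ← pow_mul]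
  have hconj : ∀ γ : E, aeval γ f = 0 → ∃ i < n, γ = β ^ (q ^ (2 * i)) := by
    intro γ hγ
    have h1 : minpoly K γ = minpoly K β := by
      rw [← hf]
      exact (minpoly.eq_of_irreducible_of_monic hfi hγ hfm).symm
    obtain ⟨σ, hσ'⟩ := isConjRoot_iff_exists_algEquiv.1 ((isConjRoot_def (R := K) (x := γ) (y := β)).2 h1)
    obtain ⟨⟨i, hi⟩, hi'⟩ := (FiniteField.bijective_frobeniusAlgEquivOfAlgebraic_pow K E).2 σ
    rw [hE] at hi
    refine ⟨i, hi, ?_⟩
    rw [← hσ', ← hi']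
    show (FiniteField.frobeniusAlgEquivOfAlgebraic K E ^ i) β = _
    rw [AlgEquiv.coe_pow, FiniteField.coe_frobeniusAlgEquivOfAlgebraic_iterate, hcK, ← pow_mul]
  have hσf : ∀ (i : ℕ) (x : E) (h : K[X]), aeval (x ^ (q ^ (2 * i))) h = 0 ↔ aeval x h = 0 := by
    intro i x h
    obtain ⟨σ, hσ⟩ := hσ i
    have h1 := aeval_algHom_apply (σ : E →ₐ[K] E) x h
    rw [← hσ]
    rw [show aeval (σ x) h = σ (aeval x h) from h1]
    exact map_eq_zero_iff _ σ.injective
  refine ⟨f, β, hfm, hfi, hdeg, ?_, hE, hfr, ?_, ?_, ?_⟩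
  · rw [hf]
    exact minpoly.coeff_zero_ne_zero hint hβ0
  · intro h0
    -- the q-th root of β⁻¹
    obtain ⟨γ, hγ⟩ : ∃ γ : E, γ ^ q = β⁻¹ := by
      refine ⟨β⁻¹ ^ (q ^ (2 * n - 1)), ?_⟩
      rw [← pow_mul, ← pow_succ, show 2 * n - 1 + 1 = 2 * n by omega, ← hcE, FiniteField.pow_card]
    rw [← hγ, ← hφ, hmap] at h0
    obtain ⟨i, hi, hγi⟩ := hconj γ ((map_eq_zero φ).1 h0)
    apply hQ2 i hi
    rw [← hβQ, orderOf_dvd_iff_pow_eq_one, pow_succ, pow_succ, pow_mul, ← hγi, hγ,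
      inv_mul_cancel₀ hβ0]
  · have hβQ' : β ^ Q = 1 := by rw [← hβQ]; exact pow_orderOf_eq_one β
    rcases hQ3 with ⟨m', hm', hQm⟩ | ⟨m', hm', hQm⟩
    · left
      have h1 : β⁻¹ = β ^ (q ^ (2 * m')) := by
        rw [← hm']
        rw [hQm, pow_succ] at hβQ'
        exact (eq_inv_of_mul_eq_one_left hβQ').symm
      rw [h1, hσf]
      exact hfr
    · right
      have h1 : φ β = β ^ (q ^ (2 * (m' + 1))) := by
        rw [hφ, show 2 * (m' + 1) = n + 1 by omega, pow_succ, pow_mul, ← hQm, pow_succ, hβQ', one_mul]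
      have h2 : aeval β (f.map (starRingEnd K)) = 0 := by
        rw [← hσf (m' + 1), ← h1, hmap, hfr, map_zero]
      have h3 : f ∣ f.map (starRingEnd K) := by
        conv_lhs => rw [hf]
        exact minpoly.dvd K β h2
      exact (eq_of_monic_of_dvd_of_natDegree_le hfm (hfm.map _) h3 (by rw [natDegree_map]))
  · intro ζ hζs hζn hζ1
    by_contra hcon
    push Not at hcon
    have hβQ' : β ^ Q = 1 := by rw [← hβQ]; exact pow_orderOf_eq_one β
    have hζq : ζ ^ (q + 1) = 1 := by rw [pow_succ', ← hstar, hζs]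
    -- `ζ β` is a root of `f`
    have hroot : aeval (algebraMap K E ζ * β) f = 0 := by
      rw [aeval_eq_sum_range, hdeg, ← hfr, aeval_eq_sum_range, hdeg]
      refine Finset.sum_congr rfl fun i hi => ?_
      rw [mul_pow, ← map_pow]
      rcases eq_or_ne (f.coeff i) 0 with h0 | h0
      · rw [h0, zero_smul, zero_smul]
      · have h1 : ζ ^ i = 1 := by
          rcases Nat.lt_succ_iff_lt_or_eq.1 (Finset.mem_range.1 hi) with h2 | h2
          · exact hcon i h2 h0
          · rw [h2, hζn]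
        rw [h1, map_one, one_mul]
    obtain ⟨i, hi, hζi⟩ := hconj _ hroot
    have hpos : 0 < q ^ (2 * i) := pow_pos (by omega) _
    have hζβ : algebraMap K E ζ = β ^ (q ^ (2 * i) - 1) := by
      apply mul_right_cancel₀ hβ0
      rw [hζi, ← pow_succ, Nat.sub_add_cancel hpos]
    have hi0 : 0 < i := by
      rcases Nat.eq_zero_or_pos i with h | h
      · exfalso
        apply hζ1
        apply (algebraMap K E).injective
        rw [hζβ, h]
        simp
      · exact h
    have hζQ : ζ ^ Q = 1 := by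
      apply (algebraMap K E).injective
      rw [map_pow, hζβ, ← pow_mul, mul_comm, pow_mul, hβQ', one_pow, map_one]
    rcases hQ3 with ⟨m', hm', hQm⟩ | ⟨m', hm', hQm⟩
    · -- even case
      have h2 : ζ ^ 2 = 1 := OSeed_even hm' hζq (by rw [← hQm]; exact hζQ)
      have hodd : ¬ Even q := by
        rintro ⟨r', hr'⟩
        apply hζ1
        rw [hr', ← two_mul, pow_succ, pow_mul, h2, one_pow, one_mul] at hζq
        exact hζq
      have h3 : 3 ≤ q := by
        rcases Nat.lt_or_ge q 3 with h | h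
        · exact absurd ⟨1, by omega⟩ hodd
        · exact h
      refine OSeed_ar h3 hi0 hi ?_
      rw [← hQm, ← hβQ, orderOf_dvd_iff_pow_eq_one, mul_comm, pow_mul, ← hζβ, ← map_pow, h2, map_one]
    · exact hζ1 (OSeed_odd hm' hζq (by rw [← hQm, pow_succ, hζQ, one_mul]) hζn)

private theorem OSeed_exists [Finite K] (hK : ∃ x : K, star x ≠ x) {n : ℕ} (hn : 3 ≤ n) :
    ∃ (f : K[X]) (E : Type) (_ : Field E) (_ : Algebra K E) (_ : Finite E) (β : E),
      f.Monic ∧ Irreducible f ∧ f.natDegree = n ∧ f.coeff 0 ≠ 0 ∧ finrank K E = n ∧ aeval β f = 0 ∧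
      aeval β⁻¹ (f.map (starRingEnd K)) ≠ 0 ∧ (aeval β⁻¹ f = 0 ∨ f.map (starRingEnd K) = f) ∧
      ∀ ζ : K, ζ * star ζ = 1 → ζ ^ n = 1 → ζ ≠ 1 → ∃ i, i < n ∧ f.coeff i ≠ 0 ∧ ζ ^ i ≠ 1 := by
  obtain ⟨q, hq, hcard, hstar⟩ := fld_card hK
  obtain ⟨p, hp⟩ := CharP.exists K
  have hpp : Fact p.Prime := ⟨CharP.char_is_prime K p⟩
  have : NeZero n := ⟨by omega⟩
  obtain ⟨f, β, h⟩ := OSeed_core K hq hcard hstar hn (FiniteField.Extension K p n)
    (FiniteField.finrank_extension K p n)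
  exact ⟨f, FiniteField.Extension K p n, inferInstance, inferInstance, inferInstance, β, h⟩

omit [StarRing K] in
private theorem OSeed_one {n : ℕ} {f : K[X]} {E : Type*} [Field E] [Algebra K E] (hm : f.Monic)
    (hi : Irreducible f) (hfn : f.natDegree = n) (hE : finrank K E = n) (hn : 3 ≤ n) {β : E}
    (hβ : aeval β f = 0) : IsUnit (comp f n - 1).det := by
  have h0 : 0 < n := by omega
  obtain ⟨b, hb, hmat, hp, hdet, hsurj⟩ := comp_mul hm hi hfn hE h0 hβ
  have hfin : FiniteDimensional K E := FiniteDimensional.of_finrank_pos (by rw [hE]; exact h0)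
  have hβ1 : β - 1 ≠ 0 := by
    intro h
    have h1 : β = algebraMap K E 1 := by rw [map_one]; exact sub_eq_zero.1 h
    rw [h1, aeval_algebraMap_apply, coe_aeval_eq_eval] at hβ
    have h2 : f.IsRoot 1 := (map_eq_zero (algebraMap K E)).1 hβ
    have h3 := degree_eq_one_of_irreducible_of_root hi h2
    have h4 : f.natDegree = 1 := natDegree_eq_of_degree_eq_some h3
    omega
  have h2 := hdet (X - 1)
  rw [map_sub, map_sub, aeval_X, aeval_X, map_one, map_one] at h2
  rw [isUnit_iff_ne_zero, h2]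
  rwa [ne_eq, Algebra.norm_eq_zero_iff]

/-- As `exists_f` and `seed_exists` (`β` of order `Q = q ^ n + 1` for `n` even, `Q = q ^ n - 1` for `n` odd, `f = minpoly K β`), with two
additional properties.  (1) `comp f n - 1` is invertible: its determinant is `norm (β - 1) ≠ 0` (`comp_mul` with `p = X - 1`).
(2) Suppose `ζ * star ζ = ζ ^ (q + 1) = 1`, `ζ ^ n = 1` and `ζ ^ i = 1` whenever `i < n`, `f.coeff i ≠ 0`.  Then
`aeval (ζ β) f = aeval β f = 0`, so `ζ β` is a conjugate of `β`: `ζ = β ^ (q ^ (2 i) - 1)` for some `0 ≤ i < n`, in particular `ζ` is a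
power of `β`.  If `n` is odd: `ζ ^ (q ^ n - 1) = 1` and `q ^ n ≡ -1 mod (q + 1)`, so `ζ ^ 2 = 1` and with `ζ ^ n = 1` we get `ζ = 1`.
If `n` is even: `ζ ^ (q ^ n + 1) = 1` and `q ^ n ≡ 1 mod (q + 1)`, so `ζ ^ 2 = 1`; then `Q ∣ 2 (q ^ (2 i) - 1)`; if `i > 0` and `ζ ≠ 1`
(so `q` is odd, `q ≥ 3`): for `2 i < n` `2 (q ^ (2 i) - 1) < Q`; for `2 i = n` `2 (q ^ n - 1) ≡ - 4`; for `2 i = n + j`,
`2 (q ^ (2 i) - 1) ≡ - 2 (q ^ j + 1)`, `0 < 2 (q ^ j + 1) < Q` (`j ≤ n - 2`): contradiction. -/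
theorem seed_exists_odd [Finite K] (hK : ∃ x : K, star x ≠ x) {n : ℕ} (hn : 3 ≤ n) :
    ∃ f : K[X], f.Monic ∧ f.natDegree = n ∧ f.coeff 0 ≠ 0 ∧ Seed (comp f n) ∧
      IsUnit (comp f n - 1).det ∧
      ∀ ζ : K, ζ * star ζ = 1 → ζ ^ n = 1 → ζ ≠ 1 → ∃ i, i < n ∧ f.coeff i ≠ 0 ∧ ζ ^ i ≠ 1 := by
  obtain ⟨f, E, _, _, _, β, hm, hi, hfn, hf0, hE, hβ, hb1, hb2, hb3⟩ := OSeed_exists hK hn
  have h0 : 0 < n := by omega
  obtain ⟨b, hb, hmat, hp, hdet, hsurj⟩ := comp_mul hm hi hfn hE h0 hβ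
  have hfin : FiniteDimensional K E := FiniteDimensional.of_finrank_pos (by rw [hE]; exact h0)
  refine ⟨f, hm, hfn, hf0, ?_, ?_, hb3⟩
  swap
  · exact OSeed_one hm hi hfn hE hn hβ
  have hβ0 : β ≠ 0 := by
    rintro rfl
    apply hf0
    have h1 := coeff_zero_eq_aeval_zero' (A := E) f
    rw [hβ] at h1
    exact (map_eq_zero (algebraMap K E)).1 h1
  have hnorm : ∀ e : E, e ≠ 0 → Algebra.norm K e ≠ 0 := fun e he => by
    rwa [ne_eq, Algebra.norm_eq_zero_iff]
  have hBdet : IsUnit (comp f n).det := by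
    rw [isUnit_iff_ne_zero]
    have h1 := hdet X
    rw [aeval_X, aeval_X] at h1
    rw [h1]
    exact hnorm β hβ0
  have hBf : aeval (comp f n) f = 0 := by rw [← hp, hβ, map_zero]
  have hinv : (comp f n)⁻¹ = Algebra.leftMulMatrix b β⁻¹ := by
    apply Matrix.inv_eq_right_inv
    rw [← hmat, ← map_mul, mul_inv_cancel₀ hβ0, map_one]
  have hinvp : ∀ g : K[X], aeval ((comp f n)⁻¹) g = Algebra.leftMulMatrix b (aeval β⁻¹ g) := by
    intro g
    rw [hinv, aeval_algHom_apply]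
  have hinvdet : (aeval ((comp f n)⁻¹) (f.map (starRingEnd K))).det ≠ 0 := by
    rw [hinvp, ← Algebra.norm_eq_matrix_det]
    exact hnorm _ hb1
  have hBH : IsUnit ((comp f n)ᴴ).det := by
    rw [Matrix.det_conjTranspose]
    exact hBdet.star
  refine ⟨hBdet, ?_, ?_, ?_, ?_⟩
  · intro Z hZ
    have h1 : Z * comp f n = ((comp f n)ᴴ)⁻¹ * Z := by
      calc Z * comp f n = ((comp f n)ᴴ)⁻¹ * ((comp f n)ᴴ * Z * comp f n) := by
            rw [Matrix.mul_assoc, ← Matrix.mul_assoc _ ((comp f n)ᴴ), Matrix.nonsing_inv_mul _ hBH,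
              Matrix.one_mul]
        _ = _ := by rw [hZ]
    have h2 := SeedE_comm Z _ _ h1 f
    rw [hBf, Matrix.mul_zero] at h2
    refine SeedE_zero Z _ ?_ h2.symm
    rw [← Matrix.conjTranspose_nonsing_inv, SeedE_star, Matrix.det_conjTranspose]
    exact star_ne_zero.2 hinvdet
  · intro Z hZ
    have h1 : Z * (comp f n)ᴴ = (comp f n)⁻¹ * Z := by
      calc Z * (comp f n)ᴴ = (comp f n)⁻¹ * (comp f n * Z * (comp f n)ᴴ) := by
            rw [Matrix.mul_assoc, ← Matrix.mul_assoc _ (comp f n), Matrix.nonsing_inv_mul _ hBdet,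
              Matrix.one_mul]
        _ = _ := by rw [hZ]
    have h2 := SeedE_comm Z _ _ h1 (f.map (starRingEnd K))
    rw [SeedE_star, Polynomial.map_map] at h2
    have h3 : (starRingEnd K).comp (starRingEnd K) = RingHom.id K := by
      ext x
      simp
    rw [h3, Polynomial.map_id, hBf, conjTranspose_zero, Matrix.mul_zero] at h2
    exact SeedE_zero Z _ hinvdet h2.symm
  · intro d hd
    obtain ⟨c, hc0, hc⟩ := fld_hilb hK d hd
    obtain ⟨e, he⟩ := FiniteField.norm_surjective K E c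
    obtain ⟨p, hpe⟩ := hsurj e
    have h1 : (aeval (comp f n) p).det = c := by rw [hdet, hpe, he]
    refine ⟨aeval (comp f n) p, ?_, ?_, ?_⟩
    · rw [h1]
      exact isUnit_iff_ne_zero.2 hc0
    · have h2 := SeedE_comm (comp f n) (comp f n) (comp f n) rfl p
      exact h2.symm
    · rw [h1]
      exact hc
  · rcases hb2 with h | h
    · have h1 : aeval ((comp f n)⁻¹) f = 0 := by rw [hinvp, h, map_zero]
      obtain ⟨k, hk, hk'⟩ := sim_irr hm hi hfn h0 h1 hBf
      exact ⟨k, hk, Or.inl hk'⟩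
    · have h1 : aeval ((comp f n)ᴴ) f = 0 := by
        rw [SeedE_star, h, hBf, conjTranspose_zero]
      obtain ⟨k, hk, hk'⟩ := sim_irr hm hi hfn h0 hBf h1
      refine ⟨k, hk, Or.inr ?_⟩
      calc k * (comp f n)⁻¹ = ((comp f n)ᴴ)⁻¹ * ((comp f n)ᴴ * k) * (comp f n)⁻¹ := by
            rw [← Matrix.mul_assoc, Matrix.nonsing_inv_mul _ hBH, Matrix.one_mul]
        _ = ((comp f n)ᴴ)⁻¹ * k := by
            rw [← hk', Matrix.mul_assoc, Matrix.mul_assoc, Matrix.mul_nonsing_inv _ hBdet,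
              Matrix.mul_one]

end ThU
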