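import Pool.Agent.ThU.Compl

/-! # Module Two -/

namespace ThU
open Matrix Polynomial Module

variable {K V : Type*} [Field K] [StarRing K] [AddCommGroup V] [Module K V] (H : Herm K V)
variable {U : Submodule K V} {G : V →ₗ[K] V}

/-- the fixed field of `star` has 2 elements: then `-1 = 1` -/
theorem two_char (hF : ∀ t : K, star t = t → t = 0 ∨ t = 1) : (2 : K) = 0 := by
  rcases hF (-1) (by rw [star_neg, star_one]) with h | h
  · exact absurd (neg_eq_zero.1 h) one_ne_zero
  · linear_combination -h

theorem two_norm (hF : ∀ t : K, star t = t → t = 0 ∨ t = 1) {x : K} (hx : x ≠ 0) :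
    x * star x = 1 := by
  rcases hF (x * star x) (by rw [star_mul', star_star, mul_comm]) with h | h
  · exact absurd h (mul_ne_zero hx (by rw [Ne, star_eq_zero]; exact hx))
  · exact h

theorem two_good (hF : ∀ t : K, star t = t → t = 0 ∨ t = 1) {l z : K} (hz : z ≠ 0) :
    Good l z ↔ l = z := by
  have h2 := two_char hF
  have hz' : star z ≠ 0 := by rw [Ne, star_eq_zero]; exact hz
  constructor
  · rintro ⟨hl, h⟩
    have hs : star (l * star z) = l * star z := by
      rw [star_mul', star_star]
      linear_combination h - (l * star z) * h2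
    rcases hF _ hs with h3 | h3
    · exact absurd h3 (mul_ne_zero hl hz')
    · have h4 := two_norm hF hz
      have h5 : (l - z) * star z = 0 := by linear_combination h3 - h4
      rcases mul_eq_zero.1 h5 with h6 | h6
      · exact sub_eq_zero.1 h6
      · exact absurd h6 hz'
  · rintro rfl
    refine ⟨hz, ?_⟩
    linear_combination (l * star l) * h2

/-- `K` has 4 elements -/
theorem two_omega (hK : ∃ x : K, star x ≠ x) (hF : ∀ t : K, star t = t → t = 0 ∨ t = 1) :
    ∃ o : K, o ≠ 0 ∧ o ≠ 1 ∧ o ^ 2 = o + 1 ∧ star o = o + 1 ∧ ∀ x : K, x = 0 ∨ x = 1 ∨ x = o ∨ x = o + 1 := by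
  have h2 := two_char hF
  have hst : ∀ x : K, star x ≠ x → star x = x + 1 := by
    intro x hx
    rcases hF (x + star x) (by rw [star_add, star_star, add_comm]) with h | h
    · exact absurd (by linear_combination h - x * h2) hx
    · linear_combination h - x * h2
  obtain ⟨o, ho⟩ := hK
  have ho0 : o ≠ 0 := by
    rintro rfl
    exact ho (star_zero K)
  have ho1 : o ≠ 1 := by
    rintro rfl
    exact ho (star_one K)
  have hos := hst o ho
  have hn := two_norm hF ho0
  rw [hos] at hn
  refine ⟨o, ho0, ho1, by linear_combination hn - o * h2, hos, fun x => ?_⟩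
  by_cases hx : star x = x
  · rcases hF x hx with h | h
    · exact Or.inl h
    · exact Or.inr (Or.inl h)
  · have h3 := hst x hx
    rcases hF (x + o) (by rw [star_add, h3, hos]; linear_combination h2) with h | h
    · right; right; left
      linear_combination h - o * h2
    · right; right; right
      linear_combination h - o * h2

/-- the inverse isometry -/
private theorem Two_inv [FiniteDimensional K V] (hU : H.ND U) (hG : H.Iso U G) :
    ∃ F : V →ₗ[K] V, (∀ x ∈ U, F x ∈ U) ∧ (∀ x ∈ U, F (G x) = x) ∧ ∀ x ∈ U, G (F x) = x := by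
  set g : U →ₗ[K] U := G.restrict hG.1 with hg
  have hinj : Function.Injective g := by
    rw [← LinearMap.ker_eq_bot, LinearMap.ker_eq_bot']
    intro x hx
    apply Subtype.ext
    refine hU x x.2 fun y hy => ?_
    have h1 : G (x : V) = 0 := congrArg Subtype.val hx
    rw [← hG.2 x x.2 y hy, h1, H.zero_left]
  set e := LinearEquiv.ofInjectiveEndo g hinj with he
  obtain ⟨F, hF⟩ := LinearMap.exists_extend (U.subtype ∘ₗ (e.symm : U →ₗ[K] U))
  have hFa : ∀ x : U, F (x : V) = (e.symm x : V) := fun x => by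
    have := congrArg (fun f : U →ₗ[K] V => f x) hF
    exact this
  have hea : ∀ x : U, ((e x : U) : V) = G (x : V) := fun x => rfl
  refine ⟨F, fun x hx => ?_, fun x hx => ?_, fun x hx => ?_⟩
  · rw [hFa ⟨x, hx⟩]
    exact (e.symm ⟨x, hx⟩).2
  · have h1 := hFa (e ⟨x, hx⟩)
    rw [e.symm_apply_apply] at h1
    exact h1
  · rw [hFa ⟨x, hx⟩, ← hea, e.apply_symm_apply]

/-- Let `k = l⁻¹ G`.  Every isotropic `w ∈ U` has `h w (k w) ∈ {0, 1}` (first steps `tri_first1`, `hc`).  Hence
`h w (k w) = h (k w) w`, and with `k⁻¹` on `U` (inverse isometry: `h w (k⁻¹ w) = h (k w) w`) `scal_of_iso` gives `k - k⁻¹ = c`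
on `U`, `c` a scalar; `star c = - c = c`, so `c = 0` or `c = 1`.  If `c = 0` then `k² = 1`.  If `c = 1` then `k² + k + 1 = 0`,
`U` is the orthogonal sum of the eigenspaces for `o` and `o²` and one of them has dimension `≥ 2`, is nondegenerate and
contains an isotropic eigenvector (`exists_iso`), with eigenvalue `l * o` or `l * o²` for `G`; `tri_first2` contradicts `hc`. -/
theorem two_const [Finite K] [FiniteDimensional K V] (hK : ∃ x : K, star x ≠ x)
    (hF : ∀ t : K, star t = t → t = 0 ∨ t = 1) {m : ℕ} (hm : 2 ≤ m) (hU : H.ND U)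
    (hn : finrank K U = 2 * m) (hG : H.Iso U G) {l : K} (hl : l ≠ 0)
    (hc : ∀ d : Fin m → K, (∀ i, d i ≠ 0) → H.Tri U G m d → ∀ i, d i = l) :
    ∀ x ∈ U, G (G x) = l ^ 2 • x := by
  obtain ⟨n, rfl⟩ : ∃ n, m = n + 1 := ⟨m - 1, by omega⟩
  have h2 := two_char hF
  have hll := two_norm hF hl
  -- no isotropic eigenvector with eigenvalue different from `l`
  have heig : ∀ w ∈ U, w ≠ 0 → H.h w w = 0 → ∀ c : K, c ≠ 0 → G w = c • w → c = l := by
    intro w hw hw0 hww c hc0 hcw
    obtain ⟨d, hd, ht⟩ := tri_first2 H hK hU hn hG hw hw0 hww hcw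
    have h3 := hc (Fin.cons c d) (fun i => by
      refine Fin.cases ?_ (fun j => ?_) i
      · rw [Fin.cons_zero]; exact hc0
      · rw [Fin.cons_succ]; exact hd j) ht 0
    rwa [Fin.cons_zero] at h3
  have hz : ∀ w ∈ U, H.h w w = 0 → H.h w (G w) = 0 ∨ H.h w (G w) = l := by
    intro w hw hww
    by_cases hzw : H.h w (G w) = 0
    · exact Or.inl hzw
    · right
      obtain ⟨d, hd, ht⟩ := tri_first1 H hK hU hn hG hw hww hzw ((two_good hF hzw).2 rfl)
      have h3 := hc (Fin.cons (H.h w (G w)) d) (fun i => by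
        refine Fin.cases ?_ (fun j => ?_) i
        · rw [Fin.cons_zero]; exact hzw
        · rw [Fin.cons_succ]; exact hd j) ht 0
      rwa [Fin.cons_zero] at h3
  obtain ⟨F, hF1, hF2, hF3⟩ := Two_inv H hU hG
  -- `h x (F x) = star (h x (G x))`
  have hFs : ∀ x ∈ U, H.h x (F x) = star (H.h x (G x)) := by
    intro x hx
    rw [← hG.2 x hx (F x) (hF1 x hx), hF3 x hx]
    exact H.symm x (G x)
  have hls : l⁻¹ = star l := by
    rw [← mul_right_inj' hl, mul_inv_cancel₀ hl, hll]
  obtain ⟨c, hcT⟩ := scal_of_iso H hK hU (by omega) (star l • G - l • F) (fun x hx => by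
    show star l • G x - l • F x ∈ U
    exact U.sub_mem (U.smul_mem _ (hG.1 x hx)) (U.smul_mem _ (hF1 x hx))) (fun w hw hww => by
    show H.h w (star l • G w - l • F w) = 0
    rw [map_sub, map_smul, map_smul, hFs w hw]
    rcases hz w hw hww with h3 | h3
    · rw [h3]; simp
    · rw [h3, smul_eq_mul, smul_eq_mul]
      ring)
  have hcT' : ∀ x ∈ U, star l • G x - l • F x = c • x := hcT
  -- the quadratic equation
  have hquad : ∀ x ∈ U, G (G x) = l ^ 2 • x + (c * l) • G x := by
    intro x hx
    have h3 := hcT' (G x) (hG.1 x hx)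
    rw [hF2 x hx] at h3
    have h4 : l • (star l • G (G x)) = l • (c • G x + l • x) := by
      rw [← h3, sub_add_cancel]
    rw [smul_smul, hll, one_smul, smul_add, smul_smul, smul_smul] at h4
    rw [h4, add_comm, sq, mul_comm c l]
  -- `c` is fixed by `star`
  have hfr : 2 ≤ finrank K U := by omega
  have hcs : star c = c := by
    obtain ⟨w, hw, hw0, hww⟩ := exists_iso H hK hU hfr
    obtain ⟨w', hw', hww', hw'w⟩ := exists_partner H hK hU hw hw0 hww
    have hww'1 : H.h w w' = 1 := by rw [H.symm w' w, hw'w, star_one]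
    obtain ⟨t, ht⟩ := fld_trace hK 1 (star_one K)
    have hx : w + t • w' ∈ U := U.add_mem hw (U.smul_mem t hw')
    have hxx : H.h (w + t • w') (w + t • w') = 1 := by
      simp only [H.add_left, H.smul_left, map_add, map_smul, smul_eq_mul, hww, hww', hw'w, hww'1]
      linear_combination ht
    have h3 := congrArg (H.h (w + t • w')) (hcT' _ hx)
    rw [map_sub, map_smul, map_smul, map_smul, hFs _ hx, hxx, smul_eq_mul, smul_eq_mul,
      smul_eq_mul, mul_one] at h3
    rw [← h3, star_sub, star_mul', star_mul', star_star, star_star]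
    linear_combination (l * star (H.h (w + t • w') (G (w + t • w'))) -
      star l * H.h (w + t • w') (G (w + t • w'))) * h2
  rcases hF c hcs with hc0 | hc1
  · intro x hx
    rw [hquad x hx, hc0, zero_mul, zero_smul, add_zero]
  exfalso
  obtain ⟨o, ho0, ho1, ho2, hos, -⟩ := two_omega hK hF
  have ho1' : o + 1 ≠ 0 := by
    intro h3
    apply ho1
    linear_combination h3 - h2
  -- eigenspaces
  set E : K → Submodule K V := fun μ => U ⊓ LinearMap.ker (G - μ • LinearMap.id) with hE
  have hEm : ∀ μ x, x ∈ E μ ↔ x ∈ U ∧ G x = μ • x := by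
    intro μ x
    rw [hE]
    simp only [Submodule.mem_inf, LinearMap.mem_ker, LinearMap.sub_apply, LinearMap.smul_apply,
      LinearMap.id_coe, id_eq, sub_eq_zero]
  have hortho : ∀ x ∈ E (l * o), ∀ y ∈ E (l * (o + 1)), H.h x y = 0 := by
    intro x hx y hy
    rw [hEm] at hx hy
    have h3 := hG.2 x hx.1 y hy.1
    rw [hx.2, hy.2, H.smul_left, map_smul, smul_eq_mul, star_mul', hos] at h3
    have h4 : (o - 1) * H.h x y = 0 := by
      have h5 : star l * (o + 1) * (l * (o + 1) * H.h x y) = o * H.h x y := by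
        linear_combination ((o + 1) ^ 2 * H.h x y) * hll + H.h x y * ho2 + (o + 1) * H.h x y * h2
      rw [h5] at h3
      linear_combination h3
    rcases mul_eq_zero.1 h4 with h5 | h5
    · exact absurd (sub_eq_zero.1 h5) ho1
    · exact h5
  have hortho' : ∀ y ∈ E (l * (o + 1)), ∀ x ∈ E (l * o), H.h y x = 0 := fun y hy x hx =>
    H.swap_zero.1 (hortho x hx y hy)
  -- components
  have hcomp : ∀ x ∈ U, ∃ a ∈ E (l * o), ∃ b ∈ E (l * (o + 1)), x = a + b := by
    intro x hx
    have hq := hquad x hx
    rw [hc1, one_mul] at hq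
    refine ⟨- (star l • G x - (o + 1) • x), ?_, star l • G x - o • x, ?_, ?_⟩
    · rw [hEm]
      refine ⟨U.neg_mem (U.sub_mem (U.smul_mem _ (hG.1 x hx)) (U.smul_mem _ hx)), ?_⟩
      rw [map_neg, map_sub, map_smul, map_smul, hq]
      have e1 : star l * l ^ 2 = l := by linear_combination l * hll
      have e2 : star l * l = 1 := by linear_combination hll
      rw [smul_add, smul_smul, smul_smul, e1, e2, smul_neg, smul_sub, smul_smul, smul_smul]
      have e3 : l * o * star l = o := by linear_combination o * hll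
      have e4 : l * o * (o + 1) = l := by linear_combination l * ho2 + l * o * h2
      rw [e3, e4, one_smul, ← sub_eq_zero]
      have e5 : (2 * o : K) = 0 := by rw [h2, zero_mul]
      have e6 : (2 * l : K) = 0 := by rw [h2, zero_mul]
      have e7 : -(l • x + G x - (o + 1) • G x) - -(o • G x - l • x) =
          (2 * o) • G x - (2 * l) • x := by module
      rw [e7, e5, e6]
      simp
    · rw [hEm]
      refine ⟨U.sub_mem (U.smul_mem _ (hG.1 x hx)) (U.smul_mem _ hx), ?_⟩
      rw [map_sub, map_smul, map_smul, hq]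
      have e1 : star l * l ^ 2 = l := by linear_combination l * hll
      have e2 : star l * l = 1 := by linear_combination hll
      rw [smul_add, smul_smul, smul_smul, e1, e2, smul_sub, smul_smul, smul_smul]
      have e3 : l * (o + 1) * star l = o + 1 := by linear_combination (o + 1) * hll
      have e4 : l * (o + 1) * o = l := by linear_combination l * ho2 + l * o * h2
      rw [e3, e4, one_smul, ← sub_eq_zero]
      have e5 : (2 * o : K) = 0 := by rw [h2, zero_mul]
      have e6 : (2 * l : K) = 0 := by rw [h2, zero_mul]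
      have e7 : l • x + G x - o • G x - ((o + 1) • G x - l • x) =
          (2 * l) • x - (2 * o) • G x := by module
      rw [e7, e5, e6]
      simp
    · module
  have hND1 : H.ND (E (l * o)) := by
    intro x hx hxy
    refine hU x ((hEm _ _).1 hx).1 fun y hy => ?_
    obtain ⟨a, ha, b, hb, rfl⟩ := hcomp y hy
    rw [map_add, hxy a ha, hortho x hx b hb, add_zero]
  have hND2 : H.ND (E (l * (o + 1))) := by
    intro x hx hxy
    refine hU x ((hEm _ _).1 hx).1 fun y hy => ?_
    obtain ⟨a, ha, b, hb, rfl⟩ := hcomp y hy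
    rw [map_add, hxy b hb, hortho' x hx a ha, add_zero]
  have hdim : finrank K U ≤ finrank K (E (l * o)) + finrank K (E (l * (o + 1))) := by
    have h3 : U ≤ E (l * o) ⊔ E (l * (o + 1)) := by
      intro x hx
      obtain ⟨a, ha, b, hb, rfl⟩ := hcomp x hx
      exact Submodule.add_mem_sup ha hb
    exact (Submodule.finrank_mono h3).trans (Submodule.finrank_add_le_finrank_add_finrank _ _)
  rcases Nat.lt_or_ge (finrank K (E (l * o))) 2 with hlt | hge
  · have hge' : 2 ≤ finrank K (E (l * (o + 1))) := by omega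
    obtain ⟨w, hw, hw0, hww⟩ := exists_iso H hK hND2 hge'
    rw [hEm] at hw
    have h3 := heig w hw.1 hw0 hww (l * (o + 1)) (mul_ne_zero hl ho1') hw.2
    have h4 : o + 1 = 1 := mul_left_cancel₀ hl (by rw [h3, mul_one])
    exact ho0 (by linear_combination h4)
  · obtain ⟨w, hw, hw0, hww⟩ := exists_iso H hK hND1 hge
    rw [hEm] at hw
    have h3 := heig w hw.1 hw0 hww (l * o) (mul_ne_zero hl ho0) hw.2
    exact ho1 (mul_left_cancel₀ hl (by rw [h3, mul_one]))

end ThU
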