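import Pool.Agent.ThU.OSub
import Pool.Agent.ThU.Two

/-! # Module OEig -/

namespace ThU
open Matrix Polynomial Module

variable {K V : Type*} [Field K] [StarRing K] [AddCommGroup V] [Module K V] (H : Herm K V)
variable {U : Submodule K V} {G : V →ₗ[K] V}

section
omit [StarRing K]

/-- rank and nullity on `U` -/
private theorem OEig_rank [FiniteDimensional K V] {W : Type*} [AddCommGroup W] [Module K W]
    (U : Submodule K V) (N : V →ₗ[K] W) :
    finrank K (U.map N) + finrank K (U ⊓ LinearMap.ker N : Submodule K V) = finrank K U := by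
  have h1 := LinearMap.finrank_range_add_finrank_ker (N.domRestrict U)
  have h2 : (LinearMap.ker (N.domRestrict U)).map U.subtype = U ⊓ LinearMap.ker N := by
    ext x
    constructor
    · rintro ⟨⟨x, hx⟩, hker, rfl⟩
      exact ⟨hx, hker⟩
    · rintro ⟨hx, hk⟩
      exact ⟨⟨x, hx⟩, hk, rfl⟩
  rw [LinearMap.range_domRestrict, ← Submodule.finrank_map_subtype_eq, h2] at h1
  exact h1

private theorem OEig_fun [FiniteDimensional K V] (Y : Submodule K V) (f : V →ₗ[K] K) :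
    finrank K Y ≤ finrank K (Y ⊓ LinearMap.ker f : Submodule K V) + 1 := by
  have h1 := OEig_rank Y f
  have h2 : finrank K (Y.map f) ≤ 1 := by
    refine (Submodule.finrank_le _).trans ?_
    rw [Module.finrank_self]
  omega

private theorem OEig_not [FiniteDimensional K V] {Y : Submodule K V} (h : 2 ≤ finrank K Y) (y : V) :
    ∃ y2 ∈ Y, y2 ∉ Submodule.span K {y} := by
  by_contra hc
  push Not at hc
  have h1 : Y ≤ Submodule.span K {y} := hc
  have h2 := Submodule.finrank_mono h1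
  have h3 := finrank_span_le_card (R := K) ({y} : Set V)
  rw [Set.toFinset_singleton, Finset.card_singleton] at h3
  omega

end

private theorem OEig_three [Finite K] [FiniteDimensional K V] (hK : ∃ x : K, star x ≠ x)
    {Y : Submodule K V} (hYU : Y ≤ U) (h3 : 3 ≤ finrank K Y) {β : V →ₗ[K] K} {l : K}
    (h1 : ∀ y ∈ Y, G y = l • y) (h2 : ∀ y ∈ Y, β y = 0) :
    ∃ y ∈ U, ∃ y2 ∈ U, y ≠ 0 ∧ H.h y y = 0 ∧ G y = l • y ∧ β y = 0 ∧ G y2 = l • y2 ∧ β y2 = 0 ∧
      H.h y y2 = 0 ∧ y2 ∉ Submodule.span K {y} := by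
  obtain ⟨y, hy, hy0, hyy⟩ := iso_in_two H hK (L := Y) (by omega)
  have h4 := OEig_fun Y (H.h y)
  obtain ⟨y2, hy2, hn⟩ := OEig_not (Y := Y ⊓ LinearMap.ker (H.h y)) (by omega) y
  exact ⟨y, hYU hy, y2, hYU hy2.1, hy0, hyy, h1 y hy, h2 y hy, h1 y2 hy2.1, h2 y2 hy2.1, hy2.2, hn⟩

/-- `l * star l = 1` (`two_norm`), `2 = 0` (`two_char`).  First case, `N = G - l` (`N² = 0` on `U`): `h (N x) y = 0` for `y ∈ U`,
`N y = 0`, and `h (N x) (N x') = 0`.  `dim (ker N on U) ≥ k + 3`, `Y = {y ∈ U | N y = 0, β y = 0}` has dimension `≥ k + 2 ≥ 2`.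
If there is `x1 ∈ U` with `y = N x1 ≠ 0` and `β y = 0`, take `y2 ∈ Y`, `y2 ∉ ⟨y⟩`.  Otherwise `β` is injective on the image of
`N`, which has dimension `≤ 1`, so `dim Y ≥ 2 k + 3 ≥ 3`; take an isotropic `y ≠ 0` in `Y` (`iso_in_two`) and `y2` in
`{x ∈ Y | h y x = 0}` (dimension `≥ 2`), `y2 ∉ ⟨y⟩`.
Second case: `Y = {y ∈ U | h d y = 0, β y = 0}` has dimension `≥ 2 k + 3 ≥ 3`; same argument. -/
theorem odd_eig [Finite K] [FiniteDimensional K V] (hK : ∃ x : K, star x ≠ x)
    (hF : ∀ t : K, star t = t → t = 0 ∨ t = 1) {k : ℕ} (hU : H.ND U) (hn : finrank K U = 2 * k + 5)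
    (hG : H.Iso U G) (β : V →ₗ[K] K) {l : K} (hl : l ≠ 0)
    (h : (∀ x ∈ U, G (G x) = l ^ 2 • x) ∨
      ∃ d ∈ U, H.h d d ≠ 0 ∧ ∀ x ∈ U, H.h d x = 0 → G x = l • x) :
    ∃ y ∈ U, ∃ y2 ∈ U, y ≠ 0 ∧ H.h y y = 0 ∧ G y = l • y ∧ β y = 0 ∧ G y2 = l • y2 ∧ β y2 = 0 ∧
      H.h y y2 = 0 ∧ y2 ∉ Submodule.span K {y} := by
  have h2 := two_char hF
  have hll := two_norm hF hl
  rcases h with h | ⟨d, hd, hdd, h⟩
  · set N : V →ₗ[K] V := G - l • LinearMap.id with hN
    have hNa : ∀ x, N x = G x - l • x := fun x => rfl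
    have hNU : ∀ x ∈ U, N x ∈ U := fun x hx => U.sub_mem (hG.1 x hx) (U.smul_mem _ hx)
    have hN2 : ∀ x ∈ U, N (N x) = 0 := fun x hx => by
      rw [hNa, hNa, map_sub, map_smul, h x hx]
      have e : l ^ 2 • x - l • G x - l • (G x - l • x) = (2 * l ^ 2) • x - (2 * l) • G x := by
        module
      rw [e, h2]
      simp
    have hker : ∀ y, N y = 0 → G y = l • y := fun y hy => by
      rw [hNa, sub_eq_zero] at hy
      exact hy
    have hort : ∀ x ∈ U, ∀ y ∈ U, N y = 0 → H.h (N x) y = 0 := by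
      intro x hx y hy hNy
      have e1 := hG.2 x hx y hy
      rw [hker y hNy, map_smul, smul_eq_mul] at e1
      rw [hNa, H.sub_left, H.smul_left]
      linear_combination star l * e1 - H.h (G x) y * hll
    have hr := OEig_rank U N
    have hm : finrank K (U.map N) ≤ finrank K (U ⊓ LinearMap.ker N : Submodule K V) := by
      apply Submodule.finrank_mono
      rintro _ ⟨x, hx, rfl⟩
      exact ⟨hNU x hx, hN2 x hx⟩
    have hf := OEig_fun (U ⊓ LinearMap.ker N) β
    by_cases hex : ∃ x1 ∈ U, N x1 ≠ 0 ∧ β (N x1) = 0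
    · obtain ⟨x1, hx1, hy0, hby⟩ := hex
      obtain ⟨y2, hy2, hn2⟩ := OEig_not (Y := U ⊓ LinearMap.ker N ⊓ LinearMap.ker β) (by omega)
        (N x1)
      have hy2U : y2 ∈ U := hy2.1.1
      have hy2N : N y2 = 0 := hy2.1.2
      exact ⟨N x1, hNU x1 hx1, y2, hy2U, hy0, hort x1 hx1 _ (hNU x1 hx1) (hN2 x1 hx1),
        hker _ (hN2 x1 hx1), hby, hker _ hy2N, hy2.2, hort x1 hx1 y2 hy2U hy2N, hn2⟩
    · push Not at hex
      have hi : finrank K (U.map N) ≤ 1 := by
        have e1 := OEig_rank (U.map N) β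
        have e2 : (U.map N) ⊓ LinearMap.ker β = ⊥ := by
          rw [Submodule.eq_bot_iff]
          rintro _ ⟨⟨x, hx, rfl⟩, hb⟩
          by_contra hc
          exact hex x hx hc hb
        have e3 : finrank K ((U.map N).map β) ≤ 1 := by
          refine (Submodule.finrank_le _).trans ?_
          rw [Module.finrank_self]
        rw [e2, finrank_bot] at e1
        omega
      exact OEig_three H hK (Y := U ⊓ LinearMap.ker N ⊓ LinearMap.ker β)
        (inf_le_left.trans inf_le_left) (by omega) (fun y hy => hker y hy.1.2)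
        (fun y hy => hy.2)
  · have h3 := OEig_fun U (H.h d)
    have h4 := OEig_fun (U ⊓ LinearMap.ker (H.h d)) β
    exact OEig_three H hK (Y := U ⊓ LinearMap.ker (H.h d) ⊓ LinearMap.ker β)
      (inf_le_left.trans inf_le_left) (by omega) (fun y hy => h y hy.1.1 hy.1.2) (fun y hy => hy.2)

end ThU
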