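import Pool.Agent.ThU.OSub

/-! # Module OExc -/

namespace ThU
open Matrix Polynomial Module

variable {K V : Type*} [Field K] [StarRing K] [AddCommGroup V] [Module K V] (H : Herm K V)
variable {G : V →ₗ[K] V}

/-- Scale `d` such that `h d d = 1` (`fld_norm`).  `V' = ker (h d)` is nondegenerate of dimension `2 n` (`split_ND`,
`split_finrank`); let `v`, `v'` be a hyperbolic system of `V'` (`hyp_exists`) and `t + star t = -1` (`fld_trace`).  Put
`w 0 = v 0 + d + t • v' 0`, `w' 0 = v' 0`, `w 1 = v 1`, `w' 1 = v' 1 - v' 0 + d + t • v 1`, `w i = v i`, `w' i = v' i` for `i ≥ 2`.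
This is a hyperbolic system of `V`.  `G x - ζ • x = (1 - ζ) * h d x • d` for all `x`, so
`h (w' i) (G (w j)) = ζ * δ i j + (1 - ζ) * h (w' i) d * h d (w j)`, and the second term is `1 - ζ` for `i = 1`, `j = 0` and zero
otherwise. -/
theorem exc_altC [Finite K] [FiniteDimensional K V] (hK : ∃ x : K, star x ≠ x) (hU : H.ND ⊤) {n : ℕ}
    (h2 : 2 ≤ n) (hn : finrank K V = 2 * n + 1) (hG : H.Iso ⊤ G) {d : V} (hd : H.h d d ≠ 0)
    (hGd : G d = d) {ζ : K} (hζ : ζ * star ζ = 1) (hζn : ζ ^ n = 1) (hζ1 : ζ ≠ 1)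
    (hc : ∀ x, H.h d x = 0 → G x = ζ • x) : H.AltC G n := by
  have _ := hG
  -- scaling
  obtain ⟨κ, hκ⟩ := fld_norm hK (H.h d d)⁻¹ (by rw [star_inv₀, H.symm'])
  obtain ⟨e, he⟩ : ∃ e : V, e = κ • d := ⟨_, rfl⟩
  have hκ0 : κ ≠ 0 := by
    intro h
    rw [h, zero_mul] at hκ
    exact inv_ne_zero hd hκ.symm
  have hee : H.h e e = 1 := by
    rw [he, H.smul_left, map_smul, smul_eq_mul]
    calc star κ * (κ * H.h d d) = (κ * star κ) * H.h d d := by ring
      _ = 1 := by rw [hκ, inv_mul_cancel₀ hd]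
  have hGe : G e = e := by rw [he, map_smul, hGd]
  have hce : ∀ x, H.h e x = 0 → G x = ζ • x := by
    intro x hx
    apply hc
    rw [he, H.smul_left] at hx
    exact (mul_eq_zero.1 hx).resolve_left (fun h => hκ0 (star_eq_zero.1 h))
  have hee0 : H.h e e ≠ 0 := by rw [hee]; exact one_ne_zero
  -- the hyperbolic system of the complement
  have hND := split_ND H hU (Submodule.mem_top (x := e)) hee0
  have hfr := split_finrank H (U := ⊤) (Submodule.mem_top (x := e)) hee0
  rw [finrank_top] at hfr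
  obtain ⟨v, v', hv⟩ := hyp_exists H hK (n := n) hND (by omega)
  obtain ⟨t, ht⟩ := fld_trace hK (-1 : K) (by rw [star_neg, star_one])
  have hvv := hv.iso
  have hv'v' := hv.iso'
  have hv'v := hv.dual
  have hvv' : ∀ i j, H.h (v i) (v' j) = if i = j then 1 else 0 := by
    intro i j
    rw [H.symm (v' j) (v i), hv'v]
    by_cases hij : i = j
    · rw [if_pos hij, if_pos hij.symm, star_one]
    · rw [if_neg hij, if_neg (Ne.symm hij), star_zero]
  have hdv : ∀ i, H.h e (v i) = 0 := fun i => (hv.mem i).2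
  have hdv' : ∀ i, H.h e (v' i) = 0 := fun i => (hv.mem' i).2
  have hvd : ∀ i, H.h (v i) e = 0 := fun i => H.swap_zero.1 (hdv i)
  have hv'd : ∀ i, H.h (v' i) e = 0 := fun i => H.swap_zero.1 (hdv' i)
  have hGx : ∀ x, G x = ζ • x + ((1 - ζ) * H.h e x) • e := by
    intro x
    have h1 : H.h e (x - H.h e x • e) = 0 := by
      rw [map_sub, map_smul, hee, smul_eq_mul, mul_one, sub_self]
    have h2 := hce _ h1
    rw [map_sub, map_smul, hGe, sub_eq_iff_eq_add] at h2
    rw [h2]
    module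
  -- the indices
  obtain ⟨i0, j0, hij⟩ : ∃ i0 j0 : Fin n, i0 ≠ j0 :=
    ⟨⟨1, by omega⟩, ⟨0, by omega⟩, by
      intro h
      have := congrArg Fin.val h
      simp at this⟩
  obtain ⟨a, ha⟩ : ∃ a : Fin n → K, ∀ i, a i = if i = j0 then 1 else 0 := ⟨_, fun _ => rfl⟩
  obtain ⟨b, hb⟩ : ∃ b : Fin n → K, ∀ i, b i = if i = i0 then 1 else 0 := ⟨_, fun _ => rfl⟩
  have hsa : ∀ i, star (a i) = a i := by
    intro i
    rw [ha]
    split_ifs
    · exact star_one K
    · exact star_zero K
  have hsb : ∀ i, star (b i) = b i := by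
    intro i
    rw [hb]
    split_ifs
    · exact star_one K
    · exact star_zero K
  have hva : ∀ i, H.h (v i) (v' j0) = a i := by
    intro i
    rw [hvv', ha]
  have hav : ∀ i, H.h (v' j0) (v i) = a i := by
    intro i
    rw [hv'v, ha]
    by_cases h : i = j0
    · rw [if_pos h, if_pos h.symm]
    · rw [if_neg h, if_neg (Ne.symm h)]
  have hvb : ∀ i, H.h (v' i) (v i0) = b i := by
    intro i
    rw [hv'v, hb]
  have hbv : ∀ i, H.h (v i0) (v' i) = b i := by
    intro i
    rw [hvv', hb]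
    by_cases h : i = i0
    · rw [if_pos h, if_pos h.symm]
    · rw [if_neg h, if_neg (Ne.symm h)]
  have ha0 : a i0 = 0 := by rw [ha, if_neg hij]
  have hb0 : b j0 = 0 := by rw [hb, if_neg (Ne.symm hij)]
  refine ⟨ζ, hζ, hζn, hζ1, fun i => v i + a i • (e + t • v' j0),
    fun i => v' i + b i • (-v' j0 + e + t • v i0), ⟨fun _ => Submodule.mem_top,
      fun _ => Submodule.mem_top, fun i j => ?_, fun i j => ?_, fun i j => ?_⟩,
    1 - ζ, sub_ne_zero.2 (Ne.symm hζ1), i0, j0, hij, fun i j => ?_⟩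
  · simp only [H.add_left, H.smul_left, map_add, map_smul, smul_eq_mul, hvv, hva, hav, hvd, hdv,
      hdv', hv'd, hv'v', hee, hsa]
    linear_combination (a i * a j) * ht
  · simp only [H.add_left, H.smul_left, H.neg_left, map_add, map_neg, map_smul, smul_eq_mul, hvv,
      hvb, hbv, hvd, hdv, hdv', hv'd, hv'v', hee, hsb, hb0]
    linear_combination (b i * b j) * ht
  · simp only [H.add_left, H.smul_left, H.neg_left, map_add, map_smul, smul_eq_mul, hvv,
      hva, hav, hvd, hdv, hdv', hv'd, hv'v', hee, hsb, ha0, hv'v i j]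
    ring
  · have h3 : H.h (v' i + b i • (-v' j0 + e + t • v i0)) (v j + a j • (e + t • v' j0)) =
        if i = j then 1 else 0 := by
      simp only [H.add_left, H.smul_left, H.neg_left, map_add, map_smul, smul_eq_mul, hvv,
        hva, hav, hvd, hdv, hdv', hv'd, hv'v', hee, hsb, ha0, hv'v i j]
      ring
    have h4 : H.h e (v j + a j • (e + t • v' j0)) = a j := by
      simp only [map_add, map_smul, smul_eq_mul, hdv, hdv', hee]
      ring
    have h5 : H.h (v' i + b i • (-v' j0 + e + t • v i0)) e = b i := by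
      simp only [H.add_left, H.smul_left, H.neg_left, hvd, hv'd, hee, hsb]
      ring
    have h6 : (if i = i0 ∧ j = j0 then (1 - ζ) else 0) = (1 - ζ) * (b i * a j) := by
      rw [ha, hb]
      by_cases h7 : i = i0
      · by_cases h8 : j = j0
        · rw [if_pos (And.intro h7 h8), if_pos h7, if_pos h8, mul_one, mul_one]
        · rw [if_neg (fun h => h8 (And.right h)), if_neg h8, mul_zero, mul_zero]
      · rw [if_neg (fun h => h7 (And.left h)), if_neg h7, zero_mul, mul_zero]
    rw [hGx, map_add, map_smul, map_smul, h3, h4, h5, h6, smul_eq_mul, smul_eq_mul]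
    by_cases h7 : i = j
    · rw [if_pos h7, if_pos h7]
      ring
    · rw [if_neg h7, if_neg h7]
      ring

end ThU
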