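import Pool.Agent.ThU.OFree

/-! # Module ONs -/

namespace ThU
open Matrix Polynomial Module

variable {K V : Type*} [Field K] [StarRing K] [AddCommGroup V] [Module K V] (H : Herm K V)
variable {U : Submodule K V} {G : V →ₗ[K] V}

private theorem ONs_one {U1 : Submodule K V} (hU : H.ND U1) {y : V} (hy : y ∈ U1) (h0 : y ≠ 0) :
    ∃ x ∈ U1, H.h y x = 1 := by
  have h1 : ∃ x ∈ U1, H.h y x ≠ 0 := by
    by_contra hc
    push Not at hc
    exact h0 (hU y hy hc)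
  obtain ⟨x, hx, hne⟩ := h1
  exact ⟨(H.h y x)⁻¹ • x, U1.smul_mem _ hx, by rw [map_smul, smul_eq_mul, inv_mul_cancel₀ hne]⟩

/-- `G` maps the plane `⟨w, G w⟩` to itself if `G` is a scalar on `perp2 U w (G w)`: for `x ∈ perp2 U w (G w)`,
`star ζ * h x (G (G w)) = h (G x) (G (G w)) = h x (G w) = 0`; then `perp2_dec`, `perp2_ND` -/
theorem ns_inv [FiniteDimensional K V] (hU : H.ND U) (h3 : 3 ≤ finrank K U) (hG : H.Iso U G) {w : V}
    (hw : w ∈ U) (h0 : H.h w w = 0) (hz : H.h w (G w) ≠ 0) {ζ : K}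
    (hc : ∀ x ∈ H.perp2 U w (G w), G x = ζ • x) :
    ζ * star ζ = 1 ∧ ∃ s t : K, G (G w) = s • w + t • G w := by
  have hGw : G w ∈ U := hG.1 w hw
  have hGw0 : H.h (G w) (G w) = 0 := by rw [hG.2 w hw w hw, h0]
  have hND := perp2_ND H hU hw hGw h0 hGw0 hz
  have hfr := perp2_finrank H hw hGw h0 hGw0 hz
  have hne : H.perp2 U w (G w) ≠ ⊥ := by
    intro h
    rw [h, finrank_bot] at hfr
    omega
  obtain ⟨x, hx, hx0⟩ := Submodule.exists_mem_ne_zero_of_ne_bot hne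
  obtain ⟨y, hy, hxy⟩ := ONs_one H hND hx hx0
  have hx' := H.mem_perp2.1 hx
  have hy' := H.mem_perp2.1 hy
  have hζ : ζ * star ζ = 1 := by
    have h1 := hG.2 x hx'.1 y hy'.1
    rw [hc x hx, hc y hy, H.smul_left, map_smul, smul_eq_mul, hxy] at h1
    linear_combination h1
  have hζ0 : star ζ ≠ 0 := by
    intro h
    rw [h, mul_zero] at hζ
    exact zero_ne_one hζ
  refine ⟨hζ, ?_⟩
  have hGGw : G (G w) ∈ U := hG.1 _ hGw
  obtain ⟨s, t, hst⟩ := perp2_dec H hw hGw h0 hGw0 hz _ hGGw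
  refine ⟨s, t, ?_⟩
  have h2 : G (G w) - s • w - t • G w = 0 := by
    refine hND _ hst fun v hv => ?_
    have hv' := H.mem_perp2.1 hv
    have hvw : H.h v w = 0 := H.swap_zero.1 hv'.2.1
    have hvGw : H.h v (G w) = 0 := H.swap_zero.1 hv'.2.2
    have h3 : H.h v (G (G w)) = 0 := by
      have h4 := hG.2 v hv'.1 (G w) hGw
      rw [hc v hv, H.smul_left, hvGw] at h4
      exact (mul_eq_zero.1 h4).resolve_left hζ0
    rw [H.swap_zero, map_sub, map_sub, map_smul, map_smul, h3, hvw, hvGw, smul_zero, smul_zero,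
      sub_zero, sub_zero]
  rw [sub_sub, sub_eq_zero] at h2
  exact h2

private theorem ONs_base (hG : H.Iso U G) {w : V} (hw : w ∈ U) (h0 : H.h w w = 0) {ζ : K}
    (hc : ∀ x ∈ H.perp2 U w (G w), G x = ζ • x) {u : V} (hu : u ∈ H.perp2 U w (G w))
    (huu : H.h u u = 0) : H.h (w + u) (w + u) = 0 ∧ H.h (w + u) (G (w + u)) = H.h w (G w) ∧
      w + u ∈ U ∧ G (w + u) = G w + ζ • u ∧ G (w + u) ∈ U ∧ H.h (G (w + u)) (G (w + u)) = 0 := by
  have hu' := H.mem_perp2.1 hu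
  have huw : H.h u w = 0 := H.swap_zero.1 hu'.2.1
  have huG : H.h u (G w) = 0 := H.swap_zero.1 hu'.2.2
  have hwu : w + u ∈ U := U.add_mem hw hu'.1
  have e1 : G (w + u) = G w + ζ • u := by rw [map_add, hc u hu]
  have e2 : H.h (w + u) (w + u) = 0 := by
    rw [H.add_left, map_add, map_add, h0, hu'.2.1, huw, huu]
    ring
  refine ⟨e2, ?_, hwu, e1, hG.1 _ hwu, ?_⟩
  · rw [e1, H.add_left, map_add, map_add, map_smul, map_smul, hu'.2.1, huG, huu, smul_zero]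
    ring
  · rw [hG.2 _ hwu _ hwu, e2]

private theorem ONs_u (hG : H.Iso U G) {w : V} (hw : w ∈ U) (h0 : H.h w w = 0) {ζ : K}
    (hc : ∀ x ∈ H.perp2 U w (G w), G x = ζ • x) {u : V} (hu : u ∈ H.perp2 U w (G w))
    (huu : H.h u u = 0) {y : V} (hy : y ∈ H.perp2 U w (G w)) (huy : H.h u y = 0) :
    y ∈ H.perp2 U (w + u) (G (w + u)) ∧ H.g1 G (w + u) y = ζ • y := by
  obtain ⟨-, -, -, e1, -, -⟩ := ONs_base H hG hw h0 hc hu huu
  have hy' := H.mem_perp2.1 hy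
  have h1 : H.h (w + u) y = 0 := by
    rw [H.add_left, hy'.2.1, huy, add_zero]
  constructor
  · rw [H.mem_perp2]
    refine ⟨hy'.1, h1, ?_⟩
    rw [e1, H.add_left, H.smul_left, hy'.2.2, huy, mul_zero, add_zero]
  · rw [H.g1_apply, hc y hy, map_smul, h1, smul_zero, zero_mul, zero_smul, sub_zero]

private theorem ONs_key [FiniteDimensional K V] (hU : H.ND U) (h3 : 3 ≤ finrank K U)
    (hG : H.Iso U G) {w : V} (hw : w ∈ U) (h0 : H.h w w = 0)
    (hz : H.h w (G w) ≠ 0) {ζ : K} (hc : ∀ x ∈ H.perp2 U w (G w), G x = ζ • x)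
    (hinj : ∀ s t : K, G (s • w + t • G w) = ζ • (s • w + t • G w) → s = 0 ∧ t = 0) {u : V}
    (hu : u ∈ H.perp2 U w (G w)) (huu : H.h u u = 0) {y1 : V} (hy1 : y1 ∈ H.perp2 U w (G w))
    (huy : H.h u y1 = 1) : ∃ x0 ∈ H.perp2 U (w + u) (G (w + u)),
      ∀ y ∈ H.perp2 U w (G w), H.h y1 y = 0 → H.h y x0 = 0 ∧
        ∀ a : K, H.g1 G (w + u) x0 - ζ • x0 ≠ a • y := by
  obtain ⟨hζ, s', t', hGG⟩ := ns_inv H hU h3 hG hw h0 hz hc
  obtain ⟨e2, e3, hwu, e1, hGwu, e4⟩ := ONs_base H hG hw h0 hc hu huu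
  have hGw : G w ∈ U := hG.1 w hw
  have hGw0 : H.h (G w) (G w) = 0 := by rw [hG.2 w hw w hw, h0]
  have hζ0 : ζ ≠ 0 := by
    intro h
    rw [h, zero_mul] at hζ
    exact zero_ne_one hζ
  have hu' := H.mem_perp2.1 hu
  have huw : H.h u w = 0 := H.swap_zero.1 hu'.2.1
  have huG : H.h u (G w) = 0 := H.swap_zero.1 hu'.2.2
  have hy1' := H.mem_perp2.1 hy1
  have hyw : H.h y1 w = 0 := H.swap_zero.1 hy1'.2.1
  have hyG : H.h y1 (G w) = 0 := H.swap_zero.1 hy1'.2.2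
  have hy1u : H.h y1 u = 1 := by rw [H.symm u y1, huy, star_one]
  have hGww : H.h (G w) w = star (H.h w (G w)) := (H.symm' _ _).symm
  have hz' : star (H.h w (G w)) ≠ 0 := by rwa [Ne, star_eq_zero]
  obtain ⟨t, ht⟩ : ∃ t : K, t = -(H.h w (G w))⁻¹ := ⟨_, rfl⟩
  obtain ⟨s, hs⟩ : ∃ s : K, s = -(star ζ / star (H.h w (G w))) := ⟨_, rfl⟩
  have ht1 : t * H.h w (G w) = -1 := by
    rw [ht, neg_mul, inv_mul_cancel₀ hz]
  have hs1 : s * star (H.h w (G w)) = -star ζ := by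
    rw [hs, neg_mul, div_mul_cancel₀ _ hz']
  have ht0 : t ≠ 0 := by
    intro h
    rw [h, zero_mul] at ht1
    exact one_ne_zero (neg_eq_zero.1 ht1.symm)
  obtain ⟨e, he⟩ : ∃ e : V, e = s • w + t • G w := ⟨_, rfl⟩
  have heU : e ∈ U := by
    rw [he]
    exact U.add_mem (U.smul_mem _ hw) (U.smul_mem _ hGw)
  have hwe : H.h w e = -1 := by
    rw [he, map_add, map_smul, map_smul, h0, smul_zero, zero_add, smul_eq_mul, ht1]
  have hGwe : H.h (G w) e = -star ζ := by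
    rw [he, map_add, map_smul, map_smul, hGw0, smul_zero, add_zero, smul_eq_mul, hGww, hs1]
  -- orthogonal to the plane
  have horth : ∀ v : V, H.h v w = 0 → H.h v (G w) = 0 → H.h v e = 0 ∧ H.h v (G e) = 0 := by
    intro v hv1 hv2
    constructor
    · rw [he, map_add, map_smul, map_smul, hv1, hv2, smul_zero, smul_zero, add_zero]
    · rw [he, map_add, map_smul, map_smul, hGG, map_add, map_smul, map_smul, map_add, map_smul,
        map_smul, hv1, hv2, smul_zero, smul_zero, smul_zero, add_zero, smul_zero, add_zero]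
  have hue := horth u huw huG
  have hye := horth y1 hyw hyG
  have hmem : e + y1 ∈ H.perp2 U (w + u) (G (w + u)) := by
    rw [H.mem_perp2]
    refine ⟨U.add_mem heU hy1'.1, ?_, ?_⟩
    · rw [H.add_left, map_add, map_add, hwe, hy1'.2.1, hue.1, huy]
      ring
    · rw [e1, H.add_left, H.smul_left, map_add, map_add, hGwe, hy1'.2.2, hue.1, huy]
      ring
  refine ⟨e + y1, hmem, fun y hy hyy => ?_⟩
  have hy' := H.mem_perp2.1 hy
  have hyw' : H.h y w = 0 := H.swap_zero.1 hy'.2.1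
  have hyG' : H.h y (G w) = 0 := H.swap_zero.1 hy'.2.2
  refine ⟨?_, fun a ha => ?_⟩
  · rw [map_add, (horth y hyw' hyG').1, H.swap_zero.1 hyy, add_zero]
  obtain ⟨β, hβ⟩ : ∃ β : K, β = H.h (w + u) (G (e + y1)) * (H.h (w + u) (G (w + u)))⁻¹ := ⟨_, rfl⟩
  rw [H.g1_apply, ← hβ, e1, map_add, hc y1 hy1] at ha
  have h5 : G e - ζ • e - β • (G w + ζ • u) = a • y := by
    rw [← ha]
    rw [smul_add ζ e y1]
    abel
  have h6 := congrArg (H.h y1) h5
  rw [map_sub, map_sub, map_smul, map_smul, map_add, map_smul, map_smul, hye.1, hye.2, hyG, hy1u,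
    hyy] at h6
  simp only [smul_eq_mul, mul_zero, sub_zero, zero_add, mul_one, zero_sub, neg_eq_zero] at h6
  have hβ0 : β = 0 := (mul_eq_zero.1 h6).resolve_right hζ0
  rw [hβ0, zero_smul, sub_zero] at h5
  -- the plane
  have h7 : ∃ p q : K, G e - ζ • e = p • w + q • G w := by
    refine ⟨t * s' - ζ * s, s + t * t' - ζ * t, ?_⟩
    rw [he, map_add, map_smul, map_smul, hGG]
    module
  obtain ⟨p, q, hpq⟩ := h7
  rw [hpq] at h5
  have h8 := congrArg (H.h w) h5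
  rw [map_add, map_smul, map_smul, map_smul, h0, hy'.2.1, smul_zero, smul_zero, zero_add,
    smul_eq_mul] at h8
  have hq : q = 0 := (mul_eq_zero.1 h8).resolve_right hz
  have h9 := congrArg (H.h (G w)) h5
  rw [map_add, map_smul, map_smul, map_smul, hGw0, hy'.2.2, smul_zero, smul_zero, add_zero,
    smul_eq_mul, hGww] at h9
  have hp : p = 0 := (mul_eq_zero.1 h9).resolve_right hz'
  rw [hp, hq, zero_smul, zero_smul, add_zero, sub_eq_zero, he] at hpq
  exact ht0 (hinj s t hpq).2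

/-- `G (w + u) = G w + ζ • u`, so the first two claims are clear.  Let `U1' = perp2 U (w + u) (G (w + u))` and suppose
`g1 = c` on `U1'`, i.e. `G y - c • y ∈ ⟨G (w + u)⟩` for `y ∈ U1'`.  `u ∈ U1'`, `G u = ζ • u`; pairing `(ζ - c) • u = a • G (w + u)`
with `w` gives `a = 0`, `c = ζ`.  Choose `y1 ∈ U1 = perp2 U w (G w)` with `h u y1 = 1`; `e = s • w + t • G w`, `t = - z⁻¹`,
`s = - star ζ / star z` (`z = h w (G w)`); then `e + y1 ∈ U1'` and `G (e + y1) - ζ • (e + y1) = G e - ζ • e = a • G (w + u)`.  It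
lies in the plane (`ns_inv`), so pairing with `y1` gives `a = 0`, and `hinj` gives `t = 0`, a contradiction. -/
theorem ns_plane [Finite K] [FiniteDimensional K V] (hK : ∃ x : K, star x ≠ x) (hU : H.ND U)
    (h5 : 5 ≤ finrank K U) (hG : H.Iso U G) {w : V} (hw : w ∈ U) (h0 : H.h w w = 0)
    (hz : H.h w (G w) ≠ 0) {ζ : K} (hc : ∀ x ∈ H.perp2 U w (G w), G x = ζ • x)
    (hinj : ∀ s t : K, G (s • w + t • G w) = ζ • (s • w + t • G w) → s = 0 ∧ t = 0) {u : V}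
    (hu : u ∈ H.perp2 U w (G w)) (hu0 : u ≠ 0) (huu : H.h u u = 0) :
    H.h (w + u) (w + u) = 0 ∧ H.h (w + u) (G (w + u)) = H.h w (G w) ∧
      ¬ Scal (H.perp2 U (w + u) (G (w + u))) (H.g1 G (w + u)) := by
  have _ := hK
  obtain ⟨e2, e3, -, -, -, -⟩ := ONs_base H hG hw h0 hc hu huu
  refine ⟨e2, e3, ?_⟩
  rintro ⟨c, hcc⟩
  have hGw : G w ∈ U := hG.1 w hw
  have hGw0 : H.h (G w) (G w) = 0 := by rw [hG.2 w hw w hw, h0]
  have hND := perp2_ND H hU hw hGw h0 hGw0 hz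
  obtain ⟨y1, hy1, huy⟩ := ONs_one H hND hu hu0
  obtain ⟨hu1, hu2⟩ := ONs_u H hG hw h0 hc hu huu hu huu
  have hcζ : c = ζ := by
    rw [hcc u hu1] at hu2
    have h6 : (c - ζ) • u = 0 := by rw [sub_smul, hu2, sub_self]
    exact sub_eq_zero.1 ((smul_eq_zero.1 h6).resolve_right hu0)
  obtain ⟨x0, hx0, hx1⟩ := ONs_key H hU (by omega) hG hw h0 hz hc hinj hu huu hy1 huy
  have h7 := (hx1 0 (Submodule.zero_mem _) (map_zero _)).2 0
  rw [hcc x0 hx0, hcζ, sub_self, smul_zero] at h7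
  exact h7 rfl

/-- Let `u'` be a partner of `u` in `U1 = perp2 U w (G w)` and `y ≠ 0` an isotropic vector of `perp2 U1 u u'` (its dimension is
`2 k + 3`).  Apply `free_eig` to `g1` on `U1' = perp2 U (w + u) (G (w + u))` with `y`, `y2 = u` and `x0 = e + u'`, where
`e = s • w + t • G w` as in `ns_plane`: `g1 y = ζ • y`, `g1 u = ζ • u`, and `g1 x0 - ζ • x0 = (G e - ζ • e) - β • G (w + u)`; if this
is `a • y`, pairing with `u'` gives `β = 0`, then (both sides in the plane resp. in `U1`) `G e = ζ • e`, a contradiction to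
`hinj`. -/
theorem ns_free [Finite K] [FiniteDimensional K V] (hK : ∃ x : K, star x ≠ x) (hU : H.ND U)
    {k : ℕ} (hn : finrank K U = 2 * k + 7) (hG : H.Iso U G) {w : V} (hw : w ∈ U) (h0 : H.h w w = 0)
    (hz : H.h w (G w) ≠ 0) {ζ : K} (hc : ∀ x ∈ H.perp2 U w (G w), G x = ζ • x)
    (hinj : ∀ s t : K, G (s • w + t • G w) = ζ • (s • w + t • G w) → s = 0 ∧ t = 0) {u : V}
    (hu : u ∈ H.perp2 U w (G w)) (hu0 : u ≠ 0) (huu : H.h u u = 0) :
    ∃ l : Fin k → K, H.FreeT (H.perp2 U (w + u) (G (w + u))) (H.g1 G (w + u)) (k + 1)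
      (Fin.cons ζ l) := by
  obtain ⟨e2, e3, hwu, e1, hGwu, e4⟩ := ONs_base H hG hw h0 hc hu huu
  have hGw : G w ∈ U := hG.1 w hw
  have hGw0 : H.h (G w) (G w) = 0 := by rw [hG.2 w hw w hw, h0]
  have hND := perp2_ND H hU hw hGw h0 hGw0 hz
  have hfr := perp2_finrank H hw hGw h0 hGw0 hz
  obtain ⟨u', hu', hu'0, hu'u⟩ := exists_partner H hK hND hu hu0 huu
  have huu' : H.h u u' = 1 := by rw [H.symm u' u, hu'u, star_one]
  have huu'0 : H.h u u' ≠ 0 := by rw [huu']; exact one_ne_zero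
  have hND2 := perp2_ND H hND hu hu' huu hu'0 huu'0
  have hfr2 := perp2_finrank H hu hu' huu hu'0 huu'0
  obtain ⟨y, hy, hy0, hyy⟩ := exists_iso H hK hND2 (by omega)
  have hy' := H.mem_perp2.1 hy
  have hz1 : H.h (w + u) (G (w + u)) ≠ 0 := by rwa [e3]
  have hND' := perp2_ND H hU hwu hGwu e2 e4 hz1
  have hfr' := perp2_finrank H hwu hGwu e2 e4 hz1
  obtain ⟨x0, hx0, hx1⟩ := ONs_key H hU (by omega) hG hw h0 hz hc hinj hu huu hu' huu'
  obtain ⟨hu1, hu2⟩ := ONs_u H hG hw h0 hc hu huu hu huu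
  obtain ⟨hy1, hy2⟩ := ONs_u H hG hw h0 hc hu huu hy'.1 hy'.2.1
  obtain ⟨hx2, hx3⟩ := hx1 y hy'.1 hy'.2.2
  refine free_eig H hK hND' (by omega) (iso_g1 H hG hwu e2 hz1) hy1 hy0 hyy hy2 hu1 hu2
    (H.swap_zero.1 hy'.2.1) (fun hsp => ?_) hx0 hx2 (fun hsp => ?_)
  · obtain ⟨a, ha⟩ := Submodule.mem_span_singleton.1 hsp
    have h6 := congrArg (H.h u') ha
    rw [map_smul, hy'.2.2, smul_zero, hu'u] at h6
    exact zero_ne_one h6
  · obtain ⟨a, ha⟩ := Submodule.mem_span_singleton.1 hsp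
    exact hx3 a ha.symm

end ThU
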