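import Pool.Agent.ThU.ODet
import Pool.Agent.ThU.OExc
import Pool.Agent.ThU.ONs

/-! # Module OddB -/

namespace ThU
open Matrix Polynomial Module

variable {K V : Type*} [Field K] [StarRing K] [AddCommGroup V] [Module K V] (H : Herm K V)
variable {G : V →ₗ[K] V}

/-- an eigenvector in the plane: the exceptional case -/
private theorem OddB_eig {U : Submodule K V} (hU : H.ND U) (hG : H.Iso U G) {w : V} (hw : w ∈ U)
    (h0 : H.h w w = 0) (hz : H.h w (G w) ≠ 0) {ζ : K} (hζ : ζ * star ζ = 1)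
    (hc : ∀ x ∈ H.perp2 U w (G w), G x = ζ • x)
    (hne : star ζ * H.h w (G w) + ζ * star (H.h w (G w)) ≠ 0) {s t : K}
    (hst : ¬ (s = 0 ∧ t = 0)) (he : G (s • w + t • G w) = ζ • (s • w + t • G w)) :
    ∃ e ∈ U, ∃ d ∈ U, H.h e d = 0 ∧ H.h d d ≠ 0 ∧ G e = ζ • e ∧ (∃ a : K, w = a • e + d) ∧
      ∀ x ∈ U, H.h d x = 0 → G x = ζ • x := by
  have hGw : G w ∈ U := hG.1 w hw
  have hGw0 : H.h (G w) (G w) = 0 := by rw [hG.2 w hw w hw, h0]
  have hzs : H.h (G w) w = star (H.h w (G w)) := (H.symm' w (G w)).symm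
  have hζ0 : ζ ≠ 0 := fun h => by rw [h, zero_mul] at hζ; exact zero_ne_one hζ
  -- `w` is not an eigenvector
  have hwe : ∀ c : K, G w ≠ c • w := by
    intro c h
    apply hz
    rw [h, map_smul, h0, smul_zero]
  obtain ⟨e, he'⟩ : ∃ e, e = s • w + t • G w := ⟨_, rfl⟩
  rw [← he'] at he
  have heU : e ∈ U := by
    rw [he']
    exact U.add_mem (U.smul_mem _ hw) (U.smul_mem _ hGw)
  have ht : t ≠ 0 := by
    intro ht
    have hs : s ≠ 0 := fun hs => hst ⟨hs, ht⟩
    rw [ht, zero_smul, add_zero] at he'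
    apply hwe ζ
    have h1 : w = s⁻¹ • e := by rw [he', smul_smul, inv_mul_cancel₀ hs, one_smul]
    rw [h1, map_smul, he, smul_comm]
  have hGwe : G w = t⁻¹ • e - (t⁻¹ * s) • w := by
    rw [he', smul_add, smul_smul, smul_smul, inv_mul_cancel₀ ht, one_smul]
    abel
  have hew : H.h e w = star t * star (H.h w (G w)) := by
    rw [he', H.add_left, H.smul_left, H.smul_left, h0, hzs, mul_zero, zero_add]
  have hew0 : H.h e w ≠ 0 := by
    rw [hew]
    exact mul_ne_zero (by rw [Ne, star_eq_zero]; exact ht) (by rw [Ne, star_eq_zero]; exact hz)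
  -- `e` is not isotropic
  have hee : H.h e e ≠ 0 := by
    intro hee
    have h1 : H.h e (G w) = ζ * H.h e w := by
      have h2 := hG.2 e heU w hw
      rw [he, H.smul_left] at h2
      rw [← h2]
      linear_combination (- H.h e (G w)) * hζ
    have h2 : t⁻¹ * s = - ζ := by
      rw [hGwe, map_sub, map_smul, map_smul, hee, smul_zero, smul_eq_mul] at h1
      have h3 : (t⁻¹ * s + ζ) * H.h e w = 0 := by linear_combination -h1
      exact eq_neg_of_add_eq_zero_left ((mul_eq_zero.1 h3).resolve_right hew0)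
    rw [h2, neg_smul, sub_neg_eq_add] at hGwe
    apply hne
    have h3 := hGw0
    have h4 : H.h w (G w) = t⁻¹ * H.h w e := by
      rw [hGwe, map_add, map_smul, map_smul, h0, smul_eq_mul, smul_zero, add_zero]
    have h5 : H.h (G w) w = star t⁻¹ * H.h e w := by
      rw [hGwe, H.add_left, H.smul_left, H.smul_left, h0, mul_zero, add_zero]
    rw [hGwe, H.add_left, H.smul_left, H.smul_left, map_add, map_add, map_smul, map_smul, map_smul,
      map_smul, hee, h0] at h3
    simp only [smul_eq_mul, mul_zero, zero_add, add_zero] at h3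
    rw [← hzs, h5, h4]
    linear_combination h3
  obtain ⟨a, ha⟩ : ∃ a, a = H.h e w / H.h e e := ⟨_, rfl⟩
  obtain ⟨d, hd⟩ : ∃ d, d = w - a • e := ⟨_, rfl⟩
  have hdU : d ∈ U := by
    rw [hd]
    exact U.sub_mem hw (U.smul_mem _ heU)
  have hwd : w = a • e + d := by rw [hd]; abel
  have hed : H.h e d = 0 := by
    rw [hd, map_sub, map_smul, ha, smul_eq_mul, div_mul_cancel₀ _ hee, sub_self]
  have hde : H.h d e = 0 := H.swap_zero.1 hed
  have hd0 : d ≠ 0 := by
    intro h
    rw [h, add_zero] at hwd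
    apply hwe ζ
    rw [hwd, map_smul, he, smul_comm]
  -- decomposition
  have hdec : ∀ x ∈ U, ∃ p q : K, ∃ x1 ∈ H.perp2 U w (G w), x = p • e + q • d + x1 := by
    intro x hx
    obtain ⟨p, q, hpq⟩ := perp2_dec H hw hGw h0 hGw0 hz x hx
    refine ⟨p * a + q * (t⁻¹ - (t⁻¹ * s) * a), p - q * (t⁻¹ * s), _, hpq, ?_⟩
    have h1 : d = w - a • e := hd
    rw [hGwe, h1]
    module
  have hd1 : ∀ x ∈ H.perp2 U w (G w), H.h d x = 0 := by
    intro x hx
    obtain ⟨-, h1, h2⟩ := H.mem_perp2.1 hx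
    rw [hd, H.sub_left, H.smul_left, he', H.add_left, H.smul_left, H.smul_left, h1, h2]
    simp
  have hdd : H.h d d ≠ 0 := by
    intro hdd
    refine hd0 (hU d hdU fun x hx => ?_)
    obtain ⟨p, q, x1, hx1, rfl⟩ := hdec x hx
    rw [map_add, map_add, map_smul, map_smul, hde, hdd, hd1 x1 hx1]
    simp
  refine ⟨e, heU, d, hdU, hed, hdd, he, ⟨a, hwd⟩, fun x hx hdx => ?_⟩
  obtain ⟨p, q, x1, hx1, rfl⟩ := hdec x hx
  rw [map_add, map_add, map_smul, map_smul, hde, hd1 x1 hx1, smul_zero, zero_add, add_zero,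
    smul_eq_mul] at hdx
  have hq : q = 0 := (mul_eq_zero.1 hdx).resolve_right hdd
  rw [hq, zero_smul, add_zero, map_add, map_smul, he, hc x1 hx1]
  module

/-- Suppose `AltA` is false.  `n = k + 3`, `z = h w (G w)`, `E = ⟨w, G w⟩`, `U1 = perp2 ⊤ w (G w)` (dimension `2 n - 1`);
`ζ * star ζ = 1` and `E` is `G`-invariant (`ns_inv`).  `free_plane` (with `k + 2`) and `free_one` give `ζ ^ n = 1`.  `det_plane`
(`g1 = G` on `U1`) gives `star z = - z * ζ ^ (2 n - 1)`, so `z = - ζ * star z` (as `ζ ^ (2 n) = 1`).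
(a) `ζ = 1`: `Good 1 z`, `dia_g1` with `l0 = 1`, `c = 1` and `hyp_odd` for `U1`: `AltB`.
(b) `ζ ≠ 1` and `G - ζ` is injective on `E` (the hypothesis `hinj` of `ns_free`): let `Good l z` (`good_exists`).  As
`z = - ζ * star z` we get `l = ζ * star l`, so `l ≠ ζ`.  Let `u ≠ 0` be isotropic in `U1` (`exists_iso`); `ns_plane`, `ns_free` and
`free_g1` give `FreeT ⊤ G (k + 2) (cons l (cons ζ _))`; `free_one` says `l = ζ`, a contradiction.
(c) `ζ ≠ 1`, `e = s • w + t • G w ≠ 0`, `G e = ζ • e`.  `e` is not isotropic: otherwise `h e w ≠ 0`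
(`w ∉ ⟨e⟩` as `z ≠ 0`), `G w - ζ • w` is orthogonal to `e` and in `E`, so `G w = ζ • w + c • e`, and `h (G w) (G w) = 0` gives
`star ζ * z + ζ * star z = 0`, `z = - ζ ^ 2 * star z`, so `ζ = 1`.  Let `d ∈ E`, `d ≠ 0`, `h e d = 0`: `h d d ≠ 0`, `G d = μ • d`.
`w = a • e + b • d`, `z = (ζ - μ) * a * star a * h e e` (because `h w w = 0`), and `z = - ζ * star z`, `μ * star μ = 1` give
`(1 - μ) * (μ - ζ) = 0`; `z ≠ 0` gives `μ ≠ ζ`, so `μ = 1`.  `x` with `h d x = 0` is a sum of a multiple of `e` and an element of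
`U1`, so `G x = ζ • x`: `exc_altC`. -/
theorem odd_B [Finite K] [FiniteDimensional K V] (hK : ∃ x : K, star x ≠ x) {n : ℕ} (h3 : 3 ≤ n)
    (hU : H.ND ⊤) (hn : finrank K V = 2 * n + 1) (hG : H.Iso ⊤ G) (hd : LinearMap.det G = 1) {w : V}
    (h0 : H.h w w = 0) (hz : H.h w (G w) ≠ 0) {ζ : K}
    (hc : ∀ x ∈ H.perp2 ⊤ w (G w), G x = ζ • x) : H.AltA G n ∨ H.AltB G n ∨ H.AltC G n := by
  by_cases hA : H.AltA G n
  · exact Or.inl hA
  right
  obtain ⟨k, rfl⟩ : ∃ k, n = k + 3 := ⟨n - 3, by omega⟩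
  have hw : w ∈ (⊤ : Submodule K V) := Submodule.mem_top
  have hGw : G w ∈ (⊤ : Submodule K V) := Submodule.mem_top
  have hGw0 : H.h (G w) (G w) = 0 := by rw [hG.2 w hw w hw, h0]
  have hfr : finrank K (⊤ : Submodule K V) = 2 * (k + 3) + 1 := by rw [finrank_top, hn]
  obtain ⟨hζ, s1, t1, hGG⟩ := ns_inv H hU (by omega) hG hw h0 hz hc
  have hζ0 : ζ ≠ 0 := fun h => by rw [h, zero_mul] at hζ; exact zero_ne_one hζ
  have hU1 := perp2_ND H hU hw hGw h0 hGw0 hz
  have hfr1 := perp2_finrank H hw hGw h0 hGw0 hz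
  -- `ζ ^ n = 1`
  have hζn : ζ ^ (k + 3) = 1 := by
    have h1 := free_plane H hK hU (k := k + 2) (by omega) hG hw h0 hz hc
    exact (free_one H h1 hA).2 0
  -- `z = - ζ * star z`
  have hzz : H.h w (G w) = - ζ * star (H.h w (G w)) := by
    have h1 := det_plane H hU (N := 2 * (k + 3) - 1) (by omega) hG h0 hz (ζ := ζ) (by
      intro x hx
      have h2 := hc x hx
      have h3 : H.h w (G x) = 0 := by
        rw [h2, map_smul, (H.mem_perp2.1 hx).2.1, smul_zero]
      rw [H.g1_apply, h3, zero_mul, zero_smul, sub_zero, h2])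
    rw [hd, one_mul] at h1
    have h4 : ζ ^ (2 * (k + 3) - 1) * ζ = 1 := by
      rw [← pow_succ, show 2 * (k + 3) - 1 + 1 = (k + 3) * 2 by omega, pow_mul, hζn, one_pow]
    rw [h1]
    linear_combination (- H.h w (G w)) * h4
  by_cases hζ1 : ζ = 1
  · -- (a)
    left
    subst hζ1
    have hgood : Good 1 (H.h w (G w)) := by
      refine ⟨one_ne_zero, ?_⟩
      rw [star_one]
      linear_combination hzz
    obtain ⟨v, v', hv⟩ := hyp_odd H hK (n := k + 2) hU1 (by omega)
    have h1 := dia_g1 H hG hw h0 hz hgood hc hv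
    refine ⟨1, hζ, one_pow _, ?_⟩
    have h2 : (Fin.cons 1 fun _ => 1 : Fin (k + 2 + 1) → K) = fun _ => 1 := by
      funext i
      refine Fin.cases ?_ (fun j => ?_) i
      · rw [Fin.cons_zero]
      · rw [Fin.cons_succ]
    rw [h2] at h1
    exact h1
  by_cases hinj : ∀ s t : K, G (s • w + t • G w) = ζ • (s • w + t • G w) → s = 0 ∧ t = 0
  · -- (b)
    exfalso
    obtain ⟨l, hl⟩ := good_exists hK hz
    obtain ⟨u, hu, hu0, huu⟩ := exists_iso H hK hU1 (by omega)
    obtain ⟨hp1, hp2, -⟩ := ns_plane H hK hU (by omega) hG hw h0 hz hc hinj hu hu0 huu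
    obtain ⟨l', hl'⟩ := ns_free H hK hU (k := k) (by omega) hG hw h0 hz hc hinj hu hu0 huu
    have h1 := free_g1 H hG (w := w + u) Submodule.mem_top hp1 (by rw [hp2]; exact hz) (l0 := l)
      (by rw [hp2]; exact hl) hl'
    have h2 := (free_one H h1 hA).1 0 1
    rw [Fin.cons_zero] at h2
    have h3 : (Fin.cons l (Fin.cons ζ l') : Fin (k + 1 + 1) → K) 1 = ζ := by
      rw [← Fin.succ_zero_eq_one, Fin.cons_succ, Fin.cons_zero]
    rw [h3] at h2
    have h4 := hl.2
    rw [h2] at h4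
    have hzs : star (H.h w (G w)) ≠ 0 := by rw [Ne, star_eq_zero]; exact hz
    apply hζ1
    have h5 : (ζ - 1) * star (H.h w (G w)) = 0 := by
      linear_combination h4 - star ζ * hzz + star (H.h w (G w)) * hζ
    exact sub_eq_zero.1 ((mul_eq_zero.1 h5).resolve_right hzs)
  · -- (c)
    right
    push Not at hinj
    obtain ⟨s, t, he, hst⟩ := hinj
    have hne : star ζ * H.h w (G w) + ζ * star (H.h w (G w)) ≠ 0 := by
      intro h
      apply hζ1
      have h5 : (star ζ - 1) * H.h w (G w) = 0 := by linear_combination h - hzz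
      have h6 := sub_eq_zero.1 ((mul_eq_zero.1 h5).resolve_right hz)
      rw [h6, mul_one] at hζ
      exact hζ
    obtain ⟨e, heU, d, hdU, hed, hdd, hee, ⟨a, hwd⟩, hx⟩ := OddB_eig H hU hG hw h0 hz hζ hc hne
      (fun h => hst h.1 h.2) he
    have hde : H.h d e = 0 := H.swap_zero.1 hed
    -- `G d = μ • d`
    obtain ⟨μ, hμ⟩ := mem_span_of_perp H hU hdU (b := G d) Submodule.mem_top (by
      intro x hxU hdx
      have h1 := hG.2 d hdU x hxU
      rw [hx x hxU hdx, map_smul, hdx, smul_eq_mul] at h1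
      exact (mul_eq_zero.1 h1).resolve_left hζ0)
    have hμμ : μ * star μ = 1 := by
      have h1 := hG.2 d hdU d hdU
      rw [hμ, H.smul_left, map_smul, smul_eq_mul] at h1
      have h2 : (μ * star μ - 1) * H.h d d = 0 := by linear_combination h1
      exact sub_eq_zero.1 ((mul_eq_zero.1 h2).resolve_right hdd)
    have hr : star (H.h e e) = H.h e e := H.symm' e e
    have hw0 : star a * a * H.h e e + H.h d d = 0 := by
      have h1 := h0
      rw [hwd, H.add_left, H.smul_left, map_add, map_add, map_smul, map_smul, hed, hde] at h1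
      simp only [smul_eq_mul, mul_zero, zero_add, add_zero] at h1
      linear_combination h1
    have hGwd : G w = (ζ * a) • e + μ • d := by
      rw [hwd, map_add, map_smul, hee, hμ, smul_smul, mul_comm ζ a]
    have hz1 : H.h w (G w) = (ζ - μ) * (star a * a * H.h e e) := by
      rw [hGwd, hwd, H.add_left, H.smul_left, map_add, map_add, map_smul, map_smul, map_smul,
        map_smul, hed, hde]
      simp only [smul_eq_mul, mul_zero, zero_add, add_zero]
      linear_combination μ * hw0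
    have hz2 : star (H.h w (G w)) = (star ζ - star μ) * (star a * a * H.h e e) := by
      rw [hz1, star_mul', star_mul', star_mul', star_star, star_sub, hr]
      ring
    have hr0 : star a * a * H.h e e ≠ 0 := by
      intro h
      rw [h, mul_zero] at hz1
      exact hz hz1
    have hζμ : ζ - μ ≠ 0 := by
      intro h
      rw [h, zero_mul] at hz1
      exact hz hz1
    have hμ1 : μ = 1 := by
      have h1 : (μ - 1) * (ζ - μ) * (star a * a * H.h e e) = 0 := by
        have h2 := hzz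
        rw [hz2, hz1] at h2
        linear_combination μ * h2 - μ * (star a * a * H.h e e) * hζ + ζ * (star a * a * H.h e e) * hμμ
      have h2 := (mul_eq_zero.1 h1).resolve_right hr0
      exact sub_eq_zero.1 ((mul_eq_zero.1 h2).resolve_right hζμ)
    rw [hμ1, one_smul] at hμ
    exact exc_altC H hK hU (by omega) hn hG hdd hμ hζ hζn hζ1 (fun x h => hx x Submodule.mem_top h)

end ThU
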