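import Pool.Agent.ThU.OTwoG
import Pool.Agent.ThU.OddB

/-! # Module OTwoB -/

namespace ThU
open Matrix Polynomial Module

variable {K V : Type*} [Field K] [StarRing K] [AddCommGroup V] [Module K V] (H : Herm K V)
variable {G : V →ₗ[K] V}

omit [StarRing K] in
private theorem OTwoB_ker [FiniteDimensional K V] (W : Submodule K V) (f : V →ₗ[K] V) (y : V)
    (h : ∀ x ∈ W, ∃ c : K, f x = c • y) :
    finrank K W ≤ finrank K (W ⊓ LinearMap.ker f : Submodule K V) + 1 := by
  have h1 := (f.comp W.subtype).finrank_range_add_finrank_ker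
  have h2 : LinearMap.range (f.comp W.subtype) ≤ Submodule.span K {y} := by
    rintro _ ⟨x, rfl⟩
    obtain ⟨c, hc⟩ := h x.1 x.2
    rw [LinearMap.comp_apply, Submodule.subtype_apply, hc]
    exact Submodule.smul_mem _ _ (Submodule.mem_span_singleton_self y)
  have h3 : finrank K (LinearMap.range (f.comp W.subtype)) ≤ 1 :=
    (Submodule.finrank_mono h2).trans ((finrank_span_le_card ({y} : Set V)).trans (by simp))
  have h4 : finrank K (LinearMap.ker (f.comp W.subtype)) ≤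
      finrank K (W ⊓ LinearMap.ker f : Submodule K V) := by
    have h5 : LinearMap.ker (f.comp W.subtype) = (W ⊓ LinearMap.ker f).comap W.subtype := by
      ext x
      simp
    rw [h5, (Submodule.comapSubtypeEquivOfLe (inf_le_left)).finrank_eq]
  omega

omit [StarRing K] in
private theorem OTwoB_kerφ [FiniteDimensional K V] (W : Submodule K V) (f : V →ₗ[K] K) :
    finrank K W ≤ finrank K (W ⊓ LinearMap.ker f : Submodule K V) + 1 := by
  have h1 := (f.comp W.subtype).finrank_range_add_finrank_ker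
  have h3 : finrank K (LinearMap.range (f.comp W.subtype)) ≤ 1 := by
    refine (Submodule.finrank_le _).trans ?_
    rw [finrank_self]
  have h4 : finrank K (LinearMap.ker (f.comp W.subtype)) ≤
      finrank K (W ⊓ LinearMap.ker f : Submodule K V) := by
    have h5 : LinearMap.ker (f.comp W.subtype) = (W ⊓ LinearMap.ker f).comap W.subtype := by
      ext x
      simp
    rw [h5, (Submodule.comapSubtypeEquivOfLe (inf_le_left)).finrank_eq]
  omega

/-- Suppose `AltA` is false.  `U2 = perp2 ⊤ y y'`, `G x = g2 x + h y' (G x) • y` for `x ∈ U2`.  `g2 d = μ • d` with `μ ≠ 0, l`: `g2` is an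
isometry of `U2` (`iso_g2`) and `l` on `{x ∈ U2 | h d x = 0}`, so `h x (g2 d) = 0` for these `x`; `μ ≠ l` by `hns`.  Let
`t = h y' (G d) / (μ - l)`, `d1 = d + t • y`: `G d1 = μ • d1`, `h d1 d1 = h d d ≠ 0`.  Let `V' = ker (h d1)` (nondegenerate, dimension
`2 k + 6`: `split_ND`, `split_finrank`) and `R = {x ∈ V' | G x = l • x}`; `dim R ≥ 2 k + 4`: `G - l` maps `V' ⊓ ker (h y)` (dimension
`≥ 2 k + 5`) to `⟨y⟩` (such an `x` is `a • y + x'`, `x' ∈ U2`, `h d x' = h d1 x = 0`).  By `noniso_in` there is `e ∈ R`, `h e e ≠ 0`.  By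
`hF` `h e e = 1 = h d1 d1`, so `w = e + d1` is isotropic (`2 = 0`), `G w = l • e + μ • d1`, `z = h w (G w) = l + μ ≠ 0`, and
`perp2 ⊤ w (G w)` is the space of the vectors orthogonal to `e` and `d1`; `g1 = G` there.  If `G = l` on it: `odd_B`.  Otherwise
`g1` is not a scalar on it, since it contains `L = {x ∈ R | h e x = 0}` of dimension `≥ 2 k + 3`, and `good_mu` with `L` and `μ := l` gives
`l = z = l + μ`, a contradiction. -/
theorem odd_twoB [Finite K] [FiniteDimensional K V] (hK : ∃ x : K, star x ≠ x)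
    (hF : ∀ t : K, star t = t → t = 0 ∨ t = 1) {k : ℕ} (hU : H.ND ⊤) (hn : finrank K V = 2 * k + 7)
    (hG : H.Iso ⊤ G) (hdet : LinearMap.det G = 1) {y y' : V} (hyy : H.h y y = 0)
    (hyy2 : H.h y' y' = 0) (hy1 : H.h y' y = 1) {l : K} (hl : l ≠ 0) (hGy : G y = l • y) {d : V}
    (hd : d ∈ H.perp2 ⊤ y y') (hdd : H.h d d ≠ 0)
    (h2 : ∀ x ∈ H.perp2 ⊤ y y', H.h d x = 0 → H.g2 G y y' x = l • x)
    (hns : ¬ ∀ x ∈ H.perp2 ⊤ y y', H.g2 G y y' x = l • x) :
    H.AltA G (k + 3) ∨ H.AltB G (k + 3) ∨ H.AltC G (k + 3) := by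
  by_cases hA : H.AltA G (k + 3)
  · exact Or.inl hA
  have hT : ∀ x : V, x ∈ (⊤ : Submodule K V) := fun x => Submodule.mem_top
  have hGG : ∀ x z : V, H.h (G x) (G z) = H.h x z := fun x z => hG.2 x (hT x) z (hT z)
  have hy2 : H.h y y' = 1 := by rw [H.symm y' y, hy1, star_one]
  have hy2' : H.h y y' ≠ 0 := by rw [hy2]; exact one_ne_zero
  have hU2 : H.ND (H.perp2 ⊤ y y') := perp2_ND H hU (hT y) (hT y') hyy hyy2 hy2'
  have hg2 : H.Iso (H.perp2 ⊤ y y') (H.g2 G y y') :=
    iso_g2 H hG (hT y) (hT y') hyy hyy2 hy1 hl hGy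
  have hsl : star l ≠ 0 := by rwa [Ne, star_eq_zero]
  have two0 : (2 : K) = 0 := by
    have h1 : star (2 : K) = 2 := by
      have h3 : (2 : K) = 1 + 1 := by norm_num
      rw [h3, star_add, star_one]
    rcases hF 2 h1 with h3 | h3
    · exact h3
    · exfalso
      have h4 : (2 : K) = 1 + 1 := by norm_num
      rw [h4] at h3
      exact one_ne_zero (add_eq_left.1 h3)
  -- eigenvector of g2
  obtain ⟨μ, hμ⟩ : ∃ μ : K, H.g2 G y y' d = μ • d := by
    refine mem_span_of_perp H hU2 hd (hg2.1 d hd) fun x hx hdx => ?_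
    have h3 := h2 x hx hdx
    have h4 := hg2.2 d hd x hx
    rw [hdx, h3, map_smul, smul_eq_mul] at h4
    exact (mul_eq_zero.1 h4).resolve_left hl
  have hμμ : star μ * μ = 1 := by
    have h3 := hg2.2 d hd d hd
    rw [hμ, H.smul_left, map_smul, smul_eq_mul, ← mul_assoc] at h3
    exact mul_right_cancel₀ hdd (by rw [h3, one_mul])
  have hμ0 : μ ≠ 0 := fun h => by
    rw [h, mul_zero] at hμμ
    exact zero_ne_one hμμ
  have hμl : μ ≠ l := by
    intro h
    apply hns
    intro x hx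
    have h3 : x - (H.h d x / H.h d d) • d ∈ H.perp2 ⊤ y y' :=
      Submodule.sub_mem _ hx (Submodule.smul_mem _ _ hd)
    have h4 := h2 _ h3 (by rw [map_sub, map_smul, smul_eq_mul, div_mul_cancel₀ _ hdd, sub_self])
    rw [map_sub, map_smul, hμ, h, smul_sub, smul_comm l] at h4
    exact sub_left_injective h4
  have hμl' : μ - l ≠ 0 := sub_ne_zero.2 hμl
  have hd' := (H.mem_perp2).1 hd
  have hdy : H.h d y = 0 := H.swap_zero.1 hd'.2.1
  -- eigenvector of G
  obtain ⟨t, ht⟩ : ∃ t, t = H.h y' (G d) / (μ - l) := ⟨_, rfl⟩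
  have ht' : t * (μ - l) = H.h y' (G d) := by rw [ht, div_mul_cancel₀ _ hμl']
  obtain ⟨d1, hd1⟩ : ∃ d1, d1 = d + t • y := ⟨_, rfl⟩
  have hGd1 : G d1 = μ • d1 := by
    have h3 : G d = μ • d + H.h y' (G d) • y := by
      rw [← hμ, H.g2_apply]
      abel
    rw [hd1, map_add, map_smul, hGy, smul_add]
    nth_rewrite 1 [h3]
    rw [← ht', add_assoc, smul_smul, smul_smul, ← add_smul]
    congr 2
    ring
  have hdd1 : H.h d1 d1 ≠ 0 := by
    have h3 : H.h d1 d1 = H.h d d := by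
      rw [hd1, map_add, map_smul, H.add_left, H.add_left, H.smul_left, H.smul_left, hyy, hdy,
        hd'.2.1]
      simp
    rw [h3]
    exact hdd
  have hV'ND : H.ND (⊤ ⊓ LinearMap.ker (H.h d1)) := split_ND H hU (hT d1) hdd1
  have hV'f : finrank K (⊤ : Submodule K V) =
      finrank K (⊤ ⊓ LinearMap.ker (H.h d1) : Submodule K V) + 1 :=
    split_finrank H (hT d1) hdd1
  rw [finrank_top, hn] at hV'f
  -- the space R
  obtain ⟨V', hV'⟩ : ∃ V' : Submodule K V, V' = ⊤ ⊓ LinearMap.ker (H.h d1) := ⟨_, rfl⟩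
  rw [← hV'] at hV'ND hV'f
  have hV'm : ∀ x, x ∈ V' ↔ H.h d1 x = 0 := fun x => by
    rw [hV', Submodule.mem_inf, LinearMap.mem_ker]
    exact ⟨fun h => h.2, fun h => ⟨hT x, h⟩⟩
  obtain ⟨f, hf⟩ : ∃ f : V →ₗ[K] V, f = G - l • LinearMap.id := ⟨_, rfl⟩
  have hfx : ∀ x, f x = G x - l • x := fun x => by rw [hf]; rfl
  have hfk : ∀ x, x ∈ LinearMap.ker f ↔ G x = l • x := fun x => by
    rw [LinearMap.mem_ker, hfx, sub_eq_zero]
  have hr1 := OTwoB_kerφ V' (H.h y)
  have hr2 := OTwoB_ker (V' ⊓ LinearMap.ker (H.h y)) f y (by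
    intro x hx
    rw [Submodule.mem_inf, LinearMap.mem_ker, hV'm] at hx
    obtain ⟨hx1, hx2⟩ := hx
    obtain ⟨a, ha⟩ : ∃ a, a = H.h y' x := ⟨_, rfl⟩
    obtain ⟨x', hx'⟩ : ∃ x', x' = x - a • y := ⟨_, rfl⟩
    have hxe : x = a • y + x' := by rw [hx']; abel
    have hx'm : x' ∈ H.perp2 ⊤ y y' := by
      rw [H.mem_perp2]
      refine ⟨hT _, ?_, ?_⟩
      · rw [hx', map_sub, map_smul, hx2, hyy, smul_zero, sub_zero]
      · rw [hx', map_sub, map_smul, hy1, smul_eq_mul, mul_one, ha, sub_self]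
    have hx'd : H.h d x' = 0 := by
      have h3 : H.h d x = 0 := by
        rw [hd1, H.add_left, H.smul_left, hx2, mul_zero, add_zero] at hx1
        exact hx1
      rw [hx', map_sub, map_smul, h3, hdy, smul_zero, sub_zero]
    have h3 := h2 x' hx'm hx'd
    rw [H.g2_apply] at h3
    obtain ⟨c, hc⟩ : ∃ c, c = H.h y' (G x') := ⟨_, rfl⟩
    rw [← hc] at h3
    have h4 : G x' = l • x' + c • y := by rw [← h3]; abel
    refine ⟨c, ?_⟩
    rw [hfx, hxe, map_add, map_smul, hGy, h4, smul_add, smul_comm a l y]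
    abel)
  obtain ⟨R, hR⟩ : ∃ R : Submodule K V, R = V' ⊓ LinearMap.ker f := ⟨_, rfl⟩
  have hRm : ∀ x, x ∈ R ↔ H.h d1 x = 0 ∧ G x = l • x := fun x => by
    rw [hR, Submodule.mem_inf, hV'm, hfk]
  have hR4 : 2 * k + 4 ≤ finrank K R := by
    have h3 : finrank K (V' ⊓ LinearMap.ker (H.h y) ⊓ LinearMap.ker f : Submodule K V) ≤
        finrank K R := by
      apply Submodule.finrank_mono
      rw [hR]
      exact inf_le_inf_right _ inf_le_left
    omega
  obtain ⟨e, heR, hee⟩ := noniso_in H hK hV'ND (L := R) (by rw [hR]; exact inf_le_left) (by omega)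
  obtain ⟨hde, hGe⟩ := (hRm e).1 heR
  have hed : H.h e d1 = 0 := H.swap_zero.1 hde
  have hee1 : H.h e e = 1 := (hF _ (H.symm' e e)).resolve_left hee
  have hdd2 : H.h d1 d1 = 1 := (hF _ (H.symm' d1 d1)).resolve_left hdd1
  obtain ⟨w, hw⟩ : ∃ w, w = e + d1 := ⟨_, rfl⟩
  have hGw : G w = l • e + μ • d1 := by rw [hw, map_add, hGe, hGd1]
  have hww : H.h w w = 0 := by
    rw [hw, H.add_left, map_add, map_add, hee1, hed, hde, hdd2]
    linear_combination two0
  have hz : H.h w (G w) = l + μ := by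
    rw [hGw, hw, H.add_left, map_add, map_add, map_smul, map_smul, map_smul, map_smul, hee1, hed,
      hde, hdd2]
    simp
  have hlμ : l + μ ≠ 0 := by
    intro h
    apply hμl
    linear_combination h - l * two0
  have hz0 : H.h w (G w) ≠ 0 := by rw [hz]; exact hlμ
  -- the orthogonal space
  have hperp : ∀ x, x ∈ H.perp2 ⊤ w (G w) → H.h e x = 0 ∧ H.h d1 x = 0 := by
    intro x hx
    rw [H.mem_perp2] at hx
    obtain ⟨-, h3, h4⟩ := hx
    rw [hw, H.add_left] at h3
    rw [hGw, H.add_left, H.smul_left, H.smul_left] at h4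
    have h5 : star (μ - l) * H.h d1 x = 0 := by
      rw [star_sub]
      linear_combination h4 - star l * h3
    have h6 : H.h d1 x = 0 :=
      (mul_eq_zero.1 h5).resolve_left (star_ne_zero.2 hμl')
    exact ⟨by rw [h6, add_zero] at h3; exact h3, h6⟩
  have hg1 : ∀ x ∈ H.perp2 ⊤ w (G w), H.g1 G w x = G x := by
    intro x hx
    obtain ⟨h3, h4⟩ := hperp x hx
    have h5 : H.h e (G x) = 0 := by
      have h6 := hGG e x
      rw [hGe, H.smul_left, h3] at h6
      exact (mul_eq_zero.1 h6).resolve_left hsl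
    have h7 : H.h d1 (G x) = 0 := by
      have h6 := hGG d1 x
      rw [hGd1, H.smul_left, h4] at h6
      exact (mul_eq_zero.1 h6).resolve_left (star_ne_zero.2 hμ0)
    rw [H.g1_apply]
    have h8 : H.h w (G x) = 0 := by rw [hw, H.add_left, h5, h7, add_zero]
    rw [h8, zero_mul, zero_smul, sub_zero]
  by_cases hs : Scal (H.perp2 ⊤ w (G w)) (H.g1 G w)
  · obtain ⟨c, hc⟩ := hs
    exact odd_B H hK (n := k + 3) (by omega) hU (by rw [hn]; ring) hG hdet hww hz0 (ζ := c)
      fun x hx => by rw [← hg1 x hx, hc x hx]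
  · exfalso
    have h3 := good_mu H hK hF hU hn hG hA hww hz0 hs (L := R ⊓ LinearMap.ker (H.h e)) (by
      intro x hx
      rw [Submodule.mem_inf, LinearMap.mem_ker, hRm] at hx
      obtain ⟨⟨h4, h5⟩, h6⟩ := hx
      rw [H.mem_perp2]
      refine ⟨hT x, ?_, ?_⟩
      · rw [hw, H.add_left, h4, h6, add_zero]
      · rw [hGw, H.add_left, H.smul_left, H.smul_left, h4, h6]
        simp) (by
      have h4 := OTwoB_kerφ R (H.h e)
      omega) (μ := l) (by
      intro x hx
      rw [Submodule.mem_inf, LinearMap.mem_ker, hRm] at hx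
      exact hx.1.2)
    rw [hz] at h3
    exact hμ0 (add_eq_left.1 h3.symm)

end ThU
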