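import Pool.Agent.ThU.OTwoA
import Pool.Agent.ThU.OEig
import Pool.Agent.ThU.OTwoB

/-! # Module OTwo -/

namespace ThU
open Matrix Polynomial Module

variable {K V : Type*} [Field K] [StarRing K] [AddCommGroup V] [Module K V] (H : Herm K V)
variable {G : V →ₗ[K] V}

/-- `n = k + 3`.  If `G` is a scalar: `altB_scal`.  Suppose that `G` is not a scalar and `AltA` is false; `alt_AB`.  Second case:
`odd_B`.  First case: `w` with `z = h w (G w) ≠ 0`, `g1` not a scalar on `U1 = perp2 ⊤ w (G w)`; `good_const`; `odd_eig` for `U1`, `g1`,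
`β x = h w (G x)`, `l = z` gives `y`, `y2`, and `G y = z • y`, `G y2 = z • y2` because `β y = 0 = β y2`.  Let `y'` be a partner of `y`
(`exists_partner` for `⊤`), `U2 = perp2 ⊤ y y'`, `g2 = g2 G y y'`.  If `g2 = c` on `U2` then `c = z` (the vector
`y2 - h y' y2 • y ∈ U2` is an eigenvector for `z`), and `odd_twoA`.  If `g2` is not a scalar: for every `d` with
`FreeT U2 g2 (k + 1) d`, `free_g2` and `free_one` give `d i = z`; `odd_const` for `g2`; in its first case `odd_twoA`, in its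
second case `odd_twoB`. -/
theorem odd_two [Finite K] [FiniteDimensional K V] (hK : ∃ x : K, star x ≠ x)
    (hF : ∀ t : K, star t = t → t = 0 ∨ t = 1) {n : ℕ} (h3 : 3 ≤ n) (hU : H.ND ⊤)
    (hn : finrank K V = 2 * n + 1) (hG : H.Iso ⊤ G) (hd : LinearMap.det G = 1) :
    H.AltA G n ∨ H.AltB G n ∨ H.AltC G n := by
  have hn' : finrank K (⊤ : Submodule K V) = 2 * n + 1 := by rw [finrank_top, hn]
  by_cases hs : Scal ⊤ G
  · exact Or.inr (Or.inl (altB_scal H hK hU hn hG hd hs))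
  have hGG : ∀ w : V, H.h w w = 0 → H.h (G w) (G w) = 0 := fun w hw => by
    rw [hG.2 w trivial w trivial, hw]
  rcases alt_AB H hK hU (by rw [hn']; omega) hG hs with ⟨w, hw, h0, hz, hns⟩ | ⟨w, hw, ζ, h0, hz, hc⟩
  swap
  · exact odd_B H hK h3 hU hn hG hd h0 hz hc
  by_cases hA : H.AltA G n
  · exact Or.inl hA
  obtain ⟨k, rfl⟩ : ∃ k, n = k + 3 := ⟨n - 3, by omega⟩
  have hn7 : finrank K V = 2 * k + 7 := by rw [hn]; ring
  have hU1 : H.ND (H.perp2 ⊤ w (G w)) := perp2_ND H hU hw trivial h0 (hGG w h0) hz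
  have hf1 := perp2_finrank H hw (trivial : G w ∈ (⊤ : Submodule K V)) h0 (hGG w h0) hz
  have hG1 := iso_g1 H hG hw h0 hz
  obtain ⟨hzk, hcase⟩ := good_const H hK hF hU hn7 hG hA h0 hz hns
  obtain ⟨y, -, y2, -, hy0, hyy, hgy, hby, hgy2, hby2, hyy2, hsp⟩ :=
    odd_eig H hK hF hU1 (k := k) (by omega) hG1 ((H.h w).comp G) hz hcase
  have hGy : G y = H.h w (G w) • y := by
    rw [H.g1_apply] at hgy
    have : H.h w (G y) = 0 := hby
    rwa [this, zero_mul, zero_smul, sub_zero] at hgy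
  have hGy2 : G y2 = H.h w (G w) • y2 := by
    rw [H.g1_apply] at hgy2
    have : H.h w (G y2) = 0 := hby2
    rwa [this, zero_mul, zero_smul, sub_zero] at hgy2
  obtain ⟨y', -, hyy', hy1⟩ := exists_partner H hK hU (trivial : y ∈ (⊤ : Submodule K V)) hy0 hyy
  have hy1' : H.h y y' ≠ 0 := fun h => by
    rw [H.swap_zero, hy1] at h
    exact one_ne_zero h
  have hU2 : H.ND (H.perp2 ⊤ y y') := perp2_ND H hU trivial trivial hyy hyy' hy1'
  have hf2 := perp2_finrank H (Submodule.mem_top : y ∈ (⊤ : Submodule K V))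
    (Submodule.mem_top : y' ∈ (⊤ : Submodule K V)) hyy hyy' hy1'
  have hG2 := iso_g2 H hG trivial trivial hyy hyy' hy1 hz hGy
  -- an eigenvector
  have hy3 : y2 - H.h y' y2 • y ∈ H.perp2 ⊤ y y' := by
    rw [H.mem_perp2]
    refine ⟨trivial, ?_, ?_⟩
    · rw [map_sub, map_smul, hyy2, hyy, smul_zero, sub_zero]
    · rw [map_sub, map_smul, hy1, smul_eq_mul, mul_one, sub_self]
  have hy30 : y2 - H.h y' y2 • y ≠ 0 := by
    intro h
    apply hsp
    rw [sub_eq_zero.1 h]
    exact Submodule.smul_mem _ _ (Submodule.mem_span_singleton_self y)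
  have hg3 : H.g2 G y y' (y2 - H.h y' y2 • y) = H.h w (G w) • (y2 - H.h y' y2 • y) := by
    have e1 : G (y2 - H.h y' y2 • y) = H.h w (G w) • (y2 - H.h y' y2 • y) := by
      rw [map_sub, map_smul, hGy, hGy2, smul_sub, smul_comm]
    rw [H.g2_apply, e1, map_smul, ((H.mem_perp2).1 hy3).2.2, smul_zero, zero_smul, sub_zero]
  by_cases hs2 : Scal (H.perp2 ⊤ y y') (H.g2 G y y')
  · obtain ⟨c, hc⟩ := hs2
    have hcz : c = H.h w (G w) := by
      have e1 := hc _ hy3
      rw [hg3] at e1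
      exact (smul_left_injective K hy30 e1).symm
    refine Or.inr (Or.inl (odd_twoA H hK hF hU hn7 hG hd hA hyy hyy' hy1 hz hzk hGy ?_))
    intro x hx
    rw [hc x hx, map_smul, hc x hx, hcz, smul_smul, pow_two]
  · have hcd : ∀ d : Fin (k + 1) → K, H.FreeT (H.perp2 ⊤ y y') (H.g2 G y y') (k + 1) d →
        ∀ i, d i = H.h w (G w) := by
      intro d hd' i
      have e1 := (free_one H (free_g2 H hG trivial trivial hyy hyy' hy1 hz hGy hd') hA).1
        (Fin.succ i) 0
      rwa [Fin.cons_zero, Fin.cons_succ] at e1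
    rcases odd_const H hK hF hU2 (k := k) (by omega) hG2 hs2 hz hcd with h2 | ⟨d, hd1, hdd, h2⟩
    · exact Or.inr (Or.inl (odd_twoA H hK hF hU hn7 hG hd hA hyy hyy' hy1 hz hzk hGy h2))
    · exact odd_twoB H hK hF hU hn7 hG hd hyy hyy' hy1 hz hGy hd1 hdd h2 fun h => hs2 ⟨_, h⟩

end ThU
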