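import Pool.Agent.ThU.Final

/-! # Passage to the projective special unitary group -/

namespace ThU
open Matrix

variable {K : Type*} [Field K] [StarRing K]

theorem su_center {m : Type*} [Fintype m] [DecidableEq m] (z : Matrix.specialUnitaryGroup m K)
    (c : K) (hz : (z : Matrix m m K) = c • (1 : Matrix m m K)) :
    z ∈ Subgroup.center (Matrix.specialUnitaryGroup m K) := by
  rw [Subgroup.mem_center_iff]
  intro g
  apply Subtype.ext
  show (g : Matrix m m K) * (z : Matrix m m K) = (z : Matrix m m K) * (g : Matrix m m K)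
  rw [hz, Matrix.mul_smul, Matrix.smul_mul, mul_one, one_mul]

/-- an element of the special unitary group from a matrix -/
theorem su_mem {m : Type*} [Fintype m] [DecidableEq m] {x : Matrix m m K} (h1 : xᴴ * x = 1)
    (h2 : x.det = 1) : x ∈ Matrix.specialUnitaryGroup m K := by
  rw [Matrix.mem_specialUnitaryGroup_iff]
  exact ⟨(Matrix.mem_unitaryGroup_iff' (A := x)).2 h1, h2⟩

theorem su_conj {m : Type*} [Fintype m] [DecidableEq m] (x s : Matrix.specialUnitaryGroup m K) :
    ((s * x * s⁻¹ : Matrix.specialUnitaryGroup m K) : Matrix m m K) =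
      (s : Matrix m m K) * (x : Matrix m m K) * (s : Matrix m m K)⁻¹ := by
  have h : ((s⁻¹ : Matrix.specialUnitaryGroup m K) : Matrix m m K) = (s : Matrix m m K)⁻¹ := by
    symm
    apply Matrix.inv_eq_right_inv
    have h2 : s * s⁻¹ = 1 := mul_inv_cancel s
    have h3 := congrArg (Subtype.val) h2
    exact h3
  rw [← h]
  rfl

/-- The conclusion for the quotient by the center, from the matrix form. -/
theorem quot_of {m : Type*} [Fintype m] [DecidableEq m] {N : ℕ} (hN : Fintype.card m = N)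
    (x : Matrix m m K) (hx : xᴴ * x = 1) (hx1 : x.det = 1)
    (h : ∀ g : Matrix m m K, gᴴ * g = 1 → g.det = 1 →
      ∃ (c : K) (s t : Matrix m m K), c * star c = 1 ∧ c ^ N = 1 ∧ sᴴ * s = 1 ∧
          s.det = 1 ∧ tᴴ * t = 1 ∧ t.det = 1 ∧ g = c • (s * x * s⁻¹ * (t * x * t⁻¹))) :
    ∃ a : Matrix.specialUnitaryGroup m K ⧸ Subgroup.center (Matrix.specialUnitaryGroup m K),
      ∀ g : Matrix.specialUnitaryGroup m K ⧸ Subgroup.center (Matrix.specialUnitaryGroup m K),
        ∃ b c : Matrix.specialUnitaryGroup m K ⧸ Subgroup.center (Matrix.specialUnitaryGroup m K),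
          IsConj a b ∧ IsConj a c ∧ b * c = g := by
  set X : Matrix.specialUnitaryGroup m K := ⟨x, su_mem hx hx1⟩ with hX
  refine ⟨QuotientGroup.mk X, fun g => ?_⟩
  obtain ⟨g, rfl⟩ := QuotientGroup.mk_surjective g
  have hg := g.2
  rw [Matrix.mem_specialUnitaryGroup_iff] at hg
  obtain ⟨c, s, t, hc, hcN, hs, hs1, ht, ht1, hgg⟩ := h g ((Matrix.mem_unitaryGroup_iff').1 hg.1) hg.2
  set S : Matrix.specialUnitaryGroup m K := ⟨s, su_mem hs hs1⟩ with hS
  set T : Matrix.specialUnitaryGroup m K := ⟨t, su_mem ht ht1⟩ with hT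
  refine ⟨QuotientGroup.mk (S * X * S⁻¹), QuotientGroup.mk (T * X * T⁻¹), ?_, ?_, ?_⟩
  · rw [isConj_iff]
    exact ⟨QuotientGroup.mk S, rfl⟩
  · rw [isConj_iff]
    exact ⟨QuotientGroup.mk T, rfl⟩
  · have hc1 : (c • (1 : Matrix m m K))ᴴ * (c • (1 : Matrix m m K)) = 1 := by
      rw [conjTranspose_smul, conjTranspose_one, smul_mul_smul_comm, mul_one, mul_comm, hc, one_smul]
    have hc2 : (c • (1 : Matrix m m K)).det = 1 := by
      rw [Matrix.det_smul, Matrix.det_one, mul_one, hN, hcN]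
    have hz : (⟨c • (1 : Matrix m m K), su_mem hc1 hc2⟩ : Matrix.specialUnitaryGroup m K) ∈
        Subgroup.center (Matrix.specialUnitaryGroup m K) := su_center _ c rfl
    have e : g = S * X * S⁻¹ * (T * X * T⁻¹) * ⟨c • (1 : Matrix m m K), su_mem hc1 hc2⟩ := by
      apply Subtype.ext
      show (g : Matrix m m K) = ((S * X * S⁻¹ : Matrix.specialUnitaryGroup m K) : Matrix m m K) *
        ((T * X * T⁻¹ : Matrix.specialUnitaryGroup m K) : Matrix m m K) * (c • (1 : Matrix m m K))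
      rw [su_conj, su_conj, Matrix.mul_smul, mul_one]
      exact hgg
    rw [← QuotientGroup.mk_mul]
    refine QuotientGroup.eq.2 ?_
    rw [e]
    rw [inv_mul_cancel_left]
    exact hz

/-- reindexing -/
theorem reindex_form {m m' : Type*} [Fintype m] [DecidableEq m] [Fintype m'] [DecidableEq m'] (e : m ≃ m')
    {N : ℕ}
    (h : ∃ x : Matrix m m K, xᴴ * x = 1 ∧ x.det = 1 ∧ ∀ g : Matrix m m K, gᴴ * g = 1 → g.det = 1 →
      ∃ (c : K) (s t : Matrix m m K), c * star c = 1 ∧ c ^ N = 1 ∧ sᴴ * s = 1 ∧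
          s.det = 1 ∧ tᴴ * t = 1 ∧ t.det = 1 ∧ g = c • (s * x * s⁻¹ * (t * x * t⁻¹))) :
    ∃ x : Matrix m' m' K, xᴴ * x = 1 ∧ x.det = 1 ∧ ∀ g : Matrix m' m' K, gᴴ * g = 1 → g.det = 1 →
      ∃ (c : K) (s t : Matrix m' m' K), c * star c = 1 ∧ c ^ N = 1 ∧ sᴴ * s = 1 ∧
          s.det = 1 ∧ tᴴ * t = 1 ∧ t.det = 1 ∧ g = c • (s * x * s⁻¹ * (t * x * t⁻¹)) := by
  have hu : ∀ y : Matrix m m K, yᴴ * y = 1 → (y.submatrix e.symm e.symm)ᴴ * y.submatrix e.symm e.symm = 1 := by
    intro y hy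
    rw [conjTranspose_submatrix, submatrix_mul_equiv, hy, submatrix_one_equiv]
  have hu' : ∀ y : Matrix m' m' K, yᴴ * y = 1 → (y.submatrix e e)ᴴ * y.submatrix e e = 1 := by
    intro y hy
    rw [conjTranspose_submatrix, submatrix_mul_equiv, hy, submatrix_one_equiv]
  obtain ⟨x, hx, hx1, h⟩ := h
  refine ⟨x.submatrix e.symm e.symm, hu x hx, by rw [det_submatrix_equiv_self, hx1], fun g hg hg1 => ?_⟩
  obtain ⟨c, s, t, hc, hcN, hs, hs1, ht, ht1, hgg⟩ := h (g.submatrix e e) (hu' g hg)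
    (by rw [det_submatrix_equiv_self, hg1])
  refine ⟨c, s.submatrix e.symm e.symm, t.submatrix e.symm e.symm, hc, hcN, hu s hs,
    by rw [det_submatrix_equiv_self, hs1], hu t ht, by rw [det_submatrix_equiv_self, ht1], ?_⟩
  have : g = (g.submatrix e e).submatrix e.symm e.symm := by simp
  rw [this, hgg, inv_submatrix_equiv, inv_submatrix_equiv, submatrix_mul_equiv, submatrix_mul_equiv,
    submatrix_mul_equiv, submatrix_mul_equiv, submatrix_mul_equiv]
  rfl

end ThU
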