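import Pool.Agent.ThU.Spc

/-! # Module StepI -/

namespace ThU
open Matrix Polynomial Module

variable {K V : Type*} [Field K] [StarRing K] [AddCommGroup V] [Module K V] (H : Herm K V)
variable {U : Submodule K V} {G : V →ₗ[K] V} {w : V}

theorem iso_g1 (hG : H.Iso U G) (hw : w ∈ U) (h0 : H.h w w = 0) (hz : H.h w (G w) ≠ 0) :
    H.Iso (H.perp2 U w (G w)) (H.g1 G w) := by
  refine ⟨fun x hx => ?_, fun x hx y hy => ?_⟩
  · rw [H.mem_perp2] at hx ⊢
    obtain ⟨h1, h2, h3⟩ := hx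
    refine ⟨?_, ?_, ?_⟩
    · rw [H.g1_apply]
      exact U.sub_mem (hG.1 x h1) (U.smul_mem _ (hG.1 w hw))
    · rw [H.g1_apply, map_sub, map_smul, smul_eq_mul, mul_assoc, inv_mul_cancel₀ hz, mul_one,
        sub_self]
    · rw [H.g1_apply, map_sub, map_smul, smul_eq_mul, hG.2 w hw x h1, hG.2 w hw w hw, h2, h0,
        mul_zero, sub_zero]
  · rw [H.mem_perp2] at hx hy
    obtain ⟨h1, h2, h3⟩ := hx
    obtain ⟨k1, k2, k3⟩ := hy
    have h4 : H.h x w = 0 := H.swap_zero.1 h2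
    rw [H.g1_apply, H.g1_apply]
    simp only [map_sub, map_smul, smul_eq_mul, H.sub_left, H.smul_left, hG.2 x h1 y k1,
      hG.2 x h1 w hw, hG.2 w hw y k1, hG.2 w hw w hw, h0, h4, k2]
    ring

/-- the new hyperbolic system -/
theorem StepI_hyp (hG : H.Iso U G) (hw : w ∈ U) (h0 : H.h w w = 0) (hz : H.h w (G w) ≠ 0) {n : ℕ}
    {l0 : K} (hl : Good l0 (H.h w (G w))) {v v' : Fin n → V}
    (hv : H.Hyp (H.perp2 U w (G w)) n v v') :
    H.Hyp U (n + 1) (Fin.cons w v) (Fin.cons ((H.h w (G w))⁻¹ • (G w - l0 • w)) v') := by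
  have hz' : star (H.h w (G w)) ≠ 0 := by rwa [Ne, star_eq_zero]
  have hGw : G w ∈ U := hG.1 w hw
  have e1 : H.h (G w) w = star (H.h w (G w)) := (H.symm' _ _).symm
  have e2 : H.h (G w) (G w) = 0 := by rw [hG.2 w hw w hw, h0]
  have m := fun i => (H.mem_perp2).1 (hv.mem i)
  have m' := fun i => (H.mem_perp2).1 (hv.mem' i)
  have s1 := fun i => H.swap_zero.1 (m i).2.1
  have s2 := fun i => H.swap_zero.1 (m i).2.2
  have s1' := fun i => H.swap_zero.1 (m' i).2.1
  have s2' := fun i => H.swap_zero.1 (m' i).2.2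
  refine ⟨?_, ?_, ?_, ?_, ?_⟩
  · intro i
    refine Fin.cases ?_ (fun i => ?_) i
    · exact hw
    · exact (m i).1
  · intro i
    refine Fin.cases ?_ (fun i => ?_) i
    · exact U.smul_mem _ (U.sub_mem hGw (U.smul_mem _ hw))
    · exact (m' i).1
  · intro i j
    refine Fin.cases ?_ (fun i => ?_) i <;> refine Fin.cases ?_ (fun j => ?_) j
    · exact h0
    · exact (m j).2.1
    · exact s1 i
    · exact hv.iso i j
  · intro i j
    refine Fin.cases ?_ (fun i => ?_) i <;> refine Fin.cases ?_ (fun j => ?_) j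
    · simp only [Fin.cons_zero, map_smul, map_sub, smul_eq_mul, H.smul_left, H.sub_left, e1, e2, h0]
      have := hl.2
      linear_combination (-(star (H.h w (G w))⁻¹) * (H.h w (G w))⁻¹) * this
    · simp only [Fin.cons_zero, Fin.cons_succ, H.smul_left, H.sub_left, (m' j).2.1, (m' j).2.2]
      ring
    · simp only [Fin.cons_zero, Fin.cons_succ, map_smul, map_sub, smul_eq_mul, s1' i, s2' i]
      ring
    · exact hv.iso' i j
  · intro i j
    refine Fin.cases ?_ (fun i => ?_) i <;> refine Fin.cases ?_ (fun j => ?_) j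
    · simp only [Fin.cons_zero, H.smul_left, H.sub_left, e1, h0, mul_zero, sub_zero, if_true]
      rw [star_inv₀, inv_mul_cancel₀ hz']
    · simp only [Fin.cons_zero, Fin.cons_succ, H.smul_left, H.sub_left, (m j).2.1, (m j).2.2]
      rw [if_neg (Fin.succ_ne_zero j).symm]
      ring
    · simp only [Fin.cons_zero, Fin.cons_succ, s1' i]
      rw [if_neg (Fin.succ_ne_zero i)]
    · simp only [Fin.cons_succ, Fin.succ_inj]
      exact hv.dual i j

theorem StepI_diag (hG : H.Iso U G) (hw : w ∈ U) (h0 : H.h w w = 0) (hz : H.h w (G w) ≠ 0)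
    {l0 : K} (hl : Good l0 (H.h w (G w))) :
    H.h ((H.h w (G w))⁻¹ • (G w - l0 • w)) (G w) = l0 := by
  have hz' : star (H.h w (G w)) ≠ 0 := by rwa [Ne, star_eq_zero]
  rw [H.smul_left, H.sub_left, H.smul_left, hG.2 w hw w hw, h0, star_inv₀]
  have := hl.2
  field_simp
  linear_combination (-1 : K) * this

/-- `w_0 = w`, `w'_0 = z⁻¹ • (G w - l0 • w)`, `z = h w (G w)`, and the other vectors from `h`;
`h w'_0 (G w) = - star z⁻¹ * star l0 * z = l0` and `h w'_i (G w_j) = h w'_i (g1 w_j)` for `i, j ≥ 1`,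
`h w'_i (G w) = 0` for `i ≥ 1` -/
theorem tri_g1 (hG : H.Iso U G) (hw : w ∈ U) (h0 : H.h w w = 0) (hz : H.h w (G w) ≠ 0) {n : ℕ} {l0 : K}
    {l : Fin n → K} (hl : Good l0 (H.h w (G w)))
    (h : H.Tri (H.perp2 U w (G w)) (H.g1 G w) n l) : H.Tri U G (n + 1) (Fin.cons l0 l) := by
  obtain ⟨v, v', hv, h1, h2⟩ := h
  have m' := fun i => (H.mem_perp2).1 (hv.mem' i)
  have s2' := fun i => H.swap_zero.1 (m' i).2.2
  have key : ∀ i j, H.h (v' i) (H.g1 G w (v j)) = H.h (v' i) (G (v j)) := fun i j => by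
    rw [H.g1_apply, map_sub, map_smul, s2' i, smul_zero, sub_zero]
  refine ⟨_, _, StepI_hyp H hG hw h0 hz hl hv, ?_, ?_⟩
  · intro i j
    refine Fin.cases ?_ (fun i => ?_) i <;> refine Fin.cases ?_ (fun j => ?_) j
    · intro hij
      exact absurd hij (lt_irrefl _)
    · intro hij
      exact absurd hij (Fin.not_lt_zero _)
    · intro _
      exact s2' i
    · intro hij
      have h3 := h1 i j (Fin.succ_lt_succ_iff.1 hij)
      rw [key] at h3
      exact h3
  · intro i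
    refine Fin.cases ?_ (fun i => ?_) i
    · exact StepI_diag H hG hw h0 hz hl
    · have h3 := h2 i
      rw [key] at h3
      exact h3

/-- the same if `G` is a scalar on `perp2 U w (G w)` -/
theorem dia_g1 (hG : H.Iso U G) (hw : w ∈ U) (h0 : H.h w w = 0) (hz : H.h w (G w) ≠ 0) {n : ℕ}
    {l0 c : K} (hl : Good l0 (H.h w (G w))) (hc : ∀ x ∈ H.perp2 U w (G w), G x = c • x)
    {v v' : Fin n → V} (hv : H.Hyp (H.perp2 U w (G w)) n v v') :
    H.Dia U G (n + 1) (Fin.cons l0 fun _ => c) := by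
  have m' := fun i => (H.mem_perp2).1 (hv.mem' i)
  have s2' := fun i => H.swap_zero.1 (m' i).2.2
  have hh := StepI_hyp H hG hw h0 hz hl hv
  refine ⟨_, _, hh, ?_⟩
  intro i j
  refine Fin.cases ?_ (fun i => ?_) i <;> refine Fin.cases ?_ (fun j => ?_) j
  · rw [if_pos rfl]
    exact StepI_diag H hG hw h0 hz hl
  · rw [if_neg (Fin.succ_ne_zero j).symm]
    have h3 := hh.dual 0 j.succ
    rw [if_neg (Fin.succ_ne_zero j).symm] at h3
    simp only [Fin.cons_zero, Fin.cons_succ] at h3 ⊢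
    rw [hc _ (hv.mem j), map_smul, h3, smul_zero]
  · rw [if_neg (Fin.succ_ne_zero i)]
    exact s2' i
  · simp only [Fin.cons_succ, Fin.succ_inj]
    rw [hc _ (hv.mem j), map_smul, hv.dual i j]
    split_ifs <;> simp

end ThU
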