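import Pool.Agent.ThU.Sc
import Pool.Agent.ThU.StepI

/-! # Module AB -/

namespace ThU
open Matrix Polynomial Module

variable {K V : Type*} [Field K] [StarRing K] [AddCommGroup V] [Module K V] (H : Herm K V)
variable {U : Submodule K V} {G : V →ₗ[K] V}

/-- nondegeneracy on the other side -/
private theorem AB_nd {U1 : Submodule K V} (hU : H.ND U1) {y : V} (hy : y ∈ U1)
    (h : ∀ x ∈ U1, H.h x y = 0) : y = 0 :=
  hU y hy fun x hx => H.swap_zero.1 (h x hx)

private theorem AB_ne {U1 : Submodule K V} (hU : H.ND U1) {y : V} (hy : y ∈ U1) (h0 : y ≠ 0) :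
    ∃ x ∈ U1, H.h y x ≠ 0 := by
  by_contra hc
  push Not at hc
  exact h0 (hU y hy hc)

/-- an isotropic vector outside a line, with an inequality -/
private theorem AB_iso [Finite K] [FiniteDimensional K V] (hK : ∃ x : K, star x ≠ x)
    {U1 : Submodule K V} (hU : H.ND U1) (h2 : 2 ≤ finrank K U1) (v : V) (φ : V →ₗ[K] K) :
    ∃ u ∈ U1, H.h u u = 0 ∧ u ∉ Submodule.span K {v} ∧ φ u ≠ -1 := by
  obtain ⟨u, hu, hu0, huv⟩ : ∃ u ∈ U1, H.h u u = 0 ∧ u ∉ Submodule.span K {v} := by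
    by_contra hc
    push Not at hc
    have h1 : U1 ≤ Submodule.span K {v} := by
      intro x hx
      have h3 := span_iso H hK hU h2 hx
      refine (Submodule.span_le.2 ?_) h3
      rintro w ⟨hw1, hw2⟩
      exact hc w hw1 hw2
    have h4 := Submodule.finrank_mono h1
    have h5 : finrank K (Submodule.span K {v}) ≤ 1 := by
      refine (finrank_span_le_card {v}).trans ?_
      simp
    omega
  by_cases h1 : φ u = -1
  · obtain ⟨c, hc⟩ := hK
    have hc0 : c ≠ 0 := fun h => hc (by rw [h, star_zero])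
    have hc1 : c ≠ 1 := fun h => hc (by rw [h, star_one])
    refine ⟨c • u, U1.smul_mem c hu, ?_, fun h => huv ?_, fun h => hc1 ?_⟩
    · rw [map_smul, H.smul_left, hu0, mul_zero, smul_zero]
    · have := Submodule.smul_mem _ c⁻¹ h
      rwa [smul_smul, inv_mul_cancel₀ hc0, one_smul] at this
    · rw [map_smul, h1, smul_eq_mul, mul_neg, mul_one, neg_inj] at h
      exact h
  · exact ⟨u, hu, hu0, huv, h1⟩

/-- a common zero of two functionals -/
private theorem AB_zero [FiniteDimensional K V] {U1 : Submodule K V} (h3 : 3 ≤ finrank K U1)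
    (φ ψ : V →ₗ[K] K) : ∃ y ∈ U1, y ≠ 0 ∧ φ y = 0 ∧ ψ y = 0 := by
  have h1 := LinearMap.ker_ne_bot_of_finrank_lt (f := (φ.prod ψ).comp U1.subtype) (by
    rw [finrank_prod, finrank_self]
    omega)
  obtain ⟨⟨y, hy⟩, hy1, hy2⟩ := Submodule.exists_mem_ne_zero_of_ne_bot h1
  have h4 : (φ y, ψ y) = 0 := hy1
  exact ⟨y, hy, fun h => hy2 (Subtype.ext h), (Prod.ext_iff.1 h4).1, (Prod.ext_iff.1 h4).2⟩

theorem alt_AB [Finite K] [FiniteDimensional K V] (hK : ∃ x : K, star x ≠ x) (hU : H.ND U)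
    (h5 : 5 ≤ finrank K U) (hG : H.Iso U G) (hs : ¬ Scal U G) :
    (∃ w ∈ U, H.h w w = 0 ∧ H.h w (G w) ≠ 0 ∧ ¬ Scal (H.perp2 U w (G w)) (H.g1 G w)) ∨
    (∃ w ∈ U, ∃ ζ : K, H.h w w = 0 ∧ H.h w (G w) ≠ 0 ∧ ∀ x ∈ H.perp2 U w (G w), G x = ζ • x) := by
  obtain ⟨w, hw, h0, hz⟩ := exists_z H hK hU (by omega) hG hs
  have hGw : G w ∈ U := hG.1 w hw
  have hGw0 : H.h (G w) (G w) = 0 := by rw [hG.2 w hw w hw, h0]
  have hU1 : H.ND (H.perp2 U w (G w)) := perp2_ND H hU hw hGw h0 hGw0 hz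
  have hfr := perp2_finrank H hw hGw h0 hGw0 hz
  have hfr3 : 3 ≤ finrank K (H.perp2 U w (G w)) := by omega
  by_cases hs1 : Scal (H.perp2 U w (G w)) (H.g1 G w)
  swap
  · exact Or.inl ⟨w, hw, h0, hz, hs1⟩
  obtain ⟨ζ, hζ⟩ := hs1
  by_cases hβ : ∀ x ∈ H.perp2 U w (G w), H.h w (G x) = 0
  · refine Or.inr ⟨w, hw, ζ, h0, hz, fun x hx => ?_⟩
    have h1 := hζ x hx
    rw [H.g1_apply, hβ x hx, zero_mul, zero_smul, sub_zero] at h1
    exact h1
  push Not at hβ
  obtain ⟨x0, hx0, hβ0⟩ := hβ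
  -- the functional β
  set β : V →ₗ[K] K := (H.h w (G w))⁻¹ • (H.h w).comp G with hβdef
  have hβa : ∀ x, β x = (H.h w (G w))⁻¹ * H.h w (G x) := fun x => rfl
  have hGx : ∀ x ∈ H.perp2 U w (G w), G x = ζ • x + β x • G w := by
    intro x hx
    have h1 := hζ x hx
    rw [H.g1_apply, sub_eq_iff_eq_add] at h1
    rw [h1, hβa, mul_comm]
  have hx0n : x0 ≠ 0 := fun h => hβ0 (by rw [h, map_zero, map_zero])
  have hm : ∀ {x}, x ∈ H.perp2 U w (G w) → x ∈ U ∧ H.h w x = 0 ∧ H.h (G w) x = 0 :=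
    fun hx => H.mem_perp2.1 hx
  have hm' : ∀ {x}, x ∈ H.perp2 U w (G w) → H.h x w = 0 ∧ H.h x (G w) = 0 :=
    fun hx => ⟨H.swap_zero.1 (hm hx).2.1, H.swap_zero.1 (hm hx).2.2⟩
  -- ζ is a unit
  have hζ1 : star ζ * ζ = 1 := by
    obtain ⟨y, hy, hy0⟩ := AB_ne H hU1 hx0 hx0n
    have h1 := (iso_g1 H hG hw h0 hz).2 x0 hx0 y hy
    rw [hζ x0 hx0, hζ y hy, H.smul_left, map_smul, smul_eq_mul, ← mul_assoc] at h1
    have h2 : (star ζ * ζ - 1) * H.h x0 y = 0 := by rw [sub_mul, h1, one_mul, sub_self]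
    exact sub_eq_zero.1 ((mul_eq_zero.1 h2).resolve_right hy0)
  have hζ0 : ζ ≠ 0 := fun h => by rw [h, mul_zero] at hζ1; exact zero_ne_one hζ1
  -- v
  obtain ⟨s0, t0, hv⟩ := perp2_dec H hw hGw h0 hGw0 hz (G (G w)) (hG.1 _ hGw)
  set v := G (G w) - s0 • w - t0 • G w with hvdef
  have hvG : G (G w) = v + s0 • w + t0 • G w := by rw [hvdef]; abel
  have hstz : H.h (G w) w ≠ 0 := fun h => hz (H.swap_zero.1 h)
  have hvx : ∀ x ∈ H.perp2 U w (G w), ζ * H.h v x + β x * H.h (G w) w = 0 := by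
    intro x hx
    have h1 : H.h (G (G w)) (G x) = 0 := by
      rw [hG.2 _ hGw x (hm hx).1]
      exact (hm hx).2.2
    have h2 : H.h (G (G w)) (G w) = H.h (G w) w := hG.2 _ hGw w hw
    rw [hGx x hx, map_add, map_smul, map_smul, smul_eq_mul, smul_eq_mul, h2, hvG, H.add_left,
      H.add_left, H.smul_left, H.smul_left, (hm hx).2.1, (hm hx).2.2, mul_zero, mul_zero, add_zero,
      add_zero] at h1
    exact h1
  have hv0 : v ≠ 0 := by
    intro h
    have h1 := hvx x0 hx0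
    rw [h, H.zero_left, mul_zero, zero_add] at h1
    rcases mul_eq_zero.1 h1 with h2 | h2
    · rw [hβa] at h2
      exact (mul_ne_zero (inv_ne_zero hz) hβ0) h2
    · exact hstz h2
  obtain ⟨u, hu, hu0, huv, hβu⟩ := AB_iso H hK hU1 (by omega) v β
  have hu1 : u ≠ 0 := fun h => huv (by rw [h]; exact Submodule.zero_mem _)
  obtain ⟨hwu, hGwu⟩ := (hm hu).2
  obtain ⟨huw, huGw⟩ := hm' hu
  -- the new vector
  have hGw2 : G (w + u) = (1 + β u) • G w + ζ • u := by
    rw [map_add, hGx u hu, add_smul, one_smul]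
    abel
  have hκ : 1 + β u ≠ 0 := fun h => hβu (by linear_combination h)
  have hw2 : w + u ∈ U := U.add_mem hw (hm hu).1
  have h02 : H.h (w + u) (w + u) = 0 := by
    rw [H.add_left, map_add, map_add, h0, hwu, huw, hu0]
    simp
  have hz2e : H.h (w + u) (G (w + u)) = (1 + β u) * H.h w (G w) := by
    rw [hGw2, H.add_left, map_add, map_add, map_smul, map_smul, map_smul, map_smul, hwu, huGw, hu0]
    simp
  have hz2 : H.h (w + u) (G (w + u)) ≠ 0 := by
    rw [hz2e]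
    exact mul_ne_zero hκ hz
  refine Or.inl ⟨w + u, hw2, h02, hz2, ?_⟩
  rintro ⟨ζ2, hζ2⟩
  have hG2 : ∀ y ∈ H.perp2 U (w + u) (G (w + u)), ∃ c : K, G y = ζ2 • y + c • G (w + u) := by
    intro y hy
    have h1 := hζ2 y hy
    rw [H.g1_apply, sub_eq_iff_eq_add] at h1
    exact ⟨_, h1⟩
  -- (a) ζ2 = ζ
  have hζζ : ζ2 = ζ := by
    obtain ⟨y, hy, hy0, hβy, huy⟩ := AB_zero hfr3 β (H.h u)
    have hy2 : y ∈ H.perp2 U (w + u) (G (w + u)) := by
      refine H.mem_perp2.2 ⟨(hm hy).1, ?_, ?_⟩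
      · rw [H.add_left, (hm hy).2.1, huy, add_zero]
      · rw [hGw2, H.add_left, H.smul_left, H.smul_left, (hm hy).2.2, huy]
        simp
    obtain ⟨c, hc⟩ := hG2 y hy2
    rw [hGx y hy, hβy, zero_smul, add_zero, hGw2] at hc
    have h1 := congrArg (H.h w) hc
    rw [map_smul, map_add, map_smul, map_smul, map_add, map_smul, map_smul, (hm hy).2.1, hwu] at h1
    simp only [smul_eq_mul, mul_zero, zero_add, add_zero] at h1
    have h2 : c = 0 := by
      rcases mul_eq_zero.1 h1.symm with h3 | h3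
      · exact h3
      · exact absurd h3 (mul_ne_zero hκ hz)
    rw [h2, zero_smul, add_zero] at hc
    have h3 : (ζ2 - ζ) • y = 0 := by rw [sub_smul, hc, sub_self]
    exact sub_eq_zero.1 ((smul_eq_zero.1 h3).resolve_right hy0)
  rw [hζζ] at hG2
  -- (b) the contradiction
  obtain ⟨y1, hy1, hη⟩ := AB_ne H hU1 hu hu1
  have hsκ : star (1 + β u) ≠ 0 := by rwa [Ne, star_eq_zero]
  set s' : K := -(H.h u y1) / H.h w (G w) with hs'
  have hs'0 : s' ≠ 0 := div_ne_zero (neg_ne_zero.2 hη) hz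
  set s : K := -(star ζ * H.h u y1) / (star (1 + β u) * H.h (G w) w) with hsdef
  set y := s • w + s' • G w + y1 with hydef
  have hyU : y ∈ U := U.add_mem (U.add_mem (U.smul_mem _ hw) (U.smul_mem _ hGw)) (hm hy1).1
  have hy2 : y ∈ H.perp2 U (w + u) (G (w + u)) := by
    refine H.mem_perp2.2 ⟨hyU, ?_, ?_⟩
    · rw [hydef, H.add_left, map_add, map_add, map_add, map_add, map_smul, map_smul, map_smul,
        map_smul, h0, huw, huGw, (hm hy1).2.1, hs']
      simp only [smul_eq_mul]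
      field_simp
      ring
    · rw [hydef, hGw2, H.add_left, H.smul_left, H.smul_left, map_add, map_add, map_add, map_add,
        map_smul, map_smul, map_smul, map_smul, hGw0, huw, huGw, (hm hy1).2.2, hsdef]
      simp only [smul_eq_mul]
      field_simp
      ring
  obtain ⟨c, hc⟩ := hG2 y hy2
  have hGy : G y = s • G w + s' • (v + s0 • w + t0 • G w) + (ζ • y1 + β y1 • G w) := by
    rw [hydef, map_add, map_add, map_smul, map_smul, hvG, hGx y1 hy1]
  have hcomp : s' • v - (c * ζ) • u = 0 := by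
    refine AB_nd H hU1 ((H.perp2 U w (G w)).sub_mem ((H.perp2 U w (G w)).smul_mem _ hv)
      ((H.perp2 U w (G w)).smul_mem _ hu)) fun x hx => ?_
    have h1 := congrArg (H.h x) (hGy.symm.trans hc)
    obtain ⟨hxw, hxGw⟩ := hm' hx
    rw [hydef, hGw2] at h1
    simp only [map_add, map_smul, smul_eq_mul, hxw, hxGw, mul_zero, zero_add, add_zero] at h1
    rw [map_sub, map_smul, map_smul, smul_eq_mul, smul_eq_mul]
    linear_combination h1
  have hvu : s' • v = (c * ζ) • u := sub_eq_zero.1 hcomp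
  have hcζ : c * ζ ≠ 0 := by
    intro h
    rw [h, zero_smul] at hvu
    exact hv0 ((smul_eq_zero.1 hvu).resolve_left hs'0)
  apply huv
  have h9 : u = ((c * ζ)⁻¹ * s') • v := by
    rw [mul_smul, hvu, smul_smul, inv_mul_cancel₀ hcζ, one_smul]
  rw [h9]
  exact Submodule.smul_mem _ _ (Submodule.mem_span_singleton_self v)

end ThU
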