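import Pool.Agent.ThU.Spc

/-! # Module StepII -/

namespace ThU
open Matrix Polynomial Module

variable {K V : Type*} [Field K] [StarRing K] [AddCommGroup V] [Module K V] (H : Herm K V)
variable {U : Submodule K V} {G : V →ₗ[K] V} {w w' : V}

private theorem StepII_perp (hG : H.Iso U G) (hw : w ∈ U) {c : K} (hc : c ≠ 0) (he : G w = c • w)
    {x : V} (hx : x ∈ U) (h : H.h w x = 0) : H.h w (G x) = 0 := by
  have h1 := hG.2 w hw x hx
  rw [he, H.smul_left, h] at h1
  rcases mul_eq_zero.1 h1 with h2 | h2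
  · exact absurd (star_eq_zero.1 h2) hc
  · exact h2

theorem iso_g2 (hG : H.Iso U G) (hw : w ∈ U) (hw' : w' ∈ U) (h0 : H.h w w = 0) (h0' : H.h w' w' = 0)
    (h1 : H.h w' w = 1) {c : K} (hc : c ≠ 0) (he : G w = c • w) :
    H.Iso (H.perp2 U w w') (H.g2 G w w') := by
  constructor
  · intro x hx
    rw [H.mem_perp2] at hx ⊢
    have h2 := StepII_perp H hG hw hc he hx.1 hx.2.1
    refine ⟨?_, ?_, ?_⟩
    · rw [H.g2_apply]
      exact U.sub_mem (hG.1 x hx.1) (U.smul_mem _ hw)
    · rw [H.g2_apply, map_sub, map_smul, h0, h2, smul_zero, sub_zero]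
    · rw [H.g2_apply, map_sub, map_smul, h1, smul_eq_mul, mul_one, sub_self]
  · intro x hx y hy
    rw [H.mem_perp2] at hx hy
    have h2 := StepII_perp H hG hw hc he hx.1 hx.2.1
    have h3 := StepII_perp H hG hw hc he hy.1 hy.2.1
    rw [H.g2_apply, H.g2_apply, H.sub_left, map_sub, map_sub, H.smul_left, H.smul_left, map_smul,
      map_smul, h0, h3, H.swap_zero.1 h2, hG.2 x hx.1 y hy.1]
    simp

theorem tri_g2 (hG : H.Iso U G) (hw : w ∈ U) (hw' : w' ∈ U) (h0 : H.h w w = 0) (h0' : H.h w' w' = 0)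
    (h1 : H.h w' w = 1) {c : K} (hc : c ≠ 0) (he : G w = c • w) {n : ℕ} {l : Fin n → K}
    (h : H.Tri (H.perp2 U w w') (H.g2 G w w') n l) : H.Tri U G (n + 1) (Fin.cons c l) := by
  obtain ⟨v, v', hh, htri, hdia⟩ := h
  have hv := fun i => (H.mem_perp2).1 (hh.mem i)
  have hv' := fun i => (H.mem_perp2).1 (hh.mem' i)
  have key : ∀ i j, H.h (v' i) (G (v j)) = H.h (v' i) (H.g2 G w w' (v j)) := by
    intro i j
    rw [H.g2_apply, map_sub, map_smul, H.swap_zero.1 (hv' i).2.1, smul_zero, sub_zero]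
  refine ⟨Fin.cons w v, Fin.cons w' v', ⟨?_, ?_, ?_, ?_, ?_⟩, ?_, ?_⟩
  · intro i
    refine Fin.cases ?_ (fun i => ?_) i
    · exact hw
    · exact (hv i).1
  · intro i
    refine Fin.cases ?_ (fun i => ?_) i
    · exact hw'
    · exact (hv' i).1
  · intro i j
    refine Fin.cases ?_ (fun i => ?_) i <;> refine Fin.cases ?_ (fun j => ?_) j
    · exact h0
    · exact (hv j).2.1
    · exact H.swap_zero.1 (hv i).2.1
    · exact hh.iso i j
  · intro i j
    refine Fin.cases ?_ (fun i => ?_) i <;> refine Fin.cases ?_ (fun j => ?_) j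
    · exact h0'
    · exact (hv' j).2.2
    · exact H.swap_zero.1 (hv' i).2.2
    · exact hh.iso' i j
  · intro i j
    refine Fin.cases ?_ (fun i => ?_) i <;> refine Fin.cases ?_ (fun j => ?_) j
    · rw [if_pos rfl]
      exact h1
    · rw [if_neg (Fin.succ_ne_zero j).symm]
      exact (hv j).2.2
    · rw [if_neg (Fin.succ_ne_zero i)]
      exact H.swap_zero.1 (hv' i).2.1
    · have h2 := hh.dual i j
      simp only [Fin.cons_succ, Fin.succ_inj]
      exact h2
  · intro i j
    refine Fin.cases ?_ (fun i => ?_) i <;> refine Fin.cases ?_ (fun j => ?_) j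
    · intro hij
      exact absurd hij (lt_irrefl _)
    · intro hij
      exact absurd hij (Fin.not_lt_zero _)
    · intro _
      rw [Fin.cons_zero, Fin.cons_succ, he, map_smul, H.swap_zero.1 (hv' i).2.1, smul_zero]
    · intro hij
      rw [Fin.cons_succ, Fin.cons_succ, key]
      exact htri i j (Fin.succ_lt_succ_iff.1 hij)
  · intro i
    refine Fin.cases ?_ (fun i => ?_) i
    · rw [Fin.cons_zero, Fin.cons_zero, Fin.cons_zero, he, map_smul, h1, smul_eq_mul, mul_one]
    · rw [Fin.cons_succ, Fin.cons_succ, Fin.cons_succ, key]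
      exact hdia i

/-- eigenvalues of isometries are not zero -/
theorem eig_ne_zero (hU : H.ND U) (hG : H.Iso U G) (hw : w ∈ U) (hw0 : w ≠ 0) {c : K}
    (he : G w = c • w) : c ≠ 0 := by
  rintro rfl
  apply hw0
  apply hU w hw
  intro y hy
  rw [← hG.2 w hw y hy, he, zero_smul, H.zero_left]

end ThU
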