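import Pool.Agent.ThU.Sc
import Pool.Agent.ThU.StepI
import Pool.Agent.ThU.StepII

/-! # Module Compl -/

namespace ThU
open Matrix Polynomial Module

variable {K V : Type*} [Field K] [StarRing K] [AddCommGroup V] [Module K V] (H : Herm K V)
variable {U : Submodule K V} {G : V →ₗ[K] V}

/-- `l = e * z` with `star e = - e` -/
theorem good_exists (hK : ∃ x : K, star x ≠ x) {z : K} (hz : z ≠ 0) : ∃ l : K, Good l z := by
  obtain ⟨e, he, hse⟩ := fld_eps hK
  refine ⟨e * z, mul_ne_zero he hz, ?_⟩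
  rw [star_mul', hse]
  ring

/-- adding a hyperbolic pair -/
private theorem Compl_cons {n : ℕ} {a b : V} (ha : a ∈ U) (hb : b ∈ U) (haa : H.h a a = 0)
    (hbb : H.h b b = 0) (hba : H.h b a = 1) {w w' : Fin n → V} (h : H.Hyp (H.perp2 U a b) n w w') :
    H.Hyp U (n + 1) (Fin.cons a w) (Fin.cons b w') := by
  have m1 := fun i => H.mem_perp2.1 (h.mem i)
  have m2 := fun i => H.mem_perp2.1 (h.mem' i)
  refine ⟨?_, ?_, ?_, ?_, ?_⟩
  · intro i
    refine Fin.cases ?_ (fun j => ?_) i
    · exact ha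
    · exact (m1 j).1
  · intro i
    refine Fin.cases ?_ (fun j => ?_) i
    · exact hb
    · exact (m2 j).1
  · intro i j
    refine Fin.cases ?_ (fun i => ?_) i <;> refine Fin.cases ?_ (fun j => ?_) j
    · simpa using haa
    · simpa using (m1 j).2.1
    · simpa using H.swap_zero.1 (m1 i).2.1
    · simpa using h.iso i j
  · intro i j
    refine Fin.cases ?_ (fun i => ?_) i <;> refine Fin.cases ?_ (fun j => ?_) j
    · simpa using hbb
    · simpa using (m2 j).2.2
    · simpa using H.swap_zero.1 (m2 i).2.2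
    · simpa using h.iso' i j
  · intro i j
    refine Fin.cases ?_ (fun i => ?_) i <;> refine Fin.cases ?_ (fun j => ?_) j
    · simpa using hba
    · rw [Fin.cons_zero, Fin.cons_succ, if_neg (Fin.succ_ne_zero j).symm]
      exact (m1 j).2.2
    · rw [Fin.cons_zero, Fin.cons_succ, if_neg (Fin.succ_ne_zero i)]
      exact H.swap_zero.1 (m2 i).2.1
    · rw [Fin.cons_succ, Fin.cons_succ, h.dual i j]
      simp only [Fin.succ_inj]

/-- induction on `n` with `exists_iso`, `exists_partner`, `perp2_ND`, `perp2_finrank` -/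
theorem hyp_exists [Finite K] [FiniteDimensional K V] (hK : ∃ x : K, star x ≠ x) {n : ℕ}
    (hU : H.ND U) (hn : finrank K U = 2 * n) : ∃ w w' : Fin n → V, H.Hyp U n w w' := by
  induction n generalizing U with
  | zero =>
    exact ⟨Fin.elim0, Fin.elim0, ⟨fun i => i.elim0, fun i => i.elim0, fun i => i.elim0,
      fun i => i.elim0, fun i => i.elim0⟩⟩
  | succ n ih =>
    obtain ⟨a, ha, ha0, haa⟩ := exists_iso H hK hU (by omega)
    obtain ⟨b, hb, hbb, hba⟩ := exists_partner H hK hU ha ha0 haa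
    have hab : H.h a b ≠ 0 := by
      rw [H.symm b a, hba, star_one]
      exact one_ne_zero
    have h1 := perp2_ND H hU ha hb haa hbb hab
    have h2 := perp2_finrank H ha hb haa hbb hab
    obtain ⟨w, w', h3⟩ := ih h1 (by omega)
    exact ⟨_, _, Compl_cons H ha hb haa hbb hba h3⟩

theorem dia_scal [Finite K] [FiniteDimensional K V] (hK : ∃ x : K, star x ≠ x) {n : ℕ}
    (hU : H.ND U) (hn : finrank K U = 2 * n) {c : K} (hc : ∀ x ∈ U, G x = c • x) :
    H.Dia U G n (fun _ => c) := by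
  obtain ⟨w, w', h⟩ := hyp_exists H hK hU hn
  refine ⟨w, w', h, fun i j => ?_⟩
  rw [hc _ (h.mem j), map_smul, h.dual]
  split_ifs
  · simp
  · simp

/-- Induction on `n`: if `G` is not a scalar on `U` use `exists_z`, `good_exists`, `tri_g1`; if `G` is a scalar use
an isotropic vector (`exists_iso`, `exists_partner`) and `tri_g2`. -/
theorem tri_exists [Finite K] [FiniteDimensional K V] (hK : ∃ x : K, star x ≠ x) {n : ℕ}
    (hU : H.ND U) (hn : finrank K U = 2 * n) (hG : H.Iso U G) :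
    ∃ l : Fin n → K, (∀ i, l i ≠ 0) ∧ H.Tri U G n l := by
  induction n generalizing U G with
  | zero =>
    exact ⟨Fin.elim0, fun i => i.elim0, Fin.elim0, Fin.elim0,
      ⟨fun i => i.elim0, fun i => i.elim0, fun i => i.elim0, fun i => i.elim0, fun i => i.elim0⟩,
      fun i => i.elim0, fun i => i.elim0⟩
  | succ n ih =>
    by_cases hs : Scal U G
    · obtain ⟨c, hc⟩ := hs
      obtain ⟨a, ha, ha0, haa⟩ := exists_iso H hK hU (by omega)
      obtain ⟨b, hb, hbb, hba⟩ := exists_partner H hK hU ha ha0 haa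
      have hab : H.h a b ≠ 0 := by
        rw [H.symm b a, hba, star_one]
        exact one_ne_zero
      have h1 := perp2_ND H hU ha hb haa hbb hab
      have h2 := perp2_finrank H ha hb haa hbb hab
      have hc0 := eig_ne_zero H hU hG ha ha0 (hc a ha)
      obtain ⟨l, hl, ht⟩ := ih h1 (by omega) (iso_g2 H hG ha hb haa hbb hba hc0 (hc a ha))
      refine ⟨Fin.cons c l, ?_, tri_g2 H hG ha hb haa hbb hba hc0 (hc a ha) ht⟩
      intro i
      refine Fin.cases ?_ (fun j => ?_) i
      · exact hc0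
      · exact hl j
    · obtain ⟨a, ha, haa, hz⟩ := exists_z H hK hU (by omega) hG hs
      obtain ⟨l0, hl0⟩ := good_exists hK hz
      have hGa : G a ∈ U := hG.1 a ha
      have hGaa : H.h (G a) (G a) = 0 := by rw [hG.2 a ha a ha, haa]
      have h1 := perp2_ND H hU ha hGa haa hGaa hz
      have h2 := perp2_finrank H ha hGa haa hGaa hz
      obtain ⟨l, hl, ht⟩ := ih h1 (by omega) (iso_g1 H hG ha haa hz)
      refine ⟨Fin.cons l0 l, ?_, tri_g1 H hG ha haa hz hl0 ht⟩
      intro i
      refine Fin.cases ?_ (fun j => ?_) i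
      · exact hl0.1
      · exact hl j

/-- completion of a first step of type I -/
theorem tri_first1 [Finite K] [FiniteDimensional K V] (hK : ∃ x : K, star x ≠ x) {n : ℕ}
    (hU : H.ND U) (hn : finrank K U = 2 * (n + 1)) (hG : H.Iso U G) {w : V} (hw : w ∈ U)
    (h0 : H.h w w = 0) (hz : H.h w (G w) ≠ 0) {l0 : K} (hl : Good l0 (H.h w (G w))) :
    ∃ l : Fin n → K, (∀ i, l i ≠ 0) ∧ H.Tri U G (n + 1) (Fin.cons l0 l) := by
  have hGa : G w ∈ U := hG.1 w hw
  have hGaa : H.h (G w) (G w) = 0 := by rw [hG.2 w hw w hw, h0]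
  have h1 := perp2_ND H hU hw hGa h0 hGaa hz
  have h2 := perp2_finrank H hw hGa h0 hGaa hz
  obtain ⟨l, hl', ht⟩ := tri_exists H hK (n := n) h1 (by omega) (iso_g1 H hG hw h0 hz)
  exact ⟨l, hl', tri_g1 H hG hw h0 hz hl ht⟩

/-- completion of a first step of type II -/
theorem tri_first2 [Finite K] [FiniteDimensional K V] (hK : ∃ x : K, star x ≠ x) {n : ℕ}
    (hU : H.ND U) (hn : finrank K U = 2 * (n + 1)) (hG : H.Iso U G) {w : V} (hw : w ∈ U) (hw0 : w ≠ 0)
    (h0 : H.h w w = 0) {c : K} (he : G w = c • w) :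
    ∃ l : Fin n → K, (∀ i, l i ≠ 0) ∧ H.Tri U G (n + 1) (Fin.cons c l) := by
  obtain ⟨b, hb, hbb, hba⟩ := exists_partner H hK hU hw hw0 h0
  have hab : H.h w b ≠ 0 := by
    rw [H.symm b w, hba, star_one]
    exact one_ne_zero
  have h1 := perp2_ND H hU hw hb h0 hbb hab
  have h2 := perp2_finrank H hw hb h0 hbb hab
  have hc0 := eig_ne_zero H hU hG hw hw0 he
  obtain ⟨l, hl, ht⟩ := tri_exists H hK (n := n) h1 (by omega) (iso_g2 H hG hw hb h0 hbb hba hc0 he)
  exact ⟨l, hl, tri_g2 H hG hw hb h0 hbb hba hc0 he ht⟩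

end ThU
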