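import Mathlib

/-!
# Thompson's conjecture for even dimensional unitary groups: definitions

`K` is a finite field with a nontrivial involution `star`.  The proofs of the modules are sketched in the
docstrings of the statements.
-/

namespace ThU
open Matrix Polynomial

section Geometry

/-- a Hermitian form `h`, linear in the second argument and `star`-linear in the first one -/
structure Herm (K V : Type*) [Field K] [StarRing K] [AddCommGroup V] [Module K V] where
  h : V → V →ₗ[K] K
  symm : ∀ x y, h y x = star (h x y)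

variable {K V : Type*} [Field K] [StarRing K] [AddCommGroup V] [Module K V] (H : Herm K V)

namespace Herm

theorem symm' (x y : V) : star (H.h x y) = H.h y x := (H.symm x y).symm

theorem add_left (x y z : V) : H.h (x + y) z = H.h x z + H.h y z := by
  rw [H.symm z (x + y), map_add, star_add, H.symm', H.symm']

theorem smul_left (c : K) (x y : V) : H.h (c • x) y = star c * H.h x y := by
  rw [H.symm y (c • x), map_smul, smul_eq_mul, star_mul', H.symm']

theorem zero_left (y : V) : H.h 0 y = 0 := by
  rw [H.symm y 0, map_zero, star_zero]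

theorem neg_left (x y : V) : H.h (-x) y = -H.h x y := by
  rw [H.symm y (-x), map_neg, star_neg, H.symm']

theorem sub_left (x y z : V) : H.h (x - y) z = H.h x z - H.h y z := by
  rw [sub_eq_add_neg, H.add_left, H.neg_left, sub_eq_add_neg]

theorem swap_zero {x y : V} : H.h x y = 0 ↔ H.h y x = 0 := by
  rw [H.symm x y, star_eq_zero]

/-- the form is nondegenerate on the subspace `U` -/
def ND (U : Submodule K V) : Prop := ∀ x ∈ U, (∀ y ∈ U, H.h x y = 0) → x = 0

/-- `G` maps `U` to `U` and preserves the form on `U` -/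
def Iso (U : Submodule K V) (G : V →ₗ[K] V) : Prop :=
  (∀ x ∈ U, G x ∈ U) ∧ ∀ x ∈ U, ∀ y ∈ U, H.h (G x) (G y) = H.h x y

/-- the vectors of `U` which are orthogonal to `a` and `b` -/
def perp2 (U : Submodule K V) (a b : V) : Submodule K V :=
  U ⊓ (LinearMap.ker (H.h a) ⊓ LinearMap.ker (H.h b))

theorem mem_perp2 {U : Submodule K V} {a b x : V} :
    x ∈ H.perp2 U a b ↔ x ∈ U ∧ H.h a x = 0 ∧ H.h b x = 0 := by
  simp [perp2]

/-- The isometry induced by `G` on `perp2 U w (G w)` (where `w` is isotropic, `h w (G w) ≠ 0`):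
`G x = g1 x + β x • G w` with `β x = h w (G x) / h w (G w)`. -/
noncomputable def g1 (G : V →ₗ[K] V) (w : V) : V →ₗ[K] V :=
  G - ((H.h w).comp G).smulRight ((H.h w (G w))⁻¹ • G w)

theorem g1_apply (G : V →ₗ[K] V) (w x : V) :
    H.g1 G w x = G x - (H.h w (G x) * (H.h w (G w))⁻¹) • G w := by
  simp [g1, smul_smul]

/-- The isometry induced by `G` on `perp2 U w w'` (where `w` is an isotropic eigenvector, `w'` is
isotropic and `h w' w = 1`): `G x = g2 x + h w' (G x) • w`. -/
noncomputable def g2 (G : V →ₗ[K] V) (w w' : V) : V →ₗ[K] V :=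
  G - ((H.h w').comp G).smulRight w

theorem g2_apply (G : V →ₗ[K] V) (w w' x : V) : H.g2 G w w' x = G x - H.h w' (G x) • w := by
  simp [g2]

/-- a hyperbolic system of `n` pairs in `U` -/
structure Hyp (U : Submodule K V) (n : ℕ) (w w' : Fin n → V) : Prop where
  mem : ∀ i, w i ∈ U
  mem' : ∀ i, w' i ∈ U
  iso : ∀ i j, H.h (w i) (w j) = 0
  iso' : ∀ i j, H.h (w' i) (w' j) = 0
  dual : ∀ i j, H.h (w' i) (w j) = if i = j then 1 else 0

/-- `G` has a triangular compression with diagonal `l` -/
def Tri (U : Submodule K V) (G : V →ₗ[K] V) (n : ℕ) (l : Fin n → K) : Prop :=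
  ∃ w w' : Fin n → V, H.Hyp U n w w' ∧ (∀ i j, j < i → H.h (w' i) (G (w j)) = 0) ∧
    ∀ i, H.h (w' i) (G (w i)) = l i

/-- `G` has a diagonal compression with diagonal `l` -/
def Dia (U : Submodule K V) (G : V →ₗ[K] V) (n : ℕ) (l : Fin n → K) : Prop :=
  ∃ w w' : Fin n → V, H.Hyp U n w w' ∧ ∀ i j, H.h (w' i) (G (w j)) = if i = j then l i else 0

theorem Dia.tri {U : Submodule K V} {G : V →ₗ[K] V} {n : ℕ} {l : Fin n → K} (h : H.Dia U G n l) :
    H.Tri U G n l := by
  obtain ⟨w, w', h1, h2⟩ := h
  exact ⟨w, w', h1, fun i j hij => by rw [h2, if_neg hij.ne'], fun i => by rw [h2, if_pos rfl]⟩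

end Herm

/-- `G` is a scalar on `U` -/
def Scal (U : Submodule K V) (G : V →ₗ[K] V) : Prop := ∃ c : K, ∀ x ∈ U, G x = c • x

/-- The possible diagonal entries at a step with `h w (G w) = z`: `(G - l) w` is isotropic. -/
def Good (l z : K) : Prop := l ≠ 0 ∧ l * star z + star l * z = 0

theorem Good.smul {l z t : K} (h : Good l z) (ht : star t = t) (h0 : t ≠ 0) : Good (t * l) z := by
  refine ⟨mul_ne_zero h0 h.1, ?_⟩
  rw [star_mul', ht]
  linear_combination t * h.2

end Geometry

section Group

variable {K : Type*} [Field K] [StarRing K]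

/-- index set of the hyperbolic bases -/
abbrev Ix (n : ℕ) : Type := Fin n ⊕ Fin n

/-- the standard Hermitian form -/
def stdH (K : Type*) [Field K] [StarRing K] (n : ℕ) : Herm K (Ix n → K) where
  h x :=
    { toFun := fun y => ∑ i, star (x i) * y i
      map_add' := fun y z => by
        simp only [Pi.add_apply, mul_add, Finset.sum_add_distrib]
      map_smul' := fun c y => by
        simp only [Pi.smul_apply, smul_eq_mul, RingHom.id_apply, Finset.mul_sum]
        exact Finset.sum_congr rfl fun i _ => by ring }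
  symm x y := by
    show ∑ i, star (y i) * x i = star (∑ i, star (x i) * y i)
    rw [star_sum]
    exact Finset.sum_congr rfl fun i _ => by rw [star_mul', star_star, mul_comm]

theorem stdH_apply (n : ℕ) (x y : Ix n → K) : (stdH K n).h x y = ∑ i, star (x i) * y i := rfl

/-- Gram matrix of a hyperbolic basis -/
def JJ (K : Type*) [Field K] (n : ℕ) : Matrix (Ix n) (Ix n) K := fromBlocks 0 1 1 0

/-- companion matrix of `f` (for `f` monic of degree `n`): `e_j ↦ e_{j+1}`, `e_{n-1} ↦ - ∑ f_i e_i` -/
def comp (f : K[X]) (n : ℕ) : Matrix (Fin n) (Fin n) K :=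
  Matrix.of fun i j => if (j : ℕ) + 1 = n then - f.coeff i else if (i : ℕ) = j + 1 then 1 else 0

/-- the element of the Levi subgroup of the unitary group of `JJ` with the block `B` -/
noncomputable def XJ {n : ℕ} (B : Matrix (Fin n) (Fin n) K) : Matrix (Ix n) (Ix n) K :=
  fromBlocks B 0 0 (Bᴴ)⁻¹

/-- what we need to know about the block `B` of the elements of the class -/
structure Seed {n : ℕ} (B : Matrix (Fin n) (Fin n) K) : Prop where
  unit : IsUnit B.det
  /-- `B` and `(Bᴴ)⁻¹` are disjoint -/
  syl : ∀ Z : Matrix (Fin n) (Fin n) K, Bᴴ * Z * B = Z → Z = 0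
  syl' : ∀ Z : Matrix (Fin n) (Fin n) K, B * Z * Bᴴ = Z → Z = 0
  /-- determinants in the centralizer -/
  cent : ∀ d : K, d * star d = 1 → ∃ C : Matrix (Fin n) (Fin n) K, IsUnit C.det ∧ C * B = B * C ∧
    C.det = d * star C.det
  /-- the class is real -/
  real : ∃ k : Matrix (Fin n) (Fin n) K, IsUnit k.det ∧ (k * B⁻¹ = B * k ∨ k * B⁻¹ = (Bᴴ)⁻¹ * k)

end Group

end ThU
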