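import Pool.Agent.ThU.Defs

/-! # Module DetT -/

namespace ThU
open Matrix Polynomial Module

variable {K V : Type*} [Field K] [StarRing K] [AddCommGroup V] [Module K V] (H : Herm K V)
variable {G : V →ₗ[K] V}

/-- the matrix part -/
private theorem DetT_mat {n : ℕ} (a b c d : Matrix (Fin n) (Fin n) K)
    (h1 : aᴴ * c + cᴴ * a = 0) (h2 : aᴴ * d + cᴴ * b = 1) (ha : IsUnit a.det) :
    (fromBlocks a b c d).det * star a.det = a.det := by
  have hinv : a * a⁻¹ = 1 := mul_nonsing_inv a ha
  haveI : Invertible a := a.invertibleOfIsUnitDet ha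
  have h3 : cᴴ = -(aᴴ * c * a⁻¹) := by
    have h4 : cᴴ * a = -(aᴴ * c) := by
      rw [eq_neg_iff_add_eq_zero, add_comm]
      exact h1
    calc cᴴ = cᴴ * (a * a⁻¹) := by rw [hinv, mul_one]
      _ = (cᴴ * a) * a⁻¹ := by rw [mul_assoc]
      _ = _ := by rw [h4, neg_mul]
  have h5 : aᴴ * (d - c * a⁻¹ * b) = 1 := by
    rw [← h2, h3, mul_sub, neg_mul, sub_eq_add_neg]
    congr 2
    simp only [mul_assoc]
  have h6 : (aᴴ).det * (d - c * a⁻¹ * b).det = 1 := by
    rw [← det_mul, h5, det_one]
  rw [det_conjTranspose] at h6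
  rw [det_fromBlocks₁₁, invOf_eq_nonsing_inv, mul_assoc, mul_comm _ (star a.det), h6, mul_one]

/-- The system of `Tri` is a basis of `V` (independent by `Hyp.dual`, number of elements = `finrank`).  In this basis `G`
has the matrix `fromBlocks a b c d` with `a` upper triangular with diagonal `l`, and `G` preserves the Gram matrix
`fromBlocks 0 1 1 0`; hence `aᴴ c + cᴴ a = 0`, `aᴴ d + cᴴ b = 1` and `aᴴ (d - c a⁻¹ b) = 1`, so
`det G = det a * det (d - c a⁻¹ b) = det a / star (det a)`. -/
theorem det_tri [FiniteDimensional K V] {n : ℕ} (hn : finrank K V = 2 * n) (hG : H.Iso ⊤ G)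
    {l : Fin n → K} (hl : ∀ i, l i ≠ 0) (h : H.Tri ⊤ G n l) :
    LinearMap.det G * star (∏ i, l i) = ∏ i, l i := by
  obtain ⟨w, w', hH, ht, hd⟩ := h
  have hdual' : ∀ i j, H.h (w i) (w' j) = if i = j then 1 else 0 := by
    intro i j
    rw [H.symm (w' j) (w i), hH.dual]
    by_cases hij : j = i
    · rw [if_pos hij, if_pos hij.symm, star_one]
    · rw [if_neg hij, if_neg (fun e => hij e.symm), star_zero]
  -- coordinates
  have hc1 : ∀ (g : Fin n ⊕ Fin n → K) (i : Fin n),
      H.h (w' i) (∑ k, g k • Sum.elim w w' k) = g (Sum.inl i) := by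
    intro g i
    rw [Fintype.sum_sum_type, map_add, map_sum, map_sum]
    simp only [Sum.elim_inl, Sum.elim_inr, map_smul, smul_eq_mul, hH.dual, hH.iso', mul_zero,
      Finset.sum_const_zero, add_zero, mul_ite, mul_one]
    rw [Finset.sum_ite_eq Finset.univ i]
    simp
  have hc2 : ∀ (g : Fin n ⊕ Fin n → K) (i : Fin n),
      H.h (w i) (∑ k, g k • Sum.elim w w' k) = g (Sum.inr i) := by
    intro g i
    rw [Fintype.sum_sum_type, map_add, map_sum, map_sum]
    simp only [Sum.elim_inl, Sum.elim_inr, map_smul, smul_eq_mul, hdual', hH.iso, mul_zero,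
      Finset.sum_const_zero, zero_add, mul_ite, mul_one]
    rw [Finset.sum_ite_eq Finset.univ i]
    simp
  have hli : LinearIndependent K (Sum.elim w w') := by
    rw [Fintype.linearIndependent_iff]
    intro g hg k
    rcases k with i | i
    · rw [← hc1 g i, hg, map_zero]
    · rw [← hc2 g i, hg, map_zero]
  have hcard : Fintype.card (Fin n ⊕ Fin n) = finrank K V := by
    rw [hn, Fintype.card_sum, Fintype.card_fin]
    ring
  by_cases hn0 : n = 0
  · subst hn0
    have h0 : finrank K V = 0 := by rw [hn]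
    rw [LinearMap.det_eq_one_of_finrank_eq_zero h0]
    simp
  haveI : Nonempty (Fin n ⊕ Fin n) := ⟨Sum.inl ⟨0, Nat.pos_of_ne_zero hn0⟩⟩
  let B : Basis (Fin n ⊕ Fin n) K V := basisOfLinearIndependentOfCardEqFinrank hli hcard
  have hB : ∀ k, B k = Sum.elim w w' k := fun k => by
    simp [B]
  have hr1 : ∀ x i, B.repr x (Sum.inl i) = H.h (w' i) x := by
    intro x i
    have := hc1 (fun k => B.repr x k) i
    rw [← this]
    congr 1
    conv_rhs => rw [← B.sum_repr x]
    exact Finset.sum_congr rfl fun k _ => by rw [hB]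
  have hr2 : ∀ x i, B.repr x (Sum.inr i) = H.h (w i) x := by
    intro x i
    have := hc2 (fun k => B.repr x k) i
    rw [← this]
    congr 1
    conv_rhs => rw [← B.sum_repr x]
    exact Finset.sum_congr rfl fun k _ => by rw [hB]
  have hexp : ∀ x y, H.h x y = ∑ i, (star (B.repr x (Sum.inl i)) * B.repr y (Sum.inr i) +
      star (B.repr x (Sum.inr i)) * B.repr y (Sum.inl i)) := by
    intro x y
    have h1 : x = ∑ i, B.repr x (Sum.inl i) • w i + ∑ i, B.repr x (Sum.inr i) • w' i := by
      conv_lhs => rw [← B.sum_repr x]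
      rw [Fintype.sum_sum_type]
      congr 1
      · exact Finset.sum_congr rfl fun k _ => by rw [hB, Sum.elim_inl]
      · exact Finset.sum_congr rfl fun k _ => by rw [hB, Sum.elim_inr]
    have hsum : ∀ (v : Fin n → V) (g : Fin n → K) (y : V),
        H.h (∑ i, g i • v i) y = ∑ i, star (g i) * H.h (v i) y := by
      intro v g y
      rw [H.symm y, map_sum, star_sum]
      refine Finset.sum_congr rfl fun i _ => ?_
      rw [map_smul, smul_eq_mul, star_mul', H.symm']
    conv_lhs => rw [h1, H.add_left, hsum, hsum]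
    rw [← Finset.sum_add_distrib]
    refine Finset.sum_congr rfl fun i _ => ?_
    rw [hr2 y, hr1 y]
  set a : Matrix (Fin n) (Fin n) K := Matrix.of fun i j => H.h (w' i) (G (w j)) with ha
  set b : Matrix (Fin n) (Fin n) K := Matrix.of fun i j => H.h (w' i) (G (w' j)) with hb
  set c : Matrix (Fin n) (Fin n) K := Matrix.of fun i j => H.h (w i) (G (w j)) with hc
  set d : Matrix (Fin n) (Fin n) K := Matrix.of fun i j => H.h (w i) (G (w' j)) with hdd
  have hM : LinearMap.toMatrix B B G = fromBlocks a b c d := by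
    ext i j
    rw [LinearMap.toMatrix_apply]
    rcases i with i | i <;> rcases j with j | j
    · rw [hr1, hB]; rfl
    · rw [hr1, hB]; rfl
    · rw [hr2, hB]; rfl
    · rw [hr2, hB]; rfl
  have hdeta : a.det = ∏ i, l i := by
    rw [det_of_upperTriangular]
    · exact Finset.prod_congr rfl fun i _ => hd i
    · intro i j hij
      exact ht i j hij
  have hunit : IsUnit a.det := by
    rw [hdeta, isUnit_iff_ne_zero]
    exact Finset.prod_ne_zero_iff.2 fun i _ => hl i
  have h1 : aᴴ * c + cᴴ * a = 0 := by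
    ext i j
    rw [Matrix.add_apply, mul_apply, mul_apply, ← Finset.sum_add_distrib, Matrix.zero_apply,
      ← hH.iso i j, ← hG.2 (w i) Submodule.mem_top (w j) Submodule.mem_top, hexp]
    refine Finset.sum_congr rfl fun k _ => ?_
    rw [hr1, hr1, hr2, hr2]
    rfl
  have h2 : aᴴ * d + cᴴ * b = 1 := by
    ext i j
    rw [Matrix.add_apply, mul_apply, mul_apply, ← Finset.sum_add_distrib, Matrix.one_apply,
      ← hdual' i j, ← hG.2 (w i) Submodule.mem_top (w' j) Submodule.mem_top, hexp]
    refine Finset.sum_congr rfl fun k _ => ?_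
    rw [hr1, hr1, hr2, hr2]
    rfl
  rw [← LinearMap.det_toMatrix B, hM, ← hdeta]
  exact DetT_mat a b c d h1 h2 hunit

end ThU
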