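import Pool.Agent.ThU.Defs

/-! # Module Frame -/

set_option linter.unusedSectionVars false

namespace ThU
open Matrix Polynomial Module

variable {K : Type*} [Field K] [StarRing K] {n : ℕ}

theorem stdH_ND : (stdH K n).ND ⊤ := by
  intro x _ hx
  funext j
  have h1 := hx (Pi.single j 1) trivial
  rw [stdH_apply, Finset.sum_eq_single j] at h1
  · rw [Pi.single_eq_same, mul_one, star_eq_zero] at h1
    exact h1
  · intro b _ hb
    rw [Pi.single_eq_of_ne hb, mul_zero]
  · intro h
    exact absurd (Finset.mem_univ _) h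

private theorem Frame_dot (x y : Ix n → K) : (stdH K n).h x y = star x ⬝ᵥ y := rfl

theorem stdH_iso {g : Matrix (Ix n) (Ix n) K} (hg : gᴴ * g = 1) :
    (stdH K n).Iso ⊤ (Matrix.toLin' g) := by
  refine ⟨fun _ _ => trivial, fun x _ y _ => ?_⟩
  rw [Frame_dot, Frame_dot, Matrix.toLin'_apply, Matrix.toLin'_apply, Matrix.star_mulVec,
    Matrix.dotProduct_mulVec, Matrix.vecMul_vecMul, hg, Matrix.vecMul_one]

/-- the matrix with the columns `w j`, `w' j` -/
private def Frame_P (w w' : Fin n → (Ix n → K)) : Matrix (Ix n) (Ix n) K :=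
  Matrix.of fun i s => Sum.elim w w' s i

private theorem Frame_entry (w w' : Fin n → (Ix n → K)) (g : Matrix (Ix n) (Ix n) K) (s t : Ix n) :
    ((Frame_P w w')ᴴ * g * Frame_P w w') s t =
      (stdH K n).h (Sum.elim w w' s) (Matrix.toLin' g (Sum.elim w w' t)) := by
  rw [Frame_dot, Matrix.toLin'_apply, Matrix.mul_assoc, Matrix.mul_apply]
  rfl

private theorem Frame_JJ : JJ K n * JJ K n = 1 := by
  unfold JJ
  rw [fromBlocks_multiply]
  simp

/-- `P⁻¹ = JJ * Pᴴ`, so `(P⁻¹ * g * P).toBlocks₁₁ i j = h (w' i) (g w_j)` for the matrix `P` with the columns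
`w_j` (`Sum.inl j`) and `w'_j` (`Sum.inr j`) -/
theorem frame_hyp {w w' : Fin n → (Ix n → K)} (h : (stdH K n).Hyp ⊤ n w w')
    (g : Matrix (Ix n) (Ix n) K) : ∃ P : Matrix (Ix n) (Ix n) K, Pᴴ * P = JJ K n ∧
      ∀ i j, (P⁻¹ * g * P).toBlocks₁₁ i j = (stdH K n).h (w' i) (Matrix.toLin' g (w j)) := by
  have h1 : (Frame_P w w')ᴴ * Frame_P w w' = JJ K n := by
    ext s t
    have h2 := Frame_entry w w' 1 s t
    rw [Matrix.mul_one, Matrix.toLin'_one, LinearMap.id_apply] at h2
    rw [h2]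
    unfold JJ
    rcases s with i | i <;> rcases t with j | j
    · exact h.iso i j
    · have h3 := h.dual j i
      show (stdH K n).h (w i) (w' j) = (1 : Matrix (Fin n) (Fin n) K) i j
      rw [(stdH K n).symm (w' j) (w i), h3, Matrix.one_apply]
      by_cases hij : i = j
      · rw [if_pos hij, if_pos hij.symm, star_one]
      · rw [if_neg hij, if_neg (fun h => hij h.symm), star_zero]
    · exact h.dual i j
    · exact h.iso' i j
  refine ⟨Frame_P w w', h1, fun i j => ?_⟩
  have h2 : (Frame_P w w')⁻¹ = JJ K n * (Frame_P w w')ᴴ := by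
    apply Matrix.inv_eq_left_inv
    rw [Matrix.mul_assoc, h1, Frame_JJ]
  rw [h2, Matrix.mul_assoc, Matrix.mul_assoc]
  have h3 := Frame_entry w w' g (Sum.inr i) (Sum.inl j)
  have h4 : (JJ K n * ((Frame_P w w')ᴴ * (g * Frame_P w w'))).toBlocks₁₁ i j =
      ((Frame_P w w')ᴴ * (g * Frame_P w w')) (Sum.inr i) (Sum.inl j) := by
    show (JJ K n * ((Frame_P w w')ᴴ * (g * Frame_P w w'))) (Sum.inl i) (Sum.inl j) = _
    rw [Matrix.mul_apply, Fintype.sum_sum_type]
    unfold JJ
    simp only [fromBlocks_apply₁₁, fromBlocks_apply₁₂, Matrix.zero_apply, zero_mul,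
      Finset.sum_const_zero, zero_add, Matrix.one_apply, ite_mul, one_mul, Finset.sum_ite_eq,
      Finset.mem_univ, if_true]
  rw [h4, ← Matrix.mul_assoc, h3]
  rfl

end ThU
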