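import Pool.Agent.ThU.Compl
import Pool.Agent.ThU.AB
import Pool.Agent.ThU.DetT

/-! # Module GeoA -/

namespace ThU
open Matrix Polynomial Module

variable {K V : Type*} [Field K] [StarRing K] [AddCommGroup V] [Module K V] (H : Herm K V)
variable {G : V →ₗ[K] V}

/-- a scalar isometry of a nonzero nondegenerate space -/
private theorem geoA_norm {U : Submodule K V} (hU : H.ND U) (hpos : 0 < finrank K U)
    (hG : H.Iso U G) {c : K} (hc : ∀ x ∈ U, G x = c • x) : c * star c = 1 := by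
  have hne : U ≠ ⊥ := by
    rintro rfl
    simp at hpos
  obtain ⟨x, hx, hx0⟩ := Submodule.exists_mem_ne_zero_of_ne_bot hne
  have h1 : ¬ ∀ y ∈ U, H.h x y = 0 := fun h => hx0 (hU x hx h)
  push Not at h1
  obtain ⟨y, hy, hxy⟩ := h1
  have h2 := hG.2 x hx y hy
  rw [hc x hx, hc y hy, H.smul_left, map_smul, smul_eq_mul, ← mul_assoc] at h2
  have h3 : star c * c = 1 := mul_right_cancel₀ hxy (by rw [h2, one_mul])
  rw [mul_comm]
  exact h3

/-- normalisation of the product -/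
private theorem geoA_scale {l z P : K} (h : Good l z) (hP : star P = P) (h0 : P ≠ 0) :
    Good (P⁻¹ * l) z := by
  refine h.smul ?_ (inv_ne_zero h0)
  rw [star_inv₀, hP]

/-- The fixed field of `star` has at least 3 elements.  If `G` is a scalar use `dia_scal`.  Otherwise use `alt_AB`.
First case: `w` with `g1` not a scalar on `U1`; `exists_z` for `g1` gives `w2`; with `tri_exists` and twice `tri_g1` we
get `Tri` with diagonal `(l1, l2, l')` for arbitrary `Good l1 z1`, `Good l2 z2` and fixed `l' : Fin k → K`, `n = k + 2`,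
`k ≥ 1`.  `P = ∏` satisfies `star P = P` (`det_tri`), replace `l1` by `P⁻¹ * l1` (`Good.smul`): product 1.  If all entries
are equal, replace `(l1, l2)` by `(t * l1, t⁻¹ * l2)`.
Second case: `dia_g1` (with `hyp_exists`): diagonal `(l, ζ, …, ζ)` for every `Good l z`; choose `l` so that the product is
1 (as before); if `l ≠ ζ` we have the first alternative, if `l = ζ` the second one. -/
theorem geo_big [Finite K] [FiniteDimensional K V] (hK : ∃ x : K, star x ≠ x)
    (ht : ∃ t : K, star t = t ∧ t ≠ 0 ∧ t ≠ 1) {n : ℕ} (h3 : 3 ≤ n) (hU : H.ND ⊤)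
    (hn : finrank K V = 2 * n) (hG : H.Iso ⊤ G) (hd : LinearMap.det G = 1) :
    (∃ l : Fin n → K, H.Tri ⊤ G n l ∧ ∏ i, l i = 1 ∧ ∃ i j, l i ≠ l j) ∨
    (∃ ζ : K, ζ * star ζ = 1 ∧ H.Dia ⊤ G n (fun _ => ζ)) := by
  have hn' : finrank K (⊤ : Submodule K V) = 2 * n := by rw [finrank_top, hn]
  by_cases hs : Scal ⊤ G
  · obtain ⟨c, hc⟩ := hs
    exact Or.inr ⟨c, geoA_norm H hU (by rw [hn']; omega) hG hc, dia_scal H hK hU hn' hc⟩
  have hstar : ∀ l : Fin n → K, (∀ i, l i ≠ 0) → H.Tri ⊤ G n l → star (∏ i, l i) = ∏ i, l i := by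
    intro l hl h
    have := det_tri H hn hG hl h
    rwa [hd, one_mul] at this
  have hGG : ∀ w : V, H.h w w = 0 → H.h (G w) (G w) = 0 := fun w hw => by
    rw [hG.2 w trivial w trivial, hw]
  rcases alt_AB H hK hU (by rw [hn']; omega) hG hs with ⟨w, hw, h0, hz, hns⟩ | ⟨w, hw, ζ, h0, hz, hc⟩
  · -- first case
    left
    obtain ⟨k, rfl⟩ : ∃ k, n = k + 1 + 2 := ⟨n - 3, by omega⟩
    have hU1 : H.ND (H.perp2 ⊤ w (G w)) := perp2_ND H hU hw trivial h0 (hGG w h0) hz
    have hf1 := perp2_finrank H hw (trivial : G w ∈ (⊤ : Submodule K V)) h0 (hGG w h0) hz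
    have hG1 := iso_g1 H hG hw h0 hz
    obtain ⟨w2, hw2, h02, hz2⟩ := exists_z H hK hU1 (by omega) hG1 hns
    have hG1w2 : H.g1 G w w2 ∈ H.perp2 ⊤ w (G w) := hG1.1 w2 hw2
    have h02' : H.h (H.g1 G w w2) (H.g1 G w w2) = 0 := by rw [hG1.2 w2 hw2 w2 hw2, h02]
    have hU2 := perp2_ND H hU1 hw2 hG1w2 h02 h02' hz2
    have hf2 := perp2_finrank H hw2 hG1w2 h02 h02' hz2
    have hG2 := iso_g1 H hG1 hw2 h02 hz2
    obtain ⟨l', hl', hT⟩ := tri_exists H (n := k + 1) hK hU2 (by omega) hG2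
    have key : ∀ l1 l2 : K, Good l1 (H.h w (G w)) → Good l2 (H.h w2 (H.g1 G w w2)) →
        H.Tri ⊤ G (k + 1 + 2) (Fin.cons l1 (Fin.cons l2 l')) := fun l1 l2 g1 g2 =>
      tri_g1 H hG hw h0 hz g1 (tri_g1 H hG1 hw2 h02 hz2 g2 hT)
    have hprod : ∀ l1 l2 : K, ∏ i, (Fin.cons l1 (Fin.cons l2 l' : Fin (k + 1 + 1) → K) :
        Fin (k + 1 + 2) → K) i = l1 * (l2 * ∏ i, l' i) := fun l1 l2 => by
      rw [Fin.prod_univ_succ, Fin.prod_univ_succ]
      simp
    have hP' : ∏ i, l' i ≠ 0 := Finset.prod_ne_zero_iff.2 fun i _ => hl' i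
    obtain ⟨a, ha⟩ := good_exists (K := K) hK hz
    obtain ⟨b, hb⟩ := good_exists (K := K) hK hz2
    have hP0 : a * (b * ∏ i, l' i) ≠ 0 := mul_ne_zero ha.1 (mul_ne_zero hb.1 hP')
    have hP : star (a * (b * ∏ i, l' i)) = a * (b * ∏ i, l' i) := by
      rw [← hprod a b]
      refine hstar _ ?_ (key a b ha hb)
      intro i
      refine Fin.cases ?_ (fun i => ?_) i
      · exact ha.1
      · refine Fin.cases ?_ (fun i => ?_) i
        · exact hb.1
        · exact hl' i
    have ha1 := geoA_scale ha hP hP0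
    set l1 := (a * (b * ∏ i, l' i))⁻¹ * a with hl1
    have hone : l1 * (b * ∏ i, l' i) = 1 := by
      rw [hl1, mul_assoc]
      exact inv_mul_cancel₀ hP0
    by_cases heq : l1 = l' 0
    · obtain ⟨t, ht1, ht0, ht2⟩ := ht
      refine ⟨_, key (t * l1) (t⁻¹ * b) (ha1.smul ht1 ht0)
        (hb.smul (by rw [star_inv₀, ht1]) (inv_ne_zero ht0)), ?_, 0, Fin.succ (Fin.succ 0), ?_⟩
      · rw [hprod, ← hone]
        field_simp
      · show t * l1 ≠ l' 0
        rw [← heq]
        intro h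
        exact ht2 (mul_right_cancel₀ ha1.1 (by rw [h, one_mul]))
    · exact ⟨_, key l1 b ha1 hb, by rw [hprod, hone], 0, Fin.succ (Fin.succ 0), heq⟩
  · -- second case
    obtain ⟨k, rfl⟩ : ∃ k, n = k + 1 + 1 := ⟨n - 2, by omega⟩
    have hU1 : H.ND (H.perp2 ⊤ w (G w)) := perp2_ND H hU hw trivial h0 (hGG w h0) hz
    have hf1 := perp2_finrank H hw (trivial : G w ∈ (⊤ : Submodule K V)) h0 (hGG w h0) hz
    have hζ : ζ * star ζ = 1 := by
      refine geoA_norm H (G := G) hU1 (by omega) ⟨?_, ?_⟩ hc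
      · intro x hx
        rw [hc x hx]
        exact Submodule.smul_mem _ _ hx
      · intro x _ y _
        exact hG.2 x trivial y trivial
    have hζ0 : ζ ≠ 0 := by
      rintro rfl
      simp at hζ
    obtain ⟨v, v', hv⟩ := hyp_exists H (n := k + 1) hK hU1 (by omega)
    have key : ∀ l : K, Good l (H.h w (G w)) →
        H.Dia ⊤ G (k + 1 + 1) (Fin.cons l fun _ => ζ) := fun l hl =>
      dia_g1 H hG hw h0 hz hl hc hv
    have hprod : ∀ l : K, ∏ i, (Fin.cons l (fun _ => ζ) : Fin (k + 1 + 1) → K) i =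
        l * ζ ^ (k + 1) := fun l => by
      rw [Fin.prod_univ_succ]
      simp
    obtain ⟨a, ha⟩ := good_exists (K := K) hK hz
    have hP0 : a * ζ ^ (k + 1) ≠ 0 := mul_ne_zero ha.1 (pow_ne_zero _ hζ0)
    have hP : star (a * ζ ^ (k + 1)) = a * ζ ^ (k + 1) := by
      rw [← hprod a]
      refine hstar _ ?_ (key a ha).tri
      intro i
      refine Fin.cases ?_ (fun i => ?_) i
      · exact ha.1
      · exact hζ0
    have ha1 := geoA_scale ha hP hP0
    set l1 := (a * ζ ^ (k + 1))⁻¹ * a with hl1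
    have hone : l1 * ζ ^ (k + 1) = 1 := by
      rw [hl1, mul_assoc]
      exact inv_mul_cancel₀ hP0
    by_cases heq : l1 = ζ
    · right
      refine ⟨ζ, hζ, ?_⟩
      have := key l1 ha1
      rw [heq] at this
      convert this using 1
      funext i
      refine Fin.cases ?_ (fun i => ?_) i
      · rfl
      · rfl
    · left
      exact ⟨_, (key l1 ha1).tri, by rw [hprod, hone], 0, Fin.succ 0, heq⟩

end ThU
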