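import Pool.Agent.ThU.Compl

/-! # Module LagE -/

namespace ThU
open Matrix Polynomial Module

variable {K V : Type*} [Field K] [StarRing K] [AddCommGroup V] [Module K V] (H : Herm K V)
variable {U : Submodule K V} {G : V →ₗ[K] V}

/-- adding a hyperbolic pair -/
theorem LagE_hyp {w w' : V} (hw : w ∈ U) (hw' : w' ∈ U) (h0 : H.h w w = 0) (h0' : H.h w' w' = 0)
    (h1 : H.h w' w = 1) {n : ℕ} {v v' : Fin n → V} (hv : H.Hyp (H.perp2 U w w') n v v') :
    H.Hyp U (n + 1) (Fin.cons w v) (Fin.cons w' v') := by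
  have m := fun i => (H.mem_perp2).1 (hv.mem i)
  have m' := fun i => (H.mem_perp2).1 (hv.mem' i)
  have s1 := fun i => H.swap_zero.1 (m i).2.1
  have s1' := fun i => H.swap_zero.1 (m' i).2.1
  have s2' := fun i => H.swap_zero.1 (m' i).2.2
  refine ⟨?_, ?_, ?_, ?_, ?_⟩
  · intro i
    refine Fin.cases ?_ (fun i => ?_) i
    · exact hw
    · exact (m i).1
  · intro i
    refine Fin.cases ?_ (fun i => ?_) i
    · exact hw'
    · exact (m' i).1
  · intro i j
    refine Fin.cases ?_ (fun i => ?_) i <;> refine Fin.cases ?_ (fun j => ?_) j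
    · exact h0
    · exact (m j).2.1
    · exact s1 i
    · exact hv.iso i j
  · intro i j
    refine Fin.cases ?_ (fun i => ?_) i <;> refine Fin.cases ?_ (fun j => ?_) j
    · exact h0'
    · exact (m' j).2.2
    · exact s2' i
    · exact hv.iso' i j
  · intro i j
    refine Fin.cases ?_ (fun i => ?_) i <;> refine Fin.cases ?_ (fun j => ?_) j
    · rw [if_pos rfl]
      exact h1
    · rw [if_neg (Fin.succ_ne_zero j).symm]
      exact (m j).2.2
    · rw [if_neg (Fin.succ_ne_zero i)]
      exact s1' i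
    · simp only [Fin.cons_succ, Fin.succ_inj]
      exact hv.dual i j

/-- A totally isotropic subspace `I` is contained in the span of the second half of a hyperbolic system.  Induction on
`n`: if `I = 0` use `hyp_exists`; otherwise take `w' ∈ I`, `w' ≠ 0`, a partner `w` and `I ⊓ perp2 U w w'`. -/
theorem lag_ext [Finite K] [FiniteDimensional K V] (hK : ∃ x : K, star x ≠ x) {n : ℕ}
    (hU : H.ND U) (hn : finrank K U = 2 * n) (I : Submodule K V) (hI : I ≤ U)
    (h0 : ∀ x ∈ I, ∀ y ∈ I, H.h x y = 0) :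
    ∃ w w' : Fin n → V, H.Hyp U n w w' ∧ I ≤ Submodule.span K (Set.range w') := by
  induction n generalizing U I with
  | zero =>
    obtain ⟨w, w', h⟩ := hyp_exists H hK hU hn
    refine ⟨w, w', h, fun x hx => ?_⟩
    have h1 : U = ⊥ := Submodule.finrank_eq_zero.1 (by rw [hn])
    have h2 : x ∈ U := hI hx
    rw [h1, Submodule.mem_bot] at h2
    rw [h2]
    exact Submodule.zero_mem _
  | succ n ih =>
    by_cases hI0 : I = ⊥
    · obtain ⟨w, w', h⟩ := hyp_exists H hK hU hn
      exact ⟨w, w', h, by rw [hI0]; exact bot_le⟩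
    · obtain ⟨a, haI, ha0⟩ := Submodule.exists_mem_ne_zero_of_ne_bot hI0
      obtain ⟨b, hbU, hbb, hba⟩ := exists_partner H hK hU (hI haI) ha0 (h0 a haI a haI)
      have haa := h0 a haI a haI
      have hab : H.h a b = 1 := by rw [H.symm b a, hba, star_one]
      have hba' : H.h b a ≠ 0 := by rw [hba]; exact one_ne_zero
      have hND := perp2_ND H hU hbU (hI haI) hbb haa hba'
      have hfr := perp2_finrank H hbU (hI haI) hbb haa hba'
      obtain ⟨v, v', hv, hv2⟩ := ih (U := H.perp2 U b a) hND (by omega) (I ⊓ H.perp2 U b a)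
        inf_le_right (fun x hx y hy => h0 x hx.1 y hy.1)
      refine ⟨_, _, LagE_hyp H hbU (hI haI) hbb haa hab hv, fun x hx => ?_⟩
      have h2 : x - H.h b x • a ∈ I ⊓ H.perp2 U b a := by
        refine ⟨I.sub_mem hx (I.smul_mem _ haI), ?_⟩
        refine (H.mem_perp2).2 ⟨U.sub_mem (hI hx) (U.smul_mem _ (hI haI)), ?_, ?_⟩
        · rw [map_sub, map_smul, hba, smul_eq_mul, mul_one, sub_self]
        · rw [map_sub, map_smul, haa, h0 a haI x hx, smul_zero, sub_zero]
      have h3 : x = (x - H.h b x • a) + H.h b x • a := by rw [sub_add_cancel]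
      rw [h3]
      refine Submodule.add_mem _ ?_ (Submodule.smul_mem _ _ (Submodule.subset_span ⟨0, rfl⟩))
      refine Submodule.span_mono ?_ (hv2 h2)
      rintro _ ⟨i, rfl⟩
      exact ⟨i.succ, rfl⟩

/-- `(G - l)² = 0` in characteristic 2: the image of `G - l` is totally isotropic -/
theorem dia_invol [Finite K] [FiniteDimensional K V] (hK : ∃ x : K, star x ≠ x) (h2 : (2 : K) = 0)
    {n : ℕ} (hU : H.ND U) (hn : finrank K U = 2 * n) (hG : H.Iso U G) {l : K}
    (hl : l * star l = 1) (hG2 : ∀ x ∈ U, G (G x) = l ^ 2 • x) : H.Dia U G n (fun _ => l) := by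
  have key : ∀ x ∈ U, ∀ y ∈ U, H.h (G x - l • x) (G y - l • y) = 0 := by
    intro x hx y hy
    have e1 : H.h (G x) y = star (l ^ 2) * H.h x (G y) := by
      rw [← hG.2 (G x) (hG.1 x hx) y hy, hG2 x hx, H.smul_left]
    simp only [map_sub, map_smul, smul_eq_mul, H.smul_left, H.sub_left, hG.2 x hx y hy, e1, star_pow]
    linear_combination (H.h x y - star l * H.h x (G y)) * h2 +
      (H.h x y - star l * H.h x (G y)) * hl
  obtain ⟨w, w', hw, hI⟩ := lag_ext H hK hU hn (U.map (G - l • LinearMap.id)) (by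
    rintro _ ⟨x, hx, rfl⟩
    exact U.sub_mem (hG.1 x hx) (U.smul_mem _ hx)) (by
    rintro _ ⟨x, hx, rfl⟩ _ ⟨y, hy, rfl⟩
    exact key x hx y hy)
  refine ⟨w, w', hw, fun i j => ?_⟩
  have h3 : G (w j) - l • w j ∈ Submodule.span K (Set.range w') :=
    hI ⟨w j, hw.mem j, rfl⟩
  have h4 : H.h (w' i) (G (w j) - l • w j) = 0 := by
    have h5 : Submodule.span K (Set.range w') ≤ LinearMap.ker (H.h (w' i)) := by
      rw [Submodule.span_le]
      rintro _ ⟨k, rfl⟩
      exact hw.iso' i k
    exact h5 h3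
  rw [map_sub, map_smul, hw.dual i j, sub_eq_zero] at h4
  rw [h4]
  split_ifs <;> simp

end ThU
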