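import Pool.Agent.ThU.Iso

/-! # Module Yu -/

namespace ThU
open Matrix Polynomial Module

variable {K V : Type*} [Field K] [StarRing K] [AddCommGroup V] [Module K V] (H : Herm K V)
variable {U : Submodule K V} {G : V →ₗ[K] V}

/-- rank and nullity of a map on a subspace -/
private theorem Yu_rank {V' : Type*} [AddCommGroup V'] [Module K V'] [FiniteDimensional K V]
    (W : Submodule K V) (f : V →ₗ[K] V') :
    finrank K (W.map f) + finrank K (W ⊓ LinearMap.ker f : Submodule K V) = finrank K W := by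
  have h1 := LinearMap.finrank_range_add_finrank_ker (f.domRestrict W)
  rw [LinearMap.range_domRestrict, LinearMap.ker_domRestrict] at h1
  have h2 : finrank K ((LinearMap.ker f).comap W.subtype) =
      finrank K (W ⊓ LinearMap.ker f : Submodule K V) := by
    rw [← Submodule.map_comap_subtype]
    exact (Submodule.finrank_map_subtype_eq W ((LinearMap.ker f).comap W.subtype)).symm
  rw [h2] at h1
  exact h1

/-- the kernel of a functional -/
private theorem Yu_fun [FiniteDimensional K V] (W : Submodule K V) (f : V →ₗ[K] K) :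
    finrank K W ≤ finrank K (W ⊓ LinearMap.ker f : Submodule K V) + 1 := by
  have h1 := Yu_rank W f
  have h2 : finrank K (W.map f) ≤ 1 := by
    have := Submodule.finrank_le (W.map f)
    rwa [finrank_self] at this
  omega

private theorem Yu_mem (l : K) (x : V) :
    x ∈ (U ⊓ LinearMap.ker (G - l • LinearMap.id) : Submodule K V) ↔ x ∈ U ∧ G x = l • x := by
  simp only [Submodule.mem_inf, LinearMap.mem_ker, LinearMap.sub_apply, LinearMap.smul_apply,
    LinearMap.id_coe, id_eq, sub_eq_zero]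

/-- the image of `N = G - l` is contained in the kernel -/
private theorem Yu_image (h2 : (2 : K) = 0) (hG : H.Iso U G) {l : K}
    (hG2 : ∀ x ∈ U, G (G x) = l ^ 2 • x) :
    U.map (G - l • LinearMap.id) ≤ U ⊓ LinearMap.ker (G - l • LinearMap.id) := by
  rintro _ ⟨x, hx, rfl⟩
  rw [Yu_mem]
  have e1 : (G - l • (LinearMap.id : V →ₗ[K] V)) x = G x - l • x := by simp
  rw [e1]
  refine ⟨U.sub_mem (hG.1 x hx) (U.smul_mem l hx), ?_⟩
  rw [map_sub, map_smul, hG2 x hx, ← sub_eq_zero]
  have e2 : l ^ 2 • x - l • G x - l • (G x - l • x) = (2 * l ^ 2) • x - (2 * l) • G x := by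
    rw [smul_sub, smul_smul]
    module
  rw [e2, h2]
  simp

/-- `G - l` is nilpotent of order 2 on `U`.  Dimensions: `ker (G - l)` has dimension `≥ m` on `U` (`N = G - l` maps `U` to `U` and
`N² = 0`), and `ker N` is the orthogonal space of the image of `N` in `U`. -/
theorem yu_ker [Finite K] [FiniteDimensional K V] (h2 : (2 : K) = 0) {m : ℕ} (hU : H.ND U)
    (hn : finrank K U = 2 * m) (hG : H.Iso U G) {l : K} (hl : l * star l = 1)
    (hG2 : ∀ x ∈ U, G (G x) = l ^ 2 • x) {b : V} (hb : b ∈ U) (hm : 2 ≤ m) :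
    ∃ y ∈ U, y ≠ 0 ∧ G y = l • y ∧ H.h b y = 0 := by
  have h3 := Yu_rank U (G - l • LinearMap.id)
  have h4 := Submodule.finrank_mono (Yu_image H h2 hG hG2)
  have h5 := Yu_fun (U ⊓ LinearMap.ker (G - l • LinearMap.id)) (H.h b)
  have h6 : 0 < finrank K ((U ⊓ LinearMap.ker (G - l • LinearMap.id)) ⊓ LinearMap.ker (H.h b) :
      Submodule K V) := by omega
  obtain ⟨y, hy⟩ := Module.finrank_pos_iff_exists_ne_zero.1 h6
  have hy1 := (Submodule.mem_inf.1 y.2).1
  have hy2 := (Submodule.mem_inf.1 y.2).2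
  rw [Yu_mem] at hy1
  refine ⟨y, hy1.1, fun h7 => hy (Subtype.ext h7), hy1.2, LinearMap.mem_ker.1 hy2⟩

/-- Let `K1 = {y ∈ U | G y = l y, h b y = 0}`.  There is `y ∈ K1`, `y ≠ 0`, with `b ∉ ⟨y⟩`: clear from `yu_ker` if `b ∉ K1`; if
`b ∈ K1` we need `dim K1 ≥ 2`: if `b` is in the image of `N = G - l` then `ker N ⊆ b^⊥` and `dim K1 = dim ker N ≥ m ≥ 2`; otherwise
`ker N` is larger than the image of `N`, so `dim ker N ≥ m + 1 ≥ 3` and `dim K1 ≥ 2`.
The isotropic vectors of `{x ∈ U | h y x = 0}` span it (if `h y y ≠ 0` it is nondegenerate of dimension `2 m - 1 ≥ 3`; if `y` is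
isotropic it is `⟨y⟩ + perp2 U y y'`); if all of them were orthogonal to `b` then `b ∈ ⟨y⟩`. -/
theorem yu_exists [Finite K] [FiniteDimensional K V] (hK : ∃ x : K, star x ≠ x) (h2 : (2 : K) = 0)
    {m : ℕ} (hU : H.ND U) (hn : finrank K U = 2 * m) (hG : H.Iso U G) {l : K} (hl : l * star l = 1)
    (hG2 : ∀ x ∈ U, G (G x) = l ^ 2 • x) {b : V} (hb : b ∈ U) (hb0 : b ≠ 0) (hm : 2 ≤ m) :
    ∃ y ∈ U, ∃ u ∈ U, y ≠ 0 ∧ G y = l • y ∧ H.h b y = 0 ∧ H.h u u = 0 ∧ H.h u y = 0 ∧
      H.h b u ≠ 0 := by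
  set N : V →ₗ[K] V := G - l • LinearMap.id with hN
  -- the vector `y`
  obtain ⟨y, hyU, hy0, hyG, hby, hyb⟩ : ∃ y ∈ U, y ≠ 0 ∧ G y = l • y ∧ H.h b y = 0 ∧
      ¬ ∃ c : K, b = c • y := by
    by_cases hbK : G b = l • b ∧ H.h b b = 0
    · set K1 : Submodule K V := (U ⊓ LinearMap.ker N) ⊓ LinearMap.ker (H.h b) with hK1
      have h3 := Yu_rank U N
      have h4 : finrank K (U.map N) ≤ finrank K (U ⊓ LinearMap.ker N : Submodule K V) :=
        Submodule.finrank_mono (Yu_image H h2 hG hG2)
      have h5 : finrank K (U ⊓ LinearMap.ker N : Submodule K V) ≤ finrank K K1 + 1 :=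
        Yu_fun (U ⊓ LinearMap.ker N) (H.h b)
      have hK1d : 2 ≤ finrank K K1 := by
        by_cases hbI : b ∈ U.map N
        · obtain ⟨x, hx, rfl⟩ := hbI
          have h6 : U ⊓ LinearMap.ker N ≤ K1 := by
            intro z hz
            refine Submodule.mem_inf.2 ⟨hz, LinearMap.mem_ker.2 ?_⟩
            rw [hN, Yu_mem] at hz
            have e1 : N x = G x - l • x := by rw [hN]; simp
            have e2 := hG.2 x hx z hz.1
            rw [hz.2, map_smul, smul_eq_mul] at e2
            have e3 : H.h (G x) z = star l * H.h x z := by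
              rw [← e2]
              linear_combination -(H.h (G x) z) * hl
            rw [e1, H.sub_left, H.smul_left, e3, sub_self]
          have h7 := Submodule.finrank_mono h6
          omega
        · have hlt : U.map N < U ⊓ LinearMap.ker N := by
            refine lt_of_le_of_ne (Yu_image H h2 hG hG2) fun h6 => hbI ?_
            rw [h6, hN, Yu_mem]
            exact ⟨hb, hbK.1⟩
          have h6 := Submodule.finrank_lt_finrank_of_lt hlt
          omega
      have hnot : ¬ K1 ≤ Submodule.span K {b} := by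
        intro h6
        have h7 := Submodule.finrank_mono h6
        have h8 := finrank_span_singleton (K := K) hb0
        omega
      obtain ⟨y, hyK, hyb⟩ := SetLike.not_le_iff_exists.1 hnot
      obtain ⟨hy1, hy2⟩ := Submodule.mem_inf.1 hyK
      rw [hN, Yu_mem] at hy1
      refine ⟨y, hy1.1, ?_, hy1.2, LinearMap.mem_ker.1 hy2, ?_⟩
      · rintro rfl
        exact hyb (Submodule.zero_mem _)
      · rintro ⟨c, hc⟩
        apply hyb
        have hc0 : c ≠ 0 := by
          rintro rfl
          rw [zero_smul] at hc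
          exact hb0 hc
        rw [Submodule.mem_span_singleton]
        exact ⟨c⁻¹, by rw [hc, smul_smul, inv_mul_cancel₀ hc0, one_smul]⟩
    · obtain ⟨y, hy, hy0, hyG, hby⟩ := yu_ker H h2 hU hn hG hl hG2 hb hm
      refine ⟨y, hy, hy0, hyG, hby, ?_⟩
      rintro ⟨c, hc⟩
      apply hbK
      constructor
      · rw [hc, map_smul, hyG, smul_comm]
      · have e1 : H.h b b = H.h b (c • y) := by rw [← hc]
        rw [e1, map_smul, hby, smul_zero]
  -- the vector `u`
  by_contra hcon
  push Not at hcon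
  have hall : ∀ u ∈ U, H.h u u = 0 → H.h y u = 0 → H.h b u = 0 := fun u hu huu hyu =>
    hcon y hyU u hu hy0 hyG hby huu (H.swap_zero.1 hyu)
  apply hyb
  refine mem_span_of_perp H hU hyU hb fun x hx hyx => ?_
  by_cases hyy : H.h y y = 0
  · obtain ⟨y', hy', hyy', hy'y⟩ := exists_partner H hK hU hyU hy0 hyy
    have hyy'1 : H.h y y' = 1 := by rw [H.symm y' y, hy'y, star_one]
    have hne : H.h y y' ≠ 0 := by rw [hyy'1]; exact one_ne_zero
    obtain ⟨s, t, hr⟩ := perp2_dec H hyU hy' hyy hyy' hne x hx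
    have hND := perp2_ND H hU hyU hy' hyy hyy' hne
    have hfr := perp2_finrank H hyU hy' hyy hyy' hne
    have hsp := span_iso H hK hND (by omega) hr
    obtain ⟨hrU, hr1, hr2⟩ := (H.mem_perp2).1 hr
    have ht : t = 0 := by
      simp only [map_sub, map_smul, smul_eq_mul, hyy, hyx, hyy'1] at hr1
      linear_combination -hr1
    have hsub : Submodule.span K {w | w ∈ H.perp2 U y y' ∧ H.h w w = 0} ≤
        LinearMap.ker (H.h b) := by
      rw [Submodule.span_le]
      rintro v ⟨hv, hvv⟩
      obtain ⟨hvU, hv1, hv2⟩ := (H.mem_perp2).1 hv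
      exact LinearMap.mem_ker.2 (hall v hvU hvv hv1)
    have h3 := LinearMap.mem_ker.1 (hsub hsp)
    rw [ht, zero_smul, sub_zero, map_sub, map_smul, hby, smul_zero, sub_zero] at h3
    exact h3
  · set W : Submodule K V := U ⊓ LinearMap.ker (H.h y) with hW
    have hWfr : finrank K U ≤ finrank K W + 1 := Yu_fun U (H.h y)
    have hWND : H.ND W := by
      intro z hz hzW
      obtain ⟨hzU, hzy⟩ := Submodule.mem_inf.1 hz
      have hzy' : H.h z y = 0 := H.swap_zero.1 (LinearMap.mem_ker.1 hzy)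
      refine hU z hzU fun v hv => ?_
      have h3 : v - (H.h y v * (H.h y y)⁻¹) • y ∈ W := by
        refine Submodule.mem_inf.2 ⟨U.sub_mem hv (U.smul_mem _ hyU), LinearMap.mem_ker.2 ?_⟩
        rw [map_sub, map_smul, smul_eq_mul, mul_assoc, inv_mul_cancel₀ hyy, mul_one, sub_self]
      have h4 := hzW _ h3
      rw [map_sub, map_smul, hzy', smul_zero, sub_zero] at h4
      exact h4
    have hxW : x ∈ W := Submodule.mem_inf.2 ⟨hx, LinearMap.mem_ker.2 hyx⟩
    have hsp := span_iso H hK hWND (by omega) hxW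
    have hsub : Submodule.span K {w | w ∈ W ∧ H.h w w = 0} ≤ LinearMap.ker (H.h b) := by
      rw [Submodule.span_le]
      rintro v ⟨hv, hvv⟩
      obtain ⟨hvU, hv1⟩ := Submodule.mem_inf.1 hv
      exact LinearMap.mem_ker.2 (hall v hvU hvv (LinearMap.mem_ker.1 hv1))
    exact LinearMap.mem_ker.1 (hsub hsp)

end ThU
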