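import Pool.Agent.ThU.Two
import Pool.Agent.ThU.Yu
import Pool.Agent.ThU.LagE
import Pool.Agent.ThU.AB
import Pool.Agent.ThU.DetT

/-! # Module GeoB -/

namespace ThU
open Matrix Polynomial Module

variable {K V : Type*} [Field K] [StarRing K] [AddCommGroup V] [Module K V] (H : Herm K V)
variable {G : V →ₗ[K] V}

/-- The key step.  Suppose all `Tri` systems of `G` on `⊤` are constant.  If `w` is isotropic, `z = h w (G w) ≠ 0`, then
all entries of all `Tri` systems of `g1` on `U1 = perp2 ⊤ w (G w)` are `z` (`tri_g1`, `two_good`), so `g1² = z²` on `U1` (`two_const`).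
Consequently: there is no `y ∈ U1`, `y ≠ 0`, with `G y = c • y`, `c ≠ z`. -/
theorem geo_two_key [Finite K] [FiniteDimensional K V] (hK : ∃ x : K, star x ≠ x)
    (hF : ∀ t : K, star t = t → t = 0 ∨ t = 1) {n : ℕ} (h3 : 3 ≤ n) (hU : H.ND ⊤)
    (hn : finrank K V = 2 * n) (hG : H.Iso ⊤ G)
    (hc : ∀ d : Fin n → K, (∀ i, d i ≠ 0) → H.Tri ⊤ G n d → ∀ i j, d i = d j) {w : V}
    (h0 : H.h w w = 0) (hz : H.h w (G w) ≠ 0) :
    (∀ x ∈ H.perp2 ⊤ w (G w), H.g1 G w (H.g1 G w x) = (H.h w (G w)) ^ 2 • x) ∧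
    ∀ y ∈ H.perp2 ⊤ w (G w), y ≠ 0 → ∀ c : K, G y = c • y → c = H.h w (G w) := by
  have hw : w ∈ (⊤ : Submodule K V) := Submodule.mem_top
  have hGw : G w ∈ (⊤ : Submodule K V) := Submodule.mem_top
  have hGG : H.h (G w) (G w) = 0 := by rw [hG.2 w hw w hw, h0]
  have hU1 := perp2_ND H hU hw hGw h0 hGG hz
  have hd1 := perp2_finrank H hw hGw h0 hGG hz
  rw [finrank_top, hn] at hd1
  obtain ⟨m, rfl⟩ : ∃ m, n = m + 1 := ⟨n - 1, by omega⟩
  have hd2 : finrank K (H.perp2 ⊤ w (G w)) = 2 * m := by omega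
  have hg1 := iso_g1 H hG hw h0 hz
  have hgood : Good (H.h w (G w)) (H.h w (G w)) := (two_good hF hz).2 rfl
  have h1 : ∀ x ∈ H.perp2 ⊤ w (G w), H.g1 G w (H.g1 G w x) = (H.h w (G w)) ^ 2 • x := by
    apply two_const H hK hF (by omega) hU1 hd2 hg1 hz
    intro d hd hT i
    have h2 := tri_g1 H hG hw h0 hz hgood hT
    have h3 := hc _ (fun i => Fin.cases hz hd i) h2 i.succ 0
    rwa [Fin.cons_succ, Fin.cons_zero] at h3
  refine ⟨h1, fun y hy hy0 c hcy => ?_⟩
  have h2 : H.g1 G w y = c • y := by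
    rw [H.g1_apply, hcy, map_smul, (H.mem_perp2.1 hy).2.1, smul_zero, zero_mul, zero_smul, sub_zero]
  have h4 := h1 y hy
  rw [h2, map_smul, h2, smul_smul] at h4
  have h5 : c * c = H.h w (G w) ^ 2 := smul_left_injective K hy0 h4
  have h6 : (c - H.h w (G w)) ^ 2 = 0 := by
    have := two_char (K := K) hF
    linear_combination h5 - (c * H.h w (G w) - H.h w (G w) ^ 2) * this
  exact sub_eq_zero.1 (pow_eq_zero_iff two_ne_zero |>.1 h6)

private theorem GeoB_inv (hF : ∀ t : K, star t = t → t = 0 ∨ t = 1) {x : K} (hx : x ≠ 0) :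
    star x = x⁻¹ := eq_inv_of_mul_eq_one_right (two_norm hF hx)

/-- `h u (g u) ∈ {0, l}` if `g² = l²` -/
private theorem GeoB_fix (hF : ∀ t : K, star t = t → t = 0 ∨ t = 1) {U : Submodule K V}
    {g : V →ₗ[K] V} (hg : H.Iso U g) {l : K} (hl : l ≠ 0) (h2 : ∀ x ∈ U, g (g x) = l ^ 2 • x)
    {u : V} (hu : u ∈ U) : H.h u (g u) = 0 ∨ H.h u (g u) = l := by
  have h1 : H.h (g (g u)) (g u) = H.h (g u) u := hg.2 (g u) (hg.1 u hu) u hu
  rw [h2 u hu, H.smul_left, ← H.symm' u (g u), star_pow, GeoB_inv hF hl] at h1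
  have h3 : star (l⁻¹ * H.h u (g u)) = l⁻¹ * H.h u (g u) := by
    rw [star_mul', ← h1, GeoB_inv hF (inv_ne_zero hl)]
    field_simp
  rcases hF _ h3 with h | h
  · left
    exact (mul_eq_zero.1 h).resolve_left (inv_ne_zero hl)
  · right
    have : H.h u (g u) = l * (l⁻¹ * H.h u (g u)) := by rw [mul_inv_cancel_left₀ hl]
    rw [this, h, mul_one]

/-- an eigenvector orthogonal to `w2` is in `perp2 ⊤ w2 (G w2)` -/
private theorem GeoB_eig (hG : H.Iso ⊤ G) {w y : V} {l : K} (hl : l ≠ 0) (hy : G y = l • y)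
    (h0 : H.h w y = 0) : y ∈ H.perp2 ⊤ w (G w) := by
  rw [H.mem_perp2]
  refine ⟨Submodule.mem_top, h0, ?_⟩
  have h1 : H.h (G w) (G y) = H.h w y := hG.2 w Submodule.mem_top y Submodule.mem_top
  rw [hy, map_smul, h0, smul_eq_mul] at h1
  exact (mul_eq_zero.1 h1).resolve_left hl

/-- step (i): `h w (G x) = 0` on `U1` -/
private theorem GeoB_i [Finite K] [FiniteDimensional K V] (hK : ∃ x : K, star x ≠ x)
    (hF : ∀ t : K, star t = t → t = 0 ∨ t = 1) {n : ℕ} (h3 : 3 ≤ n) (hU : H.ND ⊤)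
    (hn : finrank K V = 2 * n) (hG : H.Iso ⊤ G)
    (hc : ∀ d : Fin n → K, (∀ i, d i ≠ 0) → H.Tri ⊤ G n d → ∀ i j, d i = d j) {w : V}
    (h0 : H.h w w = 0) (hz : H.h w (G w) ≠ 0) :
    ∀ x ∈ H.perp2 ⊤ w (G w), H.h w (G x) = 0 := by
  have hw : w ∈ (⊤ : Submodule K V) := Submodule.mem_top
  have hGw : G w ∈ (⊤ : Submodule K V) := Submodule.mem_top
  have hGG : H.h (G w) (G w) = 0 := by rw [hG.2 w hw w hw, h0]
  have hU1 := perp2_ND H hU hw hGw h0 hGG hz
  have hd1 := perp2_finrank H hw hGw h0 hGG hz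
  rw [finrank_top, hn] at hd1
  have hd2 : finrank K (H.perp2 ⊤ w (G w)) = 2 * (n - 1) := by omega
  have hg1 := iso_g1 H hG hw h0 hz
  have h2 := two_char (K := K) hF
  obtain ⟨hk1, -⟩ := geo_two_key H hK hF h3 hU hn hG hc h0 hz
  obtain ⟨l, hl⟩ : ∃ l, l = H.h w (G w) := ⟨_, rfl⟩
  rw [← hl] at hk1
  have hl0 : l ≠ 0 := by rw [hl]; exact hz
  -- the functional `β`
  obtain ⟨b, hb, hbx⟩ := riesz H hU1 (l⁻¹ • ((H.h w).comp G))
  have hbx' : ∀ x ∈ H.perp2 ⊤ w (G w), H.h w (G x) = l * H.h b x := by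
    intro x hx
    rw [← hbx x hx]
    show _ = l * (l⁻¹ * H.h w (G x))
    rw [mul_inv_cancel_left₀ hl0]
  by_cases hb0 : b = 0
  · intro x hx
    rw [hbx' x hx, hb0, H.zero_left, mul_zero]
  exfalso
  have hgx : ∀ x ∈ H.perp2 ⊤ w (G w), G x = H.g1 G w x + H.h b x • G w := by
    intro x hx
    rw [H.g1_apply, hbx' x hx, ← hl, mul_assoc, mul_comm l, mul_assoc, inv_mul_cancel₀ hl0, mul_one,
      sub_add_cancel]
  obtain ⟨y, hy, u, hu, hy0, hgy, hby, huu, huy, hbu⟩ :=
    yu_exists H hK h2 hU1 hd2 hg1 (two_norm hF hl0) hk1 hb hb0 (by omega)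
  obtain ⟨o, ho0, ho1, ho2, hos, -⟩ := two_omega hK hF
  have hGy : G y = l • y := by rw [hgx y hy, hby, zero_smul, add_zero, hgy]
  obtain ⟨t, ht⟩ : ∃ t, t = o * (H.h b u)⁻¹ := ⟨_, rfl⟩
  have ht0 : t ≠ 0 := by rw [ht]; exact mul_ne_zero ho0 (inv_ne_zero hbu)
  have htb : t * H.h b u = o := by rw [ht, mul_assoc, inv_mul_cancel₀ hbu, mul_one]
  obtain ⟨-, hwu, hGwu⟩ := H.mem_perp2.1 hu
  obtain ⟨-, hwy, -⟩ := H.mem_perp2.1 hy
  have huw : H.h u w = 0 := H.swap_zero.1 hwu
  have huGw : H.h u (G w) = 0 := H.swap_zero.1 hGwu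
  have hx := GeoB_fix H hF hg1 hl0 hk1 hu
  have hw2 : H.h (w + t • u) (w + t • u) = 0 := by
    rw [H.add_left, H.smul_left, map_add, map_add, map_smul, map_smul, h0, hwu, huw, huu]
    simp
  have hw2G : H.h (w + t • u) (G (w + t • u)) = l * (1 + o) + H.h u (H.g1 G w u) := by
    have h4 : H.h u (G u) = H.h u (H.g1 G w u) := by
      conv_lhs => rw [hgx u hu]
      rw [map_add, map_smul, huGw, smul_zero, add_zero]
    have h5 : t * star t = 1 := two_norm hF ht0
    rw [H.add_left, H.smul_left, map_add, map_add, map_add, map_smul, map_smul, map_smul, huGw,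
      hbx' u hu, h4, ← hl, smul_eq_mul, smul_eq_mul]
    linear_combination l * htb + H.h u (H.g1 G w u) * h5
  have hyp : y ∈ H.perp2 ⊤ (w + t • u) (G (w + t • u)) := by
    apply GeoB_eig H hG hl0 hGy
    rw [H.add_left, H.smul_left, hwy, huy, mul_zero, add_zero]
  have ho1' : (1 : K) + o ≠ 0 := by
    intro h
    apply ho1
    linear_combination h - h2
  rcases hx with hx | hx
  · have hne : H.h (w + t • u) (G (w + t • u)) ≠ 0 := by
      rw [hw2G, hx, add_zero]
      exact mul_ne_zero hl0 ho1'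
    have h6 := (geo_two_key H hK hF h3 hU hn hG hc hw2 hne).2 y hyp hy0 l hGy
    rw [hw2G, hx] at h6
    have h7 : l * o = 0 := by linear_combination -h6
    exact mul_ne_zero hl0 ho0 h7
  · have hne : H.h (w + t • u) (G (w + t • u)) ≠ 0 := by
      rw [hw2G, hx]
      intro h
      have h7 : l * o = 0 := by linear_combination h - l * h2
      exact mul_ne_zero hl0 ho0 h7
    have h6 := (geo_two_key H hK hF h3 hU hn hG hc hw2 hne).2 y hyp hy0 l hGy
    rw [hw2G, hx] at h6
    have h7 : l * (1 + o) = 0 := by linear_combination -h6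
    exact mul_ne_zero hl0 ho1' h7

theorem geo_two [Finite K] [FiniteDimensional K V] (hK : ∃ x : K, star x ≠ x)
    (hF : ∀ t : K, star t = t → t = 0 ∨ t = 1) {n : ℕ} (h3 : 3 ≤ n) (hU : H.ND ⊤)
    (hn : finrank K V = 2 * n) (hG : H.Iso ⊤ G) (hd : LinearMap.det G = 1) :
    (∃ l : Fin n → K, H.Tri ⊤ G n l ∧ ∏ i, l i = 1 ∧ ∃ i j, l i ≠ l j) ∨
    (∃ ζ : K, ζ * star ζ = 1 ∧ H.Dia ⊤ G n (fun _ => ζ)) := by
  by_cases hc : ∃ d : Fin n → K, (∀ i, d i ≠ 0) ∧ H.Tri ⊤ G n d ∧ ∃ i j, d i ≠ d j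
  · obtain ⟨d, hd0, hT, hij⟩ := hc
    left
    refine ⟨d, hT, ?_, hij⟩
    have h1 := det_tri H hn hG hd0 hT
    rw [hd, one_mul] at h1
    exact (hF _ h1).resolve_left (Finset.prod_ne_zero_iff.2 fun i _ => hd0 i)
  right
  push Not at hc
  have hdT : finrank K (⊤ : Submodule K V) = 2 * n := by rw [finrank_top, hn]
  by_cases hs : Scal ⊤ G
  · obtain ⟨c, hcx⟩ := hs
    obtain ⟨v, -, hv0, hvv⟩ := exists_iso H hK hU (by omega)
    have hc0 := eig_ne_zero H hU hG Submodule.mem_top hv0 (hcx v Submodule.mem_top)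
    exact ⟨c, two_norm hF hc0, dia_scal H hK hU hdT hcx⟩
  rcases alt_AB H hK hU (by omega) hG hs with ⟨w, hw, h0, hz, -⟩ | ⟨w, hw, ζ, h0, hz, hζ⟩
  · -- first case
    have hGw : G w ∈ (⊤ : Submodule K V) := Submodule.mem_top
    have hGG : H.h (G w) (G w) = 0 := by rw [hG.2 w hw w hw, h0]
    have hU1 := perp2_ND H hU hw hGw h0 hGG hz
    have hd1 := perp2_finrank H hw hGw h0 hGG hz
    rw [hdT] at hd1
    have hd2 : finrank K (H.perp2 ⊤ w (G w)) = 2 * (n - 1) := by omega
    have hg1 := iso_g1 H hG hw h0 hz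
    have h2 := two_char (K := K) hF
    obtain ⟨hk1, -⟩ := geo_two_key H hK hF h3 hU hn hG hc h0 hz
    have hi := GeoB_i H hK hF h3 hU hn hG hc h0 hz
    obtain ⟨l, hl⟩ : ∃ l, l = H.h w (G w) := ⟨_, rfl⟩
    rw [← hl] at hk1
    have hl0 : l ≠ 0 := by rw [hl]; exact hz
    have hnl : l * star l = 1 := two_norm hF hl0
    have hgx : ∀ x ∈ H.perp2 ⊤ w (G w), H.g1 G w x = G x := by
      intro x hx
      rw [H.g1_apply, hi x hx, zero_mul, zero_smul, sub_zero]
    have hU1G : ∀ x ∈ H.perp2 ⊤ w (G w), G x ∈ H.perp2 ⊤ w (G w) := by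
      intro x hx
      rw [← hgx x hx]
      exact hg1.1 x hx
    have hG2 : ∀ x ∈ H.perp2 ⊤ w (G w), G (G x) = l ^ 2 • x := by
      intro x hx
      rw [← hk1 x hx, hgx x hx, hgx _ (hU1G x hx)]
    have hIso : H.Iso (H.perp2 ⊤ w (G w)) G :=
      ⟨hU1G, fun x _ y _ => hG.2 x Submodule.mem_top y Submodule.mem_top⟩
    have hGwG : H.h (G w) w = star l := by rw [H.symm w (G w), ← hl]
    -- G (G w)
    obtain ⟨α, α', hαα⟩ := perp2_dec H hw hGw h0 hGG hz (G (G w)) Submodule.mem_top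
    have hGGx : ∀ x ∈ H.perp2 ⊤ w (G w), H.h (G (G w)) x = 0 := by
      intro x hx
      have h4 : H.h (G (G w)) (G (G x)) = H.h w x := by
        rw [hG.2 _ Submodule.mem_top _ Submodule.mem_top, hG.2 _ Submodule.mem_top _ Submodule.mem_top]
      rw [hG2 x hx, map_smul, (H.mem_perp2.1 hx).2.1, smul_eq_mul] at h4
      exact (mul_eq_zero.1 h4).resolve_left (pow_ne_zero 2 hl0)
    have hv := hU1 _ hαα (fun x hx => by
      rw [H.sub_left, H.sub_left, H.smul_left, H.smul_left, hGGx x hx, (H.mem_perp2.1 hx).2.1,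
        (H.mem_perp2.1 hx).2.2, mul_zero, mul_zero, sub_zero, sub_zero])
    have hGGw : G (G w) = α • w + α' • G w := by
      rw [sub_sub, sub_eq_zero] at hv
      exact hv
    have hα : α = l ^ 2 := by
      have h4 : H.h (G w) (G (G w)) = l := by
        rw [hG.2 _ Submodule.mem_top _ Submodule.mem_top, ← hl]
      rw [hGGw, map_add, map_smul, map_smul, hGG, hGwG, smul_zero, add_zero, smul_eq_mul] at h4
      linear_combination l * h4 - α * hnl
    have hα' : α' = 0 ∨ α' = l := by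
      have h4 : H.h (G (G w)) (G (G w)) = 0 := by
        rw [hG.2 _ Submodule.mem_top _ Submodule.mem_top, hGG]
      rw [hGGw, H.add_left, H.smul_left, H.smul_left, map_add, map_add, map_smul, map_smul, map_smul,
        map_smul, h0, hGG, hGwG, ← hl, hα] at h4
      simp only [smul_eq_mul, mul_zero, zero_add, add_zero, star_pow] at h4
      have h5 : star (star l * α') = star l * α' := by
        rw [star_mul', star_star]
        linear_combination h4 - star l * α' * h2 + (star l * α' * (-1 : K) - star α' * l) * (hnl)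
      rcases hF _ h5 with h | h
      · left
        exact (mul_eq_zero.1 h).resolve_left (star_ne_zero.2 hl0)
      · right
        linear_combination l * h - α' * hnl
    rcases hα' with hα' | hα'
    · refine ⟨l, hnl, dia_invol H hK h2 hU hdT hG hnl ?_⟩
      intro x hx
      obtain ⟨s, t, hst⟩ := perp2_dec H hw hGw h0 hGG hz x hx
      have h4 := hG2 _ hst
      have h5 : G (G w) = l ^ 2 • w := by rw [hGGw, hα, hα', zero_smul, add_zero]
      rw [map_sub, map_sub, map_sub, map_sub, map_smul, map_smul, map_smul, map_smul, h5, map_smul,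
        smul_sub, smul_sub, smul_comm s, smul_comm t] at h4
      simpa using h4
    · -- (iii)
      exfalso
      obtain ⟨o, ho0, ho1, ho2, hos, -⟩ := two_omega hK hF
      have ho1' : (1 : K) + o ≠ 0 := by
        intro h
        apply ho1
        linear_combination h - h2
      obtain ⟨c, hcdef⟩ : ∃ c, c = l * (o + 1) := ⟨_, rfl⟩
      obtain ⟨e, he⟩ : ∃ e, e = G w - c • w := ⟨_, rfl⟩
      have hGe : G e = (l * o) • e := by
        have h4 : G e = l ^ 2 • w + l • G w - c • G w := by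
          rw [he, map_sub, map_smul, hGGw, hα, hα']
        rw [h4, he, smul_sub, smul_smul]
        have h5 : l ^ 2 + l * o * c = 0 := by
          rw [hcdef]
          linear_combination l ^ 2 * ho2 + (l ^ 2 * (1 + o)) * h2
        have h6 : l - c - l * o = 0 := by
          rw [hcdef]
          linear_combination - l * o * h2
        have h7 : l ^ 2 • w + l • G w - c • G w - ((l * o) • G w - (l * o * c) • w) =
            (l ^ 2 + l * o * c) • w + (l - c - l * o) • G w := by module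
        rw [← sub_eq_zero, h7, h5, h6, zero_smul, zero_smul, add_zero]
      have hee : H.h e e = 1 := by
        rw [he, H.sub_left, H.smul_left, map_sub, map_sub, map_smul, map_smul, h0, hGG, hGwG, ← hl,
          hcdef]
        simp only [smul_eq_mul, mul_zero, sub_zero, zero_sub, star_mul', star_add, star_one, hos]
        linear_combination (-(o + 1) - (o + 1 + 1)) * hnl - (o + 1 + 1) * h2
      have hex : ∀ x ∈ H.perp2 ⊤ w (G w), H.h e x = 0 := by
        intro x hx
        rw [he, H.sub_left, H.smul_left, (H.mem_perp2.1 hx).2.1, (H.mem_perp2.1 hx).2.2, mul_zero,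
          sub_zero]
      -- u with h u u = 1
      obtain ⟨v, hv1, hv0, hvv⟩ := exists_iso H hK hU1 (by omega)
      obtain ⟨v', hv1', hvv', hv'v⟩ := exists_partner H hK hU1 hv1 hv0 hvv
      obtain ⟨u, hu⟩ : ∃ u, u = v + o • v' := ⟨_, rfl⟩
      have huU : u ∈ H.perp2 ⊤ w (G w) := by
        rw [hu]
        exact Submodule.add_mem _ hv1 (Submodule.smul_mem _ _ hv1')
      have hvv2 : H.h v v' = 1 := by rw [H.symm v' v, hv'v, star_one]
      have huu : H.h u u = 1 := by
        rw [hu, H.add_left, H.smul_left, map_add, map_add, map_smul, map_smul, hvv, hvv', hvv2, hv'v, hos]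
        simp only [smul_eq_mul, mul_zero, mul_one, zero_add, add_zero]
        linear_combination o * h2
      obtain ⟨y, hy, hy0, hGy, huy⟩ := yu_ker H h2 hU1 hd2 hIso hnl hG2 huU (by omega)
      have hue : H.h u e = 0 := H.swap_zero.1 (hex u huU)
      have hw2 : H.h (e + u) (e + u) = 0 := by
        rw [H.add_left, map_add, map_add, hee, huu, hue, hex u huU]
        linear_combination h2
      have hw2G : H.h (e + u) (G (e + u)) = l * o + H.h u (G u) := by
        rw [map_add, hGe, H.add_left, map_add, map_add, map_smul, map_smul, hee, hue,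
          hex _ (hU1G u huU)]
        simp only [smul_eq_mul]
        ring
      have hyp : y ∈ H.perp2 ⊤ (e + u) (G (e + u)) := by
        apply GeoB_eig H hG hl0 hGy
        rw [H.add_left, hex y hy, huy, add_zero]
      rcases GeoB_fix H hF hIso hl0 hG2 huU with hx | hx
      · have hne : H.h (e + u) (G (e + u)) ≠ 0 := by
          rw [hw2G, hx, add_zero]
          exact mul_ne_zero hl0 ho0
        have h6 := (geo_two_key H hK hF h3 hU hn hG hc hw2 hne).2 y hyp hy0 l hGy
        rw [hw2G, hx] at h6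
        have h7 : l * (1 + o) = 0 := by linear_combination h6 + l * o * h2
        exact mul_ne_zero hl0 ho1' h7
      · have hne : H.h (e + u) (G (e + u)) ≠ 0 := by
          rw [hw2G, hx]
          intro h
          have h7 : l * (1 + o) = 0 := by linear_combination h
          exact mul_ne_zero hl0 ho1' h7
        have h6 := (geo_two_key H hK hF h3 hU hn hG hc hw2 hne).2 y hyp hy0 l hGy
        rw [hw2G, hx] at h6
        have h7 : l * o = 0 := by linear_combination -h6
        exact mul_ne_zero hl0 ho0 h7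
  · -- second case
    have hGw : G w ∈ (⊤ : Submodule K V) := Submodule.mem_top
    have hGG : H.h (G w) (G w) = 0 := by rw [hG.2 w hw w hw, h0]
    have hU1 := perp2_ND H hU hw hGw h0 hGG hz
    have hd1 := perp2_finrank H hw hGw h0 hGG hz
    rw [hdT] at hd1
    obtain ⟨m, rfl⟩ : ∃ m, n = m + 1 := ⟨n - 1, by omega⟩
    have hd2 : finrank K (H.perp2 ⊤ w (G w)) = 2 * m := by omega
    obtain ⟨v, v', hv⟩ := hyp_exists H hK hU1 hd2
    have hgood : Good (H.h w (G w)) (H.h w (G w)) := (two_good hF hz).2 rfl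
    have hD := dia_g1 H hG hw h0 hz hgood hζ hv
    obtain ⟨x, hx, hx0, hxx⟩ := exists_iso H hK hU1 (by omega)
    have hζ0 := eig_ne_zero H hU hG Submodule.mem_top hx0 (hζ x hx)
    have hm : 0 < m := by omega
    have h5 := hc _ (fun i => Fin.cases hz (fun _ => hζ0) i) hD.tri (Fin.succ ⟨0, hm⟩) 0
    rw [Fin.cons_succ, Fin.cons_zero] at h5
    refine ⟨ζ, two_norm hF hζ0, ?_⟩
    have h6 : (fun _ => ζ : Fin (m + 1) → K) = Fin.cons (H.h w (G w)) (fun _ => ζ) := by
      funext i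
      refine Fin.cases ?_ (fun j => ?_) i
      · rw [Fin.cons_zero, h5]
      · rw [Fin.cons_succ]
    rw [h6]
    exact hD

end ThU
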