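import Pool.Agent.ThU.GrpA

/-! # Module GrpB -/

namespace ThU
open Matrix Polynomial Module

set_option linter.unusedSectionVars false

variable {K : Type*} [Field K] [StarRing K] {n : ℕ}

/-- the element of the class -/
noncomputable def xx (P0 : Matrix (Ix n) (Ix n) K) (B : Matrix (Fin n) (Fin n) K) :
    Matrix (Ix n) (Ix n) K := P0 * XJ B * P0⁻¹

theorem GrpB_JJ_mul : JJ K n * JJ K n = 1 := by
  unfold JJ
  rw [fromBlocks_multiply]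
  simp [← fromBlocks_one]

theorem GrpB_JJ_conj : (JJ K n)ᴴ = JJ K n := by
  unfold JJ
  rw [fromBlocks_conjTranspose]
  simp

theorem GrpB_JJ_unit : IsUnit (JJ K n).det := by
  have h := congrArg Matrix.det (GrpB_JJ_mul (K := K) (n := n))
  rw [det_mul, det_one] at h
  exact IsUnit.of_mul_eq_one _ h

theorem GrpB_XJ_mul (A B : Matrix (Fin n) (Fin n) K) : XJ A * XJ B = XJ (A * B) := by
  unfold XJ
  rw [fromBlocks_multiply]
  simp only [Matrix.mul_zero, Matrix.zero_mul, add_zero, zero_add, conjTranspose_mul,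
    Matrix.mul_inv_rev]

theorem GrpB_XJ_det (A : Matrix (Fin n) (Fin n) K) : (XJ A).det = A.det * (star A.det)⁻¹ := by
  unfold XJ
  rw [det_fromBlocks_zero₂₁, det_nonsing_inv, Ring.inverse_eq_inv', det_conjTranspose]

theorem GrpB_XJ_one : XJ (1 : Matrix (Fin n) (Fin n) K) = 1 := by
  unfold XJ
  rw [conjTranspose_one, inv_one, fromBlocks_one]

theorem GrpB_conj_unit {m : Type*} [Fintype m] [DecidableEq m] {A : Matrix m m K}
    (h : IsUnit A.det) : IsUnit (Aᴴ).det := by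
  rw [det_conjTranspose]
  exact h.star

theorem GrpB_XJ_unit {A : Matrix (Fin n) (Fin n) K} (h : IsUnit A.det) : IsUnit (XJ A).det := by
  rw [GrpB_XJ_det]
  exact h.mul (h.star.inv)

theorem GrpB_XJ_inv {A : Matrix (Fin n) (Fin n) K} (h : IsUnit A.det) : (XJ A)⁻¹ = XJ A⁻¹ := by
  apply inv_eq_left_inv
  rw [GrpB_XJ_mul, nonsing_inv_mul _ h, GrpB_XJ_one]

/-- isometries of the form `JJ` -/
def GrpB_JU (u : Matrix (Ix n) (Ix n) K) : Prop := uᴴ * JJ K n * u = JJ K n ∧ IsUnit u.det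

theorem GrpB_JU_mul {u v : Matrix (Ix n) (Ix n) K} (hu : GrpB_JU u) (hv : GrpB_JU v) :
    GrpB_JU (u * v) := by
  refine ⟨?_, ?_⟩
  · rw [conjTranspose_mul]
    calc vᴴ * uᴴ * JJ K n * (u * v) = vᴴ * (uᴴ * JJ K n * u) * v := by noncomm_ring
      _ = JJ K n := by rw [hu.1, hv.1]
  · rw [det_mul]
    exact hu.2.mul hv.2

theorem GrpB_JU_XJ {A : Matrix (Fin n) (Fin n) K} (h : IsUnit A.det) : GrpB_JU (XJ A) := by
  refine ⟨?_, GrpB_XJ_unit h⟩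
  unfold XJ JJ
  rw [fromBlocks_conjTranspose, fromBlocks_multiply, fromBlocks_multiply]
  simp only [conjTranspose_zero, Matrix.mul_zero, Matrix.zero_mul, add_zero, zero_add,
    Matrix.mul_one]
  rw [conjTranspose_nonsing_inv, conjTranspose_conjTranspose, nonsing_inv_mul _ h,
    mul_nonsing_inv _ (GrpB_conj_unit h)]

theorem GrpB_JU_JJ : GrpB_JU (JJ K n) := by
  refine ⟨?_, GrpB_JJ_unit⟩
  rw [GrpB_JJ_conj, GrpB_JJ_mul, Matrix.one_mul]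

theorem GrpB_P_unit {P : Matrix (Ix n) (Ix n) K} (hP : Pᴴ * P = JJ K n) : IsUnit P.det := by
  have h := congrArg Matrix.det hP
  rw [det_mul] at h
  have h1 : IsUnit ((Pᴴ).det * P.det) := by rw [h]; exact GrpB_JJ_unit
  exact isUnit_of_mul_isUnit_right h1

theorem GrpB_solve {m : Type*} [Fintype m] [DecidableEq m] {L v X : Matrix m m K}
    (hv : IsUnit v.det) (h : L * v = v * X) : L = v * X * v⁻¹ := by
  rw [← h, mul_nonsing_inv_cancel_right _ _ hv]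

/-- transport of isometries of `JJ` -/
theorem GrpB_unitary {P Q v : Matrix (Ix n) (Ix n) K} (hP : Pᴴ * P = JJ K n)
    (hQ : Qᴴ * Q = JJ K n) (hv : GrpB_JU v) : (P * v * Q⁻¹)ᴴ * (P * v * Q⁻¹) = 1 := by
  have hQu := GrpB_P_unit hQ
  rw [conjTranspose_mul, conjTranspose_mul]
  calc (Q⁻¹)ᴴ * (vᴴ * Pᴴ) * (P * v * Q⁻¹) = (Q⁻¹)ᴴ * (vᴴ * (Pᴴ * P) * v) * Q⁻¹ := by
        noncomm_ring
    _ = (Q⁻¹)ᴴ * (Qᴴ * Q) * Q⁻¹ := by rw [hP, hv.1, hQ]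
    _ = (Q * Q⁻¹)ᴴ * (Q * Q⁻¹) := by rw [conjTranspose_mul]; noncomm_ring
    _ = 1 := by rw [mul_nonsing_inv _ hQu, conjTranspose_one, Matrix.one_mul]

/-- `det B / star (det B) = 1` because of `Seed.real` -/
theorem xx_su {P0 : Matrix (Ix n) (Ix n) K} {B : Matrix (Fin n) (Fin n) K} (hP0 : P0ᴴ * P0 = JJ K n)
    (hB : Seed B) : (xx P0 B)ᴴ * xx P0 B = 1 ∧ (xx P0 B).det = 1 := by
  refine ⟨GrpB_unitary hP0 hP0 (GrpB_JU_XJ hB.unit), ?_⟩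
  have hP := GrpB_P_unit hP0
  have h1 : (xx P0 B).det = (XJ B).det := by
    unfold xx
    rw [det_mul, det_mul, det_nonsing_inv, Ring.inverse_eq_inv']
    have := hP.ne_zero
    field_simp
  rw [h1, GrpB_XJ_det]
  obtain ⟨k, hk, h⟩ := hB.real
  have hk0 := hk.ne_zero
  have hb0 := hB.unit.ne_zero
  have hs0 : star B.det ≠ 0 := by simpa using hb0
  rcases h with h | h
  · have h2 := congrArg Matrix.det h
    rw [det_mul, det_mul, det_nonsing_inv, Ring.inverse_eq_inv'] at h2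
    have h3 : B.det * B.det = 1 := by
      field_simp at h2
      linear_combination -h2
    have h5 : star B.det = B.det := by
      rcases mul_self_eq_one_iff.1 h3 with h6 | h6
      · rw [h6, star_one]
      · rw [h6, star_neg, star_one]
    rw [h5, mul_inv_cancel₀ hb0]
  · have h2 := congrArg Matrix.det h
    rw [det_mul, det_mul, det_nonsing_inv, det_nonsing_inv, Ring.inverse_eq_inv',
      det_conjTranspose, mul_comm] at h2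
    have h3 := mul_right_cancel₀ hk0 h2
    rw [← h3, mul_inv_cancel₀ hb0]

/-- Multiply `T` from the right by `P0 * XJ C * P0⁻¹` with `C` from `Seed.cent`; `det (XJ C) = det C / star (det C)`
and `det T * star (det T) = 1`. -/
theorem det_adj {P0 T : Matrix (Ix n) (Ix n) K} {B : Matrix (Fin n) (Fin n) K}
    (hP0 : P0ᴴ * P0 = JJ K n) (hB : Seed B) (hT : Tᴴ * T = 1) :
    ∃ s : Matrix (Ix n) (Ix n) K, sᴴ * s = 1 ∧ s.det = 1 ∧
      s * xx P0 B * s⁻¹ = T * xx P0 B * T⁻¹ := by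
  have hP := GrpB_P_unit hP0
  have hd : star T.det * T.det = 1 := by
    have h1 := congrArg Matrix.det hT
    rwa [det_mul, det_conjTranspose, det_one] at h1
  have hTu : IsUnit T.det := IsUnit.of_mul_eq_one _ (by rw [mul_comm]; exact hd)
  obtain ⟨C, hC, hCB, hCd⟩ := hB.cent (star T.det) (by rw [star_star]; exact hd)
  obtain ⟨Y, hY⟩ : ∃ Y, Y = P0 * XJ C * P0⁻¹ := ⟨_, rfl⟩
  have hYu : Yᴴ * Y = 1 := by rw [hY]; exact GrpB_unitary hP0 hP0 (GrpB_JU_XJ hC)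
  have hYd : Y.det = star T.det := by
    rw [hY, det_mul, det_mul, det_nonsing_inv, Ring.inverse_eq_inv', GrpB_XJ_det]
    have h1 := hP.ne_zero
    have h2 : star C.det ≠ 0 := by simpa using hC.ne_zero
    have h3 : C.det * (star C.det)⁻¹ = star T.det := by
      rw [eq_comm, ← div_eq_mul_inv, eq_div_iff h2]
      exact hCd.symm
    rw [mul_right_comm, mul_inv_cancel₀ h1, one_mul, h3]
  have hYun : IsUnit Y.det := by rw [hYd]; exact hTu.star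
  have hcomm : Y * xx P0 B = xx P0 B * Y := by
    rw [hY]
    unfold xx
    have h1 : ∀ A D : Matrix (Fin n) (Fin n) K, P0 * XJ A * P0⁻¹ * (P0 * XJ D * P0⁻¹) =
        P0 * XJ (A * D) * P0⁻¹ := by
      intro A D
      calc P0 * XJ A * P0⁻¹ * (P0 * XJ D * P0⁻¹) = P0 * XJ A * (P0⁻¹ * P0) * XJ D * P0⁻¹ := by
            noncomm_ring
        _ = P0 * (XJ A * XJ D) * P0⁻¹ := by
            rw [nonsing_inv_mul _ hP]
            noncomm_ring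
        _ = _ := by rw [GrpB_XJ_mul]
    rw [h1, h1, hCB]
  refine ⟨T * Y, ?_, ?_, ?_⟩
  · rw [conjTranspose_mul]
    calc Yᴴ * Tᴴ * (T * Y) = Yᴴ * (Tᴴ * T) * Y := by noncomm_ring
      _ = 1 := by rw [hT, Matrix.mul_one, hYu]
  · rw [det_mul, hYd, mul_comm]
    exact hd
  · rw [Matrix.mul_inv_rev]
    calc T * Y * xx P0 B * (Y⁻¹ * T⁻¹) = T * (Y * xx P0 B) * Y⁻¹ * T⁻¹ := by noncomm_ring
      _ = T * xx P0 B * (Y * Y⁻¹) * T⁻¹ := by rw [hcomm]; noncomm_ring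
      _ = T * xx P0 B * T⁻¹ := by rw [mul_nonsing_inv _ hYun, Matrix.mul_one]

/-- `XJ B⁻¹` is conjugate to `XJ B` (`Seed.real`; in the second case use `JJ * XJ B * JJ`) -/
theorem real_XJ {B : Matrix (Fin n) (Fin n) K} (hB : Seed B) :
    ∃ u : Matrix (Ix n) (Ix n) K, uᴴ * JJ K n * u = JJ K n ∧ IsUnit u.det ∧ XJ B⁻¹ * u = u * XJ B := by
  obtain ⟨k, hk, h⟩ := hB.real
  have hb := hB.unit
  rcases h with h | h
  · have h1 := GrpB_JU_XJ hk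
    refine ⟨XJ k, h1.1, h1.2, ?_⟩
    rw [GrpB_XJ_mul, GrpB_XJ_mul]
    congr 1
    have h2 : k = B⁻¹ * k * B⁻¹ := by
      rw [Matrix.mul_assoc, h, nonsing_inv_mul_cancel_left _ _ hb]
    calc B⁻¹ * k = B⁻¹ * k * B⁻¹ * B := by rw [nonsing_inv_mul_cancel_right _ _ hb]
      _ = k * B := by rw [← h2]
  · have hki : IsUnit (k⁻¹).det := by
      rw [det_nonsing_inv, Ring.inverse_eq_inv']
      exact hk.inv
    have h1 := GrpB_JU_mul (GrpB_JU_XJ hki) (GrpB_JU_JJ (K := K) (n := n))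
    refine ⟨XJ k⁻¹ * JJ K n, h1.1, h1.2, ?_⟩
    have h2 : JJ K n * XJ B = XJ (Bᴴ)⁻¹ * JJ K n := by
      unfold XJ JJ
      rw [fromBlocks_multiply, fromBlocks_multiply]
      simp only [Matrix.mul_zero, Matrix.zero_mul, add_zero, zero_add, Matrix.mul_one,
        Matrix.one_mul]
      rw [conjTranspose_nonsing_inv, conjTranspose_conjTranspose, nonsing_inv_nonsing_inv _ hb]
    have h3 : B⁻¹ * k⁻¹ = k⁻¹ * (Bᴴ)⁻¹ := by
      calc B⁻¹ * k⁻¹ = k⁻¹ * (k * B⁻¹) * k⁻¹ := by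
            rw [← Matrix.mul_assoc, nonsing_inv_mul _ hk, Matrix.one_mul]
        _ = k⁻¹ * ((Bᴴ)⁻¹ * k) * k⁻¹ := by rw [h]
        _ = k⁻¹ * (Bᴴ)⁻¹ := by
            rw [← Matrix.mul_assoc, mul_nonsing_inv_cancel_right _ _ hk]
    rw [Matrix.mul_assoc (XJ k⁻¹), h2, ← Matrix.mul_assoc, ← Matrix.mul_assoc, GrpB_XJ_mul,
      GrpB_XJ_mul, h3]

/-- an isometry conjugate to `XJ B` -/
private theorem GrpB_step {P0 P v L : Matrix (Ix n) (Ix n) K} {B : Matrix (Fin n) (Fin n) K}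
    (hP0 : P0ᴴ * P0 = JJ K n) (hP : Pᴴ * P = JJ K n) (hB : Seed B) (hv : GrpB_JU v)
    (hL : L * v = v * XJ B) : ∃ s : Matrix (Ix n) (Ix n) K, sᴴ * s = 1 ∧ s.det = 1 ∧
      s * xx P0 B * s⁻¹ = P * L * P⁻¹ := by
  have hP0u := GrpB_P_unit hP0
  have hPu := GrpB_P_unit hP
  obtain ⟨s, h1, h2, h3⟩ := det_adj hP0 hB (GrpB_unitary hP hP0 hv)
  refine ⟨s, h1, h2, h3.trans ?_⟩
  rw [GrpB_solve hv.2 hL]
  unfold xx
  rw [Matrix.mul_inv_rev, Matrix.mul_inv_rev, nonsing_inv_nonsing_inv _ hP0u]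
  calc P * v * P0⁻¹ * (P0 * XJ B * P0⁻¹) * (P0 * (v⁻¹ * P⁻¹)) =
        P * v * (P0⁻¹ * P0) * XJ B * (P0⁻¹ * P0) * v⁻¹ * P⁻¹ := by noncomm_ring
    _ = P * (v * XJ B * v⁻¹) * P⁻¹ := by
        rw [nonsing_inv_mul _ hP0u]
        noncomm_ring

/-- `A1 = S⁻¹ T B T⁻¹ S`, `A2 = S⁻¹ B⁻¹ S`; `fac` for `P⁻¹ g P`, then `unip_low`, `unip_up`, `real_XJ`, `det_adj`.  The conditions
`syl`, `syl'` are transported by `Z ↦ kᴴ Z k` resp. `Z ↦ S Z Sᴴ`. -/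
theorem main_block {P0 P g : Matrix (Ix n) (Ix n) K} {B S1 T1 : Matrix (Fin n) (Fin n) K}
    (hP0 : P0ᴴ * P0 = JJ K n) (hP : Pᴴ * P = JJ K n) (hB : Seed B) (hg : gᴴ * g = 1)
    (hS : IsUnit S1.det) (hT : IsUnit T1.det)
    (ha : S1 * (P⁻¹ * g * P).toBlocks₁₁ * S1⁻¹ = T1 * B * T1⁻¹ * B⁻¹) :
    ∃ s t : Matrix (Ix n) (Ix n) K, sᴴ * s = 1 ∧ s.det = 1 ∧ tᴴ * t = 1 ∧ t.det = 1 ∧
      g = s * xx P0 B * s⁻¹ * (t * xx P0 B * t⁻¹) := by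
  have hPu := GrpB_P_unit hP
  have hb := hB.unit
  have hbi : IsUnit (B⁻¹).det := by
    rw [det_nonsing_inv, Ring.inverse_eq_inv']
    exact hb.inv
  have hSi : IsUnit (S1⁻¹).det := by
    rw [det_nonsing_inv, Ring.inverse_eq_inv']
    exact hS.inv
  have hTi : IsUnit (T1⁻¹).det := by
    rw [det_nonsing_inv, Ring.inverse_eq_inv']
    exact hT.inv
  obtain ⟨M, hM⟩ : ∃ M, M = P⁻¹ * g * P := ⟨_, rfl⟩
  rw [← hM] at ha
  have hMJ : Mᴴ * JJ K n * M = JJ K n := by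
    have hPP : (P⁻¹)ᴴ * Pᴴ = 1 := by
      rw [← conjTranspose_mul, mul_nonsing_inv _ hPu, conjTranspose_one]
    rw [hM, conjTranspose_mul, conjTranspose_mul]
    calc Pᴴ * (gᴴ * (P⁻¹)ᴴ) * JJ K n * (P⁻¹ * g * P) =
          Pᴴ * (gᴴ * (P⁻¹)ᴴ) * (Pᴴ * P) * (P⁻¹ * g * P) := by rw [hP]
      _ = Pᴴ * gᴴ * ((P⁻¹)ᴴ * Pᴴ) * (P * P⁻¹) * g * P := by noncomm_ring
      _ = Pᴴ * (gᴴ * g) * P := by
          rw [hPP, mul_nonsing_inv _ hPu]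
          noncomm_ring
      _ = JJ K n := by rw [hg, Matrix.mul_one, hP]
  -- the blocks
  obtain ⟨Q, hQ⟩ : ∃ Q, Q = S1⁻¹ * T1 := ⟨_, rfl⟩
  have hQu : IsUnit Q.det := by
    rw [hQ, det_mul]
    exact hSi.mul hT
  have hQi : IsUnit (Q⁻¹).det := by
    rw [det_nonsing_inv, Ring.inverse_eq_inv']
    exact hQu.inv
  obtain ⟨A1, hA1⟩ : ∃ A1, A1 = Q * B * Q⁻¹ := ⟨_, rfl⟩
  obtain ⟨A2, hA2⟩ : ∃ A2, A2 = S1⁻¹ * B⁻¹ * S1 := ⟨_, rfl⟩
  have hA1u : IsUnit A1.det := by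
    rw [hA1, det_mul, det_mul]
    exact (hQu.mul hb).mul hQi
  have hA2u : IsUnit A2.det := by
    rw [hA2, det_mul, det_mul]
    exact (hSi.mul hbi).mul hS
  have hM11 : M.toBlocks₁₁ = A1 * A2 := by
    calc M.toBlocks₁₁ = S1⁻¹ * (S1 * M.toBlocks₁₁ * S1⁻¹) * S1 := by
          rw [Matrix.mul_assoc S1, nonsing_inv_mul_cancel_left _ _ hS,
            nonsing_inv_mul_cancel_right _ _ hS]
      _ = S1⁻¹ * (T1 * B * T1⁻¹ * B⁻¹) * S1 := by rw [ha]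
      _ = A1 * A2 := by
          rw [hA1, hA2, hQ, Matrix.mul_inv_rev, nonsing_inv_nonsing_inv _ hS]
          calc S1⁻¹ * (T1 * B * T1⁻¹ * B⁻¹) * S1 = S1⁻¹ * T1 * B * T1⁻¹ * 1 * B⁻¹ * S1 := by
                noncomm_ring
            _ = S1⁻¹ * T1 * B * T1⁻¹ * (S1 * S1⁻¹) * B⁻¹ * S1 := by rw [mul_nonsing_inv _ hS]
            _ = _ := by noncomm_ring
  obtain ⟨b, c, hL, hU, hLU⟩ := fac hMJ hA1u hA2u hM11
  -- the lower factor
  have hs1 : ∀ Z : Matrix (Fin n) (Fin n) K, A1ᴴ * Z * A1 = Z → Z = 0 := by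
    intro Z hZ
    have h1 : Bᴴ * (Qᴴ * Z * Q) * B = Qᴴ * Z * Q := by
      calc Bᴴ * (Qᴴ * Z * Q) * B = 1 * Bᴴ * Qᴴ * Z * Q * B * 1 := by noncomm_ring
        _ = (Q⁻¹ * Q)ᴴ * Bᴴ * Qᴴ * Z * Q * B * (Q⁻¹ * Q) := by
            rw [nonsing_inv_mul _ hQu, conjTranspose_one]
        _ = Qᴴ * (A1ᴴ * Z * A1) * Q := by
            rw [hA1, conjTranspose_mul, conjTranspose_mul, conjTranspose_mul]; noncomm_ring
        _ = Qᴴ * Z * Q := by rw [hZ]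
    have h3 := hB.syl _ h1
    have hQc := GrpB_conj_unit hQu
    calc Z = (Qᴴ)⁻¹ * (Qᴴ * Z * Q) * Q⁻¹ := by
          rw [Matrix.mul_assoc Qᴴ, nonsing_inv_mul_cancel_left _ _ hQc,
            mul_nonsing_inv_cancel_right _ _ hQu]
      _ = 0 := by rw [h3, Matrix.mul_zero, Matrix.zero_mul]
  obtain ⟨u1, hu1, hu1u, hu1e⟩ := unip_low hA1u hs1 hL
  -- the upper factor
  have hs2 : ∀ Z : Matrix (Fin n) (Fin n) K, A2 * Z * A2ᴴ = Z → Z = 0 := by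
    intro Z hZ
    have hSc := GrpB_conj_unit hS
    have hbc := GrpB_conj_unit hb
    obtain ⟨W, hW⟩ : ∃ W, W = S1 * Z * S1ᴴ := ⟨_, rfl⟩
    have h1 : B⁻¹ * W * (B⁻¹)ᴴ = W := by
      rw [hW]
      calc B⁻¹ * (S1 * Z * S1ᴴ) * (B⁻¹)ᴴ = 1 * B⁻¹ * S1 * Z * S1ᴴ * (B⁻¹)ᴴ * 1 := by noncomm_ring
        _ = (S1 * S1⁻¹) * B⁻¹ * S1 * Z * S1ᴴ * (B⁻¹)ᴴ * (S1 * S1⁻¹)ᴴ := by
            rw [mul_nonsing_inv _ hS, conjTranspose_one]
        _ = S1 * (A2 * Z * A2ᴴ) * S1ᴴ := by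
            rw [hA2, conjTranspose_mul, conjTranspose_mul, conjTranspose_mul]; noncomm_ring
        _ = S1 * Z * S1ᴴ := by rw [hZ]
    have h3 : B * W * Bᴴ = W := by
      calc B * W * Bᴴ = B * (B⁻¹ * W * (B⁻¹)ᴴ) * Bᴴ := by rw [h1]
        _ = (B * B⁻¹) * W * ((B⁻¹)ᴴ * Bᴴ) := by noncomm_ring
        _ = W := by
            rw [← conjTranspose_mul, mul_nonsing_inv _ hb, conjTranspose_one, Matrix.one_mul,
              Matrix.mul_one]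
    have h4 := hB.syl' _ h3
    calc Z = S1⁻¹ * (S1 * Z * S1ᴴ) * (S1ᴴ)⁻¹ := by
          rw [Matrix.mul_assoc S1, nonsing_inv_mul_cancel_left _ _ hS,
            mul_nonsing_inv_cancel_right _ _ hSc]
      _ = 0 := by rw [← hW, h4, Matrix.mul_zero, Matrix.zero_mul]
  obtain ⟨u2, hu2, hu2u, hu2e⟩ := unip_up hA2u hs2 hU
  obtain ⟨u3, hu3, hu3u, hu3e⟩ := real_XJ hB
  have hv1 : GrpB_JU (u1 * XJ Q) := GrpB_JU_mul ⟨hu1, hu1u⟩ (GrpB_JU_XJ hQu)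
  have hv2 : GrpB_JU (u2 * XJ S1⁻¹ * u3) :=
    GrpB_JU_mul (GrpB_JU_mul ⟨hu2, hu2u⟩ (GrpB_JU_XJ hSi)) ⟨hu3, hu3u⟩
  have he1 : fromBlocks A1 0 c (A1ᴴ)⁻¹ * (u1 * XJ Q) = u1 * XJ Q * XJ B := by
    rw [← Matrix.mul_assoc, hu1e, Matrix.mul_assoc, Matrix.mul_assoc, GrpB_XJ_mul, GrpB_XJ_mul,
      hA1, nonsing_inv_mul_cancel_right _ _ hQu]
  have he2 : fromBlocks A2 b 0 (A2ᴴ)⁻¹ * (u2 * XJ S1⁻¹ * u3) = u2 * XJ S1⁻¹ * u3 * XJ B := by
    calc fromBlocks A2 b 0 (A2ᴴ)⁻¹ * (u2 * XJ S1⁻¹ * u3) =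
          (fromBlocks A2 b 0 (A2ᴴ)⁻¹ * u2) * XJ S1⁻¹ * u3 := by noncomm_ring
      _ = u2 * (XJ A2 * XJ S1⁻¹) * u3 := by rw [hu2e]; noncomm_ring
      _ = u2 * (XJ S1⁻¹ * XJ B⁻¹) * u3 := by
          rw [GrpB_XJ_mul, GrpB_XJ_mul, hA2, mul_nonsing_inv_cancel_right _ _ hS]
      _ = u2 * XJ S1⁻¹ * (XJ B⁻¹ * u3) := by noncomm_ring
      _ = u2 * XJ S1⁻¹ * u3 * XJ B := by rw [hu3e]; noncomm_ring
  obtain ⟨s, hs, hsd, hse⟩ := GrpB_step hP0 hP hB hv1 he1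
  obtain ⟨t, ht, htd, hte⟩ := GrpB_step hP0 hP hB hv2 he2
  refine ⟨s, t, hs, hsd, ht, htd, ?_⟩
  rw [hse, hte]
  have hg' : g = P * M * P⁻¹ := by
    rw [hM]
    calc g = 1 * g * 1 := by noncomm_ring
      _ = (P * P⁻¹) * g * (P * P⁻¹) := by rw [mul_nonsing_inv _ hPu]
      _ = _ := by noncomm_ring
  rw [hg', hLU]
  calc P * (fromBlocks A1 0 c (A1ᴴ)⁻¹ * fromBlocks A2 b 0 (A2ᴴ)⁻¹) * P⁻¹ =
        P * fromBlocks A1 0 c (A1ᴴ)⁻¹ * 1 * fromBlocks A2 b 0 (A2ᴴ)⁻¹ * P⁻¹ := by noncomm_ring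
    _ = P * fromBlocks A1 0 c (A1ᴴ)⁻¹ * (P⁻¹ * P) * fromBlocks A2 b 0 (A2ᴴ)⁻¹ * P⁻¹ := by
        rw [nonsing_inv_mul _ hPu]
    _ = _ := by noncomm_ring

end ThU
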