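import Pool.Agent.ThU.SeedA
import Pool.Agent.ThU.SeedB

/-! # Module SeedE -/

namespace ThU
open Matrix Polynomial Module

variable {K : Type*} [Field K] [StarRing K]

theorem SeedE_star {n : ℕ} (M : Matrix (Fin n) (Fin n) K) (g : K[X]) :
    aeval (Mᴴ) g = (aeval M (g.map (starRingEnd K)))ᴴ := by
  induction g using Polynomial.induction_on' with
  | add p q hp hq => rw [map_add, hp, hq, Polynomial.map_add, map_add, conjTranspose_add]
  | monomial i c =>
    rw [Polynomial.map_monomial, aeval_monomial, aeval_monomial, conjTranspose_mul,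
      conjTranspose_pow, Algebra.algebraMap_eq_smul_one, Algebra.algebraMap_eq_smul_one,
      conjTranspose_smul, conjTranspose_one, starRingEnd_apply, star_star]
    simp

theorem SeedE_comm {n : ℕ} (Z M N : Matrix (Fin n) (Fin n) K) (h : Z * M = N * Z) (g : K[X]) :
    Z * aeval M g = aeval N g * Z := by
  have hpow : ∀ i : ℕ, Z * M ^ i = N ^ i * Z := by
    intro i
    induction i with
    | zero => simp
    | succ i ih => rw [pow_succ, ← Matrix.mul_assoc, ih, Matrix.mul_assoc, h, ← Matrix.mul_assoc,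
        ← pow_succ]
  induction g using Polynomial.induction_on' with
  | add p q hp hq => rw [map_add, map_add, Matrix.mul_add, Matrix.add_mul, hp, hq]
  | monomial i c =>
    rw [aeval_monomial, aeval_monomial, Algebra.algebraMap_eq_smul_one]
    simp [hpow i]

theorem SeedE_zero {n : ℕ} (Z M : Matrix (Fin n) (Fin n) K) (h : M.det ≠ 0) (h0 : M * Z = 0) :
    Z = 0 := by
  have hu : IsUnit M.det := isUnit_iff_ne_zero.2 h
  rw [← Matrix.one_mul Z, ← Matrix.nonsing_inv_mul _ hu, Matrix.mul_assoc, h0, Matrix.mul_zero]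

/-- `B = comp f n` with `f` from `exists_f`.  `syl`: `Bᴴ Z B = Z` gives `Z p(B) = p((Bᴴ)⁻¹) Z` for all polynomials, `f(B) = 0` and
`f((Bᴴ)⁻¹) = (f.map star (B⁻¹))ᴴ` is invertible since it corresponds to `aeval β⁻¹ (f.map star) ≠ 0` (`comp_mul`); `syl'` is the same.
`cent`: `fld_hilb` gives `c = d * star c`, `c` is the norm of some `e = aeval β p` (`FiniteField.norm_surjective`), take
`C = aeval B p`.  `real`: `sim_irr` for `B⁻¹` and `B` if `aeval β⁻¹ f = 0`; for `B` and `Bᴴ` if `f.map star = f`. -/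
theorem seed_exists [Finite K] (hK : ∃ x : K, star x ≠ x) {n : ℕ} (hn : 3 ≤ n) :
    ∃ f : K[X], f.Monic ∧ f.natDegree = n ∧ f.coeff 0 ≠ 0 ∧ Seed (comp f n) := by
  obtain ⟨f, E, _, _, _, β, hm, hi, hfn, hf0, hE, hβ, hb1, hb2⟩ := exists_f hK hn
  have h0 : 0 < n := by omega
  obtain ⟨b, hb, hmat, hp, hdet, hsurj⟩ := comp_mul hm hi hfn hE h0 hβ
  have hfin : FiniteDimensional K E := FiniteDimensional.of_finrank_pos (by rw [hE]; exact h0)
  refine ⟨f, hm, hfn, hf0, ?_⟩
  have hβ0 : β ≠ 0 := by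
    rintro rfl
    apply hf0
    have h1 := coeff_zero_eq_aeval_zero' (A := E) f
    rw [hβ] at h1
    exact (map_eq_zero (algebraMap K E)).1 h1
  have hnorm : ∀ e : E, e ≠ 0 → Algebra.norm K e ≠ 0 := fun e he => by
    rwa [ne_eq, Algebra.norm_eq_zero_iff]
  have hBdet : IsUnit (comp f n).det := by
    rw [isUnit_iff_ne_zero]
    have h1 := hdet X
    rw [aeval_X, aeval_X] at h1
    rw [h1]
    exact hnorm β hβ0
  have hBf : aeval (comp f n) f = 0 := by rw [← hp, hβ, map_zero]
  have hinv : (comp f n)⁻¹ = Algebra.leftMulMatrix b β⁻¹ := by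
    apply Matrix.inv_eq_right_inv
    rw [← hmat, ← map_mul, mul_inv_cancel₀ hβ0, map_one]
  have hinvp : ∀ g : K[X], aeval ((comp f n)⁻¹) g = Algebra.leftMulMatrix b (aeval β⁻¹ g) := by
    intro g
    rw [hinv, aeval_algHom_apply]
  have hinvdet : (aeval ((comp f n)⁻¹) (f.map (starRingEnd K))).det ≠ 0 := by
    rw [hinvp, ← Algebra.norm_eq_matrix_det]
    exact hnorm _ hb1
  have hBH : IsUnit ((comp f n)ᴴ).det := by
    rw [Matrix.det_conjTranspose]
    exact hBdet.star
  refine ⟨hBdet, ?_, ?_, ?_, ?_⟩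
  · intro Z hZ
    have h1 : Z * comp f n = ((comp f n)ᴴ)⁻¹ * Z := by
      calc Z * comp f n = ((comp f n)ᴴ)⁻¹ * ((comp f n)ᴴ * Z * comp f n) := by
            rw [Matrix.mul_assoc, ← Matrix.mul_assoc _ ((comp f n)ᴴ), Matrix.nonsing_inv_mul _ hBH,
              Matrix.one_mul]
        _ = _ := by rw [hZ]
    have h2 := SeedE_comm Z _ _ h1 f
    rw [hBf, Matrix.mul_zero] at h2
    refine SeedE_zero Z _ ?_ h2.symm
    rw [← Matrix.conjTranspose_nonsing_inv, SeedE_star, Matrix.det_conjTranspose]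
    exact star_ne_zero.2 hinvdet
  · intro Z hZ
    have h1 : Z * (comp f n)ᴴ = (comp f n)⁻¹ * Z := by
      calc Z * (comp f n)ᴴ = (comp f n)⁻¹ * (comp f n * Z * (comp f n)ᴴ) := by
            rw [Matrix.mul_assoc, ← Matrix.mul_assoc _ (comp f n), Matrix.nonsing_inv_mul _ hBdet,
              Matrix.one_mul]
        _ = _ := by rw [hZ]
    have h2 := SeedE_comm Z _ _ h1 (f.map (starRingEnd K))
    rw [SeedE_star, Polynomial.map_map] at h2
    have h3 : (starRingEnd K).comp (starRingEnd K) = RingHom.id K := by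
      ext x
      simp
    rw [h3, Polynomial.map_id, hBf, conjTranspose_zero, Matrix.mul_zero] at h2
    exact SeedE_zero Z _ hinvdet h2.symm
  · intro d hd
    obtain ⟨c, hc0, hc⟩ := fld_hilb hK d hd
    obtain ⟨e, he⟩ := FiniteField.norm_surjective K E c
    obtain ⟨p, hpe⟩ := hsurj e
    have h1 : (aeval (comp f n) p).det = c := by rw [hdet, hpe, he]
    refine ⟨aeval (comp f n) p, ?_, ?_, ?_⟩
    · rw [h1]
      exact isUnit_iff_ne_zero.2 hc0
    · have h2 := SeedE_comm (comp f n) (comp f n) (comp f n) rfl p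
      exact h2.symm
    · rw [h1]
      exact hc
  · rcases hb2 with h | h
    · have h1 : aeval ((comp f n)⁻¹) f = 0 := by rw [hinvp, h, map_zero]
      obtain ⟨k, hk, hk'⟩ := sim_irr hm hi hfn h0 h1 hBf
      exact ⟨k, hk, Or.inl hk'⟩
    · have h1 : aeval ((comp f n)ᴴ) f = 0 := by
        rw [SeedE_star, h, hBf, conjTranspose_zero]
      obtain ⟨k, hk, hk'⟩ := sim_irr hm hi hfn h0 hBf h1
      refine ⟨k, hk, Or.inr ?_⟩
      calc k * (comp f n)⁻¹ = ((comp f n)ᴴ)⁻¹ * ((comp f n)ᴴ * k) * (comp f n)⁻¹ := by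
            rw [← Matrix.mul_assoc, Matrix.nonsing_inv_mul _ hBH, Matrix.one_mul]
        _ = ((comp f n)ᴴ)⁻¹ * k := by
            rw [← hk', Matrix.mul_assoc, Matrix.mul_assoc, Matrix.mul_nonsing_inv _ hBdet,
              Matrix.mul_one]

end ThU
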