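import Pool.Agent.ThU.Fact
import Pool.Agent.ThU.SeedE
import Pool.Agent.ThU.GrpB
import Pool.Agent.ThU.Frame
import Pool.Agent.ThU.GeoA
import Pool.Agent.ThU.GeoB

/-! # Module Final -/

namespace ThU
open Matrix Polynomial Module

variable {K : Type*} [Field K] [StarRing K]

/-- The main theorem in terms of matrices. -/
theorem main_matrix [Finite K] (hK : ∃ x : K, star x ≠ x) {n : ℕ} (hn : 3 ≤ n) :
    ∃ x : Matrix (Ix n) (Ix n) K, xᴴ * x = 1 ∧ x.det = 1 ∧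
      ∀ g : Matrix (Ix n) (Ix n) K, gᴴ * g = 1 → g.det = 1 →
        ∃ (c : K) (s t : Matrix (Ix n) (Ix n) K), c * star c = 1 ∧ c ^ (2 * n) = 1 ∧ sᴴ * s = 1 ∧
          s.det = 1 ∧ tᴴ * t = 1 ∧ t.det = 1 ∧ g = c • (s * x * s⁻¹ * (t * x * t⁻¹)) := by
  obtain ⟨f, hfm, hfn, hf0, hB⟩ := seed_exists hK hn
  have hfr : finrank K (Ix n → K) = 2 * n := by simp [two_mul]
  have hfrT : finrank K (⊤ : Submodule K (Ix n → K)) = 2 * n := by rw [finrank_top]; exact hfr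
  obtain ⟨w0, w0', hyp0⟩ := hyp_exists (stdH K n) hK stdH_ND hfrT
  obtain ⟨P0, hP0, -⟩ := frame_hyp hyp0 1
  obtain ⟨hx1, hx2⟩ := xx_su hP0 hB
  refine ⟨xx P0 (comp f n), hx1, hx2, fun g hg hgd => ?_⟩
  have hGiso := stdH_iso hg
  have hGdet : LinearMap.det (Matrix.toLin' g) = 1 := by rw [LinearMap.det_toLin']; exact hgd
  have key : (∃ l : Fin n → K, (stdH K n).Tri ⊤ (toLin' g) n l ∧ ∏ i, l i = 1 ∧ ∃ i j, l i ≠ l j) ∨
      (∃ ζ : K, ζ * star ζ = 1 ∧ (stdH K n).Dia ⊤ (toLin' g) n (fun _ => ζ)) := by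
    by_cases ht : ∃ t : K, star t = t ∧ t ≠ 0 ∧ t ≠ 1
    · exact geo_big _ hK ht hn stdH_ND hfr hGiso hGdet
    · refine geo_two _ hK (fun t h => ?_) hn stdH_ND hfr hGiso hGdet
      by_contra hcon
      exact ht ⟨t, h, fun h0 => hcon (Or.inl h0), fun h1 => hcon (Or.inr h1)⟩
  rcases key with ⟨l, hT, hprod, hne⟩ | ⟨ζ, hζ, hD⟩
  · obtain ⟨w, w', hyp, htri, hdiag⟩ := hT
    obtain ⟨P, hP, hPg⟩ := frame_hyp hyp g
    have h1 : ∀ i j, j < i → (P⁻¹ * g * P).toBlocks₁₁ i j = 0 := fun i j hij => by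
      rw [hPg, htri i j hij]
    have h2 : ∀ i, (P⁻¹ * g * P).toBlocks₁₁ i i = l i := fun i => by rw [hPg, hdiag]
    obtain ⟨S, T, hS, hT, hST⟩ := fact hfm hfn hf0 (P⁻¹ * g * P).toBlocks₁₁ h1
      (by simp_rw [h2]; exact hprod) (by simp_rw [h2]; exact hne)
    obtain ⟨s, t, hs, hs1, ht, ht1, hg'⟩ := main_block hP0 hP hB hg hS hT hST
    exact ⟨1, s, t, by simp, by simp, hs, hs1, ht, ht1, by rw [one_smul]; exact hg'⟩
  · have hζ0 : ζ ≠ 0 := by rintro rfl; simp at hζ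
    have hsζ : star ζ = ζ⁻¹ := eq_inv_of_mul_eq_one_right hζ
    have hζp : ζ ^ (2 * n) = 1 := by
      have hdt := det_tri (stdH K n) hfr hGiso (l := fun _ => ζ) (fun _ => hζ0) hD.tri
      rw [hGdet, one_mul, Finset.prod_const, Finset.card_univ, Fintype.card_fin, star_pow, hsζ,
        inv_pow] at hdt
      rw [two_mul, pow_add]
      nth_rewrite 1 [← hdt]
      exact inv_mul_cancel₀ (pow_ne_zero _ hζ0)
    obtain ⟨w, w', hyp, hdia⟩ := hD
    obtain ⟨P, hP, hPg⟩ := frame_hyp hyp (ζ⁻¹ • g)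
    have hg' : (ζ⁻¹ • g)ᴴ * (ζ⁻¹ • g) = 1 := by
      rw [conjTranspose_smul, smul_mul_smul_comm, hg, ← hsζ, star_star, hζ, one_smul]
    have ha : (P⁻¹ * (ζ⁻¹ • g) * P).toBlocks₁₁ = 1 := by
      ext i j
      rw [hPg, map_smul, LinearMap.smul_apply, map_smul, hdia, Matrix.one_apply, smul_eq_mul]
      split_ifs with h
      · exact inv_mul_cancel₀ hζ0
      · exact mul_zero _
    obtain ⟨s, t, hs, hs1, ht, ht1, hgg⟩ := main_block (S1 := 1) (T1 := 1) hP0 hP hB hg'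
      (by simp) (by simp) (by
        rw [ha, one_mul, inv_one, one_mul, one_mul, mul_one, Matrix.mul_nonsing_inv _ hB.unit])
    refine ⟨ζ, s, t, hζ, hζp, hs, hs1, ht, ht1, ?_⟩
    rw [← hgg, smul_smul, mul_inv_cancel₀ hζ0, one_smul]

end ThU
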