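import Pool.Agent.ThU.Defs

/-! # Module GrpA -/

set_option linter.unusedSectionVars false

namespace ThU
open Matrix Polynomial Module

variable {K : Type*} [Field K] [StarRing K] {n : ℕ}

private theorem GrpA_unit {M : Matrix (Fin n) (Fin n) K} (hM : IsUnit M.det) : IsUnit Mᴴ.det := by
  rw [Matrix.det_conjTranspose]
  exact hM.star

private theorem GrpA_low {M c : Matrix (Fin n) (Fin n) K} (hM : IsUnit M.det) :
    (fromBlocks M 0 c (Mᴴ)⁻¹)ᴴ * JJ K n * fromBlocks M 0 c (Mᴴ)⁻¹ = JJ K n ↔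
      Mᴴ * c + cᴴ * M = 0 := by
  have h1 : Mᴴ * (Mᴴ)⁻¹ = 1 := Matrix.mul_nonsing_inv _ (GrpA_unit hM)
  have h2 : M⁻¹ * M = 1 := Matrix.nonsing_inv_mul _ hM
  have h3 : ((Mᴴ)⁻¹)ᴴ = M⁻¹ := by
    rw [Matrix.conjTranspose_nonsing_inv, Matrix.conjTranspose_conjTranspose]
  unfold JJ
  rw [fromBlocks_conjTranspose, fromBlocks_multiply, fromBlocks_multiply, h3]
  simp only [Matrix.mul_zero, Matrix.mul_one, Matrix.conjTranspose_zero, zero_add, add_zero,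
    Matrix.zero_mul, h1, h2, fromBlocks_inj, and_true]
  rw [add_comm]

/-- the equation `Z - A Z B = R` -/
private theorem GrpA_solve {A B : Matrix (Fin n) (Fin n) K}
    (hs : ∀ Z : Matrix (Fin n) (Fin n) K, A * Z * B = Z → Z = 0)
    (R : Matrix (Fin n) (Fin n) K) : ∃ Z, Z - A * Z * B = R := by
  let L : Matrix (Fin n) (Fin n) K →ₗ[K] Matrix (Fin n) (Fin n) K :=
    { toFun := fun Z => Z - A * Z * B
      map_add' := fun X Y => by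
        rw [Matrix.mul_add, Matrix.add_mul]
        abel
      map_smul' := fun t X => by
        rw [Matrix.mul_smul, Matrix.smul_mul, RingHom.id_apply, smul_sub] }
  have hL : Function.Injective L := by
    rw [← LinearMap.ker_eq_bot, LinearMap.ker_eq_bot']
    intro Z hZ
    have h1 : Z - A * Z * B = 0 := hZ
    exact hs Z (sub_eq_zero.1 h1).symm
  obtain ⟨Z, hZ⟩ := (LinearMap.injective_iff_surjective.1 hL) R
  exact ⟨Z, hZ⟩

private theorem GrpA_uniq {A B : Matrix (Fin n) (Fin n) K}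
    (hs : ∀ Z : Matrix (Fin n) (Fin n) K, A * Z * B = Z → Z = 0)
    {Z Z' : Matrix (Fin n) (Fin n) K} (h : Z - A * Z * B = Z' - A * Z' * B) : Z = Z' := by
  rw [← sub_eq_zero]
  apply hs
  rw [Matrix.mul_sub, Matrix.sub_mul]
  have h1 : A * Z * B = Z - (Z' - A * Z' * B) := by
    rw [← h]
    abel
  rw [h1]
  abel

/-- `u = fromBlocks 1 0 Z 1` where `Z - Mᴴ Z M = - Mᴴ c`; the linear map `Z ↦ Z - Mᴴ Z M` is injective by `hs`, hence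
bijective; `- Zᴴ` is also a solution, so `Z + Zᴴ = 0` -/
theorem unip_low {M c : Matrix (Fin n) (Fin n) K} (hM : IsUnit M.det)
    (hs : ∀ Z : Matrix (Fin n) (Fin n) K, Mᴴ * Z * M = Z → Z = 0)
    (hy : (fromBlocks M 0 c (Mᴴ)⁻¹)ᴴ * JJ K n * fromBlocks M 0 c (Mᴴ)⁻¹ = JJ K n) :
    ∃ u : Matrix (Ix n) (Ix n) K, uᴴ * JJ K n * u = JJ K n ∧ IsUnit u.det ∧
      fromBlocks M 0 c (Mᴴ)⁻¹ * u = u * XJ M := by
  rw [GrpA_low hM] at hy
  obtain ⟨Z, hZ⟩ := GrpA_solve hs (-(Mᴴ * c))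
  have hu : IsUnit Mᴴ.det := GrpA_unit hM
  have h1 : Z = -Zᴴ := by
    apply GrpA_uniq hs
    rw [hZ]
    have h2 : -Zᴴ - Mᴴ * (-Zᴴ) * M = -(Z - Mᴴ * Z * M)ᴴ := by
      rw [conjTranspose_sub, conjTranspose_mul, conjTranspose_mul, conjTranspose_conjTranspose,
        Matrix.mul_neg, Matrix.neg_mul, Matrix.mul_assoc]
      abel
    rw [h2, hZ, conjTranspose_neg, neg_neg, conjTranspose_mul, conjTranspose_conjTranspose]
    exact neg_eq_of_add_eq_zero_right hy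
  have h3 : Zᴴ + Z = 0 := by
    nth_rw 2 [h1]
    abel
  refine ⟨fromBlocks 1 0 Z 1, ?_, ?_, ?_⟩
  · unfold JJ
    rw [fromBlocks_conjTranspose, fromBlocks_multiply, fromBlocks_multiply]
    simp only [Matrix.mul_zero, Matrix.mul_one, Matrix.conjTranspose_zero, zero_add, add_zero,
      Matrix.zero_mul, conjTranspose_one, Matrix.one_mul, h3]
  · rw [det_fromBlocks_zero₁₂, det_one, one_mul]
    exact isUnit_one
  · unfold XJ
    rw [fromBlocks_multiply, fromBlocks_multiply]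
    simp only [Matrix.mul_zero, Matrix.mul_one, zero_add, add_zero, Matrix.zero_mul,
      Matrix.one_mul]
    have h4 : c + (Mᴴ)⁻¹ * Z = Z * M := by
      have h5 : Mᴴ * (Z * M) = Z + Mᴴ * c := by
        rw [← Matrix.mul_assoc]
        have h6 : Mᴴ * Z * M = Z - (Z - Mᴴ * Z * M) := by abel
        rw [h6, hZ]
        abel
      have h7 : Z * M = (Mᴴ)⁻¹ * (Mᴴ * (Z * M)) := by
        rw [← Matrix.mul_assoc, Matrix.nonsing_inv_mul _ hu, Matrix.one_mul]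
      rw [h7, h5, Matrix.mul_add, ← Matrix.mul_assoc, Matrix.nonsing_inv_mul _ hu, Matrix.one_mul]
      abel
    rw [h4]

/-- `u = fromBlocks 1 Z 0 1`, `Z - M Z Mᴴ = b Mᴴ` -/
theorem unip_up {M b : Matrix (Fin n) (Fin n) K} (hM : IsUnit M.det)
    (hs : ∀ Z : Matrix (Fin n) (Fin n) K, M * Z * Mᴴ = Z → Z = 0)
    (hy : (fromBlocks M b 0 (Mᴴ)⁻¹)ᴴ * JJ K n * fromBlocks M b 0 (Mᴴ)⁻¹ = JJ K n) :
    ∃ u : Matrix (Ix n) (Ix n) K, uᴴ * JJ K n * u = JJ K n ∧ IsUnit u.det ∧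
      fromBlocks M b 0 (Mᴴ)⁻¹ * u = u * XJ M := by
  have hu : IsUnit Mᴴ.det := GrpA_unit hM
  have k1 : Mᴴ * (Mᴴ)⁻¹ = 1 := Matrix.mul_nonsing_inv _ hu
  have k2 : M⁻¹ * M = 1 := Matrix.nonsing_inv_mul _ hM
  have k3 : ((Mᴴ)⁻¹)ᴴ = M⁻¹ := by
    rw [Matrix.conjTranspose_nonsing_inv, Matrix.conjTranspose_conjTranspose]
  have k4 : (Mᴴ)⁻¹ * Mᴴ = 1 := Matrix.nonsing_inv_mul _ hu
  have k5 : M * M⁻¹ = 1 := Matrix.mul_nonsing_inv _ hM
  have hy2 : bᴴ * (Mᴴ)⁻¹ + M⁻¹ * b = 0 := by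
    unfold JJ at hy
    rw [fromBlocks_conjTranspose, fromBlocks_multiply, fromBlocks_multiply, k3] at hy
    simp only [Matrix.mul_zero, Matrix.mul_one, Matrix.conjTranspose_zero, zero_add, add_zero,
      Matrix.zero_mul, k1, k2, fromBlocks_inj, true_and] at hy
    rw [add_comm]
    exact hy
  have hy3 : M * bᴴ + b * Mᴴ = 0 := by
    have h1 : M * (bᴴ * (Mᴴ)⁻¹ + M⁻¹ * b) * Mᴴ = 0 := by
      rw [hy2, Matrix.mul_zero, Matrix.zero_mul]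
    rw [Matrix.mul_add, Matrix.add_mul, ← Matrix.mul_assoc, ← Matrix.mul_assoc, k5,
      Matrix.one_mul, Matrix.mul_assoc, k4, Matrix.mul_one] at h1
    exact h1
  obtain ⟨Z, hZ⟩ := GrpA_solve hs (b * Mᴴ)
  have h1 : Z = -Zᴴ := by
    apply GrpA_uniq hs
    rw [hZ]
    have h2 : -Zᴴ - M * (-Zᴴ) * Mᴴ = -(Z - M * Z * Mᴴ)ᴴ := by
      rw [conjTranspose_sub, conjTranspose_mul, conjTranspose_mul, conjTranspose_conjTranspose,
        Matrix.mul_neg, Matrix.neg_mul, Matrix.mul_assoc]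
      abel
    rw [h2, hZ, conjTranspose_mul, conjTranspose_conjTranspose]
    exact (neg_eq_of_add_eq_zero_right hy3).symm
  have h3 : Zᴴ + Z = 0 := by
    nth_rw 2 [h1]
    abel
  refine ⟨fromBlocks 1 Z 0 1, ?_, ?_, ?_⟩
  · unfold JJ
    rw [fromBlocks_conjTranspose, fromBlocks_multiply, fromBlocks_multiply]
    simp only [Matrix.mul_zero, Matrix.mul_one, Matrix.conjTranspose_zero, zero_add, add_zero,
      Matrix.zero_mul, conjTranspose_one, Matrix.one_mul]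
    rw [add_comm Z, h3]
  · rw [det_fromBlocks_zero₂₁, det_one, one_mul]
    exact isUnit_one
  · unfold XJ
    rw [fromBlocks_multiply, fromBlocks_multiply]
    simp only [Matrix.mul_zero, Matrix.mul_one, zero_add, add_zero, Matrix.zero_mul,
      Matrix.one_mul]
    have h4 : M * Z + b = Z * (Mᴴ)⁻¹ := by
      have h5 : (M * Z + b) * Mᴴ = Z := by
        rw [Matrix.add_mul, ← hZ]
        abel
      rw [← h5, Matrix.mul_assoc, k1, Matrix.mul_one]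
      rw [h5]
    rw [h4]

/-- `c' = c A2⁻¹`, `b' = A1⁻¹ b` for `M = fromBlocks a b c d`; the last block is forced -/
theorem fac {M : Matrix (Ix n) (Ix n) K} {A1 A2 : Matrix (Fin n) (Fin n) K}
    (hM : Mᴴ * JJ K n * M = JJ K n) (h1 : IsUnit A1.det) (h2 : IsUnit A2.det)
    (ha : M.toBlocks₁₁ = A1 * A2) : ∃ b c : Matrix (Fin n) (Fin n) K,
      (fromBlocks A1 0 c (A1ᴴ)⁻¹)ᴴ * JJ K n * fromBlocks A1 0 c (A1ᴴ)⁻¹ = JJ K n ∧
      (fromBlocks A2 b 0 (A2ᴴ)⁻¹)ᴴ * JJ K n * fromBlocks A2 b 0 (A2ᴴ)⁻¹ = JJ K n ∧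
      M = fromBlocks A1 0 c (A1ᴴ)⁻¹ * fromBlocks A2 b 0 (A2ᴴ)⁻¹ := by
  obtain ⟨a, b0, c0, d0, rfl⟩ : ∃ a b c d, M = fromBlocks a b c d :=
    ⟨M.toBlocks₁₁, M.toBlocks₁₂, M.toBlocks₂₁, M.toBlocks₂₂, (fromBlocks_toBlocks M).symm⟩
  rw [toBlocks_fromBlocks₁₁] at ha
  have hMM := hM
  unfold JJ at hM
  rw [fromBlocks_conjTranspose, fromBlocks_multiply, fromBlocks_multiply, fromBlocks_inj] at hM
  simp only [Matrix.mul_zero, Matrix.mul_one, zero_add, add_zero] at hM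
  obtain ⟨e1, e2, -, -⟩ := hM
  have u1 : IsUnit A1ᴴ.det := GrpA_unit h1
  have u2 : IsUnit A2ᴴ.det := GrpA_unit h2
  have k1 : A1 * A1⁻¹ = 1 := Matrix.mul_nonsing_inv _ h1
  have k1' : A1⁻¹ * A1 = 1 := Matrix.nonsing_inv_mul _ h1
  have k2 : A2 * A2⁻¹ = 1 := Matrix.mul_nonsing_inv _ h2
  have k2' : A2⁻¹ * A2 = 1 := Matrix.nonsing_inv_mul _ h2
  have l1 : A1ᴴ * (A1ᴴ)⁻¹ = 1 := Matrix.mul_nonsing_inv _ u1
  have l1' : (A1ᴴ)⁻¹ * A1ᴴ = 1 := Matrix.nonsing_inv_mul _ u1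
  have l2 : A2ᴴ * (A2ᴴ)⁻¹ = 1 := Matrix.mul_nonsing_inv _ u2
  have l2' : (A2ᴴ)⁻¹ * A2ᴴ = 1 := Matrix.nonsing_inv_mul _ u2
  have hl : (fromBlocks A1 0 (c0 * A2⁻¹) (A1ᴴ)⁻¹)ᴴ * JJ K n *
      fromBlocks A1 0 (c0 * A2⁻¹) (A1ᴴ)⁻¹ = JJ K n := by
    rw [GrpA_low h1]
    have e3 : A2ᴴ * A1ᴴ * c0 + c0ᴴ * (A1 * A2) = 0 := by
      rw [← conjTranspose_mul, ← ha, add_comm]
      exact e1
    have e4 : (A2ᴴ)⁻¹ * (A2ᴴ * A1ᴴ * c0 + c0ᴴ * (A1 * A2)) * A2⁻¹ = 0 := by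
      rw [e3, Matrix.mul_zero, Matrix.zero_mul]
    have e5 : (A2ᴴ)⁻¹ * (A2ᴴ * A1ᴴ * c0 + c0ᴴ * (A1 * A2)) * A2⁻¹ =
        A1ᴴ * (c0 * A2⁻¹) + (c0 * A2⁻¹)ᴴ * A1 := by
      rw [Matrix.mul_add, Matrix.add_mul]
      congr 1
      · rw [← Matrix.mul_assoc, ← Matrix.mul_assoc, l2', Matrix.one_mul, Matrix.mul_assoc]
      · rw [conjTranspose_mul, Matrix.conjTranspose_nonsing_inv, Matrix.mul_assoc,
          Matrix.mul_assoc, Matrix.mul_assoc, k2, Matrix.mul_one, Matrix.mul_assoc]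
    rw [← e5]
    exact e4
  have hmul : fromBlocks a b0 c0 d0 = fromBlocks A1 0 (c0 * A2⁻¹) (A1ᴴ)⁻¹ *
      fromBlocks A2 (A1⁻¹ * b0) 0 (A2ᴴ)⁻¹ := by
    rw [fromBlocks_multiply, fromBlocks_inj]
    refine ⟨?_, ?_, ?_, ?_⟩
    · rw [Matrix.mul_zero, add_zero, ha]
    · rw [Matrix.zero_mul, add_zero, ← Matrix.mul_assoc, k1, Matrix.one_mul]
    · rw [Matrix.mul_zero, add_zero, Matrix.mul_assoc, k2', Matrix.mul_one]
    · -- `aᴴ d0 + c0ᴴ b0 = 1`, `c0 = - (aᴴ)⁻¹ c0ᴴ a`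
      have e3 : A2ᴴ * (A1ᴴ * d0) + c0ᴴ * b0 = 1 := by
        rw [← Matrix.mul_assoc, ← conjTranspose_mul, ← ha, add_comm]
        exact e2
      have e4 : A2ᴴ * (A1ᴴ * c0) = -(c0ᴴ * (A1 * A2)) := by
        rw [← Matrix.mul_assoc, ← conjTranspose_mul, ← ha]
        exact eq_neg_of_add_eq_zero_left ((add_comm _ _).trans e1)
      have inj : ∀ X Y : Matrix (Fin n) (Fin n) K, A2ᴴ * (A1ᴴ * X) = A2ᴴ * (A1ᴴ * Y) → X = Y := by
        intro X Y hXY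
        have f1 : ∀ X : Matrix (Fin n) (Fin n) K,
            (A1ᴴ)⁻¹ * ((A2ᴴ)⁻¹ * (A2ᴴ * (A1ᴴ * X))) = X := by
          intro X
          rw [← Matrix.mul_assoc (A2ᴴ)⁻¹, l2', Matrix.one_mul, ← Matrix.mul_assoc, l1',
            Matrix.one_mul]
        rw [← f1 X, hXY, f1 Y]
      apply inj
      have e5 : A2ᴴ * (A1ᴴ * d0) = 1 - c0ᴴ * b0 := by
        rw [← e3]
        abel
      rw [e5, Matrix.mul_add, Matrix.mul_add, ← Matrix.mul_assoc A1ᴴ (A1ᴴ)⁻¹, l1, Matrix.one_mul,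
        l2]
      have e6 : A2ᴴ * (A1ᴴ * (c0 * A2⁻¹ * (A1⁻¹ * b0))) = A2ᴴ * (A1ᴴ * c0) * (A2⁻¹ * (A1⁻¹ * b0)) := by
        simp only [Matrix.mul_assoc]
      rw [e6, e4, Matrix.neg_mul]
      have e7 : c0ᴴ * (A1 * A2) * (A2⁻¹ * (A1⁻¹ * b0)) = c0ᴴ * b0 := by
        have e8 : A1 * A2 * (A2⁻¹ * (A1⁻¹ * b0)) = b0 := by
          rw [Matrix.mul_assoc, ← Matrix.mul_assoc A2, k2, Matrix.one_mul, ← Matrix.mul_assoc, k1,
            Matrix.one_mul]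
        rw [Matrix.mul_assoc, e8]
      rw [e7]
      abel
  refine ⟨A1⁻¹ * b0, c0 * A2⁻¹, hl, ?_, hmul⟩
  rw [hmul, conjTranspose_mul] at hMM
  have f1 : ∀ X Y J : Matrix (Ix n) (Ix n) K, Yᴴ * Xᴴ * J * (X * Y) = Yᴴ * (Xᴴ * J * X) * Y := by
    intro X Y J
    simp only [Matrix.mul_assoc]
  rw [f1, hl] at hMM
  exact hMM

end ThU
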