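import Pool.Agent.ThU.Spc
import Pool.Agent.ThU.Fld

/-! # Module Iso -/

namespace ThU
open Matrix Polynomial Module

variable {K V : Type*} [Field K] [StarRing K] [AddCommGroup V] [Module K V] (H : Herm K V)
variable {U : Submodule K V}

/-- If all vectors of `U` were isotropic then `h = 0` on `U` (polarize with `x + c • y`).  So there is `a ∈ U`
with `h a a ≠ 0`, and `b ≠ 0` in `U` orthogonal to `a`; if `h b b ≠ 0` take `a + x • b` with
`x * star x = - h a a / h b b` (`fld_norm`). -/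
theorem exists_iso [Finite K] [FiniteDimensional K V] (hK : ∃ x : K, star x ≠ x) (hU : H.ND U)
    (h2 : 2 ≤ finrank K U) : ∃ w ∈ U, w ≠ 0 ∧ H.h w w = 0 := by
  have _ := hU
  by_cases hall : ∀ a ∈ U, H.h a a = 0
  · have h1 : U ≠ ⊥ := by
      rintro rfl
      rw [finrank_bot] at h2
      omega
    obtain ⟨w, hw, hw0⟩ := Submodule.exists_mem_ne_zero_of_ne_bot h1
    exact ⟨w, hw, hw0, hall w hw⟩
  push Not at hall
  obtain ⟨a, ha, haa⟩ := hall
  have hker : LinearMap.ker ((H.h a).comp U.subtype) ≠ ⊥ := by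
    apply LinearMap.ker_ne_bot_of_finrank_lt
    rw [finrank_self]
    omega
  obtain ⟨b, hb, hb0⟩ := Submodule.exists_mem_ne_zero_of_ne_bot hker
  have hab : H.h a b = 0 := hb
  have hba : H.h b a = 0 := H.swap_zero.1 hab
  have hb0' : (b : V) ≠ 0 := fun h => hb0 (Subtype.ext h)
  by_cases hbb : H.h (b : V) b = 0
  · exact ⟨b, b.2, hb0', hbb⟩
  have hfix : star (-(H.h a a * (H.h (b : V) b)⁻¹)) = -(H.h a a * (H.h (b : V) b)⁻¹) := by
    rw [star_neg, star_mul', star_inv₀, H.symm', H.symm']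
  obtain ⟨x, hx⟩ := fld_norm hK _ hfix
  refine ⟨a + x • (b : V), U.add_mem ha (U.smul_mem x b.2), ?_, ?_⟩
  · intro h0
    apply haa
    have h3 : H.h a (a + x • (b : V)) = 0 := by rw [h0, map_zero]
    rwa [map_add, map_smul, hab, smul_zero, add_zero] at h3
  · rw [H.add_left, H.smul_left, map_add, map_add, map_smul, map_smul, hab, hba]
    simp only [smul_eq_mul, mul_zero, add_zero, zero_add]
    have h4 : star x * (x * H.h (b : V) b) = x * star x * H.h (b : V) b := by ring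
    rw [h4, hx]
    field_simp
    ring

/-- take `y ∈ U` with `h y w = 1` and `y + t • w` with `t + star t = - h y y` (`fld_trace`) -/
theorem exists_partner (hK : ∃ x : K, star x ≠ x) (hU : H.ND U) {w : V} (hw : w ∈ U) (hw0 : w ≠ 0)
    (h0 : H.h w w = 0) : ∃ w' ∈ U, H.h w' w' = 0 ∧ H.h w' w = 1 := by
  have h1 : ∃ y ∈ U, H.h w y ≠ 0 := by
    by_contra hcon
    push Not at hcon
    exact hw0 (hU w hw hcon)
  obtain ⟨y, hy, hwy⟩ := h1
  have hyw : H.h y w ≠ 0 := fun h => hwy (H.swap_zero.1 h)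
  obtain ⟨y1, hy1⟩ : ∃ y1, y1 = star ((H.h y w)⁻¹) • y := ⟨_, rfl⟩
  have hy1U : y1 ∈ U := by rw [hy1]; exact U.smul_mem _ hy
  have hy1w : H.h y1 w = 1 := by
    rw [hy1, H.smul_left, star_star, inv_mul_cancel₀ hyw]
  have hwy1 : H.h w y1 = 1 := by
    rw [H.symm y1 w, hy1w, star_one]
  obtain ⟨t, ht⟩ := fld_trace hK (-(H.h y1 y1)) (by rw [star_neg, H.symm'])
  refine ⟨y1 + t • w, U.add_mem hy1U (U.smul_mem t hw), ?_, ?_⟩
  · rw [H.add_left, H.smul_left, map_add, map_add, map_smul, map_smul, hy1w, hwy1, h0]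
    simp only [smul_eq_mul, mul_zero, add_zero, mul_one]
    linear_combination ht
  · rw [H.add_left, H.smul_left, hy1w, h0, mul_zero, add_zero]

/-- Let `w`, `w'` be a hyperbolic pair in `U`.  By `perp2_dec` it is enough to take `x ∈ perp2 U w w'`; then
`x + w + t • w'` is isotropic for a suitable `t` (`fld_trace`). -/
theorem span_iso [Finite K] [FiniteDimensional K V] (hK : ∃ x : K, star x ≠ x) (hU : H.ND U)
    (h2 : 2 ≤ finrank K U) {x : V} (hx : x ∈ U) :
    x ∈ Submodule.span K {w | w ∈ U ∧ H.h w w = 0} := by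
  obtain ⟨w, hw, hw0, hww⟩ := exists_iso H hK hU h2
  obtain ⟨w', hw', hww', hw'w⟩ := exists_partner H hK hU hw hw0 hww
  have hwd : H.h w w' = 1 := by rw [H.symm w' w, hw'w, star_one]
  obtain ⟨s, t, hst⟩ := perp2_dec H hw hw' hww hww' (by rw [hwd]; exact one_ne_zero) x hx
  obtain ⟨x1, hx1⟩ : ∃ x1, x1 = x - s • w - t • w' := ⟨_, rfl⟩
  rw [← hx1] at hst
  obtain ⟨hx1U, hwx, hw'x⟩ := H.mem_perp2.1 hst
  have hxw : H.h x1 w = 0 := H.swap_zero.1 hwx
  have hxw' : H.h x1 w' = 0 := H.swap_zero.1 hw'x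
  obtain ⟨r, hr⟩ := fld_trace hK (-(H.h x1 x1)) (by rw [star_neg, H.symm'])
  have hv : x1 + w + r • w' ∈ Submodule.span K {w | w ∈ U ∧ H.h w w = 0} := by
    refine Submodule.subset_span ⟨U.add_mem (U.add_mem hx1U hw) (U.smul_mem r hw'), ?_⟩
    simp only [H.add_left, H.smul_left, map_add, map_smul, hwx, hw'x, hxw, hxw', hww, hww', hw'w,
      hwd, smul_eq_mul, mul_zero, add_zero, mul_one, zero_add]
    linear_combination hr
  have hwS : w ∈ Submodule.span K {w | w ∈ U ∧ H.h w w = 0} := Submodule.subset_span ⟨hw, hww⟩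
  have hw'S : w' ∈ Submodule.span K {w | w ∈ U ∧ H.h w w = 0} :=
    Submodule.subset_span ⟨hw', hww'⟩
  have hxe : x = (x1 + w + r • w') - w - r • w' + s • w + t • w' := by
    rw [hx1]
    abel
  rw [hxe]
  exact add_mem (add_mem (sub_mem (sub_mem hv hwS) (Submodule.smul_mem _ r hw'S))
    (Submodule.smul_mem _ s hwS)) (Submodule.smul_mem _ t hw'S)

end ThU
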