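import Pool.Agent.ThU.Compl

/-! # Odd dimension: definitions and simple facts -/

namespace ThU
open Matrix Polynomial Module

section
variable {K V : Type*} [Field K] [StarRing K] [AddCommGroup V] [Module K V] (H : Herm K V)

/-- `G` has triangular compressions with the diagonal `(l, x)` for every `x ≠ 0` -/
def Herm.FreeT (U : Submodule K V) (G : V →ₗ[K] V) (k : ℕ) (l : Fin k → K) : Prop :=
  (∀ i, l i ≠ 0) ∧ ∀ x : K, x ≠ 0 → H.Tri U G (k + 1) (Fin.snoc l x)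

/-- first alternative: a triangular compression with determinant 1 and not all diagonal entries equal -/
def Herm.AltA (G : V →ₗ[K] V) (n : ℕ) : Prop :=
  ∃ l : Fin n → K, H.Tri ⊤ G n l ∧ ∏ i, l i = 1 ∧ ∃ i j, l i ≠ l j

/-- second alternative: a scalar compression -/
def Herm.AltB (G : V →ₗ[K] V) (n : ℕ) : Prop :=
  ∃ ζ : K, ζ * star ζ = 1 ∧ ζ ^ (2 * n + 1) = 1 ∧ H.Dia ⊤ G n (fun _ => ζ)

/-- third alternative: the exceptional elements -/
def Herm.AltC (G : V →ₗ[K] V) (n : ℕ) : Prop :=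
  ∃ ζ : K, ζ * star ζ = 1 ∧ ζ ^ n = 1 ∧ ζ ≠ 1 ∧ ∃ w w' : Fin n → V, H.Hyp ⊤ n w w' ∧
    ∃ c : K, c ≠ 0 ∧ ∃ i0 j0 : Fin n, i0 ≠ j0 ∧ ∀ i j, H.h (w' i) (G (w j)) =
      (if i = j then ζ else 0) + (if i = i0 ∧ j = j0 then c else 0)

variable {U U' : Submodule K V} {G : V →ₗ[K] V} {n : ℕ}

theorem hyp_mono (hU : U' ≤ U) {w w' : Fin n → V} (h : H.Hyp U' n w w') : H.Hyp U n w w' :=
  ⟨fun i => hU (h.mem i), fun i => hU (h.mem' i), h.iso, h.iso', h.dual⟩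

theorem tri_mono (hU : U' ≤ U) {l : Fin n → K} (h : H.Tri U' G n l) : H.Tri U G n l := by
  obtain ⟨w, w', h1, h2⟩ := h
  exact ⟨w, w', hyp_mono H hU h1, h2⟩

theorem dia_mono (hU : U' ≤ U) {l : Fin n → K} (h : H.Dia U' G n l) : H.Dia U G n l := by
  obtain ⟨w, w', h1, h2⟩ := h
  exact ⟨w, w', hyp_mono H hU h1, h2⟩

theorem free_mono (hU : U' ≤ U) {l : Fin n → K} (h : H.FreeT U' G n l) : H.FreeT U G n l :=
  ⟨h.1, fun x hx => tri_mono H hU (h.2 x hx)⟩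

theorem free_g1 {w : V} (hG : H.Iso U G) (hw : w ∈ U) (h0 : H.h w w = 0) (hz : H.h w (G w) ≠ 0)
    {l0 : K} {l : Fin n → K} (hl : Good l0 (H.h w (G w)))
    (h : H.FreeT (H.perp2 U w (G w)) (H.g1 G w) n l) : H.FreeT U G (n + 1) (Fin.cons l0 l) := by
  refine ⟨fun i => ?_, fun x hx => ?_⟩
  · refine Fin.cases ?_ (fun i => ?_) i
    · exact hl.1
    · exact h.1 i
  · have h1 := tri_g1 H hG hw h0 hz hl (h.2 x hx)
    rwa [Fin.cons_snoc_eq_snoc_cons] at h1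

theorem free_g2 {w w' : V} (hG : H.Iso U G) (hw : w ∈ U) (hw' : w' ∈ U) (h0 : H.h w w = 0)
    (h0' : H.h w' w' = 0) (h1 : H.h w' w = 1) {c : K} (hc : c ≠ 0) (he : G w = c • w)
    {l : Fin n → K} (h : H.FreeT (H.perp2 U w w') (H.g2 G w w') n l) :
    H.FreeT U G (n + 1) (Fin.cons c l) := by
  refine ⟨fun i => ?_, fun x hx => ?_⟩
  · refine Fin.cases ?_ (fun i => ?_) i
    · exact hc
    · exact h.1 i
  · have h1 := tri_g2 H hG hw hw' h0 h0' h1 hc he (h.2 x hx)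
    rwa [Fin.cons_snoc_eq_snoc_cons] at h1

/-- choose the free entry such that the product is 1 -/
theorem free_one {l : Fin n → K} (h : H.FreeT ⊤ G n l) (hA : ¬ H.AltA G (n + 1)) :
    (∀ i j, l i = l j) ∧ ∀ i, l i ^ (n + 1) = 1 := by
  have hp : ∏ i, l i ≠ 0 := Finset.prod_ne_zero_iff.2 fun i _ => h.1 i
  have h1 := h.2 (∏ i, l i)⁻¹ (inv_ne_zero hp)
  have hprod : ∏ i, (Fin.snoc l (∏ i, l i)⁻¹ : Fin (n + 1) → K) i = 1 := by
    rw [Fin.prod_univ_castSucc]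
    simp only [Fin.snoc_castSucc, Fin.snoc_last]
    exact mul_inv_cancel₀ hp
  have heq : ∀ i j, (Fin.snoc l (∏ i, l i)⁻¹ : Fin (n + 1) → K) i =
      (Fin.snoc l (∏ i, l i)⁻¹ : Fin (n + 1) → K) j := by
    by_contra hc
    push Not at hc
    exact hA ⟨_, h1, hprod, hc⟩
  have e1 : ∀ i : Fin n, (Fin.snoc l (∏ i, l i)⁻¹ : Fin (n + 1) → K) i.castSucc = l i := fun i => by
    rw [Fin.snoc_castSucc]
  refine ⟨fun i j => ?_, fun i => ?_⟩
  · rw [← e1 i, ← e1 j]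
    exact heq _ _
  · rw [← e1 i, ← hprod, Finset.prod_congr rfl fun j _ => heq j i.castSucc, Finset.prod_const,
      Finset.card_univ, Fintype.card_fin]

end

end ThU
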