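import Pool.Agent.ThU.ONs
import Pool.Agent.ThU.OAbt
import Pool.Agent.ThU.Two

/-! # Module OConA -/

namespace ThU
open Matrix Polynomial Module

variable {K V : Type*} [Field K] [StarRing K] [AddCommGroup V] [Module K V] (H : Herm K V)
variable {U : Submodule K V} {G : V →ₗ[K] V}

/-- an eigenvector in the plane: the exceptional case -/
private theorem OConA_eig (hU : H.ND U) (hG : H.Iso U G) {w : V} (hw : w ∈ U)
    (h0 : H.h w w = 0) (hz : H.h w (G w) ≠ 0) {ζ : K} (hζ : ζ * star ζ = 1)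
    (hc : ∀ x ∈ H.perp2 U w (G w), G x = ζ • x)
    (hne : star ζ * H.h w (G w) + ζ * star (H.h w (G w)) ≠ 0) {s t : K}
    (hst : ¬ (s = 0 ∧ t = 0)) (he : G (s • w + t • G w) = ζ • (s • w + t • G w)) :
    ∃ e ∈ U, ∃ d ∈ U, H.h e d = 0 ∧ H.h d d ≠ 0 ∧ G e = ζ • e ∧ (∃ a : K, w = a • e + d) ∧
      ∀ x ∈ U, H.h d x = 0 → G x = ζ • x := by
  have hGw : G w ∈ U := hG.1 w hw
  have hGw0 : H.h (G w) (G w) = 0 := by rw [hG.2 w hw w hw, h0]
  have hzs : H.h (G w) w = star (H.h w (G w)) := (H.symm' w (G w)).symm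
  have hζ0 : ζ ≠ 0 := fun h => by rw [h, zero_mul] at hζ; exact zero_ne_one hζ
  -- `w` is not an eigenvector
  have hwe : ∀ c : K, G w ≠ c • w := by
    intro c h
    apply hz
    rw [h, map_smul, h0, smul_zero]
  obtain ⟨e, he'⟩ : ∃ e, e = s • w + t • G w := ⟨_, rfl⟩
  rw [← he'] at he
  have heU : e ∈ U := by
    rw [he']
    exact U.add_mem (U.smul_mem _ hw) (U.smul_mem _ hGw)
  have ht : t ≠ 0 := by
    intro ht
    have hs : s ≠ 0 := fun hs => hst ⟨hs, ht⟩
    rw [ht, zero_smul, add_zero] at he'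
    apply hwe ζ
    have h1 : w = s⁻¹ • e := by rw [he', smul_smul, inv_mul_cancel₀ hs, one_smul]
    rw [h1, map_smul, he, smul_comm]
  have hGwe : G w = t⁻¹ • e - (t⁻¹ * s) • w := by
    rw [he', smul_add, smul_smul, smul_smul, inv_mul_cancel₀ ht, one_smul]
    abel
  have hew : H.h e w = star t * star (H.h w (G w)) := by
    rw [he', H.add_left, H.smul_left, H.smul_left, h0, hzs, mul_zero, zero_add]
  have hew0 : H.h e w ≠ 0 := by
    rw [hew]
    exact mul_ne_zero (by rw [Ne, star_eq_zero]; exact ht) (by rw [Ne, star_eq_zero]; exact hz)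
  -- `e` is not isotropic
  have hee : H.h e e ≠ 0 := by
    intro hee
    have h1 : H.h e (G w) = ζ * H.h e w := by
      have h2 := hG.2 e heU w hw
      rw [he, H.smul_left] at h2
      rw [← h2]
      linear_combination (- H.h e (G w)) * hζ
    have h2 : t⁻¹ * s = - ζ := by
      rw [hGwe, map_sub, map_smul, map_smul, hee, smul_zero, smul_eq_mul] at h1
      have h3 : (t⁻¹ * s + ζ) * H.h e w = 0 := by linear_combination -h1
      exact eq_neg_of_add_eq_zero_left ((mul_eq_zero.1 h3).resolve_right hew0)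
    rw [h2, neg_smul, sub_neg_eq_add] at hGwe
    apply hne
    have h3 := hGw0
    have h4 : H.h w (G w) = t⁻¹ * H.h w e := by
      rw [hGwe, map_add, map_smul, map_smul, h0, smul_eq_mul, smul_zero, add_zero]
    have h5 : H.h (G w) w = star t⁻¹ * H.h e w := by
      rw [hGwe, H.add_left, H.smul_left, H.smul_left, h0, mul_zero, add_zero]
    rw [hGwe, H.add_left, H.smul_left, H.smul_left, map_add, map_add, map_smul, map_smul, map_smul,
      map_smul, hee, h0] at h3
    simp only [smul_eq_mul, mul_zero, zero_add, add_zero] at h3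
    rw [← hzs, h5, h4]
    linear_combination h3
  obtain ⟨a, ha⟩ : ∃ a, a = H.h e w / H.h e e := ⟨_, rfl⟩
  obtain ⟨d, hd⟩ : ∃ d, d = w - a • e := ⟨_, rfl⟩
  have hdU : d ∈ U := by
    rw [hd]
    exact U.sub_mem hw (U.smul_mem _ heU)
  have hwd : w = a • e + d := by rw [hd]; abel
  have hed : H.h e d = 0 := by
    rw [hd, map_sub, map_smul, ha, smul_eq_mul, div_mul_cancel₀ _ hee, sub_self]
  have hde : H.h d e = 0 := H.swap_zero.1 hed
  have hd0 : d ≠ 0 := by
    intro h
    rw [h, add_zero] at hwd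
    apply hwe ζ
    rw [hwd, map_smul, he, smul_comm]
  -- decomposition
  have hdec : ∀ x ∈ U, ∃ p q : K, ∃ x1 ∈ H.perp2 U w (G w), x = p • e + q • d + x1 := by
    intro x hx
    obtain ⟨p, q, hpq⟩ := perp2_dec H hw hGw h0 hGw0 hz x hx
    refine ⟨p * a + q * (t⁻¹ - (t⁻¹ * s) * a), p - q * (t⁻¹ * s), _, hpq, ?_⟩
    have h1 : d = w - a • e := hd
    rw [hGwe, h1]
    module
  have hd1 : ∀ x ∈ H.perp2 U w (G w), H.h d x = 0 := by
    intro x hx
    obtain ⟨-, h1, h2⟩ := H.mem_perp2.1 hx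
    rw [hd, H.sub_left, H.smul_left, he', H.add_left, H.smul_left, H.smul_left, h1, h2]
    simp
  have hdd : H.h d d ≠ 0 := by
    intro hdd
    refine hd0 (hU d hdU fun x hx => ?_)
    obtain ⟨p, q, x1, hx1, rfl⟩ := hdec x hx
    rw [map_add, map_add, map_smul, map_smul, hde, hdd, hd1 x1 hx1]
    simp
  refine ⟨e, heU, d, hdU, hed, hdd, he, ⟨a, hwd⟩, fun x hx hdx => ?_⟩
  obtain ⟨p, q, x1, hx1, rfl⟩ := hdec x hx
  rw [map_add, map_add, map_smul, map_smul, hde, hd1 x1 hx1, smul_zero, zero_add, add_zero,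
    smul_eq_mul] at hdx
  have hq : q = 0 := (mul_eq_zero.1 hdx).resolve_right hdd
  rw [hq, zero_smul, add_zero, map_add, map_smul, he, hc x1 hx1]
  module

/-- First part of `odd_const`: there is an isotropic `w` with `z = h w (G w) ∉ {0, l}`.  Then `g1` is a scalar `c` on
`U1 = perp2 U w (G w)`: otherwise `free_exists` for `g1` and `free_g1` (`two_good`: `Good z z`) contradict `hc`.  There is no
`x0 ∈ U1` with `h w (G x0) ≠ 0`: otherwise `ab_two` gives `w2`, and again `free_exists`, `free_g1` contradict `hc`.  So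
`G = c` on `U1`, and `free_plane` and `hc` give `c = l`.  If `G - l` were injective on `⟨w, G w⟩`, `ns_plane` with an isotropic
`u ≠ 0` in `U1` would give `w + u` with `h (w + u) (G (w + u)) = z`, contradiction as before.  So there is
`e = s • w + t • G w ≠ 0` with `G e = l • e`.  `e` is not isotropic: otherwise (`h w e ≠ 0`) `G w = l • w + c' • e`
(`G w - l • w` is in the plane and orthogonal to `e`), `z = c' * h w e`, and `h (G w) (G w) = 0` gives that `l⁻¹ * z` is fixed by
`star`, so `z ∈ {0, l}`.  Let `d ≠ 0` be in the plane and orthogonal to `e`.  If `x ∈ U`, `h d x = 0` then `x` is a sum of a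
multiple of `e` and an element of `U1`, so `G x = l • x`. -/
theorem oconst_a [Finite K] [FiniteDimensional K V] (hK : ∃ x : K, star x ≠ x)
    (hF : ∀ t : K, star t = t → t = 0 ∨ t = 1) {k : ℕ} (hU : H.ND U) (hn : finrank K U = 2 * k + 5)
    (hG : H.Iso U G) {l : K} (hl : l ≠ 0)
    (hc : ∀ d : Fin (k + 1) → K, H.FreeT U G (k + 1) d → ∀ i, d i = l) {w : V} (hw : w ∈ U)
    (h0 : H.h w w = 0) (hz : H.h w (G w) ≠ 0) (hzl : H.h w (G w) ≠ l) :
    ∃ d ∈ U, H.h d d ≠ 0 ∧ ∀ x ∈ U, H.h d x = 0 → G x = l • x := by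
  have hGw : G w ∈ U := hG.1 w hw
  have hGw0 : H.h (G w) (G w) = 0 := by rw [hG.2 w hw w hw, h0]
  have hll := two_norm hF hl
  have h2 := two_char hF
  -- step 1
  have key : ∀ v ∈ U, H.h v v = 0 → H.h v (G v) ≠ 0 → H.h v (G v) ≠ l →
      Scal (H.perp2 U v (G v)) (H.g1 G v) := by
    intro v hv hv0 hvz hvl
    by_contra hs
    have hGv : G v ∈ U := hG.1 v hv
    have hGv0 : H.h (G v) (G v) = 0 := by rw [hG.2 v hv v hv, hv0]
    have hU1 := perp2_ND H hU hv hGv hv0 hGv0 hvz
    have hfr1 := perp2_finrank H hv hGv hv0 hGv0 hvz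
    obtain ⟨l', hl'⟩ := free_exists H hK hU1 (k := k) (by omega) (iso_g1 H hG hv hv0 hvz) hs
    have h1 := free_g1 H hG hv hv0 hvz ((two_good hF hvz).2 rfl) hl'
    have h3 := hc _ h1 0
    rw [Fin.cons_zero] at h3
    exact hvl h3
  obtain ⟨c, hcs⟩ := key w hw h0 hz hzl
  have hU1 := perp2_ND H hU hw hGw h0 hGw0 hz
  have hfr1 := perp2_finrank H hw hGw h0 hGw0 hz
  -- step 2
  have hβ : ∀ x ∈ H.perp2 U w (G w), H.h w (G x) = 0 := by
    intro x0 hx0
    by_contra hβ
    obtain ⟨w2, hw2, e1, e2, e3, e4⟩ := ab_two H hK hU (by omega) hG hw h0 hz hcs hx0 hβ hzl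
    exact e4 (key w2 hw2 e1 e2 e3)
  have hcG : ∀ x ∈ H.perp2 U w (G w), G x = c • x := by
    intro x hx
    have h1 := hcs x hx
    rw [H.g1_apply, hβ x hx, zero_mul, zero_smul, sub_zero] at h1
    exact h1
  have hcl : c = l := by
    have h1 := free_plane H hK hU (k := k + 1) (by omega) hG hw h0 hz hcG
    exact hc _ h1 0
  subst hcl
  have hnin : ¬ ∀ s t : K, G (s • w + t • G w) = c • (s • w + t • G w) → s = 0 ∧ t = 0 := by
    intro hinj
    obtain ⟨u, hu, hu0, huu⟩ := exists_iso H hK hU1 (by omega)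
    obtain ⟨hp1, hp2, hp3⟩ := ns_plane H hK hU (by omega) hG hw h0 hz hcG hinj hu hu0 huu
    exact hp3 (key (w + u) (U.add_mem hw (H.mem_perp2.1 hu).1) hp1 (by rw [hp2]; exact hz)
      (by rw [hp2]; exact hzl))
  push Not at hnin
  obtain ⟨s, t, he, hst⟩ := hnin
  have hne : star c * H.h w (G w) + c * star (H.h w (G w)) ≠ 0 := by
    intro h
    have hs : star (star c * H.h w (G w)) = star c * H.h w (G w) := by
      rw [star_mul', star_star]
      linear_combination h - (star c * H.h w (G w)) * h2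
    rcases hF _ hs with h3 | h3
    · exact absurd h3 (mul_ne_zero (by rw [Ne, star_eq_zero]; exact hl) hz)
    · apply hzl
      linear_combination c * h3 - H.h w (G w) * hll
  obtain ⟨e, -, d, hdU, -, hdd, -, -, hx⟩ := OConA_eig H hU hG hw h0 hz hll hcG hne
    (fun h => hst h.1 h.2) he
  exact ⟨d, hdU, hdd, hx⟩

end ThU
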