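import Pool.Agent.ThU.OFree
import Pool.Agent.ThU.Two

/-! # Module OConB -/

namespace ThU
open Matrix Polynomial Module

variable {K V : Type*} [Field K] [StarRing K] [AddCommGroup V] [Module K V] (H : Herm K V)
variable {U : Submodule K V} {G : V →ₗ[K] V}

/-- the inverse isometry -/
private theorem OConB_inv [FiniteDimensional K V] (hU : H.ND U) (hG : H.Iso U G) :
    ∃ F : V →ₗ[K] V, (∀ x ∈ U, F x ∈ U) ∧ (∀ x ∈ U, F (G x) = x) ∧ ∀ x ∈ U, G (F x) = x := by
  set g : U →ₗ[K] U := G.restrict hG.1 with hg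
  have hinj : Function.Injective g := by
    rw [← LinearMap.ker_eq_bot, LinearMap.ker_eq_bot']
    intro x hx
    apply Subtype.ext
    refine hU x x.2 fun y hy => ?_
    have h1 : G (x : V) = 0 := congrArg Subtype.val hx
    rw [← hG.2 x x.2 y hy, h1, H.zero_left]
  set e := LinearEquiv.ofInjectiveEndo g hinj with he
  obtain ⟨F, hF⟩ := LinearMap.exists_extend (U.subtype ∘ₗ (e.symm : U →ₗ[K] U))
  have hFa : ∀ x : U, F (x : V) = (e.symm x : V) := fun x => by
    have := congrArg (fun f : U →ₗ[K] V => f x) hF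
    exact this
  have hea : ∀ x : U, ((e x : U) : V) = G (x : V) := fun x => rfl
  refine ⟨F, fun x hx => ?_, fun x hx => ?_, fun x hx => ?_⟩
  · rw [hFa ⟨x, hx⟩]
    exact (e.symm ⟨x, hx⟩).2
  · have h1 := hFa (e ⟨x, hx⟩)
    rw [e.symm_apply_apply] at h1
    exact h1
  · rw [hFa ⟨x, hx⟩, ← hea, e.apply_symm_apply]

/-- `E1` is the eigenspace of `G` for `μ` and has dimension at least 3, `x0` is another eigenvector -/
private theorem OConB_eig [Finite K] [FiniteDimensional K V] (hK : ∃ x : K, star x ≠ x) {k : ℕ}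
    (hU : H.ND U) (hn : finrank K U = 2 * k + 5) (hG : H.Iso U G) {μ ν : K} (hμν : μ ≠ ν)
    {E1 : Submodule K V} (hE1 : ∀ x, x ∈ E1 ↔ x ∈ U ∧ G x = μ • x) (h3 : 3 ≤ finrank K E1) {x0 : V}
    (hx0 : x0 ∈ U) (hx00 : x0 ≠ 0) (hGx0 : G x0 = ν • x0) (hort : ∀ y ∈ E1, H.h y x0 = 0) :
    ∃ l : Fin k → K, H.FreeT U G (k + 1) (Fin.cons μ l) := by
  obtain ⟨y, hy, hy0, hyy⟩ := iso_in_two H hK (L := E1) (by omega)
  -- a second vector
  have h4 : finrank K E1 ≤ finrank K (E1 ⊓ LinearMap.ker (H.h y) : Submodule K V) + 1 := by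
    have h5 := LinearMap.finrank_range_add_finrank_ker ((H.h y).domRestrict E1)
    have h6 : finrank K (LinearMap.range ((H.h y).domRestrict E1)) ≤ 1 := by
      calc _ ≤ finrank K K := Submodule.finrank_le _
        _ = 1 := finrank_self K
    have h7 : finrank K (LinearMap.ker ((H.h y).domRestrict E1)) ≤
        finrank K (E1 ⊓ LinearMap.ker (H.h y) : Submodule K V) := by
      rw [← Submodule.finrank_map_subtype_eq E1]
      refine Submodule.finrank_mono ?_
      rintro _ ⟨z, hz, rfl⟩
      exact ⟨z.2, hz⟩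
    omega
  have h5 : ∃ y2 ∈ (E1 ⊓ LinearMap.ker (H.h y) : Submodule K V), y2 ∉ Submodule.span K {y} := by
    by_contra hcon
    push Not at hcon
    have h6 := Submodule.finrank_mono (s := (E1 ⊓ LinearMap.ker (H.h y) : Submodule K V))
      (t := Submodule.span K {y}) hcon
    have h7 := finrank_span_singleton (K := K) hy0
    omega
  obtain ⟨y2, ⟨hy2, hyy2⟩, hsp⟩ := h5
  have hyU := (hE1 y).1 hy
  have hy2U := (hE1 y2).1 hy2
  refine free_eig H hK hU hn hG hyU.1 hy0 hyy hyU.2 hy2U.1 hy2U.2 hyy2 hsp hx0 (hort y hy) ?_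
  rw [hGx0, ← sub_smul]
  intro h6
  have h7 : (ν - μ) • x0 ∈ E1 := by
    rw [Submodule.mem_span_singleton] at h6
    obtain ⟨a, ha⟩ := h6
    rw [← ha]
    exact E1.smul_mem _ hy
  have h8 : ν - μ ≠ 0 := sub_ne_zero.2 hμν.symm
  have h9 : x0 ∈ E1 := by
    rwa [E1.smul_mem_iff h8] at h7
  have h10 := ((hE1 x0).1 h9).2
  rw [hGx0, ← sub_eq_zero, ← sub_smul] at h10
  rcases smul_eq_zero.1 h10 with h | h
  · exact h8 h
  · exact hx00 h

/-- Second part: `h w (G w) ∈ {0, l}` for all isotropic `w ∈ U`.  As in the proof of `two_const` (`scal_of_iso` for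
`star l • G - l • F`, `F` the inverse of `G` on `U`): `l⁻¹ G - (l⁻¹ G)⁻¹ = c` on `U` with `c ∈ {0, 1}`, and we are done if `c = 0`.  If
`c = 1` then `U` is the orthogonal sum of the eigenspaces of `G` for `l * o` and `l * o²` (`two_omega`); one of them, `E1` (for
`μ ≠ l`), has dimension at least 3; the other one contains `x0 ≠ 0` since `G` is not a scalar.  Take an isotropic `y ≠ 0` in
`E1` (`iso_in_two`) and `y2 ∈ E1`, `h y y2 = 0`, `y2 ∉ ⟨y⟩` (dimension).  `free_eig` gives `FreeT U G (k + 1) (cons μ _)`, a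
contradiction. -/
theorem oconst_b [Finite K] [FiniteDimensional K V] (hK : ∃ x : K, star x ≠ x)
    (hF : ∀ t : K, star t = t → t = 0 ∨ t = 1) {k : ℕ} (hU : H.ND U) (hn : finrank K U = 2 * k + 5)
    (hG : H.Iso U G) (hs : ¬ Scal U G) {l : K} (hl : l ≠ 0)
    (hc : ∀ d : Fin (k + 1) → K, H.FreeT U G (k + 1) d → ∀ i, d i = l)
    (hw : ∀ w ∈ U, H.h w w = 0 → H.h w (G w) = 0 ∨ H.h w (G w) = l) :
    ∀ x ∈ U, G (G x) = l ^ 2 • x := by
  have h2 := two_char hF
  have hll := two_norm hF hl
  obtain ⟨F, hF1, hF2, hF3⟩ := OConB_inv H hU hG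
  -- `h x (F x) = star (h x (G x))`
  have hFs : ∀ x ∈ U, H.h x (F x) = star (H.h x (G x)) := by
    intro x hx
    rw [← hG.2 x hx (F x) (hF1 x hx), hF3 x hx]
    exact H.symm x (G x)
  have hls : l⁻¹ = star l := by
    rw [← mul_right_inj' hl, mul_inv_cancel₀ hl, hll]
  obtain ⟨c, hcT⟩ := scal_of_iso H hK hU (by omega) (star l • G - l • F) (fun x hx => by
    show star l • G x - l • F x ∈ U
    exact U.sub_mem (U.smul_mem _ (hG.1 x hx)) (U.smul_mem _ (hF1 x hx))) (fun w hw' hww => by
    show H.h w (star l • G w - l • F w) = 0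
    rw [map_sub, map_smul, map_smul, hFs w hw']
    rcases hw w hw' hww with h3 | h3
    · rw [h3]; simp
    · rw [h3, smul_eq_mul, smul_eq_mul]
      ring)
  have hcT' : ∀ x ∈ U, star l • G x - l • F x = c • x := hcT
  -- the quadratic equation
  have hquad : ∀ x ∈ U, G (G x) = l ^ 2 • x + (c * l) • G x := by
    intro x hx
    have h3 := hcT' (G x) (hG.1 x hx)
    rw [hF2 x hx] at h3
    have h4 : l • (star l • G (G x)) = l • (c • G x + l • x) := by
      rw [← h3, sub_add_cancel]
    rw [smul_smul, hll, one_smul, smul_add, smul_smul, smul_smul] at h4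
    rw [h4, add_comm, sq, mul_comm c l]
  -- `c` is fixed by `star`
  have hfr : 2 ≤ finrank K U := by omega
  have hcs : star c = c := by
    obtain ⟨w, hw, hw0, hww⟩ := exists_iso H hK hU hfr
    obtain ⟨w', hw', hww', hw'w⟩ := exists_partner H hK hU hw hw0 hww
    have hww'1 : H.h w w' = 1 := by rw [H.symm w' w, hw'w, star_one]
    obtain ⟨t, ht⟩ := fld_trace hK 1 (star_one K)
    have hx : w + t • w' ∈ U := U.add_mem hw (U.smul_mem t hw')
    have hxx : H.h (w + t • w') (w + t • w') = 1 := by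
      simp only [H.add_left, H.smul_left, map_add, map_smul, smul_eq_mul, hww, hww', hw'w, hww'1]
      linear_combination ht
    have h3 := congrArg (H.h (w + t • w')) (hcT' _ hx)
    rw [map_sub, map_smul, map_smul, map_smul, hFs _ hx, hxx, smul_eq_mul, smul_eq_mul,
      smul_eq_mul, mul_one] at h3
    rw [← h3, star_sub, star_mul', star_mul', star_star, star_star]
    linear_combination (l * star (H.h (w + t • w') (G (w + t • w'))) -
      star l * H.h (w + t • w') (G (w + t • w'))) * h2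
  rcases hF c hcs with hc0 | hc1
  · intro x hx
    rw [hquad x hx, hc0, zero_mul, zero_smul, add_zero]
  exfalso
  obtain ⟨o, ho0, ho1, ho2, hos, -⟩ := two_omega hK hF
  have ho1' : o + 1 ≠ 0 := by
    intro h3
    apply ho1
    linear_combination h3 - h2
  -- eigenspaces
  set E : K → Submodule K V := fun μ => U ⊓ LinearMap.ker (G - μ • LinearMap.id) with hE
  have hEm : ∀ μ x, x ∈ E μ ↔ x ∈ U ∧ G x = μ • x := by
    intro μ x
    rw [hE]
    simp only [Submodule.mem_inf, LinearMap.mem_ker, LinearMap.sub_apply, LinearMap.smul_apply,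
      LinearMap.id_coe, id_eq, sub_eq_zero]
  have hortho : ∀ x ∈ E (l * o), ∀ y ∈ E (l * (o + 1)), H.h x y = 0 := by
    intro x hx y hy
    rw [hEm] at hx hy
    have h3 := hG.2 x hx.1 y hy.1
    rw [hx.2, hy.2, H.smul_left, map_smul, smul_eq_mul, star_mul', hos] at h3
    have h4 : (o - 1) * H.h x y = 0 := by
      have h5 : star l * (o + 1) * (l * (o + 1) * H.h x y) = o * H.h x y := by
        linear_combination ((o + 1) ^ 2 * H.h x y) * hll + H.h x y * ho2 + (o + 1) * H.h x y * h2
      rw [h5] at h3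
      linear_combination h3
    rcases mul_eq_zero.1 h4 with h5 | h5
    · exact absurd (sub_eq_zero.1 h5) ho1
    · exact h5
  have hortho' : ∀ y ∈ E (l * (o + 1)), ∀ x ∈ E (l * o), H.h y x = 0 := fun y hy x hx =>
    H.swap_zero.1 (hortho x hx y hy)
  -- components
  have hcomp : ∀ x ∈ U, ∃ a ∈ E (l * o), ∃ b ∈ E (l * (o + 1)), x = a + b := by
    intro x hx
    have hq := hquad x hx
    rw [hc1, one_mul] at hq
    refine ⟨- (star l • G x - (o + 1) • x), ?_, star l • G x - o • x, ?_, ?_⟩
    · rw [hEm]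
      refine ⟨U.neg_mem (U.sub_mem (U.smul_mem _ (hG.1 x hx)) (U.smul_mem _ hx)), ?_⟩
      rw [map_neg, map_sub, map_smul, map_smul, hq]
      have e1 : star l * l ^ 2 = l := by linear_combination l * hll
      have e2 : star l * l = 1 := by linear_combination hll
      rw [smul_add, smul_smul, smul_smul, e1, e2, smul_neg, smul_sub, smul_smul, smul_smul]
      have e3 : l * o * star l = o := by linear_combination o * hll
      have e4 : l * o * (o + 1) = l := by linear_combination l * ho2 + l * o * h2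
      rw [e3, e4, one_smul, ← sub_eq_zero]
      have e5 : (2 * o : K) = 0 := by rw [h2, zero_mul]
      have e6 : (2 * l : K) = 0 := by rw [h2, zero_mul]
      have e7 : -(l • x + G x - (o + 1) • G x) - -(o • G x - l • x) =
          (2 * o) • G x - (2 * l) • x := by module
      rw [e7, e5, e6]
      simp
    · rw [hEm]
      refine ⟨U.sub_mem (U.smul_mem _ (hG.1 x hx)) (U.smul_mem _ hx), ?_⟩
      rw [map_sub, map_smul, map_smul, hq]
      have e1 : star l * l ^ 2 = l := by linear_combination l * hll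
      have e2 : star l * l = 1 := by linear_combination hll
      rw [smul_add, smul_smul, smul_smul, e1, e2, smul_sub, smul_smul, smul_smul]
      have e3 : l * (o + 1) * star l = o + 1 := by linear_combination (o + 1) * hll
      have e4 : l * (o + 1) * o = l := by linear_combination l * ho2 + l * o * h2
      rw [e3, e4, one_smul, ← sub_eq_zero]
      have e5 : (2 * o : K) = 0 := by rw [h2, zero_mul]
      have e6 : (2 * l : K) = 0 := by rw [h2, zero_mul]
      have e7 : l • x + G x - o • G x - ((o + 1) • G x - l • x) =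
          (2 * l) • x - (2 * o) • G x := by module
      rw [e7, e5, e6]
      simp
    · module
  have hND1 : H.ND (E (l * o)) := by
    intro x hx hxy
    refine hU x ((hEm _ _).1 hx).1 fun y hy => ?_
    obtain ⟨a, ha, b, hb, rfl⟩ := hcomp y hy
    rw [map_add, hxy a ha, hortho x hx b hb, add_zero]
  have hND2 : H.ND (E (l * (o + 1))) := by
    intro x hx hxy
    refine hU x ((hEm _ _).1 hx).1 fun y hy => ?_
    obtain ⟨a, ha, b, hb, rfl⟩ := hcomp y hy
    rw [map_add, hxy b hb, hortho' x hx a ha, add_zero]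
  have hdim : finrank K U ≤ finrank K (E (l * o)) + finrank K (E (l * (o + 1))) := by
    have h3 : U ≤ E (l * o) ⊔ E (l * (o + 1)) := by
      intro x hx
      obtain ⟨a, ha, b, hb, rfl⟩ := hcomp x hx
      exact Submodule.add_mem_sup ha hb
    exact (Submodule.finrank_mono h3).trans (Submodule.finrank_add_le_finrank_add_finrank _ _)
  have hne : l * (o + 1) ≠ l * o := by
    intro h
    have h3 := mul_left_cancel₀ hl h
    exact one_ne_zero (by linear_combination h3)
  rcases Nat.lt_or_ge (finrank K (E (l * o))) 3 with hlt | hge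
  · have hge' : 3 ≤ finrank K (E (l * (o + 1))) := by omega
    have hx : ∃ x0 ∈ E (l * o), x0 ≠ 0 := by
      by_contra hcon
      push Not at hcon
      refine hs ⟨l * (o + 1), fun x hx => ?_⟩
      obtain ⟨a, ha, b, hb, rfl⟩ := hcomp x hx
      rw [hcon a ha, zero_add]
      exact ((hEm _ _).1 hb).2
    obtain ⟨x0, hx0, hx00⟩ := hx
    have hx0' := (hEm _ _).1 hx0
    obtain ⟨l', hl'⟩ := OConB_eig H hK hU hn hG hne (hEm _) hge' hx0'.1 hx00 hx0'.2
      (fun y hy => hortho' y hy x0 hx0)
    have h3 := hc _ hl' 0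
    rw [Fin.cons_zero] at h3
    have h4 : o + 1 = 1 := mul_left_cancel₀ hl (by rw [h3, mul_one])
    exact ho0 (by linear_combination h4)
  · have hx : ∃ x0 ∈ E (l * (o + 1)), x0 ≠ 0 := by
      by_contra hcon
      push Not at hcon
      refine hs ⟨l * o, fun x hx => ?_⟩
      obtain ⟨a, ha, b, hb, rfl⟩ := hcomp x hx
      rw [hcon b hb, add_zero]
      exact ((hEm _ _).1 ha).2
    obtain ⟨x0, hx0, hx00⟩ := hx
    have hx0' := (hEm _ _).1 hx0
    obtain ⟨l', hl'⟩ := OConB_eig H hK hU hn hG hne.symm (hEm _) hge hx0'.1 hx00 hx0'.2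
      (fun y hy => hortho y hy x0 hx0)
    have h3 := hc _ hl' 0
    rw [Fin.cons_zero] at h3
    exact ho1 (mul_left_cancel₀ hl (by rw [h3, mul_one]))

end ThU
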