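import Pool.Agent.ThU.OConA
import Pool.Agent.ThU.OConB

/-! # Module OConst -/

namespace ThU
open Matrix Polynomial Module

variable {K V : Type*} [Field K] [StarRing K] [AddCommGroup V] [Module K V] (H : Herm K V)
variable {U : Submodule K V} {G : V →ₗ[K] V}

theorem odd_const [Finite K] [FiniteDimensional K V] (hK : ∃ x : K, star x ≠ x)
    (hF : ∀ t : K, star t = t → t = 0 ∨ t = 1) {k : ℕ} (hU : H.ND U) (hn : finrank K U = 2 * k + 5)
    (hG : H.Iso U G) (hs : ¬ Scal U G) {l : K} (hl : l ≠ 0)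
    (hc : ∀ d : Fin (k + 1) → K, H.FreeT U G (k + 1) d → ∀ i, d i = l) :
    (∀ x ∈ U, G (G x) = l ^ 2 • x) ∨
      ∃ d ∈ U, H.h d d ≠ 0 ∧ ∀ x ∈ U, H.h d x = 0 → G x = l • x := by
  by_cases hw : ∀ w ∈ U, H.h w w = 0 → H.h w (G w) = 0 ∨ H.h w (G w) = l
  · exact Or.inl (oconst_b H hK hF hU hn hG hs hl hc hw)
  · push Not at hw
    obtain ⟨w, hw1, hw2, hw3, hw4⟩ := hw
    exact Or.inr (oconst_a H hK hF hU hn hG hl hc hw1 hw2 hw3 hw4)

end ThU
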