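import Pool.Agent.ThU.OBase

/-! # Module ODet -/

namespace ThU
open Matrix Polynomial Module

variable {K V : Type*} [Field K] [StarRing K] [AddCommGroup V] [Module K V] (H : Herm K V)
variable {G : V →ₗ[K] V}

omit [StarRing K] in
private theorem ODet_mat {N : ℕ} (α α' ζ : K) (β v : Fin N → K)
    (M : Matrix (Unit ⊕ (Unit ⊕ Fin N)) (Unit ⊕ (Unit ⊕ Fin N)) K)
    (h00 : M (Sum.inl ()) (Sum.inl ()) = 0)
    (h01 : M (Sum.inl ()) (Sum.inr (Sum.inl ())) = α)
    (h02 : ∀ i, M (Sum.inl ()) (Sum.inr (Sum.inr i)) = 0)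
    (h10 : M (Sum.inr (Sum.inl ())) (Sum.inl ()) = 1)
    (h11 : M (Sum.inr (Sum.inl ())) (Sum.inr (Sum.inl ())) = α')
    (h12 : ∀ i, M (Sum.inr (Sum.inl ())) (Sum.inr (Sum.inr i)) = β i)
    (h20 : ∀ i, M (Sum.inr (Sum.inr i)) (Sum.inl ()) = 0)
    (h21 : ∀ i, M (Sum.inr (Sum.inr i)) (Sum.inr (Sum.inl ())) = v i)
    (h22 : ∀ i j, M (Sum.inr (Sum.inr i)) (Sum.inr (Sum.inr j)) = if i = j then ζ else 0) :
    M.det = - (α * ζ ^ N) := by
  classical
  have h1 := Matrix.det_permute
    (Equiv.swap (Sum.inl () : Unit ⊕ (Unit ⊕ Fin N)) (Sum.inr (Sum.inl ()))) M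
  rw [Equiv.Perm.sign_swap (by simp)] at h1
  have h2 : M.submatrix
      (Equiv.swap (Sum.inl () : Unit ⊕ (Unit ⊕ Fin N)) (Sum.inr (Sum.inl ()))) id =
      fromBlocks (1 : Matrix Unit Unit K)
        (Matrix.of fun _ j => M (Sum.inr (Sum.inl ())) (Sum.inr j)) 0
        (fromBlocks (α • (1 : Matrix Unit Unit K)) 0 (Matrix.of fun i _ => v i)
          (ζ • (1 : Matrix (Fin N) (Fin N) K))) := by
    ext i j
    rcases i with i | i | i <;> rcases j with j | j | j
    · simp [h10]
    · simp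
    · simp
    · simp [h00]
    · simp [h01]
    · simp [h02]
    · simp [Equiv.swap_apply_of_ne_of_ne, h20]
    · simp [Equiv.swap_apply_of_ne_of_ne, h21]
    · simp [Equiv.swap_apply_of_ne_of_ne, h22, Matrix.one_apply]
  rw [h2, det_fromBlocks_zero₂₁, det_fromBlocks_zero₁₂, det_one, det_smul, det_smul, det_one,
    det_one, Fintype.card_unit, Fintype.card_fin] at h1
  simp only [pow_one, mul_one, one_mul, Units.val_neg, Units.val_one, Int.cast_neg,
    Int.cast_one, neg_mul] at h1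
  rw [h1, neg_neg]

/-- Let `U1 = perp2 ⊤ w (G w)`, `b` a basis of `U1` (`N` elements); `w, G w, b` is a basis of `V` (`perp2_dec`).
`G w = G w`, `G (G w) = α • w + α' • G w + v` (`v ∈ U1`), `G (b i) = ζ • b i + β i • G w`.  The row of the matrix of `G` which
belongs to `w` is `(0, α, 0, …, 0)`; expand: `det G = - α * det (fromBlocks 1 β 0 ζ) = - α * ζ ^ N`.  Finally
`h w (G w) = h (G w) (G (G w)) = α * h (G w) w = α * star (h w (G w))`. -/
theorem det_plane [FiniteDimensional K V] (hU : H.ND ⊤) {N : ℕ} (hn : finrank K V = N + 2)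
    (hG : H.Iso ⊤ G) {w : V} (h0 : H.h w w = 0) (hz : H.h w (G w) ≠ 0) {ζ : K}
    (hc : ∀ x ∈ H.perp2 ⊤ w (G w), H.g1 G w x = ζ • x) :
    LinearMap.det G * star (H.h w (G w)) = - H.h w (G w) * ζ ^ N := by
  classical
  have _ := hU
  have hGG : H.h (G w) (G w) = 0 := by
    rw [hG.2 w Submodule.mem_top w Submodule.mem_top, h0]
  have hfr := perp2_finrank H (U := ⊤) (a := w) (b := G w) Submodule.mem_top Submodule.mem_top h0 hGG hz
  rw [finrank_top, hn] at hfr
  have hfr' : finrank K (H.perp2 ⊤ w (G w)) = N := by omega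
  let b : Basis (Fin N) K (H.perp2 ⊤ w (G w)) := Module.finBasisOfFinrankEq K _ hfr'
  let e : Unit ⊕ (Unit ⊕ Fin N) → V :=
    Sum.elim (fun _ => w) (Sum.elim (fun _ => G w) (fun i => (b i : V)))
  have hspan : ⊤ ≤ Submodule.span K (Set.range e) := by
    intro x _
    obtain ⟨s, t, hst⟩ := perp2_dec H (U := ⊤) (a := w) (b := G w) Submodule.mem_top
      Submodule.mem_top h0 hGG hz x Submodule.mem_top
    have hw : w ∈ Submodule.span K (Set.range e) := Submodule.subset_span ⟨Sum.inl (), rfl⟩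
    have hGw : G w ∈ Submodule.span K (Set.range e) :=
      Submodule.subset_span ⟨Sum.inr (Sum.inl ()), rfl⟩
    have hb : ∀ y : H.perp2 ⊤ w (G w), (y : V) ∈ Submodule.span K (Set.range e) := by
      intro y
      rw [← b.sum_repr y, Submodule.coe_sum]
      refine Submodule.sum_mem _ fun i _ => ?_
      rw [Submodule.coe_smul]
      exact Submodule.smul_mem _ _ (Submodule.subset_span ⟨Sum.inr (Sum.inr i), rfl⟩)
    have h1 := hb ⟨_, hst⟩
    have h2 : x = (x - s • w - t • G w) + s • w + t • G w := by abel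
    rw [h2]
    exact Submodule.add_mem _ (Submodule.add_mem _ h1 (Submodule.smul_mem _ _ hw))
      (Submodule.smul_mem _ _ hGw)
  let B : Basis (Unit ⊕ (Unit ⊕ Fin N)) K V := basisOfTopLeSpanOfCardEqFinrank e hspan (by
    rw [hn, Fintype.card_sum, Fintype.card_sum, Fintype.card_unit, Fintype.card_fin]
    ring)
  have hB : ∀ i, B i = e i := fun i => by
    rw [coe_basisOfTopLeSpanOfCardEqFinrank]
  have hB0 : B (Sum.inl ()) = w := hB _
  have hB1 : B (Sum.inr (Sum.inl ())) = G w := hB _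
  have hB2 : ∀ i, B (Sum.inr (Sum.inr i)) = (b i : V) := fun i => hB _
  have hGb : ∀ i, G (b i : V) = ζ • (b i : V) + (H.h w (G (b i : V)) * (H.h w (G w))⁻¹) • G w := by
    intro i
    have h1 := hc _ (b i).2
    rw [H.g1_apply] at h1
    rw [← h1]
    abel
  obtain ⟨α, hα⟩ : ∃ α, α = B.repr (G (G w)) (Sum.inl ()) := ⟨_, rfl⟩
  have hr0 : B.repr w = Finsupp.single (Sum.inl ()) 1 := by
    have h1 := B.repr_self (Sum.inl ())
    rwa [hB0] at h1
  have hr1 : B.repr (G w) = Finsupp.single (Sum.inr (Sum.inl ())) 1 := by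
    have h1 := B.repr_self (Sum.inr (Sum.inl ()))
    rwa [hB1] at h1
  have hr2 : ∀ i, B.repr (b i : V) = Finsupp.single (Sum.inr (Sum.inr i)) 1 := by
    intro i
    have h1 := B.repr_self (Sum.inr (Sum.inr i))
    rwa [hB2] at h1
  have hM := ODet_mat (N := N) α (B.repr (G (G w)) (Sum.inr (Sum.inl ()))) ζ
    (fun i => H.h w (G (b i : V)) * (H.h w (G w))⁻¹)
    (fun i => B.repr (G (G w)) (Sum.inr (Sum.inr i))) (LinearMap.toMatrix B B G)
    (by rw [LinearMap.toMatrix_apply, hB0, hr1]; simp)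
    (by rw [LinearMap.toMatrix_apply, hB1, hα])
    (fun i => by
      rw [LinearMap.toMatrix_apply, hB2, hGb, map_add, map_smul, map_smul, hr1, hr2]
      simp)
    (by rw [LinearMap.toMatrix_apply, hB0, hr1]; simp)
    (by rw [LinearMap.toMatrix_apply, hB1])
    (fun i => by
      rw [LinearMap.toMatrix_apply, hB2]
      conv_lhs => rw [hGb, map_add, map_smul, map_smul, hr1, hr2]
      simp)
    (fun i => by rw [LinearMap.toMatrix_apply, hB0, hr1]; simp)
    (fun i => by rw [LinearMap.toMatrix_apply, hB1])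
    (fun i j => by
      rw [LinearMap.toMatrix_apply, hB2, hGb, map_add, map_smul, map_smul, hr1, hr2]
      by_cases hij : i = j
      · subst hij; simp
      · simp [hij, Ne.symm hij, Finsupp.single_apply])
  have hdet : LinearMap.det G = - (α * ζ ^ N) := by
    rw [← LinearMap.det_toMatrix B, hM]
  have hz1 : H.h w (G w) = α * star (H.h w (G w)) := by
    have h1 : H.h (G w) (G (G w)) = H.h w (G w) :=
      hG.2 w Submodule.mem_top (G w) Submodule.mem_top
    rw [← h1]
    nth_rewrite 1 [← B.sum_repr (G (G w))]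
    rw [map_sum, Fintype.sum_sum_type, Fintype.sum_sum_type]
    simp only [Finset.univ_unique, PUnit.default_eq_unit, Finset.sum_singleton, map_smul,
      smul_eq_mul, hB0, hB1, hB2, hGG, mul_zero, zero_add]
    have h2 : ∀ i, H.h (G w) (b i : V) = 0 := fun i => ((H.mem_perp2).1 (b i).2).2.2
    simp only [h2, mul_zero, Finset.sum_const_zero, add_zero]
    rw [← hα, h1, H.symm']
  rw [hdet]
  linear_combination (ζ ^ N) * hz1

end ThU
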