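import Pool.Agent.ThU.OSub
import Pool.Agent.ThU.AB

/-! # Module OFree -/

namespace ThU
open Matrix Polynomial Module

variable {K V : Type*} [Field K] [StarRing K] [AddCommGroup V] [Module K V] (H : Herm K V)
variable {U : Submodule K V} {G : V →ₗ[K] V}

/-- Let `z = h w (G w)` and let `d ≠ 0` be in the one-dimensional space `perp2 U w (G w)`; `h d d ≠ 0` (`perp2_ND`).  Given `x`, put
`τ = star x / star z` and `e = κ • d`, `κ * star κ * h d d = - (τ + star τ)` (`fld_norm`).  Then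
`w' = z⁻¹ • G w + τ • w + e` is isotropic, `h w' w = 1` and `h w' (G w) = x`. -/
theorem free3 [Finite K] [FiniteDimensional K V] (hK : ∃ x : K, star x ≠ x) (hU : H.ND U)
    (h3 : finrank K U = 3) (hG : H.Iso U G) {w : V} (hw : w ∈ U) (h0 : H.h w w = 0)
    (hz : H.h w (G w) ≠ 0) (l : Fin 0 → K) : H.FreeT U G 0 l := by
  refine ⟨fun i => i.elim0, fun x _ => ?_⟩
  have hGw : G w ∈ U := hG.1 w hw
  have hGG : H.h (G w) (G w) = 0 := by rw [hG.2 w hw w hw, h0]
  have hfr := perp2_finrank H hw hGw h0 hGG hz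
  have hND := perp2_ND H hU hw hGw h0 hGG hz
  have h1 : finrank K (H.perp2 U w (G w)) = 1 := by omega
  obtain ⟨⟨d, hdm⟩, hd0, hdall⟩ := finrank_eq_one_iff'.1 h1
  have hd0' : d ≠ 0 := fun h => hd0 (Subtype.ext h)
  obtain ⟨hdU, hwd, hGd⟩ := H.mem_perp2.1 hdm
  have hdw : H.h d w = 0 := H.swap_zero.1 hwd
  have hdG : H.h d (G w) = 0 := H.swap_zero.1 hGd
  have hdd : H.h d d ≠ 0 := by
    intro h
    apply hd0'
    refine hND d hdm fun y hy => ?_
    obtain ⟨c, hc⟩ := hdall ⟨y, hy⟩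
    have hc' : c • d = y := congrArg Subtype.val hc
    rw [← hc', map_smul, h, smul_zero]
  have hz' : star (H.h w (G w)) ≠ 0 := by rwa [Ne, star_eq_zero]
  obtain ⟨τ, hτ⟩ : ∃ τ, τ = star x / star (H.h w (G w)) := ⟨_, rfl⟩
  have hτs : star τ = x / H.h w (G w) := by rw [hτ, star_div₀, star_star, star_star]
  obtain ⟨κ, hκ⟩ := fld_norm hK (-((τ + star τ) / H.h d d)) (by
    rw [star_neg, star_div₀, star_add, star_star, H.symm', add_comm (star τ)])
  have hGww : H.h (G w) w = star (H.h w (G w)) := H.symm w (G w)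
  have e1 : H.h ((H.h w (G w))⁻¹ • G w + τ • w + κ • d) w = 1 := by
    rw [H.add_left, H.add_left, H.smul_left, H.smul_left, H.smul_left, hGww, h0, hdw, mul_zero,
      mul_zero, add_zero, add_zero, star_inv₀, inv_mul_cancel₀ hz']
  have e2 : H.h ((H.h w (G w))⁻¹ • G w + τ • w + κ • d) (G w) = x := by
    rw [H.add_left, H.add_left, H.smul_left, H.smul_left, H.smul_left, hGG, hdG, mul_zero,
      mul_zero, add_zero, zero_add, hτs, div_mul_cancel₀ _ hz]
  have e3 : H.h ((H.h w (G w))⁻¹ • G w + τ • w + κ • d)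
      ((H.h w (G w))⁻¹ • G w + τ • w + κ • d) = 0 := by
    have e4 : H.h ((H.h w (G w))⁻¹ • G w + τ • w + κ • d) d = star κ * H.h d d := by
      rw [H.add_left, H.add_left, H.smul_left, H.smul_left, H.smul_left, hGd, hwd, mul_zero,
        mul_zero, add_zero, zero_add]
    rw [map_add, map_add, map_smul, map_smul, map_smul, e1, e2, e4, smul_eq_mul, smul_eq_mul,
      smul_eq_mul]
    have e5 : κ * (star κ * H.h d d) = κ * star κ * H.h d d := by ring
    rw [e5, hκ, neg_mul, div_mul_cancel₀ _ hdd, hτs]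
    field_simp
    ring
  have _ : Subsingleton (Fin (0 + 1)) := inferInstanceAs (Subsingleton (Fin 1))
  refine ⟨fun _ => w, fun _ => (H.h w (G w))⁻¹ • G w + τ • w + κ • d,
    ⟨fun _ => hw, fun _ => ?_, fun _ _ => h0, fun _ _ => e3, fun i j => ?_⟩, fun i j hij => ?_,
    fun i => ?_⟩
  · exact U.add_mem (U.add_mem (U.smul_mem _ hGw) (U.smul_mem _ hw)) (U.smul_mem _ hdU)
  · rw [if_pos (Subsingleton.elim i j)]
    exact e1
  · rw [Subsingleton.elim i j] at hij
    exact absurd hij (lt_irrefl _)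
  · have hi : i = Fin.last 0 := Subsingleton.elim _ _
    rw [hi, Fin.snoc_last]
    exact e2

/-- Induction on `k`.  `k = 0`: `free3`.  `k + 1`: take a hyperbolic pair `v`, `v'` (`h v' v = 1`) in `U1 = perp2 U w (G w)`
(`exists_iso`, `exists_partner`, `perp2_ND`, `perp2_finrank`), `U2 = perp2 U v v'`, `g2 = g2 G v v'`.  Then `w`, `G w ∈ U2`,
`g2 w = G w`, and `g2 x = G x = ζ • x` for `x ∈ perp2 U2 w (g2 w)`; use the induction hypothesis for `U2`, `g2` and
`free_g2` (`ζ ≠ 0` by `eig_ne_zero`). -/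
theorem free_plane [Finite K] [FiniteDimensional K V] (hK : ∃ x : K, star x ≠ x) (hU : H.ND U)
    {k : ℕ} (hn : finrank K U = 2 * k + 3) (hG : H.Iso U G) {w : V} (hw : w ∈ U)
    (h0 : H.h w w = 0) (hz : H.h w (G w) ≠ 0) {ζ : K}
    (hc : ∀ x ∈ H.perp2 U w (G w), G x = ζ • x) : H.FreeT U G k (fun _ => ζ) := by
  induction k generalizing U G with
  | zero => exact free3 H hK hU hn hG hw h0 hz _
  | succ k ih =>
    have hGw : G w ∈ U := hG.1 w hw
    have hGG : H.h (G w) (G w) = 0 := by rw [hG.2 w hw w hw, h0]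
    have hfr := perp2_finrank H hw hGw h0 hGG hz
    have hND := perp2_ND H hU hw hGw h0 hGG hz
    obtain ⟨v, hv, hv0, hvv⟩ := exists_iso H hK hND (by omega)
    obtain ⟨v', hv', hvv', hv'v⟩ := exists_partner H hK hND hv hv0 hvv
    obtain ⟨hvU, hwv, hGv⟩ := H.mem_perp2.1 hv
    obtain ⟨hv'U, hwv', hGv'⟩ := H.mem_perp2.1 hv'
    have hab : H.h v v' ≠ 0 := by
      rw [H.symm v' v, hv'v, star_one]
      exact one_ne_zero
    have he : G v = ζ • v := hc v hv
    have hζ0 : ζ ≠ 0 := eig_ne_zero H hU hG hvU hv0 he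
    have hG2 := iso_g2 H hG hvU hv'U hvv hvv' hv'v hζ0 he
    have hU2 := perp2_ND H hU hvU hv'U hvv hvv' hab
    have hf2 := perp2_finrank H hvU hv'U hvv hvv' hab
    have hw2 : w ∈ H.perp2 U v v' :=
      H.mem_perp2.2 ⟨hw, H.swap_zero.1 hwv, H.swap_zero.1 hwv'⟩
    have hgw : H.g2 G v v' w = G w := by
      rw [H.g2_apply, H.swap_zero.1 hGv', zero_smul, sub_zero]
    have hih := ih hU2 (by omega) hG2 hw2 (by rw [hgw]; exact hz) (by
      intro x hx
      rw [hgw] at hx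
      obtain ⟨hx2, hwx, hGx⟩ := H.mem_perp2.1 hx
      obtain ⟨hxU, hvx, hv'x⟩ := H.mem_perp2.1 hx2
      have h1 : G x = ζ • x := hc x (H.mem_perp2.2 ⟨hxU, hwx, hGx⟩)
      rw [H.g2_apply, h1, map_smul, hv'x, smul_zero, zero_smul, sub_zero])
    have h2 := free_g2 H hG hvU hv'U hvv hvv' hv'v hζ0 he hih
    have h3 : (Fin.cons ζ fun _ => ζ : Fin (k + 1) → K) = fun _ => ζ := by
      funext i
      refine Fin.cases rfl (fun i => rfl) i
    rwa [h3] at h2

/-- Induction on `k`.  `k = 0`: `exists_z`, `free3`.  `k + 1`: `alt_AB`; in the first case `good_exists`, the induction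
hypothesis for `g1` on `perp2 U w (G w)` and `free_g1`; in the second case `free_plane`. -/
theorem free_exists [Finite K] [FiniteDimensional K V] (hK : ∃ x : K, star x ≠ x) (hU : H.ND U)
    {k : ℕ} (hn : finrank K U = 2 * k + 3) (hG : H.Iso U G) (hs : ¬ Scal U G) :
    ∃ l : Fin k → K, H.FreeT U G k l := by
  induction k generalizing U G with
  | zero =>
    obtain ⟨w, hw, h0, hz⟩ := exists_z H hK hU (by omega) hG hs
    exact ⟨Fin.elim0, free3 H hK hU hn hG hw h0 hz _⟩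
  | succ k ih =>
    rcases alt_AB H hK hU (by omega) hG hs with ⟨w, hw, h0, hz, hns⟩ | ⟨w, hw, ζ, h0, hz, hc⟩
    · have hGw : G w ∈ U := hG.1 w hw
      have hGG : H.h (G w) (G w) = 0 := by rw [hG.2 w hw w hw, h0]
      have hfr := perp2_finrank H hw hGw h0 hGG hz
      have hND := perp2_ND H hU hw hGw h0 hGG hz
      obtain ⟨l, hl⟩ := ih hND (by omega) (iso_g1 H hG hw h0 hz) hns
      obtain ⟨l0, hl0⟩ := good_exists (K := K) hK hz
      exact ⟨_, free_g1 H hG hw h0 hz hl0 hl⟩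
    · exact ⟨_, free_plane H hK hU hn hG hw h0 hz hc⟩

/-- Let `y'` be a partner of `y` in `U` (`exists_partner`), `U2 = perp2 U y y'`, `g2 = g2 G y y'`.  `g2` is not a scalar on
`U2`: suppose it is `ζ`.  The vector `y2 - h y' y2 • y ∈ U2` is not zero and is an eigenvector of `g2` for `c`, so
`ζ = c`.  For `x = x0 - h y' x0 • y ∈ U2` the vector `g2 x - c • x` differs from `G x0 - c • x0` by an element of `⟨y⟩`, so
it is not zero.  Then `free_exists` for `g2` and `free_g2`. -/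
theorem free_eig [Finite K] [FiniteDimensional K V] (hK : ∃ x : K, star x ≠ x) (hU : H.ND U)
    {k : ℕ} (hn : finrank K U = 2 * k + 5) (hG : H.Iso U G) {y y2 x0 : V} {c : K} (hy : y ∈ U)
    (hy0 : y ≠ 0) (hyy : H.h y y = 0) (hGy : G y = c • y) (hy2 : y2 ∈ U) (hGy2 : G y2 = c • y2)
    (hyy2 : H.h y y2 = 0) (hsp : y2 ∉ Submodule.span K {y}) (hx0 : x0 ∈ U) (hyx : H.h y x0 = 0)
    (hx1 : G x0 - c • x0 ∉ Submodule.span K {y}) :
    ∃ l : Fin k → K, H.FreeT U G (k + 1) (Fin.cons c l) := by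
  obtain ⟨y', hy', hyy', hy'y⟩ := exists_partner H hK hU hy hy0 hyy
  have hab : H.h y y' ≠ 0 := by
    rw [H.symm y' y, hy'y, star_one]
    exact one_ne_zero
  have hc0 : c ≠ 0 := eig_ne_zero H hU hG hy hy0 hGy
  have hG2 := iso_g2 H hG hy hy' hyy hyy' hy'y hc0 hGy
  have hU2 := perp2_ND H hU hy hy' hyy hyy' hab
  have hf2 := perp2_finrank H hy hy' hyy hyy' hab
  have key : ∀ v ∈ U, H.h y v = 0 → v - H.h y' v • y ∈ H.perp2 U y y' := by
    intro v hv h
    refine H.mem_perp2.2 ⟨U.sub_mem hv (U.smul_mem _ hy), ?_, ?_⟩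
    · rw [map_sub, map_smul, h, hyy, smul_zero, sub_zero]
    · rw [map_sub, map_smul, hy'y, smul_eq_mul, mul_one, sub_self]
  have hns : ¬ Scal (H.perp2 U y y') (H.g2 G y y') := by
    rintro ⟨ζ, hζ⟩
    have hu := key y2 hy2 hyy2
    have hu0 : y2 - H.h y' y2 • y ≠ 0 := by
      intro h
      apply hsp
      rw [Submodule.mem_span_singleton]
      exact ⟨_, (sub_eq_zero.1 h).symm⟩
    have hGu : G (y2 - H.h y' y2 • y) = c • (y2 - H.h y' y2 • y) := by
      rw [map_sub, map_smul, hGy2, hGy, smul_sub, smul_comm]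
    have h1 := hζ _ hu
    rw [H.g2_apply, hGu, map_smul, (H.mem_perp2.1 hu).2.2, smul_zero, zero_smul, sub_zero] at h1
    have hcζ : c = ζ := by
      by_contra hne
      apply hu0
      have h2 : (c - ζ) • (y2 - H.h y' y2 • y) = 0 := by rw [sub_smul, h1, sub_self]
      rcases smul_eq_zero.1 h2 with h3 | h3
      · exact absurd (sub_eq_zero.1 h3) hne
      · exact h3
    subst hcζ
    have h4 := hζ _ (key x0 hx0 hyx)
    rw [H.g2_apply] at h4
    apply hx1
    rw [Submodule.mem_span_singleton]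
    refine ⟨H.h y' (G (x0 - H.h y' x0 • y)), ?_⟩
    rw [map_sub, map_smul, hGy, smul_sub, smul_comm (H.h y' x0) c y] at h4
    rw [map_sub, map_smul, hGy, smul_comm (H.h y' x0) c y]
    linear_combination (norm := module) (-1 : K) • h4
  obtain ⟨l, hl⟩ := free_exists H hK hU2 (k := k) (by omega) hG2 hns
  exact ⟨l, free_g2 H hG hy hy' hyy hyy' hy'y hc0 hGy hl⟩

end ThU
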