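import Pool.Agent.ThU.GrpB

/-! # Odd dimension: matrices -/

namespace ThU
open Matrix Polynomial Module

/-- index set: `W`, `W'` and the middle vector -/
abbrev Jx (n : ℕ) : Type := Ix n ⊕ Unit

/-- the standard Hermitian form on `m → K` -/
def stdG (K : Type*) [Field K] [StarRing K] (m : Type*) [Fintype m] : Herm K (m → K) where
  h x :=
    { toFun := fun y => ∑ i, star (x i) * y i
      map_add' := fun y z => by
        simp only [Pi.add_apply, mul_add, Finset.sum_add_distrib]
      map_smul' := fun c y => by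
        simp only [Pi.smul_apply, smul_eq_mul, RingHom.id_apply, Finset.mul_sum]
        exact Finset.sum_congr rfl fun i _ => by ring }
  symm x y := by
    show ∑ i, star (y i) * x i = star (∑ i, star (x i) * y i)
    rw [star_sum]
    exact Finset.sum_congr rfl fun i _ => by rw [star_mul', star_star, mul_comm]

theorem stdG_apply {K : Type*} [Field K] [StarRing K] {m : Type*} [Fintype m] (x y : m → K) :
    (stdG K m).h x y = ∑ i, star (x i) * y i := rfl

/-- Gram matrix -/
def JO (K : Type*) [Field K] (n : ℕ) : Matrix (Jx n) (Jx n) K := fromBlocks (JJ K n) 0 0 1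

variable {K : Type*} [Field K] [StarRing K] {n : ℕ}

noncomputable def XO (B : Matrix (Fin n) (Fin n) K) : Matrix (Jx n) (Jx n) K :=
  fromBlocks (XJ B) 0 0 1

/-- lower triangular type: with the order `W`, `W'`, `D` of the blocks the matrix is
`[[A, 0, 0], [c, (Aᴴ)⁻¹, r], [p, 0, s]]` -/
noncomputable def LO (A c : Matrix (Fin n) (Fin n) K) (r : Matrix (Fin n) Unit K)
    (p : Matrix Unit (Fin n) K) (s : Matrix Unit Unit K) : Matrix (Jx n) (Jx n) K :=
  fromBlocks (fromBlocks A 0 c (Aᴴ)⁻¹) (fromRows 0 r) (fromCols p 0) s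

/-- upper triangular type: `[[A, b, β], [0, (Aᴴ)⁻¹, 0], [0, ρ, 1]]` -/
noncomputable def UO (A b : Matrix (Fin n) (Fin n) K) (β : Matrix (Fin n) Unit K)
    (ρ : Matrix Unit (Fin n) K) : Matrix (Jx n) (Jx n) K :=
  fromBlocks (fromBlocks A b 0 (Aᴴ)⁻¹) (fromRows β 0) (fromCols 0 ρ) 1

/-- the element of the class -/
noncomputable def xo (P0 : Matrix (Jx n) (Jx n) K) (B : Matrix (Fin n) (Fin n) K) :
    Matrix (Jx n) (Jx n) K := P0 * XO B * P0⁻¹

end ThU
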