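import Pool.Agent.ThU.OGDefs
import Pool.Agent.ThU.Fld

/-! # Module OGrpL -/

namespace ThU
open Matrix Polynomial Module

variable {K : Type*} [Field K] [StarRing K] {n : ℕ}

private theorem OGrpL_JO_mul : JO K n * JO K n = 1 := by
  unfold JO
  rw [fromBlocks_multiply, GrpB_JJ_mul]
  simp [← fromBlocks_one]

private theorem OGrpL_JO_conj : (JO K n)ᴴ = JO K n := by
  unfold JO
  rw [fromBlocks_conjTranspose, GrpB_JJ_conj]
  simp

omit [StarRing K] in
private theorem OGrpL_rows_add (a a' : Matrix (Fin n) Unit K) (b b' : Matrix (Fin n) Unit K) :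
    fromRows a b + fromRows a' b' = fromRows (a + a') (b + b') := by
  ext (i | i) j <;> simp

omit [StarRing K] in
private theorem OGrpL_cols_add (a a' : Matrix Unit (Fin n) K) (b b' : Matrix Unit (Fin n) K) :
    fromCols a b + fromCols a' b' = fromCols (a + a') (b + b') := by
  ext i (j | j) <;> simp

private theorem OGrpL_trace (hK : ∃ x : K, star x ≠ x) (q : Matrix (Fin n) Unit K) :
    ∃ Z : Matrix (Fin n) (Fin n) K, Z + Zᴴ + q * qᴴ = 0 := by
  have h1 : ∀ i, ∃ x : K, x + star x = -(q i () * star (q i ())) := fun i =>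
    fld_trace hK _ (by rw [star_neg, star_mul', star_star, mul_comm])
  choose x hx using h1
  refine ⟨Matrix.of fun i j => if i < j then -(q i () * star (q j ())) else
    if i = j then x i else 0, ?_⟩
  ext i j
  simp only [Matrix.add_apply, Matrix.of_apply, Matrix.conjTranspose_apply, Matrix.mul_apply,
    Finset.univ_unique, Finset.sum_singleton, Matrix.zero_apply, PUnit.default_eq_unit]
  rcases lt_trichotomy i j with h | h | h
  · rw [if_pos h, if_neg (not_lt.2 h.le), if_neg h.ne', star_zero]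
    ring
  · subst h
    rw [if_neg (lt_irrefl _), if_pos rfl, hx]
    ring
  · rw [if_neg (not_lt.2 h.le), if_neg h.ne', if_pos h, star_neg, star_mul', star_star]
    ring

/-- `q = (1 - (Aᴴ)⁻¹)⁻¹ * r` (`1 - (Aᴴ)⁻¹` is invertible since `A - 1` and `A` are), so `(Aᴴ)⁻¹ * q + r = q`.  Choose `Z` with
`Z + Zᴴ = - q * qᴴ` (`Z i j = - q i * star (q j)` for `i < j`, `0` for `i > j`, and on the diagonal `fld_trace`) and
`u1 = [[1, 0, 0], [Z, 1, q], [- qᴴ, 0, 1]]` (order `W`, `W'`, `D`); `u1ᴴ * JO * u1 = JO` (it is easier to check `u1 * JO * u1ᴴ = JO`).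
`y' = u1⁻¹ * LO A c r p 1 * u1` fixes the last basis vector and preserves `JO`, so `y' = fromBlocks Y 0 0 1` with
`Y = fromBlocks A 0 c' (Aᴴ)⁻¹` and `Yᴴ * JJ * Y = JJ`; apply `unip_low` to `Y`. -/
theorem unip_low_odd (hK : ∃ x : K, star x ≠ x) {A c : Matrix (Fin n) (Fin n) K}
    {r : Matrix (Fin n) Unit K} {p : Matrix Unit (Fin n) K} (hA : IsUnit A.det)
    (h1 : IsUnit (A - 1).det) (hs : ∀ Z : Matrix (Fin n) (Fin n) K, Aᴴ * Z * A = Z → Z = 0)
    (hy : (LO A c r p 1)ᴴ * JO K n * LO A c r p 1 = JO K n) :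
    ∃ u : Matrix (Jx n) (Jx n) K, uᴴ * JO K n * u = JO K n ∧ IsUnit u.det ∧
      LO A c r p 1 * u = u * XO A := by
  have hAh : IsUnit (Aᴴ).det := GrpB_conj_unit hA
  have hAh1 : IsUnit (Aᴴ - 1).det := by
    have h2 : Aᴴ - 1 = (A - 1)ᴴ := by rw [conjTranspose_sub, conjTranspose_one]
    rw [h2]
    exact GrpB_conj_unit h1
  obtain ⟨q, hq⟩ : ∃ q : Matrix (Fin n) Unit K, (Aᴴ)⁻¹ * q + r = q := by
    refine ⟨(Aᴴ - 1)⁻¹ * (Aᴴ * r), ?_⟩
    set q := (Aᴴ - 1)⁻¹ * (Aᴴ * r) with hq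
    have e1 : (Aᴴ - 1) * q = Aᴴ * r := by
      rw [hq, ← Matrix.mul_assoc, mul_nonsing_inv _ hAh1, Matrix.one_mul]
    have e2 : Aᴴ * q = q + Aᴴ * r := by
      rw [← e1, Matrix.sub_mul, Matrix.one_mul]
      abel
    have e3 : (Aᴴ)⁻¹ * (Aᴴ * q) = q := by
      rw [← Matrix.mul_assoc, nonsing_inv_mul _ hAh, Matrix.one_mul]
    have e4 : (Aᴴ)⁻¹ * (Aᴴ * r) = r := by
      rw [← Matrix.mul_assoc, nonsing_inv_mul _ hAh, Matrix.one_mul]
    rw [e2, Matrix.mul_add, e4] at e3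
    exact e3
  obtain ⟨Z, hZ⟩ := OGrpL_trace hK q
  have hZ' : Zᴴ + Z = -(q * qᴴ) := by
    rw [← sub_eq_zero, sub_neg_eq_add, add_comm Zᴴ]
    exact hZ
  set u1 : Matrix (Jx n) (Jx n) K :=
    fromBlocks (fromBlocks 1 0 Z 1) (fromRows 0 q) (fromCols (-qᴴ) 0) 1 with hu1
  set v1 : Matrix (Jx n) (Jx n) K :=
    fromBlocks (fromBlocks 1 0 Zᴴ 1) (fromRows 0 (-q)) (fromCols qᴴ 0) 1 with hv1
  have hvu : v1 * u1 = 1 := by
    have hZ2 : Zᴴ + Z + q * qᴴ = 0 := by rw [hZ']; simp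
    rw [hv1, hu1, fromBlocks_multiply, ← fromBlocks_one, fromBlocks_inj]
    refine ⟨?_, ?_, ?_, ?_⟩
    · rw [fromBlocks_multiply, fromRows_mul_fromCols, fromBlocks_add, ← fromBlocks_one]
      simp [hZ2]
    · rw [fromBlocks_mul_fromRows, Matrix.mul_one, OGrpL_rows_add]
      simp
    · rw [fromCols_mul_fromBlocks, Matrix.one_mul, OGrpL_cols_add]
      simp
    · rw [fromCols_mul_fromRows]
      simp
  have huv : u1 * v1 = 1 := mul_eq_one_comm.1 hvu
  have hv2 : v1 = JO K n * u1ᴴ * JO K n := by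
    rw [hv1, hu1]
    unfold JO JJ
    rw [fromBlocks_conjTranspose, fromBlocks_multiply, fromBlocks_multiply, fromBlocks_inj,
      conjTranspose_fromCols_eq_fromRows_conjTranspose,
      conjTranspose_fromRows_eq_fromCols_conjTranspose, fromBlocks_conjTranspose]
    refine ⟨?_, ?_, ?_, ?_⟩
    · simp [fromBlocks_multiply]
    · simp [fromBlocks_mul_fromRows]
    · simp [fromCols_mul_fromBlocks]
    · simp
  have hiso : u1ᴴ * JO K n * u1 = JO K n := by
    have e1 : JO K n * (u1ᴴ * JO K n * u1) = 1 := by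
      rw [← hvu, hv2]
      noncomm_ring
    have e2 : JO K n * (JO K n * (u1ᴴ * JO K n * u1)) = JO K n := by rw [e1, Matrix.mul_one]
    rw [← Matrix.mul_assoc, OGrpL_JO_mul, Matrix.one_mul] at e2
    exact e2
  set c' : Matrix (Fin n) (Fin n) K :=
    Zᴴ * A + (c + (Aᴴ)⁻¹ * Z - r * qᴴ) - q * (p - qᴴ) with hc'
  set p' : Matrix Unit (Fin n) K := qᴴ * A + (p - qᴴ) with hp'
  set Y : Matrix (Ix n) (Ix n) K := fromBlocks A 0 c' (Aᴴ)⁻¹ with hY
  have hyu : v1 * (LO A c r p 1 * u1) = fromBlocks Y 0 (fromCols p' 0) 1 := by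
    have e0 : LO A c r p 1 * u1 = fromBlocks (fromBlocks A 0 (c + (Aᴴ)⁻¹ * Z - r * qᴴ) (Aᴴ)⁻¹)
        (fromRows 0 q) (fromCols (p - qᴴ) 0) 1 := by
      unfold LO
      rw [hu1, fromBlocks_multiply, fromBlocks_inj]
      refine ⟨?_, ?_, ?_, ?_⟩
      · rw [fromBlocks_multiply, fromRows_mul_fromCols, fromBlocks_add]
        simp [sub_eq_add_neg]
      · rw [fromBlocks_mul_fromRows, Matrix.mul_one, OGrpL_rows_add]
        simp [hq]
      · rw [fromCols_mul_fromBlocks, Matrix.one_mul, OGrpL_cols_add]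
        simp [sub_eq_add_neg]
      · rw [fromCols_mul_fromRows]
        simp
    rw [e0, hv1, hY, fromBlocks_multiply, fromBlocks_inj]
    refine ⟨?_, ?_, ?_, ?_⟩
    · rw [fromBlocks_multiply, fromRows_mul_fromCols, fromBlocks_add]
      simp [hc', sub_eq_add_neg]
    · rw [fromBlocks_mul_fromRows, Matrix.mul_one, OGrpL_rows_add]
      simp
    · rw [fromCols_mul_fromBlocks, Matrix.one_mul, OGrpL_cols_add]
      simp [hp']
    · rw [fromCols_mul_fromRows]
      simp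
  have hyu' : LO A c r p 1 * u1 = u1 * fromBlocks Y 0 (fromCols p' 0) 1 := by
    rw [← hyu, ← Matrix.mul_assoc, huv, Matrix.one_mul]
  have hiso' : (fromBlocks Y 0 (fromCols p' 0) 1)ᴴ * JO K n * fromBlocks Y 0 (fromCols p' 0) 1 =
      JO K n := by
    rw [← hyu, conjTranspose_mul, conjTranspose_mul]
    have e1 : v1ᴴ * JO K n * v1 = JO K n := by
      have e2 : v1ᴴ * (u1ᴴ * JO K n * u1) * v1 = (u1 * v1)ᴴ * JO K n * (u1 * v1) := by
        rw [conjTranspose_mul]; noncomm_ring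
      rw [hiso, huv, conjTranspose_one, Matrix.one_mul, Matrix.mul_one] at e2
      exact e2
    calc u1ᴴ * (LO A c r p 1)ᴴ * v1ᴴ * JO K n * (v1 * (LO A c r p 1 * u1))
        = u1ᴴ * ((LO A c r p 1)ᴴ * (v1ᴴ * JO K n * v1) * LO A c r p 1) * u1 := by noncomm_ring
      _ = JO K n := by rw [e1, hy, hiso]
  have hp0 : fromCols p' 0 = (0 : Matrix Unit (Ix n) K) := by
    unfold JO at hiso'
    rw [fromBlocks_conjTranspose, fromBlocks_multiply, fromBlocks_multiply, fromBlocks_inj] at hiso'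
    have := hiso'.2.2.1
    simpa using this
  rw [hp0] at hyu' hiso'
  have hYi : Yᴴ * JJ K n * Y = JJ K n := by
    unfold JO at hiso'
    rw [fromBlocks_conjTranspose, fromBlocks_multiply, fromBlocks_multiply, fromBlocks_inj] at hiso'
    simpa using hiso'.1
  obtain ⟨u0, a1, a2, a3⟩ := unip_low hA hs hYi
  refine ⟨u1 * fromBlocks u0 0 0 1, ?_, ?_, ?_⟩
  · rw [conjTranspose_mul]
    have e1 : (fromBlocks u0 0 0 1 : Matrix (Jx n) (Jx n) K)ᴴ * u1ᴴ * JO K n *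
        (u1 * fromBlocks u0 0 0 1) = (fromBlocks u0 0 0 1)ᴴ * (u1ᴴ * JO K n * u1) *
        fromBlocks u0 0 0 1 := by noncomm_ring
    rw [e1, hiso]
    unfold JO
    rw [fromBlocks_conjTranspose, fromBlocks_multiply, fromBlocks_multiply]
    simp [a1]
  · rw [det_mul]
    refine IsUnit.mul ?_ ?_
    · have := congrArg Matrix.det huv
      rw [det_mul, det_one] at this
      exact IsUnit.of_mul_eq_one _ this
    · rw [det_fromBlocks_zero₁₂, det_one, mul_one]
      exact a2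
  · rw [← Matrix.mul_assoc, hyu', Matrix.mul_assoc, Matrix.mul_assoc]
    congr 1
    unfold XO
    rw [fromBlocks_multiply, fromBlocks_multiply]
    simp [hY, a3]

/-- `JO * UO A b β ρ * JO = LO (Aᴴ)⁻¹ b β ρ 1` and `JO * XO (Aᴴ)⁻¹ * JO = XO A`; `unip_low_odd` for `(Aᴴ)⁻¹` -/
theorem unip_up_odd (hK : ∃ x : K, star x ≠ x) {A b : Matrix (Fin n) (Fin n) K}
    {β : Matrix (Fin n) Unit K} {ρ : Matrix Unit (Fin n) K} (hA : IsUnit A.det)
    (h1 : IsUnit (A - 1).det) (hs : ∀ Z : Matrix (Fin n) (Fin n) K, A * Z * Aᴴ = Z → Z = 0)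
    (hy : (UO A b β ρ)ᴴ * JO K n * UO A b β ρ = JO K n) :
    ∃ u : Matrix (Jx n) (Jx n) K, uᴴ * JO K n * u = JO K n ∧ IsUnit u.det ∧
      UO A b β ρ * u = u * XO A := by
  have hAh : IsUnit (Aᴴ).det := GrpB_conj_unit hA
  have hAi : IsUnit ((Aᴴ)⁻¹).det := by
    rw [isUnit_iff_exists_inv]
    exact ⟨(Aᴴ).det, by rw [← det_mul, nonsing_inv_mul _ hAh, det_one]⟩
  have hc1 : ((Aᴴ)⁻¹)ᴴ = A⁻¹ := by
    rw [conjTranspose_nonsing_inv, conjTranspose_conjTranspose]
  have hc2 : (((Aᴴ)⁻¹)ᴴ)⁻¹ = A := by rw [hc1, nonsing_inv_nonsing_inv _ hA]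
  have eL : JO K n * UO A b β ρ * JO K n = LO (Aᴴ)⁻¹ b β ρ 1 := by
    unfold JO UO LO JJ
    rw [fromBlocks_multiply, fromBlocks_multiply, fromBlocks_inj, hc2]
    refine ⟨?_, ?_, ?_, ?_⟩
    · simp [fromBlocks_multiply]
    · simp [fromBlocks_mul_fromRows]
    · simp [fromCols_mul_fromBlocks]
    · simp
  have eX : JO K n * XO (Aᴴ)⁻¹ * JO K n = XO A := by
    unfold JO XO XJ JJ
    rw [fromBlocks_multiply, fromBlocks_multiply, fromBlocks_inj, hc2]
    refine ⟨?_, ?_, ?_, ?_⟩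
    · simp [fromBlocks_multiply]
    · simp
    · simp
    · simp
  have JJ1 := OGrpL_JO_mul (K := K) (n := n)
  have Jc := OGrpL_JO_conj (K := K) (n := n)
  have hJd : IsUnit (JO K n).det := by
    have := congrArg Matrix.det JJ1
    rw [det_mul, det_one] at this
    exact IsUnit.of_mul_eq_one _ this
  have hiso : (LO (Aᴴ)⁻¹ b β ρ 1)ᴴ * JO K n * LO (Aᴴ)⁻¹ b β ρ 1 = JO K n := by
    rw [← eL, conjTranspose_mul, conjTranspose_mul, Jc]
    calc JO K n * ((UO A b β ρ)ᴴ * JO K n) * JO K n * (JO K n * UO A b β ρ * JO K n)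
        = JO K n * ((UO A b β ρ)ᴴ * JO K n * (JO K n * JO K n) * UO A b β ρ) * JO K n := by
          noncomm_ring
      _ = JO K n := by rw [JJ1, Matrix.mul_one, hy, JJ1, Matrix.one_mul]
  obtain ⟨u', a1, a2, a3⟩ := unip_low_odd hK (A := (Aᴴ)⁻¹) (c := b) (r := β) (p := ρ) hAi
    (by
      have e1 : (Aᴴ)⁻¹ - 1 = -((Aᴴ)⁻¹ * (Aᴴ - 1)) := by
        rw [Matrix.mul_sub, nonsing_inv_mul _ hAh, Matrix.mul_one]
        abel
      have e2 : Aᴴ - 1 = (A - 1)ᴴ := by rw [conjTranspose_sub, conjTranspose_one]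
      rw [e1, det_neg, det_mul, e2]
      exact ((isUnit_one.neg).pow _).mul (hAi.mul (GrpB_conj_unit h1)))
    (by
      intro Z hZ
      rw [hc1] at hZ
      apply hs
      have e1 : A * (A⁻¹ * Z * (Aᴴ)⁻¹) * Aᴴ = Z := by
        rw [← Matrix.mul_assoc, ← Matrix.mul_assoc, mul_nonsing_inv _ hA, Matrix.one_mul,
          Matrix.mul_assoc, nonsing_inv_mul _ hAh, Matrix.mul_one]
      rw [hZ] at e1
      exact e1) hiso
  refine ⟨JO K n * u' * JO K n, ?_, ?_, ?_⟩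
  · rw [conjTranspose_mul, conjTranspose_mul, Jc]
    calc JO K n * (u'ᴴ * JO K n) * JO K n * (JO K n * u' * JO K n)
        = JO K n * (u'ᴴ * JO K n * (JO K n * JO K n) * u') * JO K n := by noncomm_ring
      _ = JO K n := by rw [JJ1, Matrix.mul_one, a1, JJ1, Matrix.one_mul]
  · rw [det_mul, det_mul]
    exact (hJd.mul a2).mul hJd
  · rw [← eX]
    have e1 : UO A b β ρ = JO K n * LO (Aᴴ)⁻¹ b β ρ 1 * JO K n := by
      rw [← eL]
      calc UO A b β ρ = (JO K n * JO K n) * UO A b β ρ * (JO K n * JO K n) := by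
            rw [JJ1, Matrix.one_mul, Matrix.mul_one]
        _ = _ := by noncomm_ring
    rw [e1]
    calc JO K n * LO (Aᴴ)⁻¹ b β ρ 1 * JO K n * (JO K n * u' * JO K n)
        = JO K n * (LO (Aᴴ)⁻¹ b β ρ 1 * (JO K n * JO K n) * u') * JO K n := by noncomm_ring
      _ = JO K n * (u' * (JO K n * JO K n) * XO (Aᴴ)⁻¹) * JO K n := by
          rw [JJ1, Matrix.mul_one, a3, Matrix.mul_one]
      _ = JO K n * u' * JO K n * (JO K n * XO (Aᴴ)⁻¹ * JO K n) := by noncomm_ring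

end ThU
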