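import Pool.Agent.ThU.OSub
import Pool.Agent.ThU.LagE

/-! # Module OInv -/

namespace ThU
open Matrix Polynomial Module

variable {K V : Type*} [Field K] [StarRing K] [AddCommGroup V] [Module K V] (H : Herm K V)
variable {U : Submodule K V} {G : V →ₗ[K] V}

/-- rank and nullity on `U` -/
private theorem OInv_rank [FiniteDimensional K V] (U : Submodule K V) (N : V →ₗ[K] V) :
    finrank K (U.map N) + finrank K (U ⊓ LinearMap.ker N : Submodule K V) = finrank K U := by
  have h1 := LinearMap.finrank_range_add_finrank_ker (N.domRestrict U)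
  have h2 : (LinearMap.ker (N.domRestrict U)).map U.subtype = U ⊓ LinearMap.ker N := by
    ext x
    constructor
    · rintro ⟨⟨x, hx⟩, hker, rfl⟩
      exact ⟨hx, hker⟩
    · rintro ⟨hx, hk⟩
      exact ⟨⟨x, hx⟩, hk, rfl⟩
  rw [LinearMap.range_domRestrict, ← Submodule.finrank_map_subtype_eq, h2] at h1
  exact h1

/-- kernel of a linear map of square zero on `U` -/
private theorem OInv_ker [FiniteDimensional K V] {N : V →ₗ[K] V} (hN : ∀ x ∈ U, N x ∈ U)
    (hN2 : ∀ x ∈ U, N (N x) = 0) :
    finrank K U ≤ 2 * finrank K (U ⊓ LinearMap.ker N : Submodule K V) := by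
  have h1 := OInv_rank U N
  have h3 : finrank K (U.map N) ≤ finrank K (U ⊓ LinearMap.ker N : Submodule K V) := by
    apply Submodule.finrank_mono
    rintro _ ⟨x, hx, rfl⟩
    exact ⟨hN x hx, hN2 x hx⟩
  omega

/-- The image of `G - l` on `U` is contained in the kernel, so the kernel of `G - l` on `U` has dimension `≥ n + 1` and contains
a vector `d` with `h d d ≠ 0` (`noniso_in`).  `U' = U ⊓ ker (h d)` is invariant under `G`, nondegenerate (`split_ND`) of
dimension `2 n` (`split_finrank`): `dia_invol`, `dia_mono`. -/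
theorem dia_invol_odd [Finite K] [FiniteDimensional K V] (hK : ∃ x : K, star x ≠ x)
    (h2 : (2 : K) = 0) {n : ℕ} (hU : H.ND U) (hn : finrank K U = 2 * n + 1) (hG : H.Iso U G) {l : K}
    (hl : l * star l = 1) (hG2 : ∀ x ∈ U, G (G x) = l ^ 2 • x) : H.Dia U G n (fun _ => l) := by
  have hl0 : l ≠ 0 := by
    rintro rfl
    rw [zero_mul] at hl
    exact zero_ne_one hl
  set N : V →ₗ[K] V := G - l • LinearMap.id with hN
  have hNa : ∀ x, N x = G x - l • x := fun x => rfl
  have h3 := OInv_ker (U := U) (N := N) (fun x hx => U.sub_mem (hG.1 x hx) (U.smul_mem _ hx))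
    (fun x hx => by
      rw [hNa, hNa, map_sub, map_smul, hG2 x hx]
      have e : l ^ 2 • x - l • G x - l • (G x - l • x) = (2 * l ^ 2) • x - (2 * l) • G x := by
        module
      rw [e, h2]
      simp)
  obtain ⟨d, hd, hdd⟩ := noniso_in H hK hU (L := U ⊓ LinearMap.ker N) inf_le_left (by omega)
  have hdU : d ∈ U := hd.1
  have hGd : G d = l • d := by
    have h4 : N d = 0 := hd.2
    rw [hNa, sub_eq_zero] at h4
    exact h4
  have h5 := split_finrank H hdU hdd
  refine dia_mono H (U' := U ⊓ LinearMap.ker (H.h d)) inf_le_left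
    (dia_invol H hK h2 (split_ND H hU hdU hdd) (by omega) ⟨?_, ?_⟩ hl (fun x hx => hG2 x hx.1))
  · intro x hx
    refine ⟨hG.1 x hx.1, ?_⟩
    have h6 := hG.2 d hdU x hx.1
    have h7 : H.h d x = 0 := hx.2
    rw [hGd, H.smul_left, h7] at h6
    have h8 : star l ≠ 0 := by rw [Ne, star_eq_zero]; exact hl0
    show H.h d (G x) = 0
    exact (mul_eq_zero.1 h6).resolve_left h8
  · intro x hx y hy
    exact hG.2 x hx.1 y hy.1

end ThU
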