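import Pool.Agent.ThU.OSub
import Pool.Agent.ThU.Two

/-! # Module OTwoL -/

namespace ThU
open Matrix Polynomial Module

variable {K V : Type*} [Field K] [StarRing K] [AddCommGroup V] [Module K V] (H : Herm K V)
variable {G : V →ₗ[K] V}

/-- `V = ⟨y⟩ ⊕ U2 ⊕ ⟨y'⟩`, `U2 = perp2 ⊤ y y'` (dimension `2 k + 5`), `2 = 0` (`two_char`), `l * star l = 1` (`two_norm`).  Let
`N = l⁻¹ G - 1`.  `N` maps `V` to `y^⊥ = ⟨y⟩ ⊕ U2`, and on `U2` it is `l⁻¹ g2 - 1` modulo `⟨y⟩`; so `N²` maps `y^⊥` to `⟨y⟩`, and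
`N y = 0`.  Hence `N⁴ = 0` and `(l⁻¹ G)⁴ = 1 + N⁴ = 1`.  So `det (l⁻¹ G)⁴ = 1`, and `det (l⁻¹ G) = 1` because `K` has 4 elements
(`two_omega`; `x³ = 1` for `x ≠ 0`); thus `1 = det G = l ^ (2 k + 7) = l * (l ^ (k + 3))² = l`. -/
theorem odd_twoA_l [Finite K] [FiniteDimensional K V] (hK : ∃ x : K, star x ≠ x)
    (hF : ∀ t : K, star t = t → t = 0 ∨ t = 1) {k : ℕ} (hU : H.ND ⊤) (hn : finrank K V = 2 * k + 7)
    (hG : H.Iso ⊤ G) (hd : LinearMap.det G = 1) {y y' : V} (hyy : H.h y y = 0)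
    (hyy2 : H.h y' y' = 0) (hy1 : H.h y' y = 1) {l : K} (hl : l ≠ 0) (hln : l ^ (k + 3) = 1)
    (hGy : G y = l • y)
    (h2 : ∀ x ∈ H.perp2 ⊤ y y', H.g2 G y y' (H.g2 G y y' x) = l ^ 2 • x) :
    l = 1 ∧ ∀ x, G (G (G (G x))) = x := by
  have hc := two_char hF
  have hll := two_norm hF hl
  have hls : l⁻¹ = star l := by
    rw [← mul_right_inj' hl, mul_inv_cancel₀ hl, hll]
  obtain ⟨T, hT⟩ : ∃ T : V →ₗ[K] V, T = l⁻¹ • G := ⟨_, rfl⟩
  have hTa : ∀ x, T x = l⁻¹ • G x := fun x => by rw [hT]; rfl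
  have hTy : T y = y := by rw [hTa, hGy, smul_smul, inv_mul_cancel₀ hl, one_smul]
  -- the image of `T - 1`
  have hTh : ∀ x, H.h y (T x - x) = 0 := by
    intro x
    have h3 := hG.2 y Submodule.mem_top x Submodule.mem_top
    rw [hGy, H.smul_left, ← hls] at h3
    rw [map_sub, hTa, map_smul, smul_eq_mul, h3, sub_self]
  -- on `U2`
  have hU2 : ∀ u ∈ H.perp2 ⊤ y y', ∃ c : K, T (T u - u) - (T u - u) = c • y := by
    intro u hu
    have hu' := H.mem_perp2.1 hu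
    have e1 : T u = l⁻¹ • H.g2 G y y' u + (l⁻¹ * H.h y' (G u)) • y := by
      rw [hTa, H.g2_apply]
      module
    have e2 : T (H.g2 G y y' u) = l • u + (l⁻¹ * H.h y' (G (H.g2 G y y' u))) • y := by
      have h3 := h2 u hu
      rw [H.g2_apply G y y' (H.g2 G y y' u), sub_eq_iff_eq_add] at h3
      obtain ⟨b, hb⟩ : ∃ b, b = H.h y' (G (H.g2 G y y' u)) := ⟨_, rfl⟩
      rw [← hb] at h3 ⊢
      rw [hTa, h3, smul_add, smul_smul, smul_smul]
      congr 2
      field_simp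
    refine ⟨l⁻¹ * (l⁻¹ * H.h y' (G (H.g2 G y y' u))) - (l⁻¹ * H.h y' (G u)), ?_⟩
    have e3 : T (T u) = u + (l⁻¹ * (l⁻¹ * H.h y' (G (H.g2 G y y' u)))) • y +
        (l⁻¹ * H.h y' (G u)) • y := by
      rw [e1, map_add, map_smul, map_smul, e2, hTy, smul_add, smul_smul, smul_smul,
        inv_mul_cancel₀ hl, one_smul]
    rw [map_sub, e3, e1]
    have e4 : (2 * l⁻¹ : K) = 0 := by rw [hc, zero_mul]
    have e5 : u + (l⁻¹ * (l⁻¹ * H.h y' (G (H.g2 G y y' u)))) • y + (l⁻¹ * H.h y' (G u)) • y -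
        (l⁻¹ • H.g2 G y y' u + (l⁻¹ * H.h y' (G u)) • y) -
        (l⁻¹ • H.g2 G y y' u + (l⁻¹ * H.h y' (G u)) • y - u) =
        (l⁻¹ * (l⁻¹ * H.h y' (G (H.g2 G y y' u))) - l⁻¹ * H.h y' (G u)) • y +
        ((2 : K) • u - (2 * l⁻¹) • H.g2 G y y' u) := by module
    rw [e5, e4, hc, zero_smul, zero_smul, sub_zero, add_zero]
  -- `(T - 1)³ = 0` on `y^⊥`
  have hperp : ∀ x, H.h y x = 0 → T (T (T x - x) - (T x - x)) = T (T x - x) - (T x - x) := by
    intro x hx
    have hu : x - H.h y' x • y ∈ H.perp2 ⊤ y y' := by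
      rw [H.mem_perp2]
      refine ⟨Submodule.mem_top, ?_, ?_⟩
      · rw [map_sub, map_smul, hx, hyy, smul_zero, sub_zero]
      · rw [map_sub, map_smul, hy1, smul_eq_mul, mul_one, sub_self]
    obtain ⟨c, hc'⟩ := hU2 _ hu
    have e1 : T (x - H.h y' x • y) - (x - H.h y' x • y) = T x - x := by
      rw [map_sub, map_smul, hTy]
      abel
    rw [e1] at hc'
    rw [hc', map_smul, hTy]
  have hT4 : ∀ x, T (T (T (T x))) = x := by
    intro x
    have h3 := hperp (T x - x) (hTh x)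
    have e1 : T (T (T (T x - x) - (T x - x)) - (T (T x - x) - (T x - x))) -
        (T (T (T x - x) - (T x - x)) - (T (T x - x) - (T x - x))) =
        T (T (T (T x))) - x + (2 : K) • x - (2 : K) • (T x + T x) +
          (2 : K) • (T (T x) + T (T x) + T (T x)) - (2 : K) • (T (T (T x)) + T (T (T x))) := by
      simp only [map_sub]
      module
    rw [hc, zero_smul, zero_smul, zero_smul, zero_smul, add_zero, sub_zero, add_zero, sub_zero] at e1
    have e2 : T (T (T (T x))) - x = 0 := by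
      rw [← e1, h3]
      abel
    exact sub_eq_zero.1 e2
  -- the determinant
  have hdT : LinearMap.det T ^ 4 = 1 := by
    have h3 : T ∘ₗ (T ∘ₗ (T ∘ₗ T)) = LinearMap.id := by
      ext x
      exact hT4 x
    have h4 := congrArg LinearMap.det h3
    rw [LinearMap.det_comp, LinearMap.det_comp, LinearMap.det_comp, LinearMap.det_id] at h4
    rw [← h4]
    ring
  obtain ⟨o, ho0, ho1, ho2, -, hall⟩ := two_omega hK hF
  have hcube : ∀ x : K, x ≠ 0 → x ^ 3 = 1 := by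
    intro x hx
    rcases hall x with h | h | h | h
    · exact absurd h hx
    · rw [h, one_pow]
    · rw [h]
      linear_combination (o + 1) * ho2 + o * hc
    · rw [h]
      linear_combination (o + 4) * ho2 + (4 * o + 2) * hc
  have hdT0 : LinearMap.det T ≠ 0 := by
    intro h3
    rw [h3] at hdT
    exact one_ne_zero (by rw [← hdT]; ring)
  have hdT1 : LinearMap.det T = 1 := by
    have h3 := hcube _ hdT0
    have h4 : LinearMap.det T ^ 4 = LinearMap.det T * LinearMap.det T ^ 3 := by ring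
    rw [h4, h3, mul_one] at hdT
    exact hdT
  have hl7 : l⁻¹ ^ (2 * k + 7) = 1 := by
    rw [hT, LinearMap.det_smul, hd, mul_one, hn] at hdT1
    exact hdT1
  have hl1 : l = 1 := by
    have h3 : l ^ (2 * k + 7) = 1 := by
      rw [inv_pow, inv_eq_one] at hl7
      exact hl7
    have h4 : l ^ (2 * k + 7) = l * (l ^ (k + 3)) ^ 2 := by ring
    rw [h4, hln, one_pow, mul_one] at h3
    exact h3
  refine ⟨hl1, fun x => ?_⟩
  have h3 := hT4 x
  simp only [hTa, hl1, inv_one, one_smul] at h3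
  exact h3

end ThU
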