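import Pool.Agent.ThU.OTwoG
import Pool.Agent.ThU.OTwoL
import Pool.Agent.ThU.OInv
import Pool.Agent.ThU.ODet

/-! # Module OTwoA -/

namespace ThU
open Matrix Polynomial Module

variable {K V : Type*} [Field K] [StarRing K] [AddCommGroup V] [Module K V] (H : Herm K V)
variable {G : V →ₗ[K] V}

/-- the intersection with a hyperplane -/
private theorem OTwoA_hyper [FiniteDimensional K V] (L : Submodule K V) (φ : V →ₗ[K] K) :
    finrank K L ≤ finrank K (L ⊓ LinearMap.ker φ : Submodule K V) + 1 := by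
  have h1 := LinearMap.finrank_range_add_finrank_ker (φ.domRestrict L)
  have h2 : finrank K (LinearMap.range (φ.domRestrict L)) ≤ 1 := by
    have := Submodule.finrank_le (LinearMap.range (φ.domRestrict L))
    rwa [finrank_self] at this
  have h3 : finrank K (LinearMap.ker (φ.domRestrict L)) ≤
      finrank K (L ⊓ LinearMap.ker φ : Submodule K V) := by
    rw [← Submodule.finrank_map_subtype_eq L (LinearMap.ker (φ.domRestrict L))]
    refine Submodule.finrank_mono ?_
    rintro _ ⟨x, hx, rfl⟩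
    exact ⟨x.2, hx⟩
  omega

/-- a map with square zero has a large kernel -/
private theorem OTwoA_ker [FiniteDimensional K V] (L : Submodule K V) (A : V →ₗ[K] V)
    (hA : ∀ x ∈ L, A x ∈ L) (hA2 : ∀ x ∈ L, A (A x) = 0) :
    finrank K L ≤ 2 * finrank K (L ⊓ LinearMap.ker A : Submodule K V) := by
  have h1 := LinearMap.finrank_range_add_finrank_ker (A.domRestrict L)
  have h2 : finrank K (LinearMap.range (A.domRestrict L)) ≤
      finrank K (L ⊓ LinearMap.ker A : Submodule K V) := by
    refine Submodule.finrank_mono ?_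
    rintro _ ⟨x, rfl⟩
    exact ⟨hA x x.2, hA2 x x.2⟩
  have h3 : finrank K (LinearMap.ker (A.domRestrict L)) ≤
      finrank K (L ⊓ LinearMap.ker A : Submodule K V) := by
    rw [← Submodule.finrank_map_subtype_eq L (LinearMap.ker (A.domRestrict L))]
    refine Submodule.finrank_mono ?_
    rintro _ ⟨x, hx, rfl⟩
    exact ⟨x.2, hx⟩
  omega

/-- `l = 1`, `G⁴ = 1` by `odd_twoA_l`.  The fixed space `F` of `G` has dimension `≥ k + 3 ≥ 3`: `g2 - 1` has square 0 on `U2`, so
`{x ∈ U2 | g2 x = x}` has dimension `≥ k + 3`, and `{x ∈ U2 | g2 x = x, h y' (G x) = 0}` dimension `≥ k + 2`; add `y`.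
Claim: if `w` is isotropic and `z = h w (G w) ≠ 0` then `z = 1`.  `L = {x ∈ F | h w x = 0}` has dimension `≥ 2` and is contained in
`perp2 ⊤ w (G w)` (`h (G w) x = h (G w) (G x) = h w x`).  If `g1` is not a scalar on it: `good_mu` with `μ = 1`.  If `g1 = c` then
`c = 1` (take `x ≠ 0` in `L`) and `det_plane` gives `star z = - z = z`, so `z = 1` by `hF`.
Let `T = G - G³`; `h w (T w) = z - star z = 0` for every isotropic `w` (`h w (G³ w) = h (G w) (G⁴ w) = star z`), so `T` is a scalar
(`scal_of_iso`), and `T y = 0`.  So `G = G³`, `G² = 1` (`G⁴ = 1`), and `dia_invol_odd` with `l = 1` gives `AltB`. -/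
theorem odd_twoA [Finite K] [FiniteDimensional K V] (hK : ∃ x : K, star x ≠ x)
    (hF : ∀ t : K, star t = t → t = 0 ∨ t = 1) {k : ℕ} (hU : H.ND ⊤) (hn : finrank K V = 2 * k + 7)
    (hG : H.Iso ⊤ G) (hd : LinearMap.det G = 1) (hA : ¬ H.AltA G (k + 3)) {y y' : V}
    (hyy : H.h y y = 0) (hyy2 : H.h y' y' = 0) (hy1 : H.h y' y = 1) {l : K} (hl : l ≠ 0)
    (hln : l ^ (k + 3) = 1) (hGy : G y = l • y)
    (h2 : ∀ x ∈ H.perp2 ⊤ y y', H.g2 G y y' (H.g2 G y y' x) = l ^ 2 • x) : H.AltB G (k + 3) := by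
  have hc := two_char hF
  obtain ⟨hl1, hG4⟩ := odd_twoA_l H hK hF hU hn hG hd hyy hyy2 hy1 hl hln hGy h2
  have htop : finrank K (⊤ : Submodule K V) = 2 * k + 7 := by rw [finrank_top, hn]
  have hy0 : y ≠ 0 := by
    rintro rfl
    rw [map_zero] at hy1
    exact zero_ne_one hy1
  have hGy' : G y = y := by rw [hGy, hl1, one_smul]
  have hyy' : H.h y y' = 1 := by rw [H.symm y' y, hy1, star_one]
  -- the fixed space
  obtain ⟨F, hFdef⟩ : ∃ F : Submodule K V, F = LinearMap.ker (G - LinearMap.id) := ⟨_, rfl⟩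
  have hFm : ∀ x, x ∈ F ↔ G x = x := by
    intro x
    rw [hFdef, LinearMap.mem_ker, LinearMap.sub_apply, LinearMap.id_apply, sub_eq_zero]
  have hFdim : 3 ≤ finrank K F := by
    have hfr := perp2_finrank H (U := ⊤) (a := y) (b := y') Submodule.mem_top Submodule.mem_top hyy
      hyy2 (by rw [hyy']; exact one_ne_zero)
    rw [htop] at hfr
    have hiso := iso_g2 H hG (w := y) (w' := y') Submodule.mem_top Submodule.mem_top hyy hyy2 hy1 hl
      hGy
    have h3 := OTwoA_ker (H.perp2 ⊤ y y') (H.g2 G y y' - LinearMap.id) (fun x hx =>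
      Submodule.sub_mem _ (hiso.1 x hx) hx) (fun x hx => by
      have h4 := h2 x hx
      rw [hl1, one_pow, one_smul] at h4
      rw [LinearMap.sub_apply, LinearMap.id_apply, LinearMap.sub_apply, LinearMap.id_apply,
        map_sub, h4]
      have h5 : x - H.g2 G y y' x - (H.g2 G y y' x - x) =
          (2 : K) • x - (2 : K) • H.g2 G y y' x := by module
      rw [h5, hc, zero_smul, zero_smul, sub_zero])
    have h4 := OTwoA_hyper (H.perp2 ⊤ y y' ⊓ LinearMap.ker (H.g2 G y y' - LinearMap.id))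
      ((H.h y').comp G)
    obtain ⟨E, hE⟩ : ∃ E : Submodule K V, E = H.perp2 ⊤ y y' ⊓
      LinearMap.ker (H.g2 G y y' - LinearMap.id) ⊓ LinearMap.ker ((H.h y').comp G) := ⟨_, rfl⟩
    rw [← hE] at h4
    have hEm : ∀ x ∈ E, H.h y' x = 0 ∧ G x = x := by
      intro x hx
      rw [hE] at hx
      obtain ⟨⟨hx1, hx2⟩, hx3⟩ := hx
      have hx1' := H.mem_perp2.1 hx1
      have hx2' : H.g2 G y y' x - x = 0 := hx2
      have hx3' : H.h y' (G x) = 0 := hx3
      rw [H.g2_apply, hx3', zero_smul, sub_zero, sub_eq_zero] at hx2'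
      exact ⟨hx1'.2.2, hx2'⟩
    have h5 : finrank K E + 1 ≤ finrank K F := by
      have h6 : E < F := by
        refine lt_of_le_of_ne (fun x hx => (hFm x).2 (hEm x hx).2) ?_
        intro h7
        have h8 : y ∈ E := by
          rw [h7]
          exact (hFm y).2 hGy'
        have h9 := (hEm y h8).1
        rw [hy1] at h9
        exact one_ne_zero h9
      exact Submodule.finrank_lt_finrank_of_lt h6
    omega
  -- the values at the isotropic vectors
  have hz1 : ∀ w, H.h w w = 0 → star (H.h w (G w)) = H.h w (G w) := by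
    intro w hw
    by_cases hz : H.h w (G w) = 0
    · rw [hz, star_zero]
    obtain ⟨L, hL⟩ : ∃ L : Submodule K V, L = F ⊓ LinearMap.ker (H.h w) := ⟨_, rfl⟩
    have hLdim : 2 ≤ finrank K L := by
      have h3 := OTwoA_hyper F (H.h w)
      rw [← hL] at h3
      omega
    have hLm : ∀ x ∈ L, G x = x ∧ H.h w x = 0 := by
      intro x hx
      rw [hL] at hx
      exact ⟨(hFm x).1 hx.1, hx.2⟩
    have hLle : L ≤ H.perp2 ⊤ w (G w) := by
      intro x hx
      obtain ⟨h3, h4⟩ := hLm x hx
      rw [H.mem_perp2]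
      refine ⟨Submodule.mem_top, h4, ?_⟩
      rw [← h4, ← hG.2 w Submodule.mem_top x Submodule.mem_top, h3]
    by_cases hs : Scal (H.perp2 ⊤ w (G w)) (H.g1 G w)
    · obtain ⟨c, hcs⟩ := hs
      obtain ⟨x, hxL, hx0⟩ : ∃ x ∈ L, x ≠ 0 := by
        have h3 : L ≠ ⊥ := by
          rintro rfl
          rw [finrank_bot] at hLdim
          omega
        exact Submodule.exists_mem_ne_zero_of_ne_bot h3
      obtain ⟨h3, h4⟩ := hLm x hxL
      have h5 := hcs x (hLle hxL)
      rw [H.g1_apply, h3, h4, zero_mul, zero_smul, sub_zero] at h5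
      have hc1 : c = 1 := by
        have h6 : (c - 1) • x = 0 := by rw [sub_smul, one_smul, ← h5, sub_self]
        rcases smul_eq_zero.1 h6 with h7 | h7
        · exact sub_eq_zero.1 h7
        · exact absurd h7 hx0
      have h6 := det_plane H hU (N := 2 * k + 5) (by omega) hG hw hz hcs
      rw [hd, hc1, one_pow, mul_one, one_mul] at h6
      rw [h6]
      linear_combination (-H.h w (G w)) * hc
    · have h3 := good_mu H hK hF hU hn hG hA hw hz hs hLle hLdim (μ := 1) (fun x hx => by
        rw [(hLm x hx).1, one_smul])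
      rw [← h3, star_one]
  -- `T = G - G³`
  obtain ⟨c, hcT⟩ := scal_of_iso H hK hU (by omega) (G - G ∘ₗ (G ∘ₗ G))
    (fun x _ => Submodule.mem_top) (fun w _ hww => by
    have h3 : H.h w (G (G (G w))) = star (H.h w (G w)) := by
      rw [← hG.2 w Submodule.mem_top (G (G (G w))) Submodule.mem_top, hG4]
      exact H.symm w (G w)
    show H.h w (G w - G (G (G w))) = 0
    rw [map_sub, h3, hz1 w hww, sub_self])
  have hcT' : ∀ x, G x - G (G (G x)) = c • x := fun x => hcT x Submodule.mem_top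
  have hc0 : c = 0 := by
    have h3 := hcT' y
    rw [hGy', hGy', hGy', sub_self] at h3
    rcases smul_eq_zero.1 h3.symm with h4 | h4
    · exact h4
    · exact absurd h4 hy0
  have hG2 : ∀ x, G (G x) = x := by
    intro x
    have h3 := hcT' (G x)
    rw [hc0, zero_smul, hG4, sub_eq_zero] at h3
    exact h3
  have h3 := dia_invol_odd H hK hc hU (n := k + 3) (by omega) hG (l := 1)
    (by rw [star_one, mul_one]) (fun x _ => by rw [hG2, one_pow, one_smul])
  exact ⟨1, by rw [star_one, mul_one], one_pow _, h3⟩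

end ThU
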