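import Pool.Agent.ThU.OConst

/-! # Module OTwoG -/

namespace ThU
open Matrix Polynomial Module

variable {K V : Type*} [Field K] [StarRing K] [AddCommGroup V] [Module K V] (H : Herm K V)
variable {G : V →ₗ[K] V}

/-- `z = h w (G w)`, `Good z z` (`two_good`).  For every `d` with `FreeT (perp2 ⊤ w (G w)) (g1 G w) (k + 1) d` (one exists by
`free_exists`), `free_g1` and `free_one` give `d i = z` and `z ^ (k + 3) = 1`.  Then `odd_const` for `g1`. -/
theorem good_const [Finite K] [FiniteDimensional K V] (hK : ∃ x : K, star x ≠ x)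
    (hF : ∀ t : K, star t = t → t = 0 ∨ t = 1) {k : ℕ} (hU : H.ND ⊤) (hn : finrank K V = 2 * k + 7)
    (hG : H.Iso ⊤ G) (hA : ¬ H.AltA G (k + 3)) {w : V} (h0 : H.h w w = 0) (hz : H.h w (G w) ≠ 0)
    (hs : ¬ Scal (H.perp2 ⊤ w (G w)) (H.g1 G w)) :
    (H.h w (G w)) ^ (k + 3) = 1 ∧
    ((∀ x ∈ H.perp2 ⊤ w (G w), H.g1 G w (H.g1 G w x) = (H.h w (G w)) ^ 2 • x) ∨
      ∃ d ∈ H.perp2 ⊤ w (G w), H.h d d ≠ 0 ∧
        ∀ x ∈ H.perp2 ⊤ w (G w), H.h d x = 0 → H.g1 G w x = (H.h w (G w)) • x) := by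
  have hw : w ∈ (⊤ : Submodule K V) := Submodule.mem_top
  have hGw : G w ∈ (⊤ : Submodule K V) := Submodule.mem_top
  have hGG : H.h (G w) (G w) = 0 := by rw [hG.2 w hw w hw, h0]
  have h1 := perp2_ND H hU hw hGw h0 hGG hz
  have h2 := perp2_finrank H hw hGw h0 hGG hz
  rw [finrank_top, hn] at h2
  have h3 := iso_g1 H hG hw h0 hz
  have h4 : finrank K (H.perp2 ⊤ w (G w)) = 2 * (k + 1) + 3 := by omega
  have h5 : finrank K (H.perp2 ⊤ w (G w)) = 2 * k + 5 := by omega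
  have hgd : Good (H.h w (G w)) (H.h w (G w)) := (two_good hF hz).2 rfl
  have key : ∀ d : Fin (k + 1) → K, H.FreeT (H.perp2 ⊤ w (G w)) (H.g1 G w) (k + 1) d →
      (∀ i, d i = H.h w (G w)) ∧ (H.h w (G w)) ^ (k + 3) = 1 := by
    intro d hd
    have h6 := free_one H (free_g1 H hG hw h0 hz hgd hd) hA
    refine ⟨fun i => ?_, ?_⟩
    · have h7 := h6.1 i.succ 0
      rwa [Fin.cons_succ, Fin.cons_zero] at h7
    · have h7 := h6.2 0
      rwa [Fin.cons_zero] at h7
  obtain ⟨d, hd⟩ := free_exists H hK h1 h4 h3 hs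
  exact ⟨(key d hd).2, odd_const H hK hF h1 h5 h3 hs hz fun d hd => (key d hd).1⟩

/-- On `L`, `g1 = G = μ` (`h w (G x) = μ * h w x = 0`).  In the first case of `good_const` `μ² = z²`, so `μ = z` (characteristic 2);
in the second case take `x ≠ 0` in `L` with `h d x = 0`. -/
theorem good_mu [Finite K] [FiniteDimensional K V] (hK : ∃ x : K, star x ≠ x)
    (hF : ∀ t : K, star t = t → t = 0 ∨ t = 1) {k : ℕ} (hU : H.ND ⊤) (hn : finrank K V = 2 * k + 7)
    (hG : H.Iso ⊤ G) (hA : ¬ H.AltA G (k + 3)) {w : V} (h0 : H.h w w = 0) (hz : H.h w (G w) ≠ 0)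
    (hs : ¬ Scal (H.perp2 ⊤ w (G w)) (H.g1 G w)) {L : Submodule K V}
    (hL : L ≤ H.perp2 ⊤ w (G w)) (h2 : 2 ≤ finrank K L) {μ : K} (hμ : ∀ x ∈ L, G x = μ • x) :
    μ = H.h w (G w) := by
  have hg : ∀ x ∈ L, H.g1 G w x = μ • x := by
    intro x hx
    have h3 := (H.mem_perp2.1 (hL hx)).2.1
    rw [H.g1_apply, hμ x hx, map_smul, h3, smul_zero, zero_mul, zero_smul, sub_zero]
  rcases (good_const H hK hF hU hn hG hA h0 hz hs).2 with h3 | ⟨d, -, -, h3⟩
  · -- first case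
    have hne : L ≠ ⊥ := by
      rintro rfl
      rw [finrank_bot] at h2
      omega
    obtain ⟨x, hx, hx0⟩ := Submodule.exists_mem_ne_zero_of_ne_bot hne
    have h4 := h3 x (hL hx)
    rw [hg x hx, map_smul, hg x hx, smul_smul] at h4
    have h5 : μ * μ = (H.h w (G w)) ^ 2 := smul_left_injective K hx0 h4
    have h6 := two_char hF
    have h7 : (μ - H.h w (G w)) ^ 2 = 0 := by
      linear_combination h5 + ((H.h w (G w)) ^ 2 - μ * H.h w (G w)) * h6
    exact sub_eq_zero.1 (pow_eq_zero_iff (two_ne_zero) |>.1 h7)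
  · -- second case
    set φ : L →ₗ[K] K := (H.h d).comp L.subtype with hφ
    have h4 := φ.finrank_range_add_finrank_ker
    have h5 : finrank K (LinearMap.range φ) ≤ 1 := by
      have h6 := Submodule.finrank_le (LinearMap.range φ)
      rwa [finrank_self] at h6
    have hne : LinearMap.ker φ ≠ ⊥ := by
      intro h6
      rw [h6, finrank_bot] at h4
      omega
    obtain ⟨x, hx, hx0⟩ := Submodule.exists_mem_ne_zero_of_ne_bot hne
    have hx0' : (x : V) ≠ 0 := fun h => hx0 (Subtype.ext h)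
    have h6 : H.h d (x : V) = 0 := hx
    have h7 := h3 x (hL x.2) h6
    rw [hg x x.2] at h7
    exact smul_left_injective K hx0' h7

end ThU
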