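import Pool.Agent.ThU.Iso

/-! # Module Sc -/

namespace ThU
open Matrix Polynomial Module

variable {K V : Type*} [Field K] [StarRing K] [AddCommGroup V] [Module K V] (H : Herm K V)
variable {U : Submodule K V}

private theorem Sc_ortho (hK : ∃ x : K, star x ≠ x) (T : V →ₗ[K] V)
    (h0 : ∀ w ∈ U, H.h w w = 0 → H.h w (T w) = 0) {w u : V} (hw : w ∈ U) (hu : u ∈ U)
    (hww : H.h w w = 0) (huu : H.h u u = 0) (hwu : H.h w u = 0) : H.h u (T w) = 0 := by
  have huw : H.h u w = 0 := H.swap_zero.1 hwu
  have key : ∀ t : K, star t * H.h u (T w) + t * H.h w (T u) = 0 := by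
    intro t
    have h1 := h0 (w + t • u) (U.add_mem hw (U.smul_mem t hu)) (by
      simp only [H.add_left, H.smul_left, map_add, map_smul, smul_eq_mul, hww, huu, hwu, huw]
      ring)
    simp only [H.add_left, H.smul_left, map_add, map_smul, smul_eq_mul, h0 w hw hww,
      h0 u hu huu] at h1
    linear_combination h1
  obtain ⟨x, hx⟩ := hK
  have h1 := key 1
  have h2 := key x
  rw [star_one, one_mul, one_mul] at h1
  have h3 : (star x - x) * H.h u (T w) = 0 := by linear_combination h2 - x * h1
  rcases mul_eq_zero.1 h3 with h4 | h4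
  · exact absurd (sub_eq_zero.1 h4) hx
  · exact h4

/-- the decomposition of `T w` -/
private theorem Sc_comp (T : V →ₗ[K] V) (hT : ∀ x ∈ U, T x ∈ U)
    (h0 : ∀ w ∈ U, H.h w w = 0 → H.h w (T w) = 0) {w w' : V} (hw : w ∈ U) (hw' : w' ∈ U)
    (hww : H.h w w = 0) (hww' : H.h w' w' = 0) (h1 : H.h w' w = 1) :
    ∃ (a : K) (r : V), r ∈ H.perp2 U w w' ∧ T w = a • w + r := by
  have h2 : H.h w w' = 1 := by rw [H.symm w' w, h1, star_one]
  obtain ⟨s, t, hr⟩ := perp2_dec H hw hw' hww hww' (by rw [h2]; exact one_ne_zero) (T w) (hT w hw)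
  obtain ⟨_, hr1, hr2⟩ := (H.mem_perp2).1 hr
  have h3 := h0 w hw hww
  have ht : t = 0 := by
    have h4 : H.h w (T w - s • w - t • w') = 0 := hr1
    simp only [map_sub, map_smul, smul_eq_mul, hww, h2, h3] at h4
    linear_combination -h4
  refine ⟨s, T w - s • w - t • w', hr, ?_⟩
  rw [ht, zero_smul, sub_zero]
  abel

/-- isotropic vectors are eigenvectors -/
private theorem Sc_eig [Finite K] [FiniteDimensional K V] (hK : ∃ x : K, star x ≠ x) (hU : H.ND U)
    (T : V →ₗ[K] V) (hT : ∀ x ∈ U, T x ∈ U) (h0 : ∀ w ∈ U, H.h w w = 0 → H.h w (T w) = 0)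
    {w : V} (hw : w ∈ U) (hw0 : w ≠ 0) (hww : H.h w w = 0) : ∃ a : K, T w = a • w := by
  obtain ⟨w', hw', hww', h1⟩ := exists_partner H hK hU hw hw0 hww
  have h2 : H.h w w' = 1 := by rw [H.symm w' w, h1, star_one]
  have hN := perp2_ND H hU hw hw' hww hww' (by rw [h2]; exact one_ne_zero)
  obtain ⟨a, r, hr, hTw⟩ := Sc_comp H T hT h0 hw hw' hww hww' h1
  refine ⟨a, ?_⟩
  suffices hr0 : r = 0 by rw [hTw, hr0, add_zero]
  obtain ⟨hrU, hr1, hr2⟩ := (H.mem_perp2).1 hr
  rcases Nat.lt_or_ge (finrank K (H.perp2 U w w')) 2 with hlt | hge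
  · rcases Nat.lt_or_ge (finrank K (H.perp2 U w w')) 1 with hlt1 | hge1
    · -- dimension zero
      have h3 : finrank K (H.perp2 U w w') = 0 := by omega
      have h4 : H.perp2 U w w' = ⊥ := Submodule.finrank_eq_zero.1 h3
      rw [h4] at hr
      exact (Submodule.mem_bot K).1 hr
    · -- dimension one
      have h3 : finrank K (H.perp2 U w w') = 1 := by omega
      obtain ⟨e, he0, hspan⟩ := finrank_eq_one_iff'.1 h3
      have hspan' : ∀ x ∈ H.perp2 U w w', ∃ c : K, x = c • (e : V) := by
        intro x hx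
        obtain ⟨c, hc⟩ := hspan ⟨x, hx⟩
        refine ⟨c, ?_⟩
        have := congrArg Subtype.val hc
        simpa using this.symm
      obtain ⟨heU, he1, he2⟩ := (H.mem_perp2).1 e.2
      have he1' : H.h (e : V) w = 0 := H.swap_zero.1 he1
      have he2' : H.h (e : V) w' = 0 := H.swap_zero.1 he2
      have hη : H.h (e : V) (e : V) ≠ 0 := by
        intro h4
        apply he0
        apply Subtype.ext
        refine hN e e.2 fun y hy => ?_
        obtain ⟨c, rfl⟩ := hspan' y hy
        rw [map_smul, h4, smul_zero]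
      have hηs : star (H.h (e : V) (e : V)) = H.h (e : V) (e : V) := H.symm' _ _
      obtain ⟨γ, rfl⟩ := hspan' r hr
      -- `T w'`
      have h1' : H.h w w' = 1 := h2
      obtain ⟨a', r', hr', hTw'⟩ := Sc_comp H T hT h0 hw' hw hww' hww h1'
      have hr'' : r' ∈ H.perp2 U w w' := by
        rw [H.mem_perp2] at hr' ⊢
        exact ⟨hr'.1, hr'.2.2, hr'.2.1⟩
      obtain ⟨γ', rfl⟩ := hspan' r' hr''
      -- `T e`
      obtain ⟨μ, μ', hTe⟩ := perp2_dec H hw hw' hww hww' (by rw [h2]; exact one_ne_zero)
        (T (e : V)) (hT _ heU)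
      obtain ⟨δ, hδ⟩ := hspan' _ hTe
      have hTe' : T (e : V) = δ • (e : V) + μ • w + μ' • w' := by
        rw [← hδ]
        abel
      -- the condition
      have key : ∀ s t : K, t + star t = - (s * star s * H.h (e : V) (e : V)) →
          s * μ + t * a + star s * H.h (e : V) (e : V) * (γ' + s * δ + t * γ) +
            star t * (a' + s * μ') = 0 := by
        intro s t hst
        have h5 := h0 (w' + s • (e : V) + t • w)
          (U.add_mem (U.add_mem hw' (U.smul_mem s heU)) (U.smul_mem t hw)) (by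
            simp only [H.add_left, H.smul_left, map_add, map_smul, smul_eq_mul, hww, hww', h1, h2,
              he1, he2, he1', he2']
            linear_combination hst)
        simp only [H.add_left, H.smul_left, map_add, map_smul, smul_eq_mul, hTw, hTw', hTe', hww,
          hww', h1, h2, he1, he2, he1', he2'] at h5
        linear_combination h5
      obtain ⟨ε, hε0, hεs⟩ := fld_eps hK
      have haa : a = a' := by
        have h5 := key 0 ε (by rw [hεs]; simp)
        rw [hεs, star_zero] at h5
        have h6 : ε * (a - a') = 0 := by linear_combination h5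
        rcases mul_eq_zero.1 h6 with h7 | h7
        · exact absurd h7 hε0
        · exact sub_eq_zero.1 h7
      have hdiff : ∀ s : K, star s * H.h (e : V) (e : V) * γ = s * μ' := by
        intro s
        obtain ⟨t, ht⟩ := fld_trace hK (- (s * star s * H.h (e : V) (e : V))) (by
          rw [star_neg, star_mul', star_mul', star_star, hηs]
          ring)
        have h5 := key s t ht
        have h6 := key s (t + ε) (by rw [star_add, hεs, ← ht]; ring)
        rw [star_add, hεs] at h6
        have h7 : ε * (star s * H.h (e : V) (e : V) * γ - s * μ') = 0 := by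
          rw [haa] at h5 h6
          linear_combination h6 - h5
        rcases mul_eq_zero.1 h7 with h8 | h8
        · exact absurd h8 hε0
        · exact sub_eq_zero.1 h8
      obtain ⟨x, hx⟩ := hK
      have h5 := hdiff 1
      have h6 := hdiff x
      rw [star_one] at h5
      have h7 : (star x - x) * (H.h (e : V) (e : V) * γ) = 0 := by linear_combination h6 - x * h5
      rcases mul_eq_zero.1 h7 with h8 | h8
      · exact absurd (sub_eq_zero.1 h8) hx
      · rcases mul_eq_zero.1 h8 with h9 | h9
        · exact absurd h9 hη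
        · rw [h9, zero_smul]
  · -- dimension at least two
    refine hN r hr fun y hy => ?_
    have hy' := span_iso H hK hN hge hy
    have hsub : Submodule.span K {v | v ∈ H.perp2 U w w' ∧ H.h v v = 0} ≤
        LinearMap.ker (H.h r) := by
      rw [Submodule.span_le]
      rintro v ⟨hv, hvv⟩
      obtain ⟨hvU, hv1, hv2⟩ := (H.mem_perp2).1 hv
      have h3 := Sc_ortho H hK T h0 hw hvU hww hvv hv1
      have h4 : H.h v w = 0 := H.swap_zero.1 hv1
      rw [hTw, map_add, map_smul, h4, smul_zero, zero_add] at h3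
      exact LinearMap.mem_ker.2 (H.swap_zero.1 h3)
    exact LinearMap.mem_ker.1 (hsub hy')

/-- two eigenvalues of a hyperbolic pair agree -/
private theorem Sc_pair (hK : ∃ x : K, star x ≠ x)
    (T : V →ₗ[K] V) (h0 : ∀ w ∈ U, H.h w w = 0 → H.h w (T w) = 0)
    {v w : V} (hv : v ∈ U) (hw : w ∈ U) (hvv : H.h v v = 0) (hww : H.h w w = 0)
    (hvw : H.h v w ≠ 0) {a b : K} (ha : T v = a • v) (hb : T w = b • w) : a = b := by
  obtain ⟨ε, hε0, hεs⟩ := fld_eps hK
  set c := H.h v w with hc
  have hwv : H.h w v = star c := by rw [hc]; exact H.symm v w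
  set x : K := ε * c⁻¹ with hx
  have hxc : x * c = ε := by rw [hx, mul_assoc, inv_mul_cancel₀ hvw, mul_one]
  have hxc' : star x * star c = -ε := by rw [← star_mul', hxc, hεs]
  have h1 := h0 (v + x • w) (U.add_mem hv (U.smul_mem x hw)) (by
    simp only [H.add_left, H.smul_left, map_add, map_smul, smul_eq_mul, hvv, hww, hwv, ← hc]
    linear_combination hxc + hxc')
  simp only [H.add_left, H.smul_left, map_add, map_smul, smul_eq_mul, ha, hb, hvv, hww, hwv,
    ← hc] at h1
  have h2 : ε * (b - a) = 0 := by linear_combination h1 - b * hxc - a * hxc'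
  rcases mul_eq_zero.1 h2 with h3 | h3
  · exact absurd h3 hε0
  · exact (sub_eq_zero.1 h3).symm

/-- A linear map with `h w (T w) = 0` for all isotropic `w` is a scalar.  Proof: it is enough that every isotropic
`w ≠ 0` in `U` is an eigenvector (if `w`, `w'` is a hyperbolic pair, `T w = α w`, `T w' = α' w'`, then `w + e • w'` with
`star e = - e` is isotropic, so `α = α'`; if `h v w ≠ 0` for isotropic `v`, `w` then they are (up to a factor) a hyperbolic
pair; if `h v w = 0` there is an isotropic `u` with `h v u ≠ 0` and `h w u ≠ 0`, or use `v + w`; then `span_iso`).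
Let `w`, `w'` be a hyperbolic pair, `U1 = perp2 U w w'`.  `h w (T w) = 0` says that `T w` has no component along `w'`.
If `u ∈ U1` is isotropic then `w + t • u` is isotropic for all `t`, so `star t * h u (T w) + t * h w (T u) = 0` for all
`t : K`, hence `h u (T w) = 0` (take `t = 1` and `t` with `star t ≠ t`).  If `finrank U1 ≥ 2` then `span_iso` and
`perp2_ND` show that the component of `T w` in `U1` is zero; this is clear if `finrank U1 = 0`.  If `finrank U1 = 1`
(`finrank U = 3`), `U1 = ⟨e⟩`, `η = h e e ≠ 0`: write `T w = α w + γ e`, `T w' = α' w' + γ' e`, `T e = δ e + μ w + μ' w'`; the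
vector `w' + s e + t w` is isotropic if `t + star t = - s * star s * η`; with `s = 0`, `t = e0`, `star e0 = - e0` we get
`α = α'`; the condition for `(s, t)` and for `(s, t + e0)` gives `star s * η * γ = s * μ'` for all `s`, so `γ = 0`. -/
theorem scal_of_iso [Finite K] [FiniteDimensional K V] (hK : ∃ x : K, star x ≠ x) (hU : H.ND U)
    (h1 : finrank K U ≠ 1) (T : V →ₗ[K] V) (hT : ∀ x ∈ U, T x ∈ U)
    (h0 : ∀ w ∈ U, H.h w w = 0 → H.h w (T w) = 0) : Scal U T := by
  rcases Nat.eq_zero_or_pos (finrank K U) with hz | hpos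
  · refine ⟨0, fun x hx => ?_⟩
    have h2 : U = ⊥ := Submodule.finrank_eq_zero.1 hz
    rw [h2] at hx
    rw [(Submodule.mem_bot K).1 hx, map_zero, smul_zero]
  have h2 : 2 ≤ finrank K U := by omega
  obtain ⟨w, hw, hw0, hww⟩ := exists_iso H hK hU h2
  obtain ⟨w', hw', hww', hw'w⟩ := exists_partner H hK hU hw hw0 hww
  have hw'0 : w' ≠ 0 := by
    rintro rfl
    rw [H.zero_left] at hw'w
    exact zero_ne_one hw'w
  have hww'1 : H.h w w' = 1 := by rw [H.symm w' w, hw'w, star_one]
  obtain ⟨a, ha⟩ := Sc_eig H hK hU T hT h0 hw hw0 hww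
  obtain ⟨a', ha'⟩ := Sc_eig H hK hU T hT h0 hw' hw'0 hww'
  have haa : a = a' := Sc_pair H hK T h0 hw hw' hww hww' (by rw [hww'1]; exact one_ne_zero) ha ha'
  refine ⟨a, ?_⟩
  have hall : ∀ v ∈ U, H.h v v = 0 → T v = a • v := by
    intro v hv hvv
    by_cases hv0 : v = 0
    · rw [hv0, map_zero, smul_zero]
    obtain ⟨b, hb⟩ := Sc_eig H hK hU T hT h0 hv hv0 hvv
    suffices hba : b = a by rw [hb, hba]
    by_cases hvw : H.h v w = 0
    · -- use `v + w`
      have hwv : H.h w v = 0 := H.swap_zero.1 hvw
      by_cases hvw' : H.h v w' = 0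
      · have hw'v : H.h w' v = 0 := H.swap_zero.1 hvw'
        have h3 : H.h w' (v + w) = 1 := by rw [map_add, hw'v, hw'w, zero_add]
        have hne : v + w ≠ 0 := by
          intro h4
          rw [h4, map_zero] at h3
          exact zero_ne_one h3
        obtain ⟨k, hk⟩ := Sc_eig H hK hU T hT h0 (U.add_mem hv hw) hne (by
          simp only [H.add_left, map_add, hvv, hww, hvw, hwv]
          ring)
        rw [map_add, hb, ha] at hk
        have h4 := congrArg (H.h w') hk
        simp only [map_add, map_smul, smul_eq_mul, hw'v, hw'w] at h4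
        have h5 : a = k := by linear_combination h4
        rw [← h5, smul_add] at hk
        have h6 : b • v = a • v := add_right_cancel hk
        have h7 : (b - a) • v = 0 := by rw [sub_smul, h6, sub_self]
        rcases smul_eq_zero.1 h7 with h8 | h8
        · exact sub_eq_zero.1 h8
        · exact absurd h8 hv0
      · rw [haa]
        exact Sc_pair H hK T h0 hv hw' hvv hww' hvw' hb ha'
    · exact Sc_pair H hK T h0 hv hw hvv hww hvw hb ha
  intro x hx
  have hx' := span_iso H hK hU h2 hx
  have hsub : Submodule.span K {w | w ∈ U ∧ H.h w w = 0} ≤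
      LinearMap.ker (T - a • LinearMap.id) := by
    rw [Submodule.span_le]
    rintro v ⟨hv, hvv⟩
    have h3 := hall v hv hvv
    refine LinearMap.mem_ker.2 ?_
    simp [h3]
  have h3 := LinearMap.mem_ker.1 (hsub hx')
  simpa [sub_eq_zero] using h3

theorem exists_z [Finite K] [FiniteDimensional K V] (hK : ∃ x : K, star x ≠ x) (hU : H.ND U)
    (h1 : finrank K U ≠ 1) {G : V →ₗ[K] V} (hG : H.Iso U G) (hs : ¬ Scal U G) :
    ∃ w ∈ U, H.h w w = 0 ∧ H.h w (G w) ≠ 0 := by
  by_contra hc
  push Not at hc
  exact hs (scal_of_iso H hK hU h1 G hG.1 hc)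

end ThU
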