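import Pool.Agent.ThU.Fld

/-! # Module SeedA -/

namespace ThU
open Matrix Polynomial Module

variable {K : Type*} [Field K] [StarRing K]

private theorem SeedA_small {Q m : ℕ} (h0 : 0 < m) (h1 : m < Q) : ¬ Q ∣ m := fun h =>
  absurd (Nat.le_of_dvd h0 h) (not_le.2 h1)

/-- the order of `β` -/
private theorem SeedA_Q {q n : ℕ} (hq : 2 ≤ q) (hn : 3 ≤ n) :
    ∃ Q : ℕ, 0 < Q ∧ Q ∣ q ^ (2 * n) - 1 ∧ (∀ d : ℕ, 0 < d → d < n → ¬ Q ∣ q ^ (2 * d) - 1) ∧
      (∀ i : ℕ, i < n → ¬ Q ∣ q ^ (2 * i + 1) + 1) ∧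
      ((∃ m, n = 2 * m ∧ Q = q ^ n + 1) ∨ (∃ m, n = 2 * m + 1 ∧ Q + 1 = q ^ n)) := by
  have hpos : ∀ k, 0 < q ^ k := fun k => pow_pos (by omega) k
  have hlt : ∀ a b, a < b → q ^ a < q ^ b := fun a b h => Nat.pow_lt_pow_right (by omega) h
  have hge : ∀ k, 0 < k → 2 ≤ q ^ k := fun k h => by
    have h1 := hlt 0 k h
    rw [pow_zero] at h1
    omega
  have h2n : q ^ (2 * n) = q ^ n * q ^ n := by rw [two_mul, pow_add]
  rcases Nat.even_or_odd' n with ⟨m, hm | hm⟩
  · refine ⟨q ^ n + 1, by omega, ⟨q ^ n - 1, ?_⟩, ?_, ?_, Or.inl ⟨m, hm, rfl⟩⟩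
    · rw [h2n, Nat.add_mul, one_mul, Nat.mul_sub, mul_one]
      have h1 := hpos n
      have h2 : q ^ n * 1 ≤ q ^ n * q ^ n := Nat.mul_le_mul_left _ h1
      omega
    · intro d hd0 hdn
      rcases le_or_gt (2 * d) n with h | h
      · apply SeedA_small
        · have := hge (2 * d) (by omega)
          omega
        · have : q ^ (2 * d) ≤ q ^ n := Nat.pow_le_pow_right (by omega) h
          omega
      · obtain ⟨e, he⟩ : ∃ e, 2 * d = n + e := ⟨2 * d - n, by omega⟩
        intro hdv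
        have h1 : q ^ (2 * d) - 1 + (q ^ e + 1) = q ^ e * (q ^ n + 1) := by
          rw [he, pow_add]
          have := Nat.mul_pos (hpos n) (hpos e)
          rw [Nat.mul_add, mul_one, mul_comm (q ^ e)]
          omega
        have h2 : q ^ n + 1 ∣ q ^ e + 1 := by
          rw [← Nat.dvd_add_right hdv, h1]
          exact Dvd.intro_left _ rfl
        refine SeedA_small (by omega) ?_ h2
        have := hlt e n (by omega)
        omega
    · intro i hi
      rcases lt_or_ge (2 * i + 1) n with h | h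
      · apply SeedA_small (by omega)
        have := hlt _ _ h
        omega
      · obtain ⟨e, he⟩ : ∃ e, 2 * i + 1 = n + e := ⟨2 * i + 1 - n, by omega⟩
        have he0 : 0 < e := by omega
        intro hdv
        have h1 : q ^ (2 * i + 1) + 1 + (q ^ e - 1) = q ^ e * (q ^ n + 1) := by
          rw [he, pow_add]
          have := hpos e
          rw [Nat.mul_add, mul_one, mul_comm (q ^ e)]
          omega
        have h2 : q ^ n + 1 ∣ q ^ e - 1 := by
          rw [← Nat.dvd_add_right hdv, h1]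
          exact Dvd.intro_left _ rfl
        have h3 := hge e he0
        refine SeedA_small (by omega) ?_ h2
        have := hlt e n (by omega)
        omega
  · have hQ : q ^ n - 1 + 1 = q ^ n := by
      have := hpos n
      omega
    have hn8 : 8 ≤ q ^ n := by
      calc 8 = 2 ^ 3 := by norm_num
        _ ≤ q ^ 3 := Nat.pow_le_pow_left hq 3
        _ ≤ q ^ n := Nat.pow_le_pow_right (by omega) hn
    have hn1 : 2 * q ^ (n - 1) ≤ q ^ n := by
      have h1 : q ^ n = q ^ (n - 1) * q := by rw [← pow_succ]; congr 1; omega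
      rw [h1, mul_comm]
      exact Nat.mul_le_mul_left _ hq
    have hn4 : 4 ≤ q ^ (n - 1) := by
      calc 4 = 2 ^ 2 := by norm_num
        _ ≤ q ^ 2 := Nat.pow_le_pow_left hq 2
        _ ≤ q ^ (n - 1) := Nat.pow_le_pow_right (by omega) (by omega)
    have hle : ∀ e, e < n → q ^ e ≤ q ^ (n - 1) := fun e he =>
      Nat.pow_le_pow_right (by omega) (by omega)
    refine ⟨q ^ n - 1, by omega, ⟨q ^ n + 1, ?_⟩, ?_, ?_, Or.inr ⟨m, hm, hQ⟩⟩
    · rw [h2n, Nat.mul_add, mul_one, Nat.sub_mul, one_mul]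
      have h2 : q ^ n * 1 ≤ q ^ n * q ^ n := Nat.mul_le_mul_left _ (hpos n)
      omega
    · intro d hd0 hdn
      rcases lt_or_ge (2 * d) n with h | h
      · apply SeedA_small
        · have := hge (2 * d) (by omega)
          omega
        · have := hlt _ _ h
          have := hpos (2 * d)
          omega
      · obtain ⟨e, he⟩ : ∃ e, 2 * d = n + e := ⟨2 * d - n, by omega⟩
        have he0 : 0 < e := by omega
        have h3 := hge e he0
        intro hdv
        have h1 : q ^ (2 * d) - 1 = (q ^ n - 1) * q ^ e + (q ^ e - 1) := by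
          rw [he, pow_add, Nat.sub_mul, one_mul]
          have : 1 * q ^ e ≤ q ^ n * q ^ e := Nat.mul_le_mul_right _ (hpos n)
          omega
        have h2 : q ^ n - 1 ∣ q ^ e - 1 := by
          rw [h1] at hdv
          exact (Nat.dvd_add_right (Dvd.intro _ rfl)).1 hdv
        refine SeedA_small (by omega) ?_ h2
        have := hlt e n (by omega)
        omega
    · intro i hi
      rcases lt_or_ge (2 * i + 1) n with h | h
      · apply SeedA_small (by omega)
        have := hle _ h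
        omega
      · obtain ⟨e, he⟩ : ∃ e, 2 * i + 1 = n + e := ⟨2 * i + 1 - n, by omega⟩
        intro hdv
        have h1 : q ^ (2 * i + 1) + 1 = (q ^ n - 1) * q ^ e + (q ^ e + 1) := by
          rw [he, pow_add, Nat.sub_mul, one_mul]
          have : 1 * q ^ e ≤ q ^ n * q ^ e := Nat.mul_le_mul_right _ (hpos n)
          omega
        have h2 : q ^ n - 1 ∣ q ^ e + 1 := by
          rw [h1] at hdv
          exact (Nat.dvd_add_right (Dvd.intro _ rfl)).1 hdv
        refine SeedA_small (by omega) ?_ h2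
        have := hle e (by omega)
        omega

private theorem SeedA_core (K : Type*) [Field K] [StarRing K] [Finite K] {q n : ℕ} (hq : 2 ≤ q)
    (hcard : Nat.card K = q ^ 2) (hstar : ∀ x : K, star x = x ^ q) (hn : 3 ≤ n)
    (E : Type) [Field E] [Algebra K E] [Finite E] (hE : finrank K E = n) :
    ∃ (f : K[X]) (β : E),
      f.Monic ∧ Irreducible f ∧ f.natDegree = n ∧ f.coeff 0 ≠ 0 ∧ finrank K E = n ∧ aeval β f = 0 ∧
      aeval β⁻¹ (f.map (starRingEnd K)) ≠ 0 ∧ (aeval β⁻¹ f = 0 ∨ f.map (starRingEnd K) = f) := by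
  obtain ⟨p, hp⟩ := CharP.exists K
  have : Fintype K := Fintype.ofFinite K
  have : Fintype E := Fintype.ofFinite E
  have hpp : Fact p.Prime := ⟨CharP.char_is_prime K p⟩
  have : CharP E p := charP_of_injective_algebraMap (algebraMap K E).injective p
  have : Module.Finite K E := Module.Finite.of_finite
  -- q is a power of p
  obtain ⟨m, -, hm⟩ := FiniteField.card K p
  have hcK : Fintype.card K = q ^ 2 := by rw [← hcard, Nat.card_eq_fintype_card]
  obtain ⟨j, -, hj⟩ := (Nat.dvd_prime_pow hpp.out).1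
    (show q ∣ p ^ (m : ℕ) by rw [← hm, hcK]; exact dvd_pow_self q two_ne_zero)
  have hcE : Fintype.card E = q ^ (2 * n) := by
    rw [Module.card_eq_pow_finrank (K := K) (V := E), hcK, hE, ← pow_mul]
  obtain ⟨Q, hQ0, hQd, hQ1, hQ2, hQ3⟩ := SeedA_Q hq hn
  -- the element of order Q
  obtain ⟨g, hg⟩ := IsCyclic.exists_generator (α := Eˣ)
  have hog : orderOf g = q ^ (2 * n) - 1 := by
    rw [orderOf_eq_card_of_forall_mem_zpowers hg, Nat.card_units, Nat.card_eq_fintype_card, hcE]
  obtain ⟨r, hr⟩ := hQd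
  have hg0 : 0 < orderOf g := orderOf_pos g
  have hr0 : r ≠ 0 := by
    rintro rfl
    rw [hog, hr, mul_zero] at hg0
    exact lt_irrefl _ hg0
  have hQo : orderOf (g ^ r) = Q := by
    rw [orderOf_pow' g hr0, hog, hr, Nat.gcd_mul_left_left, Nat.mul_div_cancel _ (Nat.pos_of_ne_zero hr0)]
  obtain ⟨β, hβ⟩ : ∃ β : E, β = ((g ^ r : Eˣ) : E) := ⟨_, rfl⟩
  have hβ0 : β ≠ 0 := by rw [hβ]; exact Units.ne_zero _
  have hβQ : orderOf β = Q := by rw [hβ, orderOf_units, hQo]
  have hint : IsIntegral K β := Algebra.IsIntegral.isIntegral β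
  obtain ⟨f, hf⟩ : ∃ f, f = minpoly K β := ⟨_, rfl⟩
  have hfm : f.Monic := by rw [hf]; exact minpoly.monic hint
  have hfi : Irreducible f := by rw [hf]; exact minpoly.irreducible hint
  have hfr : aeval β f = 0 := by rw [hf]; exact minpoly.aeval K β
  -- degree
  have hdeg : f.natDegree = n := by
    have hle : f.natDegree ≤ n := by rw [hf, ← hE]; exact minpoly.natDegree_le β
    have hfin : finrank K (IntermediateField.adjoin K {β}) = f.natDegree := by
      rw [hf]; exact IntermediateField.adjoin.finrank hint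
    by_contra hne
    refine hQ1 f.natDegree ?_ (lt_of_le_of_ne hle hne) ?_
    · rw [hf]; exact minpoly.natDegree_pos hint
    · have : Fintype (IntermediateField.adjoin K {β}) := Fintype.ofFinite _
      have hc : Fintype.card (IntermediateField.adjoin K {β}) = q ^ (2 * f.natDegree) := by
        rw [Module.card_eq_pow_finrank (K := K), hcK, hfin, ← pow_mul]
      have h1 := FiniteField.pow_card (⟨β, IntermediateField.mem_adjoin_simple_self K β⟩ :
        IntermediateField.adjoin K {β})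
      rw [hc] at h1
      have h2 : β ^ (q ^ (2 * f.natDegree)) = β := congrArg Subtype.val h1
      have hpos : 0 < q ^ (2 * f.natDegree) := pow_pos (by omega) _
      rw [← hβQ, orderOf_dvd_iff_pow_eq_one]
      apply mul_left_cancel₀ hβ0
      rw [← pow_succ', Nat.sub_add_cancel hpos, h2, mul_one]
  -- the q-power map
  obtain ⟨φ, hφ⟩ : ∃ φ : E →+* E, ∀ x, φ x = x ^ q :=
    ⟨iterateFrobenius E p j, fun x => by rw [iterateFrobenius_def, hj]⟩
  have hφK : φ.comp (algebraMap K E) = (algebraMap K E).comp (starRingEnd K) := by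
    ext x
    rw [RingHom.comp_apply, RingHom.comp_apply, hφ, starRingEnd_apply, hstar, map_pow]
  have hmap : ∀ x : E, aeval (φ x) (f.map (starRingEnd K)) = φ (aeval x f) := by
    intro x
    rw [aeval_def, eval₂_map, aeval_def, hom_eval₂, hφK]
  -- the Frobenius of E over K
  have hσ : ∀ i : ℕ, ∃ σ : E ≃ₐ[K] E, ∀ x, σ x = x ^ (q ^ (2 * i)) := by
    intro i
    refine ⟨FiniteField.frobeniusAlgEquivOfAlgebraic K E ^ i, fun x => ?_⟩
    rw [AlgEquiv.coe_pow, FiniteField.coe_frobeniusAlgEquivOfAlgebraic_iterate, hcK, ← pow_mul]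
  have hconj : ∀ γ : E, aeval γ f = 0 → ∃ i < n, γ = β ^ (q ^ (2 * i)) := by
    intro γ hγ
    have h1 : minpoly K γ = minpoly K β := by
      rw [← hf]
      exact (minpoly.eq_of_irreducible_of_monic hfi hγ hfm).symm
    obtain ⟨σ, hσ'⟩ := isConjRoot_iff_exists_algEquiv.1 ((isConjRoot_def (R := K) (x := γ) (y := β)).2 h1)
    obtain ⟨⟨i, hi⟩, hi'⟩ := (FiniteField.bijective_frobeniusAlgEquivOfAlgebraic_pow K E).2 σ
    rw [hE] at hi
    refine ⟨i, hi, ?_⟩
    rw [← hσ', ← hi']
    show (FiniteField.frobeniusAlgEquivOfAlgebraic K E ^ i) β = _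
    rw [AlgEquiv.coe_pow, FiniteField.coe_frobeniusAlgEquivOfAlgebraic_iterate, hcK, ← pow_mul]
  have hσf : ∀ (i : ℕ) (x : E) (h : K[X]), aeval (x ^ (q ^ (2 * i))) h = 0 ↔ aeval x h = 0 := by
    intro i x h
    obtain ⟨σ, hσ⟩ := hσ i
    have h1 := aeval_algHom_apply (σ : E →ₐ[K] E) x h
    rw [← hσ]
    rw [show aeval (σ x) h = σ (aeval x h) from h1]
    exact map_eq_zero_iff _ σ.injective
  refine ⟨f, β, hfm, hfi, hdeg, ?_, hE, hfr, ?_, ?_⟩
  · rw [hf]
    exact minpoly.coeff_zero_ne_zero hint hβ0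
  · intro h0
    -- the q-th root of β⁻¹
    obtain ⟨γ, hγ⟩ : ∃ γ : E, γ ^ q = β⁻¹ := by
      refine ⟨β⁻¹ ^ (q ^ (2 * n - 1)), ?_⟩
      rw [← pow_mul, ← pow_succ, show 2 * n - 1 + 1 = 2 * n by omega, ← hcE, FiniteField.pow_card]
    rw [← hγ, ← hφ, hmap] at h0
    obtain ⟨i, hi, hγi⟩ := hconj γ ((map_eq_zero φ).1 h0)
    apply hQ2 i hi
    rw [← hβQ, orderOf_dvd_iff_pow_eq_one, pow_succ, pow_succ, pow_mul, ← hγi, hγ,
      inv_mul_cancel₀ hβ0]
  · have hβQ' : β ^ Q = 1 := by rw [← hβQ]; exact pow_orderOf_eq_one β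
    rcases hQ3 with ⟨m', hm', hQm⟩ | ⟨m', hm', hQm⟩
    · left
      have h1 : β⁻¹ = β ^ (q ^ (2 * m')) := by
        rw [← hm']
        rw [hQm, pow_succ] at hβQ'
        exact (eq_inv_of_mul_eq_one_left hβQ').symm
      rw [h1, hσf]
      exact hfr
    · right
      have h1 : φ β = β ^ (q ^ (2 * (m' + 1))) := by
        rw [hφ, show 2 * (m' + 1) = n + 1 by omega, pow_succ, pow_mul, ← hQm, pow_succ, hβQ', one_mul]
      have h2 : aeval β (f.map (starRingEnd K)) = 0 := by
        rw [← hσf (m' + 1), ← h1, hmap, hfr, map_zero]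
      have h3 : f ∣ f.map (starRingEnd K) := by
        conv_lhs => rw [hf]
        exact minpoly.dvd K β h2
      exact (eq_of_monic_of_dvd_of_natDegree_le hfm (hfm.map _) h3 (by rw [natDegree_map]))

theorem exists_f [Finite K] (hK : ∃ x : K, star x ≠ x) {n : ℕ} (hn : 3 ≤ n) :
    ∃ (f : K[X]) (E : Type) (_ : Field E) (_ : Algebra K E) (_ : Finite E) (β : E),
      f.Monic ∧ Irreducible f ∧ f.natDegree = n ∧ f.coeff 0 ≠ 0 ∧ finrank K E = n ∧ aeval β f = 0 ∧
      aeval β⁻¹ (f.map (starRingEnd K)) ≠ 0 ∧ (aeval β⁻¹ f = 0 ∨ f.map (starRingEnd K) = f) := by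
  obtain ⟨q, hq, hcard, hstar⟩ := fld_card hK
  obtain ⟨p, hp⟩ := CharP.exists K
  have hpp : Fact p.Prime := ⟨CharP.char_is_prime K p⟩
  have : NeZero n := ⟨by omega⟩
  obtain ⟨f, β, h⟩ := SeedA_core K hq hcard hstar hn (FiniteField.Extension K p n)
    (FiniteField.finrank_extension K p n)
  exact ⟨f, FiniteField.Extension K p n, inferInstance, inferInstance, inferInstance, β, h⟩

end ThU
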