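import Pool.Agent.ThU.Defs

/-! # Module Spc -/

namespace ThU
open Matrix Polynomial Module

variable {K V : Type*} [Field K] [StarRing K] [AddCommGroup V] [Module K V] (H : Herm K V)
variable {U : Submodule K V} {a b : V}

/-- `s = h b x / h b a`, `t = h a x / h a b` -/
theorem perp2_dec (ha : a ∈ U) (hb : b ∈ U) (haa : H.h a a = 0) (hbb : H.h b b = 0)
    (hab : H.h a b ≠ 0) (x : V) (hx : x ∈ U) : ∃ s t : K, x - s • a - t • b ∈ H.perp2 U a b := by
  have hba : H.h b a ≠ 0 := fun h => hab ((H.swap_zero).1 h)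
  refine ⟨H.h b x / H.h b a, H.h a x / H.h a b, ?_⟩
  rw [H.mem_perp2]
  refine ⟨U.sub_mem (U.sub_mem hx (U.smul_mem _ ha)) (U.smul_mem _ hb), ?_, ?_⟩
  · rw [map_sub, map_sub, map_smul, map_smul, haa, smul_eq_mul, smul_eq_mul, mul_zero, sub_zero,
      div_mul_cancel₀ _ hab, sub_self]
  · rw [map_sub, map_sub, map_smul, map_smul, hbb, smul_eq_mul, smul_eq_mul, mul_zero, sub_zero,
      div_mul_cancel₀ _ hba, sub_self]

theorem perp2_ND (hU : H.ND U) (ha : a ∈ U) (hb : b ∈ U) (haa : H.h a a = 0) (hbb : H.h b b = 0)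
    (hab : H.h a b ≠ 0) : H.ND (H.perp2 U a b) := by
  intro x hx hxy
  have hx' := (H.mem_perp2).1 hx
  refine hU x hx'.1 fun y hy => ?_
  obtain ⟨s, t, hst⟩ := perp2_dec H ha hb haa hbb hab y hy
  have h1 := hxy _ hst
  have h2 : H.h x a = 0 := (H.swap_zero).1 hx'.2.1
  have h3 : H.h x b = 0 := (H.swap_zero).1 hx'.2.2
  rw [map_sub, map_sub, map_smul, map_smul, h2, h3, smul_zero, smul_zero, sub_zero, sub_zero] at h1
  exact h1

theorem perp2_finrank [FiniteDimensional K V] (ha : a ∈ U) (hb : b ∈ U) (haa : H.h a a = 0)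
    (hbb : H.h b b = 0) (hab : H.h a b ≠ 0) : finrank K U = finrank K (H.perp2 U a b) + 2 := by
  have hba : H.h b a ≠ 0 := fun h => hab ((H.swap_zero).1 h)
  let φ : U →ₗ[K] K × K := ((H.h a).prod (H.h b)).comp U.subtype
  have hφ : ∀ x : U, φ x = (H.h a x.1, H.h b x.1) := fun x => rfl
  have hsurj : Function.Surjective φ := by
    rintro ⟨p, q⟩
    refine ⟨⟨(q / H.h b a) • a + (p / H.h a b) • b,
      U.add_mem (U.smul_mem _ ha) (U.smul_mem _ hb)⟩, ?_⟩
    rw [hφ]
    simp only [map_add, map_smul, smul_eq_mul, haa, hbb, mul_zero, zero_add, add_zero]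
    rw [div_mul_cancel₀ _ hab, div_mul_cancel₀ _ hba]
  have hle : H.perp2 U a b ≤ U := inf_le_left
  have hker : LinearMap.ker φ = (H.perp2 U a b).comap U.subtype := by
    ext x
    rw [LinearMap.mem_ker, hφ, Submodule.mem_comap, Submodule.subtype_apply, H.mem_perp2,
      Prod.mk_eq_zero]
    exact ⟨fun h => ⟨x.2, h⟩, fun h => h.2⟩
  have h1 := φ.finrank_range_add_finrank_ker
  rw [LinearMap.range_eq_top.2 hsurj, finrank_top, hker,
    (Submodule.comapSubtypeEquivOfLe hle).finrank_eq, Module.finrank_prod, finrank_self] at h1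
  omega

/-- Riesz: the `star`-linear map `b ↦ h b` from `U` to the dual of `U` is injective, hence surjective (dimensions) -/
theorem riesz [FiniteDimensional K V] (hU : H.ND U) (φ : V →ₗ[K] K) :
    ∃ b ∈ U, ∀ x ∈ U, φ x = H.h b x := by
  let N : Submodule K (Dual K U) :=
    { carrier := {ψ | ∃ b ∈ U, ∀ x : U, ψ x = H.h b x.1}
      add_mem' := by
        rintro ψ ψ' ⟨b, hb, h1⟩ ⟨b', hb', h1'⟩
        exact ⟨b + b', U.add_mem hb hb', fun x => by
          rw [LinearMap.add_apply, h1, h1', H.add_left]⟩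
      zero_mem' := ⟨0, U.zero_mem, fun x => by rw [H.zero_left]; rfl⟩
      smul_mem' := by
        rintro c ψ ⟨b, hb, h1⟩
        exact ⟨star c • b, U.smul_mem _ hb, fun x => by
          rw [LinearMap.smul_apply, h1, H.smul_left, star_star, smul_eq_mul]⟩ }
  have hN : N = ⊤ := by
    by_contra hne
    obtain ⟨f, hf, hle⟩ := Submodule.exists_le_ker_of_lt_top N (lt_top_iff_ne_top.2 hne)
    obtain ⟨x, rfl⟩ := (Module.evalEquiv K U).surjective f
    apply hf
    have hx : x = 0 := by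
      apply Subtype.ext
      refine hU x.1 x.2 fun y hy => ?_
      rw [H.swap_zero]
      have hmem : ((H.h y).comp U.subtype) ∈ N := ⟨y, hy, fun z => rfl⟩
      have := hle hmem
      rw [LinearMap.mem_ker] at this
      exact this
    rw [hx, map_zero]
  have h1 : φ.comp U.subtype ∈ N := by rw [hN]; exact Submodule.mem_top
  obtain ⟨b, hb, h2⟩ := h1
  exact ⟨b, hb, fun x hx => h2 ⟨x, hx⟩⟩

theorem mem_span_of_perp [FiniteDimensional K V] (hU : H.ND U) {y b : V} (hy : y ∈ U) (hb : b ∈ U)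
    (h : ∀ x ∈ U, H.h y x = 0 → H.h b x = 0) : ∃ c : K, b = c • y := by
  by_cases hx : ∃ x ∈ U, H.h y x ≠ 0
  · obtain ⟨x0, hx0, hne⟩ := hx
    refine ⟨star (H.h b x0 / H.h y x0), ?_⟩
    have h1 : b - star (H.h b x0 / H.h y x0) • y = 0 := by
      refine hU _ (U.sub_mem hb (U.smul_mem _ hy)) fun x hx => ?_
      have h2 := h (x - (H.h y x / H.h y x0) • x0) (U.sub_mem hx (U.smul_mem _ hx0)) (by
        rw [map_sub, map_smul, smul_eq_mul, div_mul_cancel₀ _ hne, sub_self])
      rw [map_sub, map_smul, smul_eq_mul] at h2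
      rw [H.sub_left, H.smul_left, star_star, ← h2]
      congr 1
      field_simp
    exact sub_eq_zero.1 h1
  · push Not at hx
    refine ⟨0, ?_⟩
    rw [zero_smul]
    exact hU b hb fun x hx' => h x hx' (hx x hx')

end ThU
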