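import Pool.Agent.ThU.Defs

/-! # Module Split -/

namespace ThU
open Matrix Polynomial Module

variable {K : Type*} [Field K]

namespace SplitAux

/-- shift of the coordinates: multiplication by `X` (the top coordinate is lost) -/
def sh (n : ℕ) : (Fin n → K) →ₗ[K] (Fin n → K) where
  toFun v := fun i => if h : 0 < (i : ℕ) then v ⟨i - 1, by omega⟩ else 0
  map_add' v w := by
    funext i
    by_cases h : 0 < (i : ℕ) <;> simp [h]
  map_smul' c v := by
    funext i
    by_cases h : 0 < (i : ℕ) <;> simp [h]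

theorem sh_succ {n : ℕ} (v : Fin n → K) {i : ℕ} (hi : i + 1 < n) :
    sh n v ⟨i + 1, hi⟩ = v ⟨i, by omega⟩ := by
  show (if h : 0 < i + 1 then v ⟨i + 1 - 1, _⟩ else 0) = _
  rw [dif_pos (Nat.succ_pos i)]
  rfl

theorem sh_zero {n : ℕ} (v : Fin n → K) (h : 0 < n) : sh n v ⟨0, h⟩ = 0 := rfl

/-- one step of the recursion -/
noncomputable def St {n : ℕ} (A : Matrix (Fin n) (Fin n) K) : (Fin n → K) →ₗ[K] (Fin n → K) :=
  (Matrix.mulVecLin A).comp (sh n)

theorem St_apply {n : ℕ} (A : Matrix (Fin n) (Fin n) K) (v : Fin n → K) :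
    St A v = A.mulVec (sh n v) := rfl

/-- `v` has degree at most `d` -/
def dg {n : ℕ} (d : ℕ) (v : Fin n → K) : Prop := ∀ i : Fin n, d < (i : ℕ) → v i = 0

theorem mulVec_dg {n : ℕ} {A : Matrix (Fin n) (Fin n) K} (hA : ∀ i j, j < i → A i j = 0)
    {v : Fin n → K} {d : ℕ} (hv : dg d v) : dg d (A.mulVec v) := by
  intro i hi
  show ∑ j, A i j * v j = 0
  refine Finset.sum_eq_zero fun j _ => ?_
  by_cases h : j < i
  · rw [hA i j h, zero_mul]
  · rw [hv j (by have : (i : ℕ) ≤ j := by exact_mod_cast not_lt.1 h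
                 omega), mul_zero]

theorem mulVec_top {n : ℕ} {A : Matrix (Fin n) (Fin n) K} (hA : ∀ i j, j < i → A i j = 0)
    {v : Fin n → K} {d : ℕ} (hd : d < n) (hv : dg d v) :
    A.mulVec v ⟨d, hd⟩ = A ⟨d, hd⟩ ⟨d, hd⟩ * v ⟨d, hd⟩ := by
  show ∑ j, A ⟨d, hd⟩ j * v j = _
  refine Finset.sum_eq_single (⟨d, hd⟩ : Fin n) (fun j _ hj => ?_) (fun h => absurd (Finset.mem_univ _) h)
  by_cases h : j < (⟨d, hd⟩ : Fin n)
  · rw [hA _ j h, zero_mul]
  · rw [hv j (lt_of_le_of_ne (by exact_mod_cast not_lt.1 h) (fun h' => hj (Fin.ext h'.symm))),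
      mul_zero]

theorem sh_dg {n : ℕ} {v : Fin n → K} {d : ℕ} (hv : dg d v) : dg (d + 1) (sh n v) := by
  rintro ⟨i, hi⟩ h
  obtain ⟨j, rfl⟩ : ∃ j, i = j + 1 := ⟨i - 1, by simp only at h; omega⟩
  rw [sh_succ v hi]
  exact hv _ (by simp only at h ⊢; omega)

theorem St_dg {n : ℕ} {A : Matrix (Fin n) (Fin n) K} (hA : ∀ i j, j < i → A i j = 0)
    {v : Fin n → K} {d : ℕ} (hv : dg d v) : dg (d + 1) (St A v) :=
  mulVec_dg hA (sh_dg hv)

theorem St_top {n : ℕ} {A : Matrix (Fin n) (Fin n) K} (hA : ∀ i j, j < i → A i j = 0)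
    {v : Fin n → K} {d : ℕ} (hd : d + 1 < n) (hv : dg d v) :
    St A v ⟨d + 1, hd⟩ = A ⟨d + 1, hd⟩ ⟨d + 1, hd⟩ * v ⟨d, by omega⟩ := by
  rw [St_apply, mulVec_top hA hd (sh_dg hv), sh_succ v hd]

/-- the recursion -/
noncomputable def R {n : ℕ} (A : Matrix (Fin n) (Fin n) K) (p : Fin n → K) (e : ℕ → Fin n → K) :
    ℕ → Fin n → K
  | 0 => p
  | k + 1 => St A (R A p e k) + e k

theorem R_add {n : ℕ} (A : Matrix (Fin n) (Fin n) K) (p p' : Fin n → K) (e e' : ℕ → Fin n → K)
    (k : ℕ) : R A (p + p') (e + e') k = R A p e k + R A p' e' k := by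
  induction k with
  | zero => rfl
  | succ k ih =>
    show St A (R A (p + p') (e + e') k) + (e + e') k = _
    rw [ih, map_add]
    show _ + (e k + e' k) = (St A (R A p e k) + e k) + (St A (R A p' e' k) + e' k)
    abel

theorem R_smul {n : ℕ} (A : Matrix (Fin n) (Fin n) K) (c : K) (e : ℕ → Fin n → K)
    (k : ℕ) : R A 0 (c • e) k = c • R A 0 e k := by
  induction k with
  | zero =>
    show (0 : Fin n → K) = c • (0 : Fin n → K)
    rw [smul_zero]
  | succ k ih =>
    show St A (R A 0 (c • e) k) + c • e k = c • (St A (R A 0 e k) + e k)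
    rw [ih, map_smul, smul_add]

/-- the left side of (*) -/
noncomputable def L {n : ℕ} (A : Matrix (Fin n) (Fin n) K) (f : K[X]) (p : Fin n → K)
    (e : ℕ → Fin n → K) : Fin n → K :=
  ∑ k ∈ Finset.range n, f.coeff (k + 1) • R A p e k

theorem L_add {n : ℕ} (A : Matrix (Fin n) (Fin n) K) (f : K[X]) (p p' : Fin n → K)
    (e e' : ℕ → Fin n → K) : L A f (p + p') (e + e') = L A f p e + L A f p' e' := by
  simp only [L, R_add, smul_add, Finset.sum_add_distrib]

theorem L_smul {n : ℕ} (A : Matrix (Fin n) (Fin n) K) (f : K[X]) (c : K)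
    (e : ℕ → Fin n → K) : L A f 0 (c • e) = c • L A f 0 e := by
  simp only [L, R_smul, Finset.smul_sum, smul_comm c]

/-- the perturbation at one place -/
def sg {n : ℕ} (k i : ℕ) : ℕ → Fin n → K := fun k' j => if k' = k ∧ (j : ℕ) = i then 1 else 0

theorem R_sg_low {n : ℕ} (A : Matrix (Fin n) (Fin n) K) (k i : ℕ) {j : ℕ} (hj : j ≤ k) :
    R A 0 (sg k i) j = 0 := by
  induction j with
  | zero => rfl
  | succ j ih =>
    show St A (R A 0 (sg k i) j) + sg k i j = 0
    rw [ih (by omega), map_zero, zero_add]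
    funext x
    exact if_neg (by omega)

theorem R_sg_dg {n : ℕ} {A : Matrix (Fin n) (Fin n) K} (hA : ∀ i j, j < i → A i j = 0) (k i j : ℕ) :
    dg (i + j) (R A 0 (sg k i) (k + 1 + j)) := by
  induction j with
  | zero =>
    show dg i (St A (R A 0 (sg k i) k) + sg k i k)
    rw [R_sg_low A k i le_rfl, map_zero, zero_add]
    intro x hx
    exact if_neg (by omega)
  | succ j ih =>
    show dg (i + j + 1) (St A (R A 0 (sg k i) (k + 1 + j)) + sg k i (k + 1 + j))
    intro x hx
    have h1 : (sg k i (k + 1 + j) : Fin n → K) x = 0 := if_neg (by omega)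
    show St A (R A 0 (sg k i) (k + 1 + j)) x + sg k i (k + 1 + j) x = 0
    rw [h1, add_zero]
    exact St_dg hA ih x hx

theorem R_sg_top {n : ℕ} {A : Matrix (Fin n) (Fin n) K} (hA : ∀ i j, j < i → A i j = 0)
    (hA0 : ∀ i, A i i ≠ 0) (k i j : ℕ) (h : i + j < n) :
    R A 0 (sg k i) (k + 1 + j) ⟨i + j, h⟩ ≠ 0 := by
  induction j with
  | zero =>
    show (St A (R A 0 (sg k i) k) + sg k i k : Fin n → K) ⟨i, h⟩ ≠ 0
    rw [R_sg_low A k i le_rfl, map_zero, zero_add]
    have : (sg k i k : Fin n → K) ⟨i, h⟩ = 1 := if_pos ⟨rfl, rfl⟩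
    rw [this]
    exact one_ne_zero
  | succ j ih =>
    have h1 : (sg k i (k + 1 + j) : Fin n → K) ⟨i + j + 1, h⟩ = 0 := if_neg (by omega)
    show St A (R A 0 (sg k i) (k + 1 + j)) ⟨i + j + 1, h⟩ + sg k i (k + 1 + j) ⟨i + j + 1, h⟩ ≠ 0
    rw [h1, add_zero]
    have h2 := St_top hA h (R_sg_dg hA k i j)
    intro h3
    exact mul_ne_zero (hA0 _) (ih (by omega)) (h2.symm.trans h3)

/-- the linear part of (*) is onto -/
theorem L_surj {s m N : ℕ} (hs : 0 < s) (hm : 0 < m) (hN : s + m = N) {A : Matrix (Fin N) (Fin N) K}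
    (hA : ∀ i j, j < i → A i j = 0) (hA0 : ∀ i, A i i ≠ 0) {f : K[X]} (hf : f.Monic)
    (hn : f.natDegree = N) : ∀ d : ℕ, d < N → ∀ v : Fin N → K,
    (∀ i : Fin N, d ≤ (i : ℕ) → v i = 0) → ∃ e : ℕ → Fin N → K,
      (∀ (k : ℕ) (i : Fin N), s ≤ (i : ℕ) → e k i = 0) ∧ (∀ k, k + 1 < s → e k = 0) ∧
      L A f 0 e = v := by
  intro d
  induction d with
  | zero =>
    intro _ v hv
    refine ⟨0, fun _ _ _ => rfl, fun _ _ => rfl, ?_⟩
    have h1 : L A f 0 (0 : ℕ → Fin N → K) = 0 := by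
      have := L_smul A f (0 : K) (0 : ℕ → Fin N → K)
      rwa [zero_smul, zero_smul] at this
    rw [h1]
    funext i
    exact (hv i (Nat.zero_le _)).symm
  | succ d ih =>
    intro hd v hv
    -- the place
    obtain ⟨k, i, hi, hk1, hk2, hik⟩ : ∃ k i : ℕ, i < s ∧ s ≤ k + 1 ∧ k + 2 ≤ N ∧
        i + (N - 2 - k) = d := by
      by_cases h : d < m
      · exact ⟨N - 2 - d, 0, hs, by omega, by omega, by omega⟩
      · exact ⟨s - 1, d - (m - 1), by omega, by omega, by omega, by omega⟩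
    have hdN : d < N := by omega
    have hval : L A f 0 (sg k i) ⟨d, hdN⟩ = R A 0 (sg k i) (k + 1 + (N - 2 - k)) ⟨d, hdN⟩ := by
      have h1 : L A f 0 (sg k i) ⟨d, hdN⟩ =
          ∑ k' ∈ Finset.range N, f.coeff (k' + 1) * R A 0 (sg k i) k' ⟨d, hdN⟩ := by
        simp [L, Finset.sum_apply]
      rw [h1, Finset.sum_eq_single (N - 1)]
      · have h2 : f.coeff (N - 1 + 1) = 1 := by
          rw [show N - 1 + 1 = f.natDegree by omega]
          exact hf.coeff_natDegree
        rw [h2, one_mul, show N - 1 = k + 1 + (N - 2 - k) by omega]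
      · intro k' hk' hne
        rw [Finset.mem_range] at hk'
        by_cases h3 : k' ≤ k
        · rw [R_sg_low A k i h3]
          simp
        · obtain ⟨j, rfl⟩ : ∃ j, k' = k + 1 + j := ⟨k' - k - 1, by omega⟩
          rw [R_sg_dg hA k i j ⟨d, hdN⟩ (by simp only; omega), mul_zero]
      · intro h3
        exact absurd (Finset.mem_range.2 (by omega)) h3
    have hne : L A f 0 (sg k i) ⟨d, hdN⟩ ≠ 0 := by
      rw [hval]
      have h4 := R_sg_top hA hA0 k i (N - 2 - k) (by omega)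
      convert h4 using 3
      exact hik.symm
    have hhigh : ∀ x : Fin N, d < (x : ℕ) → L A f 0 (sg k i) x = 0 := by
      intro x hx
      have h1 : L A f 0 (sg k i) x =
          ∑ k' ∈ Finset.range N, f.coeff (k' + 1) * R A 0 (sg k i) k' x := by
        simp [L, Finset.sum_apply]
      rw [h1]
      refine Finset.sum_eq_zero fun k' hk' => ?_
      rw [Finset.mem_range] at hk'
      by_cases h3 : k' ≤ k
      · rw [R_sg_low A k i h3]
        simp
      · obtain ⟨j, rfl⟩ : ∃ j, k' = k + 1 + j := ⟨k' - k - 1, by omega⟩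
        rw [R_sg_dg hA k i j x (by omega), mul_zero]
    set c : K := v ⟨d, hdN⟩ / L A f 0 (sg k i) ⟨d, hdN⟩ with hc
    obtain ⟨e, he1, he2, he3⟩ := ih (by omega) (v - c • L A f 0 (sg k i)) (fun x hx => by
      rcases Nat.lt_or_ge d x with h | h
      · show v x - c * L A f 0 (sg k i) x = 0
        rw [hhigh x h, hv x h, mul_zero, sub_zero]
      · have hx' : x = ⟨d, hdN⟩ := Fin.ext (by simp only; omega)
        show v x - c * L A f 0 (sg k i) x = 0
        rw [hx', hc, div_mul_cancel₀ _ hne, sub_self])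
    refine ⟨e + c • sg k i, fun k' x hx => ?_, fun k' hk' => ?_, ?_⟩
    · show e k' x + c * sg k i k' x = 0
      have : (sg k i k' : Fin N → K) x = 0 := if_neg (by omega)
      rw [he1 k' x hx, this, mul_zero, add_zero]
    · funext x
      show e k' x + c * sg k i k' x = 0
      have : (sg k i k' : Fin N → K) x = 0 := if_neg (by omega)
      rw [he2 k' hk', this, mul_zero, add_zero]
      rfl
    · have h5 := L_add A f 0 0 e (c • sg k i)
      rw [add_zero] at h5
      rw [h5, he3, L_smul, sub_add_cancel]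

/-- the last index -/
theorem comp_mulVec {N : ℕ} (hN : 0 < N) (f : K[X]) (v : Fin N → K) :
    (comp f N).mulVec v = sh N v - v ⟨N - 1, by omega⟩ • fun i : Fin N => f.coeff i := by
  funext i
  show ∑ j : Fin N, (if (j : ℕ) + 1 = N then - f.coeff i else if (i : ℕ) = j + 1 then 1 else 0) * v j =
    sh N v i - v ⟨N - 1, by omega⟩ * f.coeff i
  have h1 : ∀ j : Fin N, (if (j : ℕ) + 1 = N then - f.coeff i else
      if (i : ℕ) = j + 1 then 1 else 0) * v j =
      (if j = ⟨N - 1, by omega⟩ then - f.coeff i * v j else 0) +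
      (if (i : ℕ) = j + 1 then v j else 0) := by
    intro j
    by_cases h2 : (j : ℕ) + 1 = N
    · rw [if_pos h2, if_pos (Fin.ext (by simp only; omega)), if_neg (by omega), add_zero]
    · have h5 : ¬ j = ⟨N - 1, by omega⟩ := fun h => h2 (by
        have h6 := congrArg Fin.val h
        simp only at h6
        omega)
      rw [if_neg h2, if_neg h5, zero_add]
      split_ifs <;> simp
  rw [Finset.sum_congr rfl fun j _ => h1 j, Finset.sum_add_distrib, Finset.sum_ite_eq',
    if_pos (Finset.mem_univ _)]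
  have h3 : (∑ j : Fin N, if (i : ℕ) = j + 1 then v j else 0) = sh N v i := by
    by_cases h4 : 0 < (i : ℕ)
    · rw [Finset.sum_eq_single (⟨i - 1, by omega⟩ : Fin N)]
      · rw [if_pos (by simp only; omega)]
        show _ = if h : 0 < (i : ℕ) then v ⟨i - 1, by omega⟩ else 0
        rw [dif_pos h4]
      · intro j _ hj
        exact if_neg (fun h => hj (Fin.ext (by simp only; omega)))
      · exact fun h => absurd (Finset.mem_univ _) h
    · rw [Finset.sum_eq_zero fun j _ => if_neg (by omega)]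
      show 0 = if h : 0 < (i : ℕ) then v ⟨i - 1, by omega⟩ else 0
      rw [dif_neg h4]
  rw [h3]
  ring

theorem comp_unit {N : ℕ} (hN : 0 < N) {f : K[X]} (h0 : f.coeff 0 ≠ 0) : IsUnit (comp f N).det := by
  rw [← Matrix.isUnit_iff_isUnit_det, ← Matrix.mulVec_injective_iff_isUnit]
  rw [← Matrix.coe_mulVecLin, ← LinearMap.ker_eq_bot, LinearMap.ker_eq_bot']
  intro v hv
  have h1 : (comp f N).mulVec v = 0 := hv
  rw [comp_mulVec hN] at h1
  have h2 := congrFun h1 ⟨0, hN⟩
  have h3 : v ⟨N - 1, by omega⟩ = 0 := by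
    have h4 : sh N v ⟨0, hN⟩ - v ⟨N - 1, by omega⟩ * f.coeff 0 = 0 := h2
    rw [sh_zero, zero_sub, neg_eq_zero] at h4
    exact (mul_eq_zero.1 h4).resolve_right h0
  rw [h3, zero_smul, sub_zero] at h1
  funext i
  by_cases h5 : (i : ℕ) + 1 < N
  · have h6 := congrFun h1 ⟨i + 1, h5⟩
    rw [sh_succ v h5] at h6
    exact h6
  · have h6 : i = ⟨N - 1, by omega⟩ := Fin.ext (by simp only; omega)
    rw [h6]
    exact h3

theorem upper_unit {N : ℕ} {T : Matrix (Fin N) (Fin N) K} (h1 : ∀ i j, j < i → T i j = 0)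
    (h2 : ∀ i, T i i ≠ 0) : IsUnit T.det := by
  rw [Matrix.det_of_isUpperTriangular (M := T) (fun i j h => h1 i j h), isUnit_iff_ne_zero]
  exact Finset.prod_ne_zero_iff.2 fun i _ => h2 i

/-- the diagonal entries -/
noncomputable def dd {N : ℕ} (A : Matrix (Fin N) (Fin N) K) (i : ℕ) : K :=
  if h : i < N then A ⟨i, h⟩ ⟨i, h⟩ else 1

/-- leading coefficients -/
noncomputable def ell {N : ℕ} (A : Matrix (Fin N) (Fin N) K) (k : ℕ) : K :=
  ∏ i ∈ Finset.range k, dd A (i + 1)

theorem ell_ne {N : ℕ} {A : Matrix (Fin N) (Fin N) K} (hA0 : ∀ i, A i i ≠ 0) (k : ℕ) :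
    ell A k ≠ 0 := by
  refine Finset.prod_ne_zero_iff.2 fun i _ => ?_
  unfold dd
  split_ifs
  · exact hA0 _
  · exact one_ne_zero

theorem ell_prod {N : ℕ} (hN : 0 < N) (A : Matrix (Fin N) (Fin N) K) :
    ell A (N - 1) * A ⟨0, hN⟩ ⟨0, hN⟩ = ∏ i, A i i := by
  obtain ⟨N', rfl⟩ : ∃ N', N = N' + 1 := ⟨N - 1, by omega⟩
  have h3 : ∏ i, A i i = ∏ i ∈ Finset.range (N' + 1), dd A i := by
    rw [Finset.prod_range]
    refine Finset.prod_congr rfl fun i _ => ?_
    unfold dd
    rw [dif_pos i.2]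
  rw [h3, Finset.prod_range_succ', Nat.add_sub_cancel]
  congr 1

/-- the basis vector `1` -/
def e0 (N : ℕ) : Fin N → K := fun i => if (i : ℕ) = 0 then 1 else 0

theorem P_dg {s N : ℕ} {A : Matrix (Fin N) (Fin N) K} (hA : ∀ i j, j < i → A i j = 0)
    {e : ℕ → Fin N → K} (he1 : ∀ (k : ℕ) (i : Fin N), s ≤ (i : ℕ) → e k i = 0)
    (he2 : ∀ k, k + 1 < s → e k = 0) (k : ℕ) (hk : k < N) :
    dg k (R A (e0 N) e k) ∧ R A (e0 N) e k ⟨k, hk⟩ = ell A k := by
  induction k with
  | zero =>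
    refine ⟨fun i hi => if_neg (by omega), ?_⟩
    show (if 0 = 0 then (1 : K) else 0) = ∏ i ∈ Finset.range 0, _
    simp
  | succ k ih =>
    obtain ⟨h1, h2⟩ := ih (by omega)
    have h3 : ∀ x : Fin N, k + 1 ≤ (x : ℕ) → e k x = 0 := by
      intro x hx
      by_cases h4 : k + 1 < s
      · rw [he2 k h4]
        rfl
      · exact he1 k x (by omega)
    refine ⟨fun x hx => ?_, ?_⟩
    · show St A (R A (e0 N) e k) x + e k x = 0
      rw [h3 x (by omega), add_zero]
      exact St_dg hA h1 x hx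
    · show St A (R A (e0 N) e k) ⟨k + 1, hk⟩ + e k ⟨k + 1, hk⟩ = _
      rw [h3 ⟨k + 1, hk⟩ le_rfl, add_zero, St_top hA hk h1, h2]
      show _ = ∏ i ∈ Finset.range (k + 1), dd A (i + 1)
      rw [Finset.prod_range_succ, mul_comm]
      congr 1
      unfold dd
      rw [dif_pos hk]

/-- solution of (*) -/
theorem sol {s m N : ℕ} (hs : 0 < s) (hm : 0 < m) (hN : s + m = N) {A : Matrix (Fin N) (Fin N) K}
    (hA : ∀ i j, j < i → A i j = 0) (hA0 : ∀ i, A i i ≠ 0) {f : K[X]} (hf : f.Monic)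
    (hn : f.natDegree = N) : ∃ e : ℕ → Fin N → K,
      (∀ (k : ℕ) (i : Fin N), s ≤ (i : ℕ) → e k i = 0) ∧ (∀ k, k + 1 < s → e k = 0) ∧
      L A f (e0 N) e = ell A (N - 1) • fun i : Fin N => f.coeff (i + 1) := by
  have h1 : L A f (e0 N) 0 ⟨N - 1, by omega⟩ = ell A (N - 1) := by
    have h2 : L A f (e0 N) 0 ⟨N - 1, by omega⟩ =
        ∑ k ∈ Finset.range N, f.coeff (k + 1) * R A (e0 N) 0 k ⟨N - 1, by omega⟩ := by
      simp [L, Finset.sum_apply]
    have hP := fun k hk => P_dg (s := s) hA (e := 0) (fun _ _ _ => rfl) (fun _ _ => rfl) k hk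
    rw [h2, Finset.sum_eq_single (N - 1)]
    · rw [(hP (N - 1) (by omega)).2, show N - 1 + 1 = f.natDegree by omega]
      rw [show f.coeff f.natDegree = 1 from hf.coeff_natDegree, one_mul]
    · intro k hk hne
      rw [Finset.mem_range] at hk
      rw [(hP k hk).1 _ (by simp only; omega), mul_zero]
    · exact fun h => absurd (Finset.mem_range.2 (by omega)) h
  obtain ⟨e, he1, he2, he3⟩ := L_surj hs hm hN hA hA0 hf hn (N - 1) (by omega)
    (ell A (N - 1) • (fun i : Fin N => f.coeff (i + 1)) - L A f (e0 N) 0) (fun i hi => by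
      have h3 : i = ⟨N - 1, by omega⟩ := Fin.ext (by simp only; omega)
      show ell A (N - 1) * f.coeff (i + 1) - L A f (e0 N) 0 i = 0
      rw [h3, h1]
      show ell A (N - 1) * f.coeff (N - 1 + 1) - ell A (N - 1) = 0
      rw [show N - 1 + 1 = f.natDegree by omega,
        show f.coeff f.natDegree = 1 from hf.coeff_natDegree, mul_one, sub_self])
  refine ⟨e, he1, he2, ?_⟩
  have h4 := L_add A f (e0 N) 0 0 e
  rw [add_zero, zero_add] at h4
  rw [h4, he3]
  abel

/-- the key identity: `M * B * T = T * B` -/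
theorem key {N : ℕ} (hN : 2 ≤ N) {A M : Matrix (Fin N) (Fin N) K} {f : K[X]}
    {e : ℕ → Fin N → K} (hP : ∀ k (hk : k < N), dg k (R A (e0 N) e k) ∧
      R A (e0 N) e k ⟨k, hk⟩ = ell A k) (hf : f.Monic) (hn : f.natDegree = N)
    (hL : L A f (e0 N) e = ell A (N - 1) • fun i : Fin N => f.coeff (i + 1)) {d0 : K}
    (hd0 : ell A (N - 1) * d0 = 1) (hM0 : M.mulVec (e0 N) = d0 • e0 N)
    (hM : ∀ k, k + 1 < N → M.mulVec (sh N (R A (e0 N) e k)) = R A (e0 N) e (k + 1)) :
    M * comp f N * (Matrix.of fun i k : Fin N => R A (e0 N) e k i) =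
      (Matrix.of fun i k : Fin N => R A (e0 N) e k i) * comp f N := by
  set P := R A (e0 N) e with hPdef
  set T : Matrix (Fin N) (Fin N) K := Matrix.of fun i k : Fin N => P k i with hT
  have hN0 : 0 < N := by omega
  have hcolT : ∀ v : Fin N → K, T.mulVec v = ∑ k : Fin N, v k • P k := by
    intro v
    funext i
    simp [hT, Matrix.mulVec, dotProduct, Finset.sum_apply, mul_comm]
  -- columns
  have hext : ∀ X Y : Matrix (Fin N) (Fin N) K,
      (∀ k : Fin N, X.mulVec (Pi.single k 1) = Y.mulVec (Pi.single k 1)) → X = Y := by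
    intro X Y h
    ext i k
    have := congrFun (h k) i
    simpa using this
  refine hext _ _ fun k => ?_
  have hTk : T.mulVec (Pi.single k 1) = P k := by
    rw [hcolT, Finset.sum_eq_single k]
    · simp
    · intro j _ hj
      simp [hj]
    · exact fun h => absurd (Finset.mem_univ _) h
  rw [← Matrix.mulVec_mulVec, ← Matrix.mulVec_mulVec, ← Matrix.mulVec_mulVec, hTk]
  rw [comp_mulVec hN0, comp_mulVec hN0]
  by_cases hk : (k : ℕ) + 1 < N
  · have h1 : P k ⟨N - 1, by omega⟩ = 0 := (hP k k.2).1 _ (by simp only; omega)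
    have h2 : (Pi.single k (1 : K) : Fin N → K) ⟨N - 1, by omega⟩ = 0 := by
      rw [Pi.single_apply, if_neg (fun h => by have := congrArg Fin.val h; simp only at this; omega)]
    rw [h1, h2, zero_smul, sub_zero, sub_zero, hM k hk]
    have h3 : sh N (Pi.single k (1 : K)) = Pi.single ⟨k + 1, hk⟩ 1 := by
      funext i
      by_cases h4 : 0 < (i : ℕ)
      · show (if h : 0 < (i : ℕ) then (Pi.single k (1 : K) : Fin N → K) ⟨i - 1, by omega⟩ else 0) = _
        rw [dif_pos h4, Pi.single_apply, Pi.single_apply]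
        by_cases h5 : (i : ℕ) = k + 1
        · rw [if_pos (Fin.ext (by simp only; omega)), if_pos (Fin.ext (by simp only; omega))]
        · rw [if_neg (fun h => h5 (by have := congrArg Fin.val h; simp only at this; omega)),
            if_neg (fun h => h5 (by have := congrArg Fin.val h; simp only at this; omega))]
      · show (if h : 0 < (i : ℕ) then (Pi.single k (1 : K) : Fin N → K) ⟨i - 1, by omega⟩ else 0) = _
        rw [dif_neg h4, Pi.single_apply,
          if_neg (fun h => by have := congrArg Fin.val h; simp only at this; omega)]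
    rw [h3, hcolT, Finset.sum_eq_single (⟨k + 1, hk⟩ : Fin N)]
    · simp
    · intro j _ hj
      simp [hj]
    · exact fun h => absurd (Finset.mem_univ _) h
  · have hk' : (k : ℕ) = N - 1 := by omega
    have h1 : P k ⟨N - 1, by omega⟩ = ell A (N - 1) := by
      rw [hk']
      exact (hP (N - 1) (by omega)).2
    have h2 : (Pi.single k (1 : K) : Fin N → K) ⟨N - 1, by omega⟩ = 1 := by
      rw [Pi.single_apply, if_pos (Fin.ext (by simp only; omega))]
    have h3 : sh N (Pi.single k (1 : K)) = 0 := by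
      funext i
      by_cases h4 : 0 < (i : ℕ)
      · show (if h : 0 < (i : ℕ) then (Pi.single k (1 : K) : Fin N → K) ⟨i - 1, by omega⟩ else 0) = 0
        rw [dif_pos h4, Pi.single_apply, if_neg (fun h => by
          have := congrArg Fin.val h; simp only at this; omega)]
      · show (if h : 0 < (i : ℕ) then (Pi.single k (1 : K) : Fin N → K) ⟨i - 1, by omega⟩ else 0) = 0
        rw [dif_neg h4]
    rw [h1, h2, h3, one_smul, zero_sub]
    -- (*) shifted
    have h5 : ∑ j ∈ Finset.range N, f.coeff (j + 1) • sh N (P j) =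
        ell A (N - 1) • (fun i : Fin N => f.coeff i) - (ell A (N - 1) * f.coeff 0) • e0 N := by
      have h6 : sh N (L A f (e0 N) e) = ∑ j ∈ Finset.range N, f.coeff (j + 1) • sh N (P j) := by
        simp only [L, map_sum, map_smul, hPdef]
      rw [← h6, hL, map_smul]
      funext i
      by_cases h4 : 0 < (i : ℕ)
      · show ell A (N - 1) * (if h : 0 < (i : ℕ) then f.coeff ((i : ℕ) - 1 + 1) else 0) =
          ell A (N - 1) * f.coeff i - (ell A (N - 1) * f.coeff 0) * (if (i : ℕ) = 0 then 1 else 0)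
        rw [dif_pos h4, if_neg (by omega), mul_zero, sub_zero, show (i : ℕ) - 1 + 1 = i by omega]
      · show ell A (N - 1) * (if h : 0 < (i : ℕ) then f.coeff ((i : ℕ) - 1 + 1) else 0) =
          ell A (N - 1) * f.coeff i - (ell A (N - 1) * f.coeff 0) * (if (i : ℕ) = 0 then 1 else 0)
        rw [dif_neg h4, if_pos (by omega), show (i : ℕ) = 0 by omega]
        ring
    obtain ⟨N', rfl⟩ : ∃ N', N = N' + 1 := ⟨N - 1, by omega⟩
    rw [Finset.sum_range_succ, show f.coeff (N' + 1) = 1 by rw [← hn]; exact hf.coeff_natDegree,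
      one_smul] at h5
    have hk2 : (k : ℕ) = N' := by omega
    have h7 : sh (N' + 1) (P k) - ell A (N' + 1 - 1) • (fun i : Fin (N' + 1) => f.coeff i) =
        -((ell A (N' + 1 - 1) * f.coeff 0) • e0 (N' + 1)) -
          ∑ j ∈ Finset.range N', f.coeff (j + 1) • sh (N' + 1) (P j) := by
      rw [hk2]
      have h8 := eq_sub_of_add_eq' h5
      rw [h8]
      abel
    rw [h7, Matrix.mulVec_sub, Matrix.mulVec_neg, Matrix.mulVec_smul, hM0, Matrix.mulVec_sum]
    have h9 : ∀ j ∈ Finset.range N', M.mulVec (f.coeff (j + 1) • sh (N' + 1) (P j)) =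
        f.coeff (j + 1) • P (j + 1) := by
      intro j hj
      rw [Finset.mem_range] at hj
      rw [Matrix.mulVec_smul, hM j (by omega)]
    rw [Finset.sum_congr rfl h9, Matrix.mulVec_neg, hcolT]
    have h10 : (∑ k : Fin (N' + 1), f.coeff k • P k) =
        f.coeff 0 • P 0 + ∑ j ∈ Finset.range N', f.coeff (j + 1) • P (j + 1) := by
      rw [Fin.sum_univ_succ, Finset.sum_range]
      rfl
    have h11 : (∑ k : Fin (N' + 1), (fun i : Fin (N' + 1) => f.coeff i) k • P k) =
        ∑ k : Fin (N' + 1), f.coeff k • P k := rfl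
    rw [h11, h10, smul_smul]
    have h12 : ell A (N' + 1 - 1) * f.coeff 0 * d0 = f.coeff 0 := by
      rw [mul_right_comm, hd0, one_mul]
    rw [h12]
    show -(f.coeff 0 • P 0) - _ = _
    abel

end SplitAux

open SplitAux in
theorem split {s m : ℕ} (hs : 0 < s) (hm : 0 < m) (a1 : Matrix (Fin s) (Fin s) K)
    (a2 : Matrix (Fin m) (Fin m) K) (h1 : ∀ i j, j < i → a1 i j = 0) (h2 : ∀ i j, j < i → a2 i j = 0)
    (hd : (∏ i, a1 i i) * ∏ i, a2 i i = 1) {f : K[X]} (hf : f.Monic) (hn : f.natDegree = s + m)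
    (h0 : f.coeff 0 ≠ 0) :
    ∃ (Y : Matrix (Fin s) (Fin m) K) (T : Matrix (Fin (s + m)) (Fin (s + m)) K), IsUnit T.det ∧
      (fromBlocks a1 Y 0 a2).reindex finSumFinEquiv finSumFinEquiv =
        T * comp f (s + m) * T⁻¹ * (comp f (s + m))⁻¹ := by
  set A : Matrix (Fin (s + m)) (Fin (s + m)) K :=
    Matrix.reindex finSumFinEquiv finSumFinEquiv (fromBlocks a1 0 0 a2) with hAdef
  have hl : ∀ i (hi : i < s), (finSumFinEquiv.symm (⟨i, by omega⟩ : Fin (s + m)) : Fin s ⊕ Fin m) =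
      Sum.inl ⟨i, hi⟩ := fun i hi => by
    rw [Equiv.symm_apply_eq]
    rfl
  have hr : ∀ i (hi : i < m), (finSumFinEquiv.symm (⟨s + i, by omega⟩ : Fin (s + m)) : Fin s ⊕ Fin m) =
      Sum.inr ⟨i, hi⟩ := fun i hi => by
    rw [Equiv.symm_apply_eq]
    rfl
  have hcase : ∀ i : Fin (s + m), (∃ j : Fin s, i = ⟨j, by omega⟩) ∨
      ∃ j : Fin m, i = ⟨s + j, by omega⟩ := by
    intro i
    by_cases h : (i : ℕ) < s
    · exact Or.inl ⟨⟨i, h⟩, rfl⟩
    · exact Or.inr ⟨⟨i - s, by omega⟩, Fin.ext (by simp only; omega)⟩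
  have hA11 : ∀ i j : Fin s, A ⟨i, by omega⟩ ⟨j, by omega⟩ = a1 i j := by
    intro i j
    show fromBlocks a1 0 0 a2 (finSumFinEquiv.symm _) (finSumFinEquiv.symm _) = _
    rw [hl i i.2, hl j j.2]
    rfl
  have hA21 : ∀ (i : Fin m) (j : Fin s), A ⟨s + i, by omega⟩ ⟨j, by omega⟩ = 0 := by
    intro i j
    show fromBlocks a1 0 0 a2 (finSumFinEquiv.symm _) (finSumFinEquiv.symm _) = _
    rw [hr i i.2, hl j j.2]
    rfl
  have hA22 : ∀ i j : Fin m, A ⟨s + i, by omega⟩ ⟨s + j, by omega⟩ = a2 i j := by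
    intro i j
    show fromBlocks a1 0 0 a2 (finSumFinEquiv.symm _) (finSumFinEquiv.symm _) = _
    rw [hr i i.2, hr j j.2]
    rfl
  have hA : ∀ i j, j < i → A i j = 0 := by
    intro i j hij
    rcases hcase i with ⟨i, rfl⟩ | ⟨i, rfl⟩
    · rcases hcase j with ⟨j, rfl⟩ | ⟨j, rfl⟩
      · rw [hA11]
        exact h1 i j hij
      · exfalso
        have : s + (j : ℕ) < i := hij
        omega
    · rcases hcase j with ⟨j, rfl⟩ | ⟨j, rfl⟩
      · exact hA21 i j
      · rw [hA22]
        refine h2 i j ?_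
        have : s + (j : ℕ) < s + i := hij
        exact Fin.lt_def.2 (by omega)
  have hprod : ∏ i, A i i = 1 := by
    rw [Fin.prod_univ_add, ← hd]
    congr 1
    · exact Finset.prod_congr rfl fun i _ => hA11 i i
    · exact Finset.prod_congr rfl fun i _ => hA22 i i
  have hA0 : ∀ i, A i i ≠ 0 := by
    have : ∏ i, A i i ≠ 0 := by rw [hprod]; exact one_ne_zero
    intro i
    exact Finset.prod_ne_zero_iff.1 this i (Finset.mem_univ i)
  obtain ⟨e, he1, he2, he3⟩ := sol hs hm rfl hA hA0 hf hn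
  have hP := fun k hk => P_dg (s := s) hA he1 he2 k hk
  set P := R A (e0 (s + m)) e with hPdef
  -- the block Y
  set Rm : Matrix (Fin m) (Fin m) K := Matrix.of fun j k => P (s - 1 + k) ⟨s - 1 + j, by omega⟩
    with hRm
  have hRu : IsUnit Rm.det := by
    refine upper_unit (fun i j hij => ?_) fun i => ?_
    · exact (hP (s - 1 + j) (by omega)).1 _ (by have := Fin.lt_def.1 hij; simp only; omega)
    · show P (s - 1 + i) ⟨s - 1 + i, _⟩ ≠ 0
      rw [(hP (s - 1 + i) (by omega)).2]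
      exact ell_ne hA0 _
  set E : Matrix (Fin s) (Fin m) K := Matrix.of fun i k => e (s - 1 + k) ⟨i, by omega⟩ with hE
  set Y : Matrix (Fin s) (Fin m) K := E * Rm⁻¹ with hY
  have hYR : Y * Rm = E := by
    rw [hY, Matrix.mul_assoc, Matrix.nonsing_inv_mul _ hRu, Matrix.mul_one]
  set M : Matrix (Fin (s + m)) (Fin (s + m)) K :=
    Matrix.reindex finSumFinEquiv finSumFinEquiv (fromBlocks a1 Y 0 a2) with hM
  have hMA : ∀ v : Fin (s + m) → K, ∀ i : Fin (s + m), M.mulVec v i = A.mulVec v i +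
      if h : (i : ℕ) < s then ∑ j : Fin m, Y ⟨i, h⟩ j * v ⟨s + j, by omega⟩ else 0 := by
    intro v i
    show ∑ j, M i j * v j = ∑ j, A i j * v j + _
    rw [Fin.sum_univ_add, Fin.sum_univ_add]
    rcases hcase i with ⟨i, rfl⟩ | ⟨i, rfl⟩
    · rw [dif_pos i.2]
      have e1 : ∀ j : Fin s, M ⟨i, by omega⟩ (Fin.castAdd m j) = A ⟨i, by omega⟩ (Fin.castAdd m j) := by
        intro j
        show fromBlocks a1 Y 0 a2 (finSumFinEquiv.symm _) (finSumFinEquiv.symm ⟨j, by omega⟩) =
          fromBlocks a1 0 0 a2 (finSumFinEquiv.symm _) (finSumFinEquiv.symm ⟨j, by omega⟩)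
        rw [hl i i.2, hl j j.2]
        rfl
      have e2 : ∀ j : Fin m, M ⟨i, by omega⟩ (Fin.natAdd s j) = Y i j := by
        intro j
        show fromBlocks a1 Y 0 a2 (finSumFinEquiv.symm _) (finSumFinEquiv.symm ⟨s + j, by omega⟩) = _
        rw [hl i i.2, hr j j.2]
        rfl
      have e3 : ∀ j : Fin m, A ⟨i, by omega⟩ (Fin.natAdd s j) = 0 := by
        intro j
        show fromBlocks a1 0 0 a2 (finSumFinEquiv.symm _) (finSumFinEquiv.symm ⟨s + j, by omega⟩) = _
        rw [hl i i.2, hr j j.2]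
        rfl
      rw [add_assoc]
      congr 1
      · exact Finset.sum_congr rfl fun j _ => by rw [e1]
      · rw [Finset.sum_eq_zero (f := fun j : Fin m => A ⟨i, by omega⟩ (Fin.natAdd s j) *
          v (Fin.natAdd s j)) (fun j _ => by rw [e3, zero_mul]), zero_add]
        exact Finset.sum_congr rfl fun j _ => by rw [e2]; rfl
    · rw [dif_neg (by simp only; omega), add_zero]
      have e1 : ∀ j : Fin s, M ⟨s + i, by omega⟩ (Fin.castAdd m j) =
          A ⟨s + i, by omega⟩ (Fin.castAdd m j) := by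
        intro j
        show fromBlocks a1 Y 0 a2 (finSumFinEquiv.symm _) (finSumFinEquiv.symm ⟨j, by omega⟩) =
          fromBlocks a1 0 0 a2 (finSumFinEquiv.symm _) (finSumFinEquiv.symm ⟨j, by omega⟩)
        rw [hr i i.2, hl j j.2]
        rfl
      have e2 : ∀ j : Fin m, M ⟨s + i, by omega⟩ (Fin.natAdd s j) =
          A ⟨s + i, by omega⟩ (Fin.natAdd s j) := by
        intro j
        show fromBlocks a1 Y 0 a2 (finSumFinEquiv.symm _) (finSumFinEquiv.symm ⟨s + j, by omega⟩) =
          fromBlocks a1 0 0 a2 (finSumFinEquiv.symm _) (finSumFinEquiv.symm ⟨s + j, by omega⟩)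
        rw [hr i i.2, hr j j.2]
        rfl
      congr 1
      · exact Finset.sum_congr rfl fun j _ => by rw [e1]
      · exact Finset.sum_congr rfl fun j _ => by rw [e2]
  have hM0 : M.mulVec (e0 (s + m)) = A ⟨0, by omega⟩ ⟨0, by omega⟩ • e0 (s + m) := by
    funext i
    rw [hMA]
    have z1 : (if h : (i : ℕ) < s then ∑ j : Fin m, Y ⟨i, h⟩ j * e0 (s + m) ⟨s + j, by omega⟩
        else 0) = 0 := by
      split_ifs with h
      · refine Finset.sum_eq_zero fun j _ => ?_
        rw [show e0 (K := K) (s + m) ⟨s + j, by omega⟩ = 0 from if_neg (by simp only; omega), mul_zero]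
      · rfl
    rw [z1, add_zero]
    have hdg : dg 0 (e0 (K := K) (s + m)) := fun x hx => if_neg (by omega)
    by_cases hi : (i : ℕ) = 0
    · have hi' : i = ⟨0, by omega⟩ := Fin.ext hi
      rw [hi', mulVec_top hA (by omega) hdg]
      rfl
    · rw [mulVec_dg hA hdg i (by omega)]
      show 0 = _ * (if (i : ℕ) = 0 then (1 : K) else 0)
      rw [if_neg hi, mul_zero]
  have hMk : ∀ k, k + 1 < s + m → M.mulVec (sh (s + m) (P k)) = P (k + 1) := by
    intro k hk
    funext i
    rw [hMA]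
    show A.mulVec (sh (s + m) (P k)) i + _ = St A (P k) i + e k i
    congr 1
    by_cases hks : k + 1 < s
    · rw [he2 k hks]
      split_ifs with h
      · refine Finset.sum_eq_zero fun j _ => ?_
        rw [sh_dg (hP k (by omega)).1 _ (by simp only; omega), mul_zero]
      · rfl
    · obtain ⟨k', rfl⟩ : ∃ k', k = s - 1 + k' := ⟨k - (s - 1), by omega⟩
      have hk' : k' < m := by omega
      split_ifs with h
      · have h3 := congrFun (congrFun hYR ⟨i, h⟩) ⟨k', hk'⟩
        rw [Matrix.mul_apply] at h3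
        refine Eq.trans (Finset.sum_congr rfl fun j _ => ?_) h3
        congr 1
        obtain ⟨s', rfl⟩ : ∃ s', s = s' + 1 := ⟨s - 1, by omega⟩
        have h4 := sh_succ (P (s' + 1 - 1 + k')) (i := s' + j) (by omega)
        have h5 : (⟨s' + 1 + j, by omega⟩ : Fin (s' + 1 + m)) = ⟨s' + j + 1, by omega⟩ :=
          Fin.ext (by simp only; omega)
        rw [h5, h4]
        rfl
      · exact (he1 _ i (by omega)).symm
  have hd0 : ell A (s + m - 1) * A ⟨0, by omega⟩ ⟨0, by omega⟩ = 1 :=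
    (ell_prod (by omega) A).trans hprod
  refine ⟨Y, Matrix.of fun i k : Fin (s + m) => P k i, ?_, ?_⟩
  · refine upper_unit (fun i j hij => ?_) fun i => ?_
    · exact (hP j j.2).1 i hij
    · show P i i ≠ 0
      have := (hP i i.2).2
      rw [show (⟨(i : ℕ), i.2⟩ : Fin (s + m)) = i from rfl] at this
      rw [this]
      exact ell_ne hA0 _
  · have hkey := key (by omega) hP hf hn he3 hd0 hM0 hMk
    have hT : IsUnit (Matrix.of fun i k : Fin (s + m) => P k i).det := by
      refine upper_unit (fun i j hij => ?_) fun i => ?_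
      · exact (hP j j.2).1 i hij
      · show P i i ≠ 0
        have := (hP i i.2).2
        rw [show (⟨(i : ℕ), i.2⟩ : Fin (s + m)) = i from rfl] at this
        rw [this]
        exact ell_ne hA0 _
    have hB := comp_unit (K := K) (N := s + m) (by omega) h0
    rw [← hkey, Matrix.mul_assoc (M * comp f (s + m)), Matrix.mul_nonsing_inv _ hT, Matrix.mul_one,
      Matrix.mul_assoc, Matrix.mul_nonsing_inv _ hB, Matrix.mul_one]

end ThU
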